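import Pool.Agent.Lib.MP_55bc5f_an.Full.SpecL2

set_option autoImplicit false

open scoped Manifold ContDiff Topology ComplexConjugate
open Set Filter Metric MeasureTheory

namespace Pool.Agent.Lib.MP_55bc5f_an

section LevCompAux

variable {n : ℕ} {X : Dom n}
variable {W : Type} [NormedAddCommGroup W] [NormedSpace ℝ W]

/-- The second derivative as a derivative of a directional derivative. -/
lemma LevComp_two {φ : X → W} {x : X} (h : SmAt X φ x) (v w : Cn n) :
    dR X (dR X φ) x v w = dR X (fun y => dR X φ y w) x v := by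
  have h1 := dR_clm h.dR (ContinuousLinearMap.apply ℝ W w)
  have h2 : (fun y => (ContinuousLinearMap.apply ℝ W w) (dR X φ y)) = fun y => dR X φ y w := rfl
  rw [h2] at h1
  rw [h1]
  rfl

lemma LevComp_dir {φ : X → W} {x : X} (h : SmAt X φ x) (w : Cn n) :
    SmAt X (fun y => dR X φ y w) x := h.dR.clm (ContinuousLinearMap.apply ℝ W w)

/-- The first item. -/
lemma LevComp_chain {s : X → ℝ} {χ : ℝ → ℝ} (hs : Sm X s) (hχ : ContDiff ℝ ∞ χ) (x : X)
    (w : Cn n) : dR X (dR X (fun y => χ (s y))) x w w =
      deriv χ (s x) * dR X (dR X s) x w w + deriv (deriv χ) (s x) * (dR X s x w) ^ 2 := by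
  have hχ' : ContDiff ℝ ∞ (deriv χ) := (contDiff_infty_iff_deriv.1 hχ).2
  have h1 : (fun y => dR X (fun y => χ (s y)) y w) = fun y => deriv χ (s y) * dR X s y w := by
    funext y
    rw [dR_comp (hs y) (hχ.differentiable (by simp)).differentiableAt]
    simp only [ContinuousLinearMap.comp_apply]
    rw [← fderiv_apply_one_eq_deriv]
    have h2 : dR X s y w = (dR X s y w) • (1 : ℝ) := by simp
    conv_lhs => rw [h2]
    rw [map_smul, smul_eq_mul, mul_comm]
  rw [LevComp_two (hs.comp hχ x), h1,
    dR_mul (u := fun y => deriv χ (s y)) (v := fun y => dR X s y w) (hs.comp hχ' x)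
      (LevComp_dir (hs x) w)]
  simp only [_root_.add_apply, _root_.smul_apply, smul_eq_mul]
  rw [← LevComp_two (hs x), dR_comp (hs x) (hχ'.differentiable (by simp)).differentiableAt]
  simp only [ContinuousLinearMap.comp_apply]
  rw [← fderiv_apply_one_eq_deriv (f := deriv χ)]
  have h2 : fderiv ℝ (deriv χ) (s x) (dR X s x w) =
      dR X s x w * fderiv ℝ (deriv χ) (s x) 1 := by
    have h3 : dR X s x w = (dR X s x w) • (1 : ℝ) := by simp
    conv_lhs => rw [h3]
    rw [map_smul, smul_eq_mul]
  rw [h2]
  ring

/-- Second derivatives of real functions, computed in the complex numbers. -/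
lemma LevComp_ofReal {u : X → ℝ} {x : X} (hu : SmAt X u x) (w : Cn n) (F : X → ℂ)
    (hF : (fun y => ((dR X u y w : ℝ) : ℂ)) =ᶠ[𝓝 x] F) :
    ((dR X (dR X u) x w w : ℝ) : ℂ) = dR X F x w := by
  rw [LevComp_two hu, ← dR_ofReal (LevComp_dir hu w), dR_congr hF]

/-- Complex linearity. -/
lemma LevComp_I {a : X → ℂ} {x : X} (ha : HolAt X.π a x) (w : Cn n) :
    dR X a x (Complex.I • w) = Complex.I * dR X a x w := by
  rw [dR_of_hol ha, dR_of_hol ha, map_smul, smul_eq_mul]

lemma LevComp_hol_dir {h : X → ℂ} {x : X} (hh : HolAt X.π h x) (w : Cn n) :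
    HolAt X.π (fun y => dR X h y w) x := by
  have h1 := (hh.rd X.hπ).comp_clm (ContinuousLinearMap.apply ℂ ℂ w)
  refine h1.congr ?_
  filter_upwards [hh.eventually X.hπ.continuous] with y hy
  rw [dR_of_hol hy]
  rfl

/-- The Levi form of a real function whose first derivative is `2 Re b_w`. -/
lemma LevComp_levi {u : X → ℝ} {x : X} (hu : SmAt X u x) (w : Cn n) (c : ℂ) (F : Cn n → X → ℂ)
    (hF : ∀ v, (fun y => ((dR X u y v : ℝ) : ℂ)) =ᶠ[𝓝 x] F v)
    (hc : dR X (F w) x w + dR X (F (Complex.I • w)) x (Complex.I • w) = 4 * c) :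
    ((Lev X u x w : ℝ) : ℂ) = c := by
  unfold Lev
  push_cast
  rw [LevComp_ofReal hu w _ (hF w), LevComp_ofReal hu (Complex.I • w) _ (hF _), hc]
  ring

lemma LevComp_normSq_dR {h : X → ℂ} {y : X} (hh : SmAt X h y) (v : Cn n) :
    ((dR X (fun y => ‖h y‖ ^ 2) y v : ℝ) : ℂ) =
      h y * conj (dR X h y v) + conj (h y) * dR X h y v := by
  have h0 : (fun y => ((‖h y‖ ^ 2 : ℝ) : ℂ)) = fun y => h y * conj (h y) := by
    funext y
    rw [Complex.mul_conj, Complex.normSq_eq_norm_sq]
  have h1 : (fun y => ‖h y‖ ^ 2) = fun y => (h y * conj (h y)).re := by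
    funext y
    rw [Complex.mul_conj, Complex.normSq_eq_norm_sq, Complex.ofReal_re]
  have h2 : SmAt X (fun y => ‖h y‖ ^ 2) y := by
    rw [h1]
    exact (hh.mul hh.conj).clm Complex.reCLM
  rw [← dR_ofReal h2, h0, dR_mul hh hh.conj]
  simp only [_root_.add_apply, _root_.smul_apply, smul_eq_mul]
  rw [dR_conj hh]

lemma LevComp_normSq_sm {h : X → ℂ} {y : X} (hh : SmAt X h y) :
    SmAt X (fun y => ‖h y‖ ^ 2) y := by
  have h1 : (fun y => ‖h y‖ ^ 2) = fun y => (h y * conj (h y)).re := by
    funext y
    rw [Complex.mul_conj, Complex.normSq_eq_norm_sq, Complex.ofReal_re]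
  rw [h1]
  exact (hh.mul hh.conj).clm Complex.reCLM

end LevCompAux

theorem s_LevComp : S_LevComp := by
  intro n X
  refine ⟨?_, ?_, ?_, ?_, ?_⟩
  · intro s χ hs hχ x w
    unfold Lev
    rw [LevComp_chain hs hχ, LevComp_chain hs hχ]
    ring
  · intro u v hu hv x w
    unfold Lev
    have h1 : dR X (fun y => u y + v y) = fun y => dR X u y + dR X v y := by
      funext y; exact dR_add (hu y) (hv y)
    rw [h1, dR_add (hu.dR x) (hv.dR x)]
    simp only [_root_.add_apply]
    ring
  · intro u c hu x w
    unfold Lev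
    have h1 : dR X (fun y => c * u y) = fun y => c • dR X u y := by
      funext y
      have := dR_clm (hu y) (c • ContinuousLinearMap.id ℝ ℝ)
      simp only [_root_.smul_apply, ContinuousLinearMap.id_apply, smul_eq_mul] at this
      rw [this]
      ext v
      simp
    have h2 : dR X (fun y => c • dR X u y) x = c • dR X (dR X u) x := by
      have := dR_clm (hu.dR x) (c • ContinuousLinearMap.id ℝ (Cn n →L[ℝ] ℝ))
      have h3 : (fun y => (c • ContinuousLinearMap.id ℝ (Cn n →L[ℝ] ℝ)) (dR X u y)) =
        fun y => c • dR X u y := rfl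
      rw [h3] at this
      rw [this]
      ext v v'
      simp
    rw [h1, h2]
    simp only [_root_.smul_apply, smul_eq_mul]
    ring
  · intro h hh x w
    have hs : ∀ y, SmAt X h y := fun y => SmAt.of_hol (hh y)
    have key := LevComp_levi (LevComp_normSq_sm (hs x)) w ((‖rd X.hπ h x w‖ ^ 2 : ℝ) : ℂ)
      (fun v y => h y * conj (dR X h y v) + conj (h y) * dR X h y v)
      (fun v => Eventually.of_forall fun y => LevComp_normSq_dR (hs y) v) ?_
    · exact_mod_cast key
    · have hd : ∀ v, SmAt X (fun y => dR X h y v) x := fun v => LevComp_dir (hs x) v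
      have hcalc : ∀ v v' : Cn n, dR X (fun y => h y * conj (dR X h y v) + conj (h y) * dR X h y v)
          x v' = (h x * conj (dR X (fun y => dR X h y v) x v') + conj (dR X h x v) * dR X h x v') +
            (conj (h x) * dR X (fun y => dR X h y v) x v' + dR X h x v * conj (dR X h x v')) := by
        intro v v'
        rw [dR_add ((hs x).mul (hd v).conj) ((hs x).conj.mul (hd v)),
          dR_mul (hs x) (hd v).conj, dR_mul (hs x).conj (hd v)]
        simp only [_root_.add_apply, _root_.smul_apply, smul_eq_mul]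
        rw [dR_conj (hd v), dR_conj (hs x)]
      rw [hcalc, hcalc]
      have e1 : (fun y => dR X h y (Complex.I • w)) = fun y => Complex.I * dR X h y w := by
        funext y
        exact LevComp_I (hh y) w
      have e2 : dR X (fun y => dR X h y (Complex.I • w)) x (Complex.I • w) =
          - dR X (fun y => dR X h y w) x w := by
        have e3 : HolAt X.π (fun y => dR X h y (Complex.I • w)) x := LevComp_hol_dir (hh x) _
        rw [LevComp_I e3, e1]
        have e4 := dR_mul (SmAt.const Complex.I x) (hd w)
        rw [e4, dR_const]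
        simp only [_root_.smul_apply, smul_eq_mul, smul_zero, add_zero]
        rw [← mul_assoc, Complex.I_mul_I]
        ring
      rw [e2, LevComp_I (hh x), ← dR_of_hol (hh x)]
      have e5 : ((‖dR X h x w‖ ^ 2 : ℝ) : ℂ) = dR X h x w * conj (dR X h x w) := by
        rw [Complex.mul_conj, Complex.normSq_eq_norm_sq]
      rw [e5]
      simp only [map_neg, map_mul, Complex.conj_I]
      have e6 : Complex.I * Complex.I = -1 := Complex.I_mul_I
      linear_combination (-2 * dR X h x w * conj (dR X h x w)) * e6
  · intro h hh x hx w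
    have hs : ∀ y, SmAt X h y := fun y => SmAt.of_hol (hh y)
    have hne : ∀ᶠ y in 𝓝 x, h y ≠ 0 := (hs x).continuousAt.eventually_ne hx
    have hsm : ∀ y, h y ≠ 0 → SmAt X (fun y => Real.log (‖h y‖ ^ 2)) y := by
      intro y hy
      refine (LevComp_normSq_sm (hs y)).comp (F := Real.log) ?_
      exact Real.contDiffAt_log.2 (by positivity)
    have hq : ∀ v, HolAt X.π (fun y => dR X h y v / h y) x := by
      intro v
      obtain ⟨g1, h11, h12⟩ := LevComp_hol_dir (hh x) v
      obtain ⟨g2, h21, h22⟩ := hh x
      have h3 : g2 (X.π x) ≠ 0 := by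
        have := h22.self_of_nhds
        simp only [Function.comp_apply] at this
        rwa [← this]
      refine ⟨fun z => g1 z / g2 z, ?_, ?_⟩
      · filter_upwards [h11, h21, h21.self_of_nhds.continuousAt.eventually_ne h3] with z a b c
        simp only [div_eq_mul_inv]
        exact a.mul (b.inv c)
      · filter_upwards [h12, h22] with y a b
        simp only [Function.comp_apply] at a b ⊢
        rw [a, b]
    have key := LevComp_levi (hsm x hx) w 0
      (fun v y => dR X h y v / h y + conj (dR X h y v / h y)) ?_ ?_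
    · exact_mod_cast key
    · intro v
      filter_upwards [hne] with y hy
      have hpos : ‖h y‖ ^ 2 ≠ 0 := by positivity
      rw [dR_comp (F := Real.log) (LevComp_normSq_sm (hs y)) (Real.differentiableAt_log hpos)]
      simp only [ContinuousLinearMap.comp_apply]
      have e1 : fderiv ℝ Real.log (‖h y‖ ^ 2) (dR X (fun y => ‖h y‖ ^ 2) y v) =
          dR X (fun y => ‖h y‖ ^ 2) y v * (‖h y‖ ^ 2)⁻¹ := by
        have h3 : dR X (fun y => ‖h y‖ ^ 2) y v = (dR X (fun y => ‖h y‖ ^ 2) y v) • (1 : ℝ) := by
          simp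
        conv_lhs => rw [h3]
        rw [map_smul, smul_eq_mul, fderiv_apply_one_eq_deriv, Real.deriv_log]
      rw [e1]
      push_cast
      have e2 := LevComp_normSq_dR (hs y) v
      rw [e2]
      have e3 : ((‖h y‖ : ℝ) : ℂ) ^ 2 = h y * conj (h y) := by
        rw [Complex.mul_conj, Complex.normSq_eq_norm_sq]; push_cast; ring
      have e4 : conj (h y) ≠ 0 := by simpa using hy
      rw [e3, map_div₀]
      field_simp
      ring
    · have hd : ∀ v, SmAt X (fun y => dR X h y v / h y) x := fun v => SmAt.of_hol (hq v)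
      have hcalc : ∀ v v' : Cn n, dR X (fun y => dR X h y v / h y + conj (dR X h y v / h y))
          x v' = dR X (fun y => dR X h y v / h y) x v' +
            conj (dR X (fun y => dR X h y v / h y) x v') := by
        intro v v'
        rw [dR_add (hd v) (hd v).conj]
        simp only [_root_.add_apply]
        rw [dR_conj (hd v)]
      rw [hcalc, hcalc]
      have e2 : dR X (fun y => dR X h y (Complex.I • w) / h y) x (Complex.I • w) =
          - dR X (fun y => dR X h y w / h y) x w := by
        rw [LevComp_I (hq _)]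
        have e1 : (fun y => dR X h y (Complex.I • w) / h y) =
            fun y => Complex.I * (dR X h y w / h y) := by
          funext y
          rw [LevComp_I (hh y) w, mul_div_assoc]
        rw [e1]
        have e4 := dR_mul (SmAt.const Complex.I x) (hd w)
        rw [e4, dR_const]
        simp only [_root_.smul_apply, smul_eq_mul, smul_zero, add_zero]
        rw [← mul_assoc, Complex.I_mul_I]
        ring
      rw [e2, map_neg]
      ring

end Pool.Agent.Lib.MP_55bc5f_an
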