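import Pool.Agent.Lib.MP_55bc5f_an.Full.SpecL2

/-!
# The mean value inequality for a weight which is invariant under the circle
-/

set_option autoImplicit false

open scoped Manifold ContDiff Topology ComplexConjugate
open Set Filter Metric MeasureTheory

namespace Pool.Agent.Lib.MP_55bc5f_an

theorem meanRad_measurePreserving (n : ℕ) (ζ : ℂ) (hζ : ‖ζ‖ = 1) :
    MeasurePreserving (fun z : Cn n => ζ • z) volume volume := by
  have h1 : MeasurePreserving (fun w : ℂ => ζ * w) volume volume := by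
    have h2 := (rotation (⟨ζ, by simpa [Submonoid.unitSphere] using hζ⟩ : Circle)).measurePreserving
    exact h2
  exact volume_preserving_pi (fun _ : Fin n => h1)

theorem meanRad_smul_mem {n : ℕ} {r : ℝ} {z : Cn n} {ζ : ℂ} (hζ : ‖ζ‖ = 1) :
    ζ • z ∈ ball (0 : Cn n) r ↔ z ∈ ball (0 : Cn n) r := by
  rw [mem_ball_zero_iff, mem_ball_zero_iff, norm_smul, hζ, one_mul]

theorem meanRad_preimage {n : ℕ} {r : ℝ} {ζ : ℂ} (hζ : ‖ζ‖ = 1) :
    (fun z : Cn n => ζ • z) ⁻¹' ball (0 : Cn n) r = ball (0 : Cn n) r := by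
  ext z
  exact meanRad_smul_mem hζ

theorem meanRad_restrict (n : ℕ) (r : ℝ) (ζ : ℂ) (hζ : ‖ζ‖ = 1) :
    MeasurePreserving (fun z : Cn n => ζ • z) (volume.restrict (ball (0 : Cn n) r))
      (volume.restrict (ball (0 : Cn n) r)) := by
  have h := (meanRad_measurePreserving n ζ hζ).restrict_preimage
    (measurableSet_ball (x := (0 : Cn n)) (ε := r))
  rwa [meanRad_preimage hζ] at h

theorem meanRad_emb (n : ℕ) (ζ : ℂ) (hζ : ‖ζ‖ = 1) :
    MeasurableEmbedding (fun z : Cn n => ζ • z) := by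
  have h0 : ζ ≠ 0 := by
    intro h
    rw [h, norm_zero] at hζ
    exact zero_ne_one hζ
  exact (Homeomorph.smulOfNeZero ζ h0).measurableEmbedding

/-- The pointwise inequality. -/
theorem meanRad_point {n : ℕ} {r : ℝ} {g : Cn n → ℂ} (hg : DifferentiableOn ℂ g (ball 0 r))
    {z : Cn n} (hz : z ∈ ball (0 : Cn n) r) :
    ‖g 0‖ ^ 2 ≤ (2 * Real.pi)⁻¹ *
      ∫ θ in (0 : ℝ)..2 * Real.pi, ‖g (Complex.exp (θ * Complex.I) • z)‖ ^ 2 := by
  have hd : ∀ w ∈ closedBall (0 : ℂ) |(1 : ℝ)|,
      DifferentiableAt ℂ (fun ζ : ℂ => g (ζ • z) ^ 2) w := by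
    intro w hw
    rw [abs_one, mem_closedBall_zero_iff] at hw
    have hm : w • z ∈ ball (0 : Cn n) r := by
      rw [mem_ball_zero_iff] at hz ⊢
      rw [norm_smul]
      calc ‖w‖ * ‖z‖ ≤ 1 * ‖z‖ := by gcongr
        _ < r := by rwa [one_mul]
    have h1 : DifferentiableAt ℂ g (w • z) := hg.differentiableAt (isOpen_ball.mem_nhds hm)
    have h2 : DifferentiableAt ℂ (fun ζ : ℂ => ζ • z) w := by fun_prop
    exact (DifferentiableAt.comp w h1 h2).pow 2
  have hc : DiffContOnCl ℂ (fun ζ : ℂ => g (ζ • z) ^ 2) (ball (0 : ℂ) |(1 : ℝ)|) := by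
    refine DifferentiableOn.diffContOnCl ?_
    intro w hw
    refine (hd w ?_).differentiableWithinAt
    exact closure_ball_subset_closedBall hw
  have h3 := hc.circleAverage
  rw [zero_smul] at h3
  rw [Real.circleAverage_def] at h3
  have h4 : ‖g 0 ^ 2‖ ≤ (2 * Real.pi)⁻¹ *
      ‖∫ θ in (0 : ℝ)..2 * Real.pi, g (circleMap 0 1 θ • z) ^ 2‖ := by
    rw [← h3, norm_smul, Real.norm_of_nonneg (by positivity)]
  rw [norm_pow] at h4
  refine h4.trans ?_
  have h5 := intervalIntegral.norm_integral_le_integral_norm (μ := volume)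
    (f := fun θ : ℝ => g (circleMap 0 1 θ • z) ^ 2) (a := 0) (b := 2 * Real.pi) (by positivity)
  have h6 : (fun θ : ℝ => ‖g (circleMap 0 1 θ • z) ^ 2‖) =
      fun θ : ℝ => ‖g (Complex.exp (θ * Complex.I) • z)‖ ^ 2 := by
    funext θ
    rw [norm_pow, circleMap]
    simp
  rw [h6] at h5
  exact mul_le_mul_of_nonneg_left h5 (by positivity)

theorem s_MeanRad : S_MeanRad := by
  intro n r hr g q hg hq hq0 hqi hint
  set B : Set (Cn n) := ball (0 : Cn n) r with hB
  set F : Cn n → ℝ := fun z => ‖g z‖ ^ 2 * q z with hF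
  set T : Set ℝ := Set.uIoc 0 (2 * Real.pi) with hT
  have hTm : MeasurableSet T := measurableSet_uIoc
  have hnorm : ∀ θ : ℝ, ‖Complex.exp (θ * Complex.I)‖ = 1 := fun θ =>
    Complex.norm_exp_ofReal_mul_I θ
  have hgc : ContinuousOn g B := hg.continuousOn
  have hFc : ContinuousOn F B := (hgc.norm.pow 2).mul hq.continuousOn
  -- the function of two variables
  have hpc : ContinuousOn (fun p : ℝ × Cn n => F (Complex.exp (p.1 * Complex.I) • p.2))
      (T ×ˢ B) := by
    refine hFc.comp (by fun_prop) ?_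
    rintro ⟨θ, z⟩ ⟨-, hz⟩
    exact (meanRad_smul_mem (hnorm θ)).mpr hz
  have hmeas : AEStronglyMeasurable (fun p : ℝ × Cn n => F (Complex.exp (p.1 * Complex.I) • p.2))
      ((volume.restrict T).prod (volume.restrict B)) := by
    rw [Measure.prod_restrict]
    exact hpc.aestronglyMeasurable (hTm.prod measurableSet_ball)
  have hrot : ∀ θ : ℝ, ∫ z in B, F (Complex.exp (θ * Complex.I) • z) = ∫ z in B, F z := by
    intro θ
    exact (meanRad_restrict n r _ (hnorm θ)).integral_comp (meanRad_emb n _ (hnorm θ)) F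
  have hF0 : ∀ z, 0 ≤ F z := fun z => mul_nonneg (by positivity) (hq0 z)
  have hInt : Integrable (fun p : ℝ × Cn n => F (Complex.exp (p.1 * Complex.I) • p.2))
      ((volume.restrict T).prod (volume.restrict B)) := by
    rw [integrable_prod_iff hmeas]
    refine ⟨Filter.Eventually.of_forall fun θ => ?_, ?_⟩
    · exact ((meanRad_restrict n r _ (hnorm θ)).integrable_comp_emb
        (meanRad_emb n _ (hnorm θ))).mpr hint
    · have e : (fun θ : ℝ => ∫ z in B, ‖F (Complex.exp (θ * Complex.I) • z)‖) =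
          fun _ => ∫ z in B, F z := by
        funext θ
        rw [← hrot θ]
        refine integral_congr_ae (Filter.Eventually.of_forall fun z => ?_)
        exact Real.norm_of_nonneg (hF0 _)
      show Integrable (fun θ : ℝ => ∫ z in B, ‖F (Complex.exp (θ * Complex.I) • z)‖) _
      rw [e]
      have : IsFiniteMeasure (volume.restrict T : Measure ℝ) := by
        refine ⟨?_⟩
        rw [Measure.restrict_apply_univ, hT, Set.uIoc_of_le (by positivity), Real.volume_Ioc]
        exact ENNReal.ofReal_lt_top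
      exact integrable_const _
  have hswap : ∫ z in B, (∫ θ in (0 : ℝ)..2 * Real.pi, F (Complex.exp (θ * Complex.I) • z)) =
      ∫ θ in (0 : ℝ)..2 * Real.pi, (∫ z in B, F (Complex.exp (θ * Complex.I) • z)) := by
    exact (MeasureTheory.intervalIntegral_integral_swap hInt).symm
  simp only [hrot] at hswap
  rw [intervalIntegral.integral_const, sub_zero, smul_eq_mul] at hswap
  have hkey : ∀ z ∈ B, ‖g 0‖ ^ 2 * q z ≤
      (2 * Real.pi)⁻¹ * ∫ θ in (0 : ℝ)..2 * Real.pi, F (Complex.exp (θ * Complex.I) • z) := by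
    intro z hz
    have h1 := mul_le_mul_of_nonneg_right (meanRad_point hg hz) (hq0 z)
    refine h1.trans (le_of_eq ?_)
    rw [mul_assoc, ← intervalIntegral.integral_mul_const]
    congr 1
    refine intervalIntegral.integral_congr fun θ _ => ?_
    show ‖g (Complex.exp (θ * Complex.I) • z)‖ ^ 2 * q z =
      ‖g (Complex.exp (θ * Complex.I) • z)‖ ^ 2 * q (Complex.exp (θ * Complex.I) • z)
    rw [hqi z _ (hnorm θ)]
  have hI1 : IntegrableOn (fun z => ∫ θ in (0 : ℝ)..2 * Real.pi,
      F (Complex.exp (θ * Complex.I) • z)) B := by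
    have h := hInt.integral_prod_right
    refine h.congr (Filter.Eventually.of_forall fun z => ?_)
    show ∫ θ in T, F (Complex.exp (θ * Complex.I) • z) =
      ∫ θ in (0 : ℝ)..2 * Real.pi, F (Complex.exp (θ * Complex.I) • z)
    rw [intervalIntegral.integral_of_le (by positivity), hT, Set.uIoc_of_le (by positivity)]
  have hI2 : IntegrableOn (fun z => ‖g 0‖ ^ 2 * q z) B := by
    have hcomp : IsCompact (closedBall (0 : Cn n) r) := isCompact_closedBall _ _
    exact ((hq.const_mul (‖g 0‖ ^ 2)).continuousOn.integrableOn_compact hcomp).mono_set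
      ball_subset_closedBall
  calc ‖g 0‖ ^ 2 * ∫ z in B, q z = ∫ z in B, ‖g 0‖ ^ 2 * q z := by
        rw [integral_const_mul]
    _ ≤ ∫ z in B, (2 * Real.pi)⁻¹ *
        ∫ θ in (0 : ℝ)..2 * Real.pi, F (Complex.exp (θ * Complex.I) • z) :=
        setIntegral_mono_on hI2 (hI1.const_mul _) measurableSet_ball hkey
    _ = ∫ z in B, F z := by
        rw [integral_const_mul, hswap]
        field_simp

end Pool.Agent.Lib.MP_55bc5f_an
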