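import Pool.Agent.Lib.MP_55bc5f_an.Full.SpecL2

/-!
# The a priori estimate for forms with compact support in the weak domain
-/

set_option autoImplicit false

open scoped Manifold ContDiff Topology ComplexConjugate
open Set Filter Metric MeasureTheory

namespace Pool.Agent.Lib.MP_55bc5f_an

namespace AprCAux

variable {n : ℕ} {X : Dom n} {μ : Measure X}

/-- Square integrable with support in `K`. -/
def L2K (μ : Measure X) (K : Set X) (g : X → ℂ) : Prop := MemLp g 2 μ ∧ ∀ x ∉ K, g x = 0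

/-- Convergence in mean square. -/
def Cv (μ : Measure X) (g : ℕ → X → ℂ) (g0 : X → ℂ) : Prop :=
  Tendsto (fun ν => ∫ x, ‖g ν x - g0 x‖ ^ 2 ∂μ) atTop (𝓝 0)

lemma integrable_sq {g : X → ℂ} (hg : MemLp g 2 μ) : Integrable (fun x => ‖g x‖ ^ 2) μ :=
  (memLp_two_iff_integrable_sq_norm hg.1).1 hg

lemma L2K.mono {K K' : Set X} {g : X → ℂ} (hg : L2K μ K g) (h : K ⊆ K') : L2K μ K' g :=
  ⟨hg.1, fun x hx => hg.2 x fun hx' => hx (h hx')⟩

lemma L2K.mul {K : Set X} (hK : IsCompact K) {a g : X → ℂ} (ha : Continuous a)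
    (hg : L2K μ K g) : L2K μ K (fun x => a x * g x) := by
  obtain ⟨A, hA⟩ := hK.exists_bound_of_continuousOn ha.continuousOn
  refine ⟨MemLp.of_le_mul (c := A) hg.1 (ha.aestronglyMeasurable.mul hg.1.1)
    (Eventually.of_forall fun x => ?_), fun x hx => by simp [hg.2 x hx]⟩
  by_cases hx : x ∈ K
  · rw [norm_mul]
    exact mul_le_mul_of_nonneg_right (hA x hx) (norm_nonneg _)
  · simp [hg.2 x hx]

lemma L2K.add {K : Set X} {g h : X → ℂ} (hg : L2K μ K g) (hh : L2K μ K h) :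
    L2K μ K (fun x => g x + h x) :=
  ⟨hg.1.add hh.1, fun x hx => by simp [hg.2 x hx, hh.2 x hx]⟩

lemma L2K.sub {K : Set X} {g h : X → ℂ} (hg : L2K μ K g) (hh : L2K μ K h) :
    L2K μ K (fun x => g x - h x) :=
  ⟨hg.1.sub hh.1, fun x hx => by simp [hg.2 x hx, hh.2 x hx]⟩

lemma L2K.zero (K : Set X) : L2K μ K (fun _ => 0) := ⟨MemLp.zero, fun _ _ => rfl⟩

lemma L2K.sum {ι : Type} {K : Set X} {g : ι → X → ℂ} (s : Finset ι)
    (hg : ∀ i, L2K μ K (g i)) : L2K μ K (fun x => ∑ i ∈ s, g i x) := by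
  classical
  induction s using Finset.induction_on with
  | empty => simpa using L2K.zero K
  | insert i s hi ih =>
    simp only [Finset.sum_insert hi]
    exact (hg i).add ih

lemma Cv.mul {K : Set X} (hK : IsCompact K) {a : X → ℂ} (ha : Continuous a) {g : ℕ → X → ℂ}
    {g0 : X → ℂ} (hg : ∀ ν, L2K μ K (g ν)) (hg0 : L2K μ K g0) (h : Cv μ g g0) :
    Cv μ (fun ν x => a x * g ν x) (fun x => a x * g0 x) := by
  obtain ⟨A, hA⟩ := hK.exists_bound_of_continuousOn ha.continuousOn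
  have h1 : Tendsto (fun ν => A ^ 2 * ∫ x, ‖g ν x - g0 x‖ ^ 2 ∂μ) atTop (𝓝 0) := by
    simpa using h.const_mul (A ^ 2)
  refine squeeze_zero (fun ν => integral_nonneg fun x => by positivity) (fun ν => ?_) h1
  rw [← integral_const_mul]
  apply integral_mono
  · exact integrable_sq (((hg ν).mul hK ha).sub (hg0.mul hK ha)).1
  · exact (integrable_sq ((hg ν).sub hg0).1).const_mul _
  · intro x
    dsimp only
    by_cases hx : x ∈ K
    · rw [← mul_sub, norm_mul, mul_pow]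
      exact mul_le_mul_of_nonneg_right (pow_le_pow_left₀ (norm_nonneg _) (hA x hx) 2)
        (by positivity)
    · simp [(hg ν).2 x hx, hg0.2 x hx]

lemma Cv.add {K : Set X} {g h : ℕ → X → ℂ} {g0 h0 : X → ℂ} (hg : ∀ ν, L2K μ K (g ν))
    (hg0 : L2K μ K g0) (hh : ∀ ν, L2K μ K (h ν)) (hh0 : L2K μ K h0) (h1 : Cv μ g g0)
    (h2 : Cv μ h h0) : Cv μ (fun ν x => g ν x + h ν x) (fun x => g0 x + h0 x) := by
  have h3 : Tendsto (fun ν => 2 * (∫ x, ‖g ν x - g0 x‖ ^ 2 ∂μ) + 2 * ∫ x, ‖h ν x - h0 x‖ ^ 2 ∂μ)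
      atTop (𝓝 0) := by
    simpa using (h1.const_mul 2).add (h2.const_mul 2)
  refine squeeze_zero (fun ν => integral_nonneg fun x => by positivity) (fun ν => ?_) h3
  rw [← integral_const_mul, ← integral_const_mul, ← integral_add]
  · apply integral_mono
    · exact integrable_sq (((hg ν).add (hh ν)).sub (hg0.add hh0)).1
    · exact ((integrable_sq ((hg ν).sub hg0).1).const_mul _).add
        ((integrable_sq ((hh ν).sub hh0).1).const_mul _)
    · intro x
      dsimp only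
      have h4 : ‖g ν x + h ν x - (g0 x + h0 x)‖ ≤ ‖g ν x - g0 x‖ + ‖h ν x - h0 x‖ := by
        rw [add_sub_add_comm]
        exact norm_add_le _ _
      nlinarith [norm_nonneg (g ν x + h ν x - (g0 x + h0 x)), norm_nonneg (g ν x - g0 x),
        norm_nonneg (h ν x - h0 x), sq_nonneg (‖g ν x - g0 x‖ - ‖h ν x - h0 x‖)]
  · exact (integrable_sq ((hg ν).sub hg0).1).const_mul _
  · exact (integrable_sq ((hh ν).sub hh0).1).const_mul _

lemma Cv.sub {K : Set X} {g h : ℕ → X → ℂ} {g0 h0 : X → ℂ} (hg : ∀ ν, L2K μ K (g ν))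
    (hg0 : L2K μ K g0) (hh : ∀ ν, L2K μ K (h ν)) (hh0 : L2K μ K h0) (h1 : Cv μ g g0)
    (h2 : Cv μ h h0) : Cv μ (fun ν x => g ν x - h ν x) (fun x => g0 x - h0 x) := by
  have h3 : Tendsto (fun ν => 2 * (∫ x, ‖g ν x - g0 x‖ ^ 2 ∂μ) + 2 * ∫ x, ‖h ν x - h0 x‖ ^ 2 ∂μ)
      atTop (𝓝 0) := by
    simpa using (h1.const_mul 2).add (h2.const_mul 2)
  refine squeeze_zero (fun ν => integral_nonneg fun x => by positivity) (fun ν => ?_) h3
  rw [← integral_const_mul, ← integral_const_mul, ← integral_add]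
  · apply integral_mono
    · exact integrable_sq (((hg ν).sub (hh ν)).sub (hg0.sub hh0)).1
    · exact ((integrable_sq ((hg ν).sub hg0).1).const_mul _).add
        ((integrable_sq ((hh ν).sub hh0).1).const_mul _)
    · intro x
      dsimp only
      have h4 : ‖g ν x - h ν x - (g0 x - h0 x)‖ ≤ ‖g ν x - g0 x‖ + ‖h ν x - h0 x‖ := by
        have : g ν x - h ν x - (g0 x - h0 x) = (g ν x - g0 x) - (h ν x - h0 x) := by ring
        rw [this]
        exact norm_sub_le _ _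
      nlinarith [norm_nonneg (g ν x - h ν x - (g0 x - h0 x)), norm_nonneg (g ν x - g0 x),
        norm_nonneg (h ν x - h0 x), sq_nonneg (‖g ν x - g0 x‖ - ‖h ν x - h0 x‖)]
  · exact (integrable_sq ((hg ν).sub hg0).1).const_mul _
  · exact (integrable_sq ((hh ν).sub hh0).1).const_mul _

lemma Cv.sum {ι : Type} {K : Set X} {g : ι → ℕ → X → ℂ} {g0 : ι → X → ℂ} (s : Finset ι)
    (hg : ∀ i ν, L2K μ K (g i ν)) (hg0 : ∀ i, L2K μ K (g0 i)) (h : ∀ i, Cv μ (g i) (g0 i)) :
    Cv μ (fun ν x => ∑ i ∈ s, g i ν x) (fun x => ∑ i ∈ s, g0 i x) := by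
  classical
  induction s using Finset.induction_on with
  | empty => simp [Cv]
  | insert i s hi ih =>
    simp only [Finset.sum_insert hi]
    exact Cv.add (hg i) (hg0 i) (fun ν => L2K.sum s fun j => hg j ν) (L2K.sum s hg0) (h i) ih

lemma sq_diff (x y : ℂ) {η : ℝ} (hη : 0 < η) :
    |‖x‖ ^ 2 - ‖y‖ ^ 2| ≤ η * ‖y‖ ^ 2 + (1 + 1 / η) * ‖x - y‖ ^ 2 := by
  have h1 : |‖x‖ - ‖y‖| ≤ ‖x - y‖ := abs_norm_sub_norm_le x y
  have h2 : ‖x‖ ≤ ‖y‖ + ‖x - y‖ := by
    have := norm_add_le y (x - y)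
    rwa [add_sub_cancel] at this
  have h3 : |‖x‖ ^ 2 - ‖y‖ ^ 2| = |‖x‖ - ‖y‖| * (‖x‖ + ‖y‖) := by
    rw [show ‖x‖ ^ 2 - ‖y‖ ^ 2 = (‖x‖ - ‖y‖) * (‖x‖ + ‖y‖) by ring, abs_mul,
      abs_of_nonneg (by positivity : 0 ≤ ‖x‖ + ‖y‖)]
  rw [h3]
  have h4 : |‖x‖ - ‖y‖| * (‖x‖ + ‖y‖) ≤ ‖x - y‖ * (2 * ‖y‖ + ‖x - y‖) := by
    apply mul_le_mul h1 _ (by positivity) (norm_nonneg _)
    linarith
  refine h4.trans ?_
  have h5 : 0 ≤ (η * ‖y‖ - ‖x - y‖) ^ 2 / η := by positivity
  have h6 : (η * ‖y‖ - ‖x - y‖) ^ 2 / η =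
      η * ‖y‖ ^ 2 - 2 * ‖y‖ * ‖x - y‖ + 1 / η * ‖x - y‖ ^ 2 := by
    field_simp
    ring
  rw [h6] at h5
  linarith

lemma Cv.norm {K : Set X} {g : ℕ → X → ℂ} {g0 : X → ℂ} (hg : ∀ ν, L2K μ K (g ν))
    (hg0 : L2K μ K g0) (h : Cv μ g g0) :
    Tendsto (fun ν => ∫ x, ‖g ν x‖ ^ 2 ∂μ) atTop (𝓝 (∫ x, ‖g0 x‖ ^ 2 ∂μ)) := by
  rw [Metric.tendsto_atTop]
  intro ε hε
  set I : ℝ := ∫ x, ‖g0 x‖ ^ 2 ∂μ with hI
  have hI0 : 0 ≤ I := integral_nonneg fun x => by positivity
  set η : ℝ := ε / (2 * (I + 1)) with hη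
  have hηpos : 0 < η := by positivity
  have hc : 0 < 1 + 1 / η := by positivity
  obtain ⟨N, hN⟩ := Metric.tendsto_atTop.1 h (ε / (2 * (1 + 1 / η))) (by positivity)
  refine ⟨N, fun ν hν => ?_⟩
  have h1 := hN ν hν
  rw [dist_zero_right, Real.norm_of_nonneg (integral_nonneg fun x => by positivity)] at h1
  rw [Real.dist_eq, hI, ← integral_sub (integrable_sq (hg ν).1) (integrable_sq hg0.1)]
  have h2 : |∫ x, (‖g ν x‖ ^ 2 - ‖g0 x‖ ^ 2) ∂μ| ≤
      ∫ x, (η * ‖g0 x‖ ^ 2 + (1 + 1 / η) * ‖g ν x - g0 x‖ ^ 2) ∂μ := by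
    refine (abs_integral_le_integral_abs).trans ?_
    apply integral_mono
    · exact ((integrable_sq (hg ν).1).sub (integrable_sq hg0.1)).abs
    · exact ((integrable_sq hg0.1).const_mul _).add
        ((integrable_sq ((hg ν).sub hg0).1).const_mul _)
    · intro x
      exact sq_diff _ _ hηpos
  refine h2.trans_lt ?_
  rw [integral_add ((integrable_sq hg0.1).const_mul _)
    ((integrable_sq ((hg ν).sub hg0).1).const_mul _), integral_const_mul, integral_const_mul]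
  have h3 : η * I ≤ ε / 2 := by
    rw [hη]
    rw [div_mul_eq_mul_div, div_le_div_iff₀ (by positivity) (by norm_num)]
    nlinarith
  have h4 : (1 + 1 / η) * ∫ x, ‖g ν x - g0 x‖ ^ 2 ∂μ < ε / 2 := by
    have := mul_lt_mul_of_pos_left h1 hc
    refine this.trans_le (le_of_eq ?_)
    field_simp
  rw [← hI]
  linarith

lemma isClosed_of_compact {K : Set X} (hK : IsCompact K) : IsClosed K := hK.isClosed

lemma L2K.integrable [IsFiniteMeasureOnCompacts μ] {K : Set X} (hK : IsCompact K) {g : X → ℂ}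
    (hg : L2K μ K g) : Integrable g μ := by
  have h1 : K.indicator g = g := by
    funext x
    by_cases hx : x ∈ K
    · rw [indicator_of_mem hx]
    · rw [indicator_of_notMem hx, hg.2 x hx]
  have hfin : IsFiniteMeasure (μ.restrict K) := ⟨by
    rw [Measure.restrict_apply_univ]
    exact hK.measure_lt_top⟩
  have h2 : MemLp g 2 (μ.restrict K) := hg.1.restrict K
  have h3 : Integrable g (μ.restrict K) := h2.integrable (by norm_num)
  rw [← h1, integrable_indicator_iff hK.isClosed.measurableSet]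
  exact h3

lemma L2K.of_cont [IsFiniteMeasureOnCompacts μ] {K : Set X} (hK : IsCompact K) {g : X → ℂ}
    (hg : Continuous g) (h0 : ∀ x ∉ K, g x = 0) : L2K μ K g :=
  ⟨hg.memLp_of_hasCompactSupport (HasCompactSupport.intro hK h0), h0⟩

lemma wd_zero {u : X → ℂ} {x : X} (hx : x ∉ tsupport u) (j : Fin n) : wd X j u x = 0 := by
  rw [wd, dR_of_notMem_tsupport hx]
  simp

lemma wdb_zero {u : X → ℂ} {x : X} (hx : x ∉ tsupport u) (j : Fin n) : wdb X j u x = 0 := by
  rw [wdb, dR_of_notMem_tsupport hx]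
  simp

lemma notMem_tsupport {K : Set X} (hK : IsCompact K) {u : X → ℂ} (h0 : ∀ x ∉ K, u x = 0) {x : X}
    (hx : x ∉ K) : x ∉ tsupport u := by
  intro h
  apply hx
  refine closure_minimal ?_ hK.isClosed h
  intro y hy
  by_contra hyK
  exact hy (h0 y hyK)

lemma wd_exp {u : X → ℝ} {x : X} (hu : SmAt X u x) (j : Fin n) :
    wd X j (fun y => (Real.exp (u y) : ℂ)) x =
      (Real.exp (u x) : ℂ) * wd X j (fun y => (u y : ℂ)) x := by
  have h1 : SmAt X (fun y => Real.exp (u y)) x := hu.comp Real.contDiff_exp.contDiffAt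
  have h2 := dR_comp hu (F := Real.exp) Real.differentiableAt_exp
  have h3 : ∀ v, dR X (fun y => Real.exp (u y)) x v = Real.exp (u x) * dR X u x v := by
    intro v
    rw [h2]
    simp [mul_comm]
  rw [wd, wd, dR_ofReal h1, dR_ofReal h1, dR_ofReal hu, dR_ofReal hu, h3, h3]
  push_cast
  ring

lemma tsupport_ofReal (ρ : X → ℝ) : tsupport (fun y => (ρ y : ℂ)) = tsupport ρ := by
  unfold tsupport
  congr 1
  ext x
  simp

lemma norm_exp_sq (t : ℝ) : ‖((Real.exp t : ℝ) : ℂ)‖ ^ 2 = Real.exp (2 * t) := by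
  rw [Complex.norm_real, Real.norm_of_nonneg (Real.exp_pos t).le]
  exact_mod_cast (Real.exp_nat_mul t 2).symm

end AprCAux

open AprCAux

theorem s_AprC (hPullFacts : S_PullFacts) (hAprSm : S_AprSm) (hMoll : S_Moll) : S_AprC := by
  intro n X μ hμ φ Ψ hφ hΨ hlev f v hfm hvm hloc hWT hWC ρ hρ
  have hfinc : IsFiniteMeasureOnCompacts μ := (hPullFacts n X μ hμ).1
  set K : Set X := tsupport ρ with hKdef
  have hK : IsCompact K := hρ.2
  have hKm : MeasurableSet K := hK.isClosed.measurableSet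
  set ρc : X → ℂ := fun x => (ρ x : ℂ) with hρc
  have hρcs : Sm X ρc := hρ.1.ofReal
  have hρ0 : ∀ x ∉ K, ρc x = 0 := by
    intro x hx
    have : ρ x = 0 := image_eq_zero_of_notMem_tsupport hx
    simp [hρc, this]
  have htc : tsupport ρc = K := tsupport_ofReal ρ
  -- truncated functions
  set fK : Fin n → X → ℂ := fun j => K.indicator (f j) with hfK
  set vK : X → ℂ := K.indicator v with hvK
  have hfKL : ∀ j, L2K μ K (fK j) := by
    intro j
    refine ⟨(memLp_indicator_iff_restrict hKm).2 ?_, fun x hx => indicator_of_notMem hx _⟩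
    exact (memLp_two_iff_integrable_sq_norm (hfm j).restrict).2 ((hloc K hK).1 j)
  have hvKL : L2K μ K vK := by
    refine ⟨(memLp_indicator_iff_restrict hKm).2 ?_, fun x hx => indicator_of_notMem hx _⟩
    exact (memLp_two_iff_integrable_sq_norm hvm.restrict).2 (hloc K hK).2
  have hfKe : ∀ j, ∀ x ∈ K, fK j x = f j x := fun j x hx => indicator_of_mem hx _
  have hvKe : ∀ x ∈ K, vK x = v x := fun x hx => indicator_of_mem hx _
  -- smooth coefficients
  have hφΨ : Sm X (fun y => φ y - Ψ y) := fun x => (hφ x).sub (hΨ x)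
  set uc : X → ℂ := fun y => ((φ y - Ψ y : ℝ) : ℂ) with huc
  have hucs : Sm X uc := hφΨ.ofReal
  set b : Fin n → X → ℂ := fun j => wd X j uc with hb
  have hbc : ∀ j, Continuous (b j) := fun j => (hucs.wd j).continuous
  set r : Fin n → X → ℂ := fun j => wd X j ρc with hr
  have hrc : ∀ j, Continuous (r j) := fun j => (hρcs.wd j).continuous
  have hr0 : ∀ j, ∀ x ∉ K, r j x = 0 := fun j x hx => wd_zero (by rwa [htc]) j
  set rb : Fin n → X → ℂ := fun j => wdb X j ρc with hrb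
  have hrbc : ∀ j, Continuous (rb j) := fun j => (hρcs.wdb j).continuous
  have hrb0 : ∀ j, ∀ x ∉ K, rb j x = 0 := fun j x hx => wdb_zero (by rwa [htc]) j
  set eΨ : X → ℂ := fun x => (Real.exp (Ψ x) : ℂ) with heΨ
  have heΨs : Sm X eΨ := (hΨ.comp Real.contDiff_exp).ofReal
  set E : X → ℂ := fun x => (Real.exp (φ x - Ψ x) : ℂ) with hE
  have hEs : Sm X E := (hφΨ.comp Real.contDiff_exp).ofReal
  -- the data for the regularization
  set f' : Fin n → X → ℂ := fun j x => ρc x * fK j x with hf'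
  have hf'L : ∀ j, L2K μ K (f' j) := fun j => (hfKL j).mul hK hρcs.continuous
  set d : X → ℂ := fun x => ((∑ j, b j x * f' j x) + ∑ j, r j x * fK j x) -
    (ρc x * eΨ x) * vK x with hd
  have hdL : L2K μ K d := by
    refine L2K.sub (L2K.add (L2K.sum _ fun j => (hf'L j).mul hK (hbc j))
      (L2K.sum _ fun j => (hfKL j).mul hK (hrc j))) ?_
    exact hvKL.mul hK (hρcs.continuous.mul heΨs.continuous)
  set c : Fin n → Fin n → X → ℂ := fun j k x => rb j x * fK k x - rb k x * fK j x with hc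
  have hcL : ∀ j k, L2K μ K (c j k) := fun j k =>
    ((hfKL k).mul hK (hrbc j)).sub ((hfKL j).mul hK (hrbc k))
  have hdiv : ∀ ξ : X → ℂ, CS X ξ → ∫ x, ∑ j, f' j x * wd X j ξ x ∂μ = - ∫ x, d x * ξ x ∂μ := by
    intro ξ hξ
    have hηs : Sm X (fun x => (ρc x * ξ x) * E x) := (hρcs.mul hξ.1).mul hEs
    have hη : CS X (fun x => (ρc x * ξ x) * E x) := by
      refine ⟨hηs, HasCompactSupport.intro hξ.2 fun x hx => ?_⟩
      rw [image_eq_zero_of_notMem_tsupport hx]
      simp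
    have hw := hWT _ hη
    have h1 : ∀ x, (∑ j, f j x * wd X j (fun x => (ρc x * ξ x) * E x) x) *
        Real.exp (-(φ x - Ψ x)) =
        (∑ j, f' j x * wd X j ξ x) + (d x * ξ x + ((ρc x * eΨ x) * ξ x) * vK x) := by
      intro x
      have hEx : E x * (Real.exp (-(φ x - Ψ x)) : ℂ) = 1 := by
        simp only [hE]
        rw [← Complex.ofReal_mul, ← Real.exp_add, add_neg_cancel, Real.exp_zero,
          Complex.ofReal_one]
      have h2 : ∀ j, wd X j (fun x => (ρc x * ξ x) * E x) x =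
          E x * (ρc x * wd X j ξ x + ξ x * r j x + ρc x * ξ x * b j x) := by
        intro j
        rw [wd_mul ((hρcs.mul hξ.1) x) (hEs x), wd_mul (hρcs x) (hξ.1 x)]
        have h3 : wd X j E x = E x * b j x := wd_exp (hφΨ x) j
        rw [h3]
        simp only [hr]
        ring
      simp only [h2]
      by_cases hx : x ∈ K
      · simp only [hd, hf', hfKe _ x hx]
        have h4 : ∀ j, f j x * (E x * (ρc x * wd X j ξ x + ξ x * r j x + ρc x * ξ x * b j x)) =
            E x * (ρc x * f j x * wd X j ξ x + (b j x * (ρc x * f j x) + r j x * f j x) * ξ x) := by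
          intro j
          ring
        simp only [h4, ← Finset.mul_sum, Finset.sum_add_distrib, ← Finset.sum_mul]
        rw [mul_right_comm, hEx]
        ring
      · simp only [hd, hf', hρ0 x hx, hr0 _ x hx]
        simp
    have h5 : ∀ x, v x * ((ρc x * ξ x) * E x) * Real.exp (-(φ x - 2 * Ψ x)) =
        ((ρc x * eΨ x) * ξ x) * vK x := by
      intro x
      have hEx : E x * (Real.exp (-(φ x - 2 * Ψ x)) : ℂ) = eΨ x := by
        simp only [hE, heΨ]
        rw [← Complex.ofReal_mul, ← Real.exp_add]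
        congr 2
        ring
      by_cases hx : x ∈ K
      · rw [hvKe x hx, ← hEx]
        ring
      · simp [hρ0 x hx]
    simp only [h1, h5] at hw
    have i1 : Integrable (fun x => ∑ j, f' j x * wd X j ξ x) μ := by
      have : L2K μ K (fun x => ∑ j, wd X j ξ x * f' j x) :=
        L2K.sum _ fun j => (hf'L j).mul hK (hξ.1.wd j).continuous
      refine (this.integrable hK).congr (Eventually.of_forall fun x => ?_)
      exact Finset.sum_congr rfl fun j _ => mul_comm _ _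
    have i2 : Integrable (fun x => d x * ξ x) μ := by
      refine ((hdL.mul hK hξ.1.continuous).integrable hK).congr (Eventually.of_forall fun x => ?_)
      exact mul_comm _ _
    have i3 : Integrable (fun x => ((ρc x * eΨ x) * ξ x) * vK x) μ :=
      (hvKL.mul hK ((hρcs.continuous.mul heΨs.continuous).mul hξ.1.continuous)).integrable hK
    have i23 : Integrable (fun x => d x * ξ x + ((ρc x * eΨ x) * ξ x) * vK x) μ := i2.add i3
    rw [integral_add i1 i23, integral_add i2 i3] at hw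
    linear_combination hw
  have hcurl : ∀ ξ : X → ℂ, CS X ξ → ∀ j k,
      ∫ x, (f' k x * wdb X j ξ x - f' j x * wdb X k ξ x) ∂μ = - ∫ x, c j k x * ξ x ∂μ := by
    intro ξ hξ j k
    have hηs : Sm X (fun x => ρc x * ξ x) := hρcs.mul hξ.1
    have hη : CS X (fun x => ρc x * ξ x) := by
      refine ⟨hηs, HasCompactSupport.intro hξ.2 fun x hx => ?_⟩
      rw [image_eq_zero_of_notMem_tsupport hx]
      simp
    have hw := hWC _ hη j k
    have h1 : ∀ i l x, f i x * wdb X l (fun x => ρc x * ξ x) x =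
        wdb X l ξ x * f' i x + (rb l x * ξ x) * fK i x := by
      intro i l x
      rw [wdb_mul (hρcs x) (hξ.1 x)]
      by_cases hx : x ∈ K
      · simp only [hf', hfKe _ x hx, hrb]
        ring
      · have h2 : wdb X l ρc x = 0 := hrb0 l x hx
        simp only [hf', hρ0 x hx, h2, hrb0 _ x hx]
        simp
    simp only [h1] at hw
    have i1 : ∀ i l, Integrable (fun x => wdb X l ξ x * f' i x) μ := fun i l =>
      ((hf'L i).mul hK (hξ.1.wdb l).continuous).integrable hK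
    have i2 : ∀ i l, Integrable (fun x => (rb l x * ξ x) * fK i x) μ := fun i l =>
      ((hfKL i).mul hK ((hrbc l).mul hξ.1.continuous)).integrable hK
    rw [integral_add (i1 _ _) (i2 _ _), integral_add (i1 _ _) (i2 _ _)] at hw
    have h3 : ∀ x, f' k x * wdb X j ξ x - f' j x * wdb X k ξ x =
        wdb X j ξ x * f' k x - wdb X k ξ x * f' j x := fun x => by ring
    have h4 : ∀ x, c j k x * ξ x = (rb j x * ξ x) * fK k x - (rb k x * ξ x) * fK j x := by
      intro x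
      simp only [hc]
      ring
    simp only [h3, h4]
    rw [integral_sub (i1 _ _) (i1 _ _), integral_sub (i2 _ _) (i2 _ _)]
    linear_combination hw
  obtain ⟨K', F, hK', hF, hc1, hc2, hc3⟩ := hMoll n X μ hμ K hK f' d c hf'L hdL hcL hdiv hcurl
  set M : Set X := K ∪ K' with hM
  have hMc : IsCompact M := hK.union hK'
  have hKM : K ⊆ M := subset_union_left
  have hK'M : K' ⊆ M := subset_union_right
  have hFcs : ∀ ν j, CS X (F ν j) := fun ν j =>
    ⟨(hF ν j).1, HasCompactSupport.intro hK' (hF ν j).2⟩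
  have hFL : ∀ ν j, L2K μ M (F ν j) := fun ν j =>
    (L2K.of_cont hK' (hF ν j).1.continuous (hF ν j).2).mono hK'M
  have hwF : ∀ ν i j, L2K μ M (wd X i (F ν j)) := fun ν i j =>
    (L2K.of_cont hK' ((hF ν j).1.wd i).continuous
      (fun x hx => wd_zero (notMem_tsupport hK' (hF ν j).2 hx) i)).mono hK'M
  have hwbF : ∀ ν i j, L2K μ M (wdb X i (F ν j)) := fun ν i j =>
    (L2K.of_cont hK' ((hF ν j).1.wdb i).continuous
      (fun x hx => wdb_zero (notMem_tsupport hK' (hF ν j).2 hx) i)).mono hK'M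
  have hf'M : ∀ j, L2K μ M (f' j) := fun j => (hf'L j).mono hKM
  have hdM : L2K μ M d := hdL.mono hKM
  have hcM : ∀ j k, L2K μ M (c j k) := fun j k => (hcL j k).mono hKM
  -- the weights
  set a1 : X → ℂ := fun x => ((Real.exp (-(φ x - Ψ x) / 2) : ℝ) : ℂ) with ha1
  set a2 : X → ℂ := fun x => ((Real.exp (-(φ x - 2 * Ψ x) / 2 - Ψ x) : ℝ) : ℂ) with ha2
  set a3 : X → ℂ := fun x => ((Real.exp (-φ x / 2) : ℝ) : ℂ) with ha3
  have hφc := hφ.continuous
  have hΨc := hΨ.continuous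
  have ha1c : Continuous a1 := by simp only [ha1]; fun_prop
  have ha2c : Continuous a2 := by simp only [ha2]; fun_prop
  have ha3c : Continuous a3 := by simp only [ha3]; fun_prop
  -- left side
  have hL : ∀ g : Fin n → X → ℂ, (∀ j, L2K μ M (g j)) →
      ∫ x, (∑ j, ‖g j x‖ ^ 2) * Real.exp (-(φ x - Ψ x)) ∂μ =
        ∑ j, ∫ x, ‖a1 x * g j x‖ ^ 2 ∂μ := by
    intro g hg
    rw [← integral_finsetSum _ fun j _ => integrable_sq ((hg j).mul hMc ha1c).1]
    congr 1
    funext x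
    rw [Finset.sum_mul]
    refine Finset.sum_congr rfl fun j _ => ?_
    rw [norm_mul, mul_pow, ha1, norm_exp_sq, mul_comm]
    congr 2
    ring
  have hLlim : Tendsto (fun ν => ∫ x, (∑ j, ‖F ν j x‖ ^ 2) * Real.exp (-(φ x - Ψ x)) ∂μ) atTop
      (𝓝 (∫ x, (∑ j, ‖f' j x‖ ^ 2) * Real.exp (-(φ x - Ψ x)) ∂μ)) := by
    rw [hL f' hf'M]
    simp only [hL _ (hFL _)]
    refine tendsto_finsetSum _ fun j _ => ?_
    exact Cv.norm (fun ν => (hFL ν j).mul hMc ha1c) ((hf'M j).mul hMc ha1c)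
      (Cv.mul hMc ha1c (fun ν => hFL ν j) (hf'M j) (hc1 j))
  -- the divergence
  have hG : ∀ ν, L2K μ M (fun x => (∑ j, wd X j (F ν j) x) - ∑ j, b j x * F ν j x) := fun ν =>
    (L2K.sum _ fun j => hwF ν j j).sub (L2K.sum _ fun j => (hFL ν j).mul hMc (hbc j))
  have hG0 : L2K μ M (fun x => d x - ∑ j, b j x * f' j x) :=
    hdM.sub (L2K.sum _ fun j => (hf'M j).mul hMc (hbc j))
  have hGcv : Cv μ (fun ν x => (∑ j, wd X j (F ν j) x) - ∑ j, b j x * F ν j x)
      (fun x => d x - ∑ j, b j x * f' j x) := by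
    refine Cv.sub (fun ν => L2K.sum _ fun j => hwF ν j j) hdM
      (fun ν => L2K.sum _ fun j => (hFL ν j).mul hMc (hbc j))
      (L2K.sum _ fun j => (hf'M j).mul hMc (hbc j)) hc2 ?_
    exact Cv.sum _ (fun j ν => (hFL ν j).mul hMc (hbc j)) (fun j => (hf'M j).mul hMc (hbc j))
      (fun j => Cv.mul hMc (hbc j) (fun ν => hFL ν j) (hf'M j) (hc1 j))
  have hR1lim := Cv.norm (fun ν => (hG ν).mul hMc ha2c) (hG0.mul hMc ha2c)
    (Cv.mul hMc ha2c hG hG0 hGcv)
  have hR1 : ∀ ν, ∫ x, ‖Real.exp (-Ψ x) * ∑ j, (wd X j (F ν j) x -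
      F ν j x * wd X j (fun y => ((φ y - Ψ y : ℝ) : ℂ)) x)‖ ^ 2 *
        Real.exp (-(φ x - 2 * Ψ x)) ∂μ =
      ∫ x, ‖a2 x * ((∑ j, wd X j (F ν j) x) - ∑ j, b j x * F ν j x)‖ ^ 2 ∂μ := by
    intro ν
    congr 1
    funext x
    have h1 : ∑ j, (wd X j (F ν j) x - F ν j x * wd X j (fun y => ((φ y - Ψ y : ℝ) : ℂ)) x) =
        (∑ j, wd X j (F ν j) x) - ∑ j, b j x * F ν j x := by
      rw [Finset.sum_sub_distrib]
      congr 1
      exact Finset.sum_congr rfl fun j _ => mul_comm _ _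
    rw [h1, norm_mul, norm_mul, mul_pow, mul_pow, norm_exp_sq, ha2, norm_exp_sq,
      mul_right_comm, ← Real.exp_add]
    congr 2
    ring
  have hR10 : ∫ x, ‖a2 x * (d x - ∑ j, b j x * f' j x)‖ ^ 2 ∂μ =
      ∫ x, ‖ρ x * v x - Real.exp (-Ψ x) * ∑ j, f j x * wd X j (fun y => (ρ y : ℂ)) x‖ ^ 2 *
        Real.exp (-(φ x - 2 * Ψ x)) ∂μ := by
    congr 1
    funext x
    have h1 : d x - ∑ j, b j x * f' j x = - (eΨ x * (ρ x * v x -
        Real.exp (-Ψ x) * ∑ j, f j x * wd X j (fun y => (ρ y : ℂ)) x)) := by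
      have h2 : eΨ x * (Real.exp (-Ψ x) : ℂ) = 1 := by
        simp only [heΨ]
        rw [← Complex.ofReal_mul, ← Real.exp_add, add_neg_cancel, Real.exp_zero,
          Complex.ofReal_one]
      by_cases hx : x ∈ K
      · simp only [hd, hfKe _ x hx, hvKe x hx]
        have h3 : ∑ j, r j x * f j x = ∑ j, f j x * wd X j (fun y => (ρ y : ℂ)) x :=
          Finset.sum_congr rfl fun j _ => mul_comm _ _
        rw [h3]
        have h4 : ρc x = (ρ x : ℂ) := rfl
        rw [h4]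
        linear_combination (-(∑ j, f j x * wd X j (fun y => (ρ y : ℂ)) x)) * h2
      · have h5 : (ρ x : ℂ) = 0 := hρ0 x hx
        have h6 : ∀ j, wd X j (fun y => (ρ y : ℂ)) x = 0 := fun j => hr0 j x hx
        simp only [hd, hf', hρ0 x hx, hr0 _ x hx, h5, h6]
        simp
    have n1 : ‖eΨ x‖ ^ 2 = Real.exp (2 * Ψ x) := norm_exp_sq _
    have n2 : ‖a2 x‖ ^ 2 = Real.exp (2 * (-(φ x - 2 * Ψ x) / 2 - Ψ x)) := norm_exp_sq _
    rw [h1, norm_mul, norm_neg, norm_mul, mul_pow, mul_pow, n1, n2,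
      ← mul_assoc, ← Real.exp_add, mul_comm]
    congr 2
    ring
  -- the curl
  have hH : ∀ j k ν, L2K μ M (fun x => wdb X j (F ν k) x - wdb X k (F ν j) x) := fun j k ν =>
    (hwbF ν j k).sub (hwbF ν k j)
  have hR2 : ∀ g : Fin n → Fin n → X → ℂ, (∀ j k, L2K μ M (g j k)) →
      ∫ x, (∑ j, ∑ k, ‖g j k x‖ ^ 2) * Real.exp (-φ x) ∂μ =
        ∑ j, ∑ k, ∫ x, ‖a3 x * g j k x‖ ^ 2 ∂μ := by
    intro g hg
    have h1 : ∀ j, ∑ k, ∫ x, ‖a3 x * g j k x‖ ^ 2 ∂μ = ∫ x, ∑ k, ‖a3 x * g j k x‖ ^ 2 ∂μ :=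
      fun j => (integral_finsetSum _ fun k _ => integrable_sq ((hg j k).mul hMc ha3c).1).symm
    simp only [h1]
    rw [← integral_finsetSum _ fun j _ => integrable_finsetSum _ fun k _ =>
      integrable_sq ((hg j k).mul hMc ha3c).1]
    congr 1
    funext x
    rw [Finset.sum_mul]
    refine Finset.sum_congr rfl fun j _ => ?_
    rw [Finset.sum_mul]
    refine Finset.sum_congr rfl fun k _ => ?_
    rw [norm_mul, mul_pow, ha3, norm_exp_sq, mul_comm]
    congr 2
    ring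
  have hR2lim : Tendsto (fun ν => ∫ x, (∑ j, ∑ k,
      ‖wdb X j (F ν k) x - wdb X k (F ν j) x‖ ^ 2) * Real.exp (-φ x) ∂μ) atTop
      (𝓝 (∫ x, (∑ j, ∑ k, ‖c j k x‖ ^ 2) * Real.exp (-φ x) ∂μ)) := by
    rw [hR2 c hcM]
    have h1 : ∀ ν, ∫ x, (∑ j, ∑ k,
        ‖wdb X j (F ν k) x - wdb X k (F ν j) x‖ ^ 2) * Real.exp (-φ x) ∂μ =
        ∑ j, ∑ k, ∫ x, ‖a3 x * (wdb X j (F ν k) x - wdb X k (F ν j) x)‖ ^ 2 ∂μ := fun ν =>
      hR2 (fun j k x => wdb X j (F ν k) x - wdb X k (F ν j) x) fun j k => hH j k ν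
    simp only [h1]
    refine tendsto_finsetSum _ fun j _ => tendsto_finsetSum _ fun k _ => ?_
    exact Cv.norm (fun ν => (hH j k ν).mul hMc ha3c) ((hcM j k).mul hMc ha3c)
      (Cv.mul hMc ha3c (hH j k) (hcM j k) (hc3 j k))
  have hfinal := le_of_tendsto_of_tendsto' hLlim (hR1lim.add (hR2lim.const_mul (1 / 4)))
    (fun ν => by
      have h1 := hAprSm n X μ hμ φ Ψ hφ hΨ hlev (F ν) (hFcs ν)
      rw [hR1] at h1
      exact h1)
  rw [hR10] at hfinal
  have hleft : ∫ x, (∑ j, ‖f' j x‖ ^ 2) * Real.exp (-(φ x - Ψ x)) ∂μ =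
      ∫ x, (ρ x) ^ 2 * (∑ j, ‖f j x‖ ^ 2) * Real.exp (-(φ x - Ψ x)) ∂μ := by
    congr 1
    funext x
    congr 1
    rw [Finset.mul_sum]
    refine Finset.sum_congr rfl fun j _ => ?_
    by_cases hx : x ∈ K
    · simp only [hf', hfKe j x hx, hρc]
      rw [norm_mul, mul_pow, Complex.norm_real, Real.norm_eq_abs, sq_abs]
    · have h5 : ρ x = 0 := image_eq_zero_of_notMem_tsupport hx
      simp [hf', hρc, h5]
  have hright : ∫ x, (∑ j, ∑ k, ‖c j k x‖ ^ 2) * Real.exp (-φ x) ∂μ =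
      ∫ x, (∑ j, ∑ k, ‖wdb X j (fun y => (ρ y : ℂ)) x * f k x -
        wdb X k (fun y => (ρ y : ℂ)) x * f j x‖ ^ 2) * Real.exp (-φ x) ∂μ := by
    congr 1
    funext x
    congr 1
    refine Finset.sum_congr rfl fun j _ => Finset.sum_congr rfl fun k _ => ?_
    by_cases hx : x ∈ K
    · simp only [hc, hfKe _ x hx]
      rfl
    · have h6 : ∀ j, wdb X j (fun y => (ρ y : ℂ)) x = 0 := fun j => hrb0 j x hx
      simp only [hc, hrb0 _ x hx, h6]
      simp
  rw [hleft, hright] at hfinal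
  exact hfinal

end Pool.Agent.Lib.MP_55bc5f_an
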