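import Mathlib
import Pool.Agent.Lib.MP_55bc5f_an.Full.SpecL2

/-!
# The a priori estimate for the weak domain
-/

set_option autoImplicit false

open scoped Manifold ContDiff Topology ComplexConjugate
open Set Filter Metric MeasureTheory

namespace Pool.Agent.Lib.MP_55bc5f_an

section Apriori

variable {n : ℕ} {X : Dom n}

lemma Apriori_clm_single (L : Cn n →L[ℝ] ℝ) (j : Fin n) (a : ℂ) (ha : ‖a‖ = 1) :
    ‖((L (Pi.single j a) : ℝ) : ℂ)‖ ≤ ‖L‖ := by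
  rw [Complex.norm_real]
  have h1 : ‖(Pi.single j a : Cn n)‖ ≤ 1 := by
    rw [pi_norm_le_iff_of_nonneg zero_le_one]
    intro i
    by_cases h : i = j
    · subst h; simp [ha]
    · simp [Pi.single_eq_of_ne h]
  calc ‖L (Pi.single j a)‖ ≤ ‖L‖ * ‖(Pi.single j a : Cn n)‖ := L.le_opNorm _
    _ ≤ ‖L‖ * 1 := by gcongr
    _ = ‖L‖ := mul_one _

lemma Apriori_wd_norm_le {ρ : X → ℝ} {x : X} (h : SmAt X ρ x) (j : Fin n) :
    ‖wd X j (fun y => (ρ y : ℂ)) x‖ ≤ ‖dR X ρ x‖ := by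
  have h1 := Apriori_clm_single (dR X ρ x) j 1 (by simp)
  have h2 := Apriori_clm_single (dR X ρ x) j Complex.I (by simp)
  rw [wd, dR_ofReal h, dR_ofReal h, norm_mul]
  have h3 : ‖(1 / 2 : ℂ)‖ = 1 / 2 := by simp
  rw [h3]
  have h4 := norm_sub_le ((dR X ρ x (Pi.single j 1) : ℝ) : ℂ)
    (Complex.I * ((dR X ρ x (Pi.single j Complex.I) : ℝ) : ℂ))
  have h5 : ‖Complex.I * ((dR X ρ x (Pi.single j Complex.I) : ℝ) : ℂ)‖ =
      ‖((dR X ρ x (Pi.single j Complex.I) : ℝ) : ℂ)‖ := by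
    rw [norm_mul, Complex.norm_I, one_mul]
  rw [h5] at h4
  linarith

lemma Apriori_wdb_norm {ρ : X → ℝ} {x : X} (h : SmAt X ρ x) (j : Fin n) :
    ‖wdb X j (fun y => (ρ y : ℂ)) x‖ = ‖wd X j (fun y => (ρ y : ℂ)) x‖ := by
  have h1 := wd_conj h.ofReal j
  have h2 : (fun y => conj ((ρ y : ℂ))) = fun y : X => ((ρ y : ℂ)) := by
    funext y; exact Complex.conj_ofReal _
  rw [h2] at h1
  rw [h1, RCLike.norm_conj]

lemma Apriori_gsq_le {ρ : X → ℝ} {x : X} (h : SmAt X ρ x) :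
    gsq X ρ x ≤ n * ‖dR X ρ x‖ ^ 2 := by
  unfold gsq
  calc ∑ j, ‖wd X j (fun y => (ρ y : ℂ)) x‖ ^ 2 ≤ ∑ _j : Fin n, ‖dR X ρ x‖ ^ 2 :=
        Finset.sum_le_sum fun j _ => pow_le_pow_left₀ (norm_nonneg _) (Apriori_wd_norm_le h j) 2
    _ = _ := by simp

lemma Apriori_gsq_nonneg (ρ : X → ℝ) (x : X) : 0 ≤ gsq X ρ x :=
  Finset.sum_nonneg fun _ _ => by positivity

lemma Apriori_gsq_continuous {ρ : X → ℝ} (h : Sm X ρ) : Continuous (gsq X ρ) := by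
  unfold gsq
  exact continuous_finset_sum _ fun j _ => ((h.ofReal.wd j).continuous.norm).pow 2

lemma Apriori_gsq_congr {ρ ρ' : X → ℝ} {x : X} (h : ρ =ᶠ[𝓝 x] ρ') : gsq X ρ x = gsq X ρ' x := by
  unfold gsq
  refine Finset.sum_congr rfl fun j _ => ?_
  rw [wd_congr j (u := fun y => (ρ y : ℂ)) (v := fun y => (ρ' y : ℂ))]
  filter_upwards [h] with y hy
  rw [hy]

lemma Apriori_gsq_const (c : ℝ) (x : X) : gsq X (fun _ => c) x = 0 := by
  unfold gsq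
  refine Finset.sum_eq_zero fun j _ => ?_
  rw [wd_const]; simp

lemma Apriori_sq (a b : ℂ) {ε : ℝ} (hε : 0 < ε) :
    ‖a - b‖ ^ 2 ≤ (1 + ε) * ‖a‖ ^ 2 + (1 + 1 / ε) * ‖b‖ ^ 2 := by
  have h1 : ‖a - b‖ ^ 2 ≤ (‖a‖ + ‖b‖) ^ 2 :=
    pow_le_pow_left₀ (norm_nonneg _) (norm_sub_le a b) 2
  have h2 : 0 ≤ (ε * ‖a‖ - ‖b‖) ^ 2 / ε := by positivity
  have h3 : (ε * ‖a‖ - ‖b‖) ^ 2 / ε = ε * ‖a‖ ^ 2 - 2 * ‖a‖ * ‖b‖ + (1 / ε) * ‖b‖ ^ 2 := by
    field_simp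
    ring
  rw [h3] at h2
  nlinarith

lemma Apriori_cs (a b : Fin n → ℂ) :
    ‖∑ j, a j * b j‖ ^ 2 ≤ (∑ j, ‖a j‖ ^ 2) * ∑ j, ‖b j‖ ^ 2 := by
  have h1 : ‖∑ j, a j * b j‖ ≤ ∑ j, ‖a j‖ * ‖b j‖ := by
    refine (norm_sum_le _ _).trans (le_of_eq ?_)
    exact Finset.sum_congr rfl fun j _ => norm_mul _ _
  exact (pow_le_pow_left₀ (norm_nonneg _) h1 2).trans (Finset.sum_mul_sq_le_sq_mul_sq _ _ _)

lemma Apriori_curl (a b : Fin n → ℂ) :
    ∑ j, ∑ k, ‖b j * a k - b k * a j‖ ^ 2 ≤ 4 * ((∑ j, ‖b j‖ ^ 2) * ∑ j, ‖a j‖ ^ 2) := by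
  have h1 : ∀ j k, ‖b j * a k - b k * a j‖ ^ 2 ≤
      2 * (‖b j‖ ^ 2 * ‖a k‖ ^ 2) + 2 * (‖a j‖ ^ 2 * ‖b k‖ ^ 2) := by
    intro j k
    have := Apriori_sq (b j * a k) (b k * a j) one_pos
    rw [norm_mul, norm_mul] at this
    nlinarith
  calc ∑ j, ∑ k, ‖b j * a k - b k * a j‖ ^ 2 ≤
      ∑ j, ∑ k, (2 * (‖b j‖ ^ 2 * ‖a k‖ ^ 2) + 2 * (‖a j‖ ^ 2 * ‖b k‖ ^ 2)) :=
        Finset.sum_le_sum fun j _ => Finset.sum_le_sum fun k _ => h1 j k
    _ = 4 * ((∑ j, ‖b j‖ ^ 2) * ∑ j, ‖a j‖ ^ 2) := by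
        simp only [Finset.sum_add_distrib, ← Finset.mul_sum]
        rw [← Finset.sum_mul, ← Finset.sum_mul]
        ring

lemma Apriori_int {μ : Measure X} {g A : X → ℝ} (hA : Integrable A μ) (hg : Continuous g) {M : ℝ}
    (hM : ∀ x, |g x| ≤ M) : Integrable (fun x => g x * A x) μ :=
  (hA.norm.const_mul M).mono' (hg.aestronglyMeasurable.mul hA.aestronglyMeasurable)
    (ae_of_all _ fun x => by
      rw [norm_mul]; exact mul_le_mul_of_nonneg_right (hM x) (norm_nonneg _))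

lemma Apriori_bdd {g : X → ℝ} (hg : Continuous g) {K : Set X} (hK : IsCompact K)
    (h0 : ∀ x ∉ K, g x = 0) : ∃ M, ∀ x, |g x| ≤ M := by
  obtain ⟨C, hC⟩ := hK.exists_bound_of_continuousOn hg.continuousOn
  refine ⟨max C 0, fun x => ?_⟩
  by_cases hx : x ∈ K
  · exact (hC x hx).trans (le_max_left _ _)
  · rw [h0 x hx, abs_zero]; exact le_max_right _ _

lemma Apriori_gsq_zero {ρ : X → ℝ} {x : X} (hx : x ∉ tsupport ρ) : gsq X ρ x = 0 := by
  rw [← Apriori_gsq_const (X := X) 0 x]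
  apply Apriori_gsq_congr
  filter_upwards [(isClosed_tsupport ρ).isOpen_compl.mem_nhds hx] with y hy
  exact image_eq_zero_of_notMem_tsupport hy

/-- Step 1. -/
lemma Apriori_step {μ : Measure X} {φ Ψ : X → ℝ} (hΨ : Sm X Ψ)
    {f : Fin n → X → ℂ} {v : X → ℂ}
    (hA : Integrable (fun x => (∑ j, ‖f j x‖ ^ 2) * Real.exp (-(φ x - Ψ x))) μ)
    (hB : Integrable (fun x => ‖v x‖ ^ 2 * Real.exp (-(φ x - 2 * Ψ x))) μ)
    {ρ : X → ℝ} (hρ : CS X ρ)
    (h : ∫ x, (ρ x) ^ 2 * (∑ j, ‖f j x‖ ^ 2) * Real.exp (-(φ x - Ψ x)) ∂μ ≤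
      ∫ x, ‖ρ x * v x - Real.exp (-Ψ x) * ∑ j, f j x * wd X j (fun y => (ρ y : ℂ)) x‖ ^ 2 *
        Real.exp (-(φ x - 2 * Ψ x)) ∂μ +
      (1 / 4) * ∫ x, (∑ j, ∑ k, ‖wdb X j (fun y => (ρ y : ℂ)) x * f k x -
        wdb X k (fun y => (ρ y : ℂ)) x * f j x‖ ^ 2) * Real.exp (-φ x) ∂μ)
    {ε : ℝ} (hε : 0 < ε) :
    ∫ x, (ρ x) ^ 2 * ((∑ j, ‖f j x‖ ^ 2) * Real.exp (-(φ x - Ψ x))) ∂μ ≤
      (1 + ε) * ∫ x, (ρ x) ^ 2 * (‖v x‖ ^ 2 * Real.exp (-(φ x - 2 * Ψ x))) ∂μ +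
      (2 + 1 / ε) * ∫ x, (gsq X ρ x * Real.exp (-Ψ x)) *
        ((∑ j, ‖f j x‖ ^ 2) * Real.exp (-(φ x - Ψ x))) ∂μ := by
  have hρc : Continuous ρ := hρ.1.continuous
  have hρc2 : Continuous fun x => ρ x ^ 2 := hρc.pow 2
  obtain ⟨M₁, hM₁⟩ := Apriori_bdd hρc2 hρ.2.isCompact
    (fun x hx => by rw [image_eq_zero_of_notMem_tsupport hx]; simp)
  have hgc : Continuous fun x => gsq X ρ x * Real.exp (-Ψ x) :=
    (Apriori_gsq_continuous hρ.1).mul (Real.continuous_exp.comp hΨ.continuous.neg)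
  obtain ⟨M₂, hM₂⟩ := Apriori_bdd hgc hρ.2.isCompact
    (fun x hx => by rw [Apriori_gsq_zero hx, zero_mul])
  have i1 := Apriori_int hB hρc2 hM₁
  have i2 := Apriori_int hA hgc hM₂
  have e1 : ∀ x, Real.exp (-Ψ x) * Real.exp (-(φ x - Ψ x)) = Real.exp (-φ x) := by
    intro x; rw [← Real.exp_add]; congr 1; ring
  have e2 : ∀ x, Real.exp (-Ψ x) ^ 2 * Real.exp (-(φ x - 2 * Ψ x)) = Real.exp (-φ x) := by
    intro x; rw [← Real.exp_nat_mul, ← Real.exp_add]; congr 1; push_cast; ring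
  have b1 : ∫ x, ‖ρ x * v x - Real.exp (-Ψ x) * ∑ j, f j x * wd X j (fun y => (ρ y : ℂ)) x‖ ^ 2 *
        Real.exp (-(φ x - 2 * Ψ x)) ∂μ ≤
      (1 + ε) * ∫ x, (ρ x) ^ 2 * (‖v x‖ ^ 2 * Real.exp (-(φ x - 2 * Ψ x))) ∂μ +
      (1 + 1 / ε) * ∫ x, (gsq X ρ x * Real.exp (-Ψ x)) *
        ((∑ j, ‖f j x‖ ^ 2) * Real.exp (-(φ x - Ψ x))) ∂μ := by
    rw [← integral_const_mul, ← integral_const_mul, ← integral_add (i1.const_mul _) (i2.const_mul _)]
    apply integral_mono_of_nonneg (ae_of_all _ fun x => by positivity)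
      ((i1.const_mul _).add (i2.const_mul _))
    apply ae_of_all
    intro x
    have h1 := Apriori_sq ((ρ x : ℂ) * v x)
      (Real.exp (-Ψ x) * ∑ j, f j x * wd X j (fun y => (ρ y : ℂ)) x) hε
    have h2 : ‖(ρ x : ℂ) * v x‖ ^ 2 = ρ x ^ 2 * ‖v x‖ ^ 2 := by
      rw [norm_mul, mul_pow, Complex.norm_real, Real.norm_eq_abs, sq_abs]
    have h3 : ‖(Real.exp (-Ψ x) : ℂ) * ∑ j, f j x * wd X j (fun y => (ρ y : ℂ)) x‖ ^ 2 ≤
        Real.exp (-Ψ x) ^ 2 * ((∑ j, ‖f j x‖ ^ 2) * gsq X ρ x) := by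
      rw [norm_mul, mul_pow, Complex.norm_real, Real.norm_eq_abs, sq_abs]
      exact mul_le_mul_of_nonneg_left (Apriori_cs _ _) (by positivity)
    have h4 : 0 < 1 + 1 / ε := by positivity
    have h5 := mul_le_mul_of_nonneg_left h3 h4.le
    have h6 : ‖(ρ x : ℂ) * v x - Real.exp (-Ψ x) * ∑ j, f j x * wd X j (fun y => (ρ y : ℂ)) x‖ ^ 2 ≤
        (1 + ε) * (ρ x ^ 2 * ‖v x‖ ^ 2) +
          (1 + 1 / ε) * (Real.exp (-Ψ x) ^ 2 * ((∑ j, ‖f j x‖ ^ 2) * gsq X ρ x)) := by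
      rw [h2] at h1
      linarith
    have h7 := mul_le_mul_of_nonneg_right h6 (Real.exp_pos (-(φ x - 2 * Ψ x))).le
    refine h7.trans (le_of_eq ?_)
    have h8 : Real.exp (-Ψ x) ^ 2 * Real.exp (-(φ x - 2 * Ψ x)) =
        Real.exp (-Ψ x) * Real.exp (-(φ x - Ψ x)) := by rw [e1, e2]
    simp only [Pi.add_apply]
    linear_combination ((1 + 1 / ε) * ((∑ j, ‖f j x‖ ^ 2) * gsq X ρ x)) * h8
  have b2 : (1 / 4) * ∫ x, (∑ j, ∑ k, ‖wdb X j (fun y => (ρ y : ℂ)) x * f k x -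
        wdb X k (fun y => (ρ y : ℂ)) x * f j x‖ ^ 2) * Real.exp (-φ x) ∂μ ≤
      ∫ x, (gsq X ρ x * Real.exp (-Ψ x)) *
        ((∑ j, ‖f j x‖ ^ 2) * Real.exp (-(φ x - Ψ x))) ∂μ := by
    rw [← integral_const_mul]
    apply integral_mono_of_nonneg (ae_of_all _ fun x => by positivity) i2
    apply ae_of_all
    intro x
    have h1 := Apriori_curl (fun j => f j x) (fun j => wdb X j (fun y => (ρ y : ℂ)) x)
    have h2 : ∑ j, ‖wdb X j (fun y => (ρ y : ℂ)) x‖ ^ 2 = gsq X ρ x :=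
      Finset.sum_congr rfl fun j _ => by rw [Apriori_wdb_norm (hρ.1 x)]
    rw [h2] at h1
    have h3 := mul_le_mul_of_nonneg_right h1 (Real.exp_pos (-φ x)).le
    have h4 := e1 x
    simp only
    calc 1 / 4 * ((∑ j, ∑ k, ‖wdb X j (fun y => (ρ y : ℂ)) x * f k x -
          wdb X k (fun y => (ρ y : ℂ)) x * f j x‖ ^ 2) * Real.exp (-φ x)) ≤
        1 / 4 * (4 * (gsq X ρ x * ∑ j, ‖f j x‖ ^ 2) * Real.exp (-φ x)) := by linarith
      _ = (gsq X ρ x * Real.exp (-Ψ x)) *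
        ((∑ j, ‖f j x‖ ^ 2) * Real.exp (-(φ x - Ψ x))) := by
          rw [← h4]; ring
  have e3 : ∫ x, (ρ x) ^ 2 * ((∑ j, ‖f j x‖ ^ 2) * Real.exp (-(φ x - Ψ x))) ∂μ =
      ∫ x, (ρ x) ^ 2 * (∑ j, ‖f j x‖ ^ 2) * Real.exp (-(φ x - Ψ x)) ∂μ :=
    integral_congr_ae (ae_of_all _ fun x => by ring)
  rw [e3]
  linarith

/-- The cut off function. -/
noncomputable def AprioriEta (c t : ℝ) : ℝ := 1 - Real.smoothTransition (t - c)

lemma AprioriEta_contDiff (c : ℝ) : ContDiff ℝ ∞ (AprioriEta c) := by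
  unfold AprioriEta
  exact contDiff_const.sub (Real.smoothTransition.contDiff.comp (contDiff_id.sub contDiff_const))

lemma AprioriEta_nonneg (c t : ℝ) : 0 ≤ AprioriEta c t :=
  sub_nonneg.2 (Real.smoothTransition.le_one _)

lemma AprioriEta_le_one (c t : ℝ) : AprioriEta c t ≤ 1 :=
  sub_le_self _ (Real.smoothTransition.nonneg _)

lemma AprioriEta_one {c t : ℝ} (h : t ≤ c) : AprioriEta c t = 1 := by
  unfold AprioriEta
  rw [Real.smoothTransition.zero_of_nonpos (by linarith), sub_zero]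

lemma AprioriEta_zero {c t : ℝ} (h : c + 1 ≤ t) : AprioriEta c t = 0 := by
  unfold AprioriEta
  rw [Real.smoothTransition.one_of_one_le (by linarith), sub_self]

lemma AprioriEta_fderiv {C₀ : ℝ} (hC : ∀ t, |deriv Real.smoothTransition t| ≤ C₀) (c t : ℝ) :
    ‖fderiv ℝ (AprioriEta c) t‖ ≤ C₀ := by
  rw [← norm_deriv_eq_norm_fderiv]
  have h1 : deriv (AprioriEta c) t = - deriv Real.smoothTransition (t - c) := by
    have h2 : AprioriEta c = fun t => 1 - Real.smoothTransition (t - c) := rfl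
    rw [h2, deriv_const_sub, deriv_comp_sub_const]
  rw [h1, norm_neg, Real.norm_eq_abs]
  exact hC _

lemma Apriori_dR_eta {C₀ : ℝ} (hC : ∀ t, |deriv Real.smoothTransition t| ≤ C₀) (c : ℝ)
    {s : X → ℝ} (hs : Sm X s) (x : X) :
    ‖dR X (fun y => AprioriEta c (s y)) x‖ ≤ C₀ * ‖dR X s x‖ := by
  rw [dR_comp (hs x) ((AprioriEta_contDiff c).differentiable (by simp) _)]
  refine (ContinuousLinearMap.opNorm_comp_le _ _).trans ?_
  exact mul_le_mul_of_nonneg_right (AprioriEta_fderiv hC c _) (norm_nonneg _)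

/-- The bound for the gradient of the cut off function. -/
lemma Apriori_gsq_eta {C₀ c₀ : ℝ} (hC : ∀ t, |deriv Real.smoothTransition t| ≤ C₀)
    {s Ψ : X → ℝ} (hs : Sm X s)
    (hg : ∀ x, c₀ ≤ s x → C₀ ^ 2 * n * ‖dR X s x‖ ^ 2 ≤ Real.exp (Ψ x)) {c : ℝ} (hc : c₀ ≤ c)
    (x : X) : gsq X (fun y => AprioriEta c (s y)) x * Real.exp (-Ψ x) ≤ 1 := by
  rcases lt_or_ge (s x) c with h | h
  · have h1 : (fun y => AprioriEta c (s y)) =ᶠ[𝓝 x] fun _ => 1 := by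
      filter_upwards [hs.continuous.continuousAt.eventually (gt_mem_nhds h)] with y hy
      exact AprioriEta_one hy.le
    rw [Apriori_gsq_congr h1, Apriori_gsq_const]
    simp
  · have h1 := Apriori_gsq_le (hs.comp (AprioriEta_contDiff c) x)
    have h2 : ‖dR X (fun y => AprioriEta c (s y)) x‖ ^ 2 ≤ (C₀ * ‖dR X s x‖) ^ 2 :=
      pow_le_pow_left₀ (norm_nonneg _) (Apriori_dR_eta hC c hs x) 2
    have h3 : gsq X (fun y => AprioriEta c (s y)) x ≤ Real.exp (Ψ x) := by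
      calc gsq X (fun y => AprioriEta c (s y)) x ≤
          n * ‖dR X (fun y => AprioriEta c (s y)) x‖ ^ 2 := h1
        _ ≤ n * (C₀ * ‖dR X s x‖) ^ 2 := by gcongr
        _ = C₀ ^ 2 * n * ‖dR X s x‖ ^ 2 := by ring
        _ ≤ _ := hg x (hc.trans h)
    calc gsq X (fun y => AprioriEta c (s y)) x * Real.exp (-Ψ x) ≤
        Real.exp (Ψ x) * Real.exp (-Ψ x) := by gcongr
      _ = 1 := by rw [← Real.exp_add]; simp

/-- Step 2: the estimate for the cut off functions of `s`. -/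
lemma Apriori_level (hAprC : S_AprC) {μ : Measure X} (hμ : Pull X μ) {φ Ψ s : X → ℝ}
    (hφ : Sm X φ) (hΨ : Sm X Ψ) (hs : Exh X s) (hΨ0 : ∀ x, 0 ≤ Ψ x)
    (hL : ∀ x w, 2 * (gsq X Ψ x + Real.exp (Ψ x)) * nsq w ≤ Lev X φ x w)
    {C₀ : ℝ} (hC : ∀ t, |deriv Real.smoothTransition t| ≤ C₀)
    {f : Fin n → X → ℂ} {v : X → ℂ} (hf : ∀ j, AEStronglyMeasurable (f j) μ)
    (hv : AEStronglyMeasurable v μ)
    (hA : Integrable (fun x => (∑ j, ‖f j x‖ ^ 2) * Real.exp (-(φ x - Ψ x))) μ)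
    (hB : Integrable (fun x => ‖v x‖ ^ 2 * Real.exp (-(φ x - 2 * Ψ x))) μ)
    (hT : WT X μ (fun x => φ x - 2 * Ψ x) (fun x => φ x - Ψ x) f v) (hW : WC X μ f)
    {ε : ℝ} (hε : 0 < ε) (c : ℝ) :
    ∫ x, (AprioriEta c (s x)) ^ 2 * ((∑ j, ‖f j x‖ ^ 2) * Real.exp (-(φ x - Ψ x))) ∂μ ≤
      (1 + ε) * ∫ x, (AprioriEta c (s x)) ^ 2 * (‖v x‖ ^ 2 * Real.exp (-(φ x - 2 * Ψ x))) ∂μ +
      (2 + 1 / ε) * ∫ x, (gsq X (fun y => AprioriEta c (s y)) x * Real.exp (-Ψ x)) *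
        ((∑ j, ‖f j x‖ ^ 2) * Real.exp (-(φ x - Ψ x))) ∂μ := by
  obtain ⟨C, κ, hκ, hκ2, hκ3⟩ := hs.cut (c + 2)
  obtain ⟨B, hBd⟩ := hs.grad (c + 2)
  have hsc : Continuous s := hs.sm.continuous
  have hηs : Sm X (fun y => AprioriEta c (s y)) := hs.sm.comp (AprioriEta_contDiff c)
  set ρ : ℕ → X → ℝ := fun ν x => AprioriEta c (s x) * κ ν x with hρdef
  have hρCS : ∀ ν, CS X (ρ ν) := fun ν => ⟨hηs.mul (hκ ν).1.1, (hκ ν).1.2.mul_left⟩
  have hC₀ : 0 ≤ C₀ := (abs_nonneg _).trans (hC 0)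
  -- local integrability
  have hloc : ∀ K : Set X, IsCompact K → (∀ j, IntegrableOn (fun x => ‖f j x‖ ^ 2) K μ) ∧
      IntegrableOn (fun x => ‖v x‖ ^ 2) K μ := by
    intro K hK
    constructor
    · intro j
      have hc1 : Continuous fun x => Real.exp (φ x - Ψ x) :=
        Real.continuous_exp.comp (hφ.continuous.sub hΨ.continuous)
      obtain ⟨M, hM⟩ := hK.exists_bound_of_continuousOn hc1.continuousOn
      refine (hA.integrableOn.const_mul M).mono' (((hf j).norm.pow 2).restrict) ?_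
      refine (ae_restrict_iff' hK.measurableSet).2 (ae_of_all _ fun x hx => ?_)
      have h1 : Real.exp (φ x - Ψ x) ≤ M := (le_abs_self _).trans (hM x hx)
      have h2 : ‖f j x‖ ^ 2 ≤ ∑ j, ‖f j x‖ ^ 2 :=
        Finset.single_le_sum (f := fun j => ‖f j x‖ ^ 2) (fun _ _ => by positivity)
          (Finset.mem_univ j)
      rw [Real.norm_of_nonneg (by positivity)]
      calc ‖f j x‖ ^ 2 ≤ (∑ j, ‖f j x‖ ^ 2) := h2
        _ = Real.exp (φ x - Ψ x) * ((∑ j, ‖f j x‖ ^ 2) * Real.exp (-(φ x - Ψ x))) := by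
            rw [mul_comm (Real.exp (φ x - Ψ x)), mul_assoc, ← Real.exp_add]; simp
        _ ≤ M * ((∑ j, ‖f j x‖ ^ 2) * Real.exp (-(φ x - Ψ x))) := by gcongr
    · have hc1 : Continuous fun x => Real.exp (φ x - 2 * Ψ x) :=
        Real.continuous_exp.comp (hφ.continuous.sub (continuous_const.mul hΨ.continuous))
      obtain ⟨M, hM⟩ := hK.exists_bound_of_continuousOn hc1.continuousOn
      refine (hB.integrableOn.const_mul M).mono' ((hv.norm.pow 2).restrict) ?_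
      refine (ae_restrict_iff' hK.measurableSet).2 (ae_of_all _ fun x hx => ?_)
      have h1 : Real.exp (φ x - 2 * Ψ x) ≤ M := (le_abs_self _).trans (hM x hx)
      rw [Real.norm_of_nonneg (by positivity)]
      calc ‖v x‖ ^ 2
        _ = Real.exp (φ x - 2 * Ψ x) * (‖v x‖ ^ 2 * Real.exp (-(φ x - 2 * Ψ x))) := by
            rw [mul_comm (Real.exp (φ x - 2 * Ψ x)), mul_assoc, ← Real.exp_add]; simp
        _ ≤ M * (‖v x‖ ^ 2 * Real.exp (-(φ x - 2 * Ψ x))) := by gcongr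
  have hstep : ∀ ν, ∫ x, (ρ ν x) ^ 2 * ((∑ j, ‖f j x‖ ^ 2) * Real.exp (-(φ x - Ψ x))) ∂μ ≤
      (1 + ε) * ∫ x, (ρ ν x) ^ 2 * (‖v x‖ ^ 2 * Real.exp (-(φ x - 2 * Ψ x))) ∂μ +
      (2 + 1 / ε) * ∫ x, (gsq X (ρ ν) x * Real.exp (-Ψ x)) *
        ((∑ j, ‖f j x‖ ^ 2) * Real.exp (-(φ x - Ψ x))) ∂μ := by
    intro ν
    exact Apriori_step hΨ hA hB (hρCS ν)
      (hAprC n X μ hμ φ Ψ hφ hΨ hL f v hf hv hloc hT hW (ρ ν) (hρCS ν)) hε
  -- eventual equality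
  have hev : ∀ x, ∀ᶠ ν in atTop, ρ ν =ᶠ[𝓝 x] fun y => AprioriEta c (s y) := by
    intro x
    rcases lt_or_ge (s x) (c + 2) with h | h
    · filter_upwards [hκ3 x h] with ν hν
      filter_upwards [hν] with y hy
      simp [hρdef, hy]
    · refine Eventually.of_forall fun ν => ?_
      have h1 : c + 1 < s x := by linarith
      filter_upwards [hsc.continuousAt.eventually (lt_mem_nhds h1)] with y hy
      simp [hρdef, AprioriEta_zero hy.le]
  have hρ1 : ∀ ν x, |ρ ν x| ≤ 1 := by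
    intro ν x
    rw [hρdef]
    simp only
    rw [abs_of_nonneg (mul_nonneg (AprioriEta_nonneg _ _) ((hκ ν).2 x).1)]
    exact mul_le_one₀ (AprioriEta_le_one _ _) ((hκ ν).2 x).1 ((hκ ν).2 x).2
  have hρ2 : ∀ ν x, ρ ν x ^ 2 ≤ 1 := by
    intro ν x
    rw [← sq_abs]
    exact pow_le_one₀ (abs_nonneg _) (hρ1 ν x)
  have hρsm : ∀ ν, Continuous (ρ ν) := fun ν => (hρCS ν).1.continuous
  -- the bound for gsq
  have hM : ∀ ν x, gsq X (ρ ν) x * Real.exp (-Ψ x) ≤ n * (C + C₀ * B) ^ 2 := by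
    intro ν x
    rcases lt_or_ge (s x) (c + 2) with h | h
    · have h1 : dR X (ρ ν) x = AprioriEta c (s x) • dR X (κ ν) x +
          κ ν x • dR X (fun y => AprioriEta c (s y)) x := dR_mul (hηs x) ((hκ ν).1.1 x)
      have h2 : ‖dR X (ρ ν) x‖ ≤ C + C₀ * B := by
        rw [h1]
        refine (norm_add_le _ _).trans ?_
        rw [norm_smul, norm_smul, Real.norm_of_nonneg (AprioriEta_nonneg _ _),
          Real.norm_of_nonneg ((hκ ν).2 x).1]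
        have h3 : AprioriEta c (s x) * ‖dR X (κ ν) x‖ ≤ 1 * C :=
          mul_le_mul (AprioriEta_le_one _ _) (hκ2 ν x h) (norm_nonneg _) zero_le_one
        have h4 : κ ν x * ‖dR X (fun y => AprioriEta c (s y)) x‖ ≤ 1 * (C₀ * B) := by
          apply mul_le_mul ((hκ ν).2 x).2 _ (norm_nonneg _) zero_le_one
          exact (Apriori_dR_eta hC c hs.sm x).trans (mul_le_mul_of_nonneg_left (hBd x h.le) hC₀)
        linarith
      have h5 := Apriori_gsq_le ((hρCS ν).1 x)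
      have h6 : ‖dR X (ρ ν) x‖ ^ 2 ≤ (C + C₀ * B) ^ 2 := pow_le_pow_left₀ (norm_nonneg _) h2 2
      have h7 : Real.exp (-Ψ x) ≤ 1 := Real.exp_le_one_iff.2 (by have := hΨ0 x; linarith)
      calc gsq X (ρ ν) x * Real.exp (-Ψ x) ≤ gsq X (ρ ν) x * 1 :=
            mul_le_mul_of_nonneg_left h7 (Apriori_gsq_nonneg _ _)
        _ = gsq X (ρ ν) x := mul_one _
        _ ≤ n * ‖dR X (ρ ν) x‖ ^ 2 := h5
        _ ≤ n * (C + C₀ * B) ^ 2 := by gcongr
    · have h1 : c + 1 < s x := by linarith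
      have h2 : ρ ν =ᶠ[𝓝 x] fun _ => (0 : ℝ) := by
        filter_upwards [hsc.continuousAt.eventually (lt_mem_nhds h1)] with y hy
        simp [hρdef, AprioriEta_zero hy.le]
      rw [Apriori_gsq_congr h2, Apriori_gsq_const, zero_mul]
      positivity
  have hAn : ∀ x, 0 ≤ (∑ j, ‖f j x‖ ^ 2) * Real.exp (-(φ x - Ψ x)) := fun x => by positivity
  have hBn : ∀ x, 0 ≤ ‖v x‖ ^ 2 * Real.exp (-(φ x - 2 * Ψ x)) := fun x => by positivity
  have t1 : Tendsto (fun ν => ∫ x, (ρ ν x) ^ 2 * ((∑ j, ‖f j x‖ ^ 2) *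
      Real.exp (-(φ x - Ψ x))) ∂μ) atTop
      (𝓝 (∫ x, (AprioriEta c (s x)) ^ 2 * ((∑ j, ‖f j x‖ ^ 2) *
        Real.exp (-(φ x - Ψ x))) ∂μ)) := by
    apply tendsto_integral_of_dominated_convergence
      (fun x => (∑ j, ‖f j x‖ ^ 2) * Real.exp (-(φ x - Ψ x)))
    · exact fun ν => ((hρsm ν).pow 2).aestronglyMeasurable.mul hA.aestronglyMeasurable
    · exact hA
    · intro ν
      refine ae_of_all _ fun x => ?_
      rw [Real.norm_of_nonneg (mul_nonneg (by positivity) (hAn x))]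
      calc _ ≤ 1 * ((∑ j, ‖f j x‖ ^ 2) * Real.exp (-(φ x - Ψ x))) :=
            mul_le_mul_of_nonneg_right (hρ2 ν x) (hAn x)
        _ = _ := one_mul _
    · refine ae_of_all _ fun x => ?_
      apply tendsto_const_nhds.congr'
      filter_upwards [hev x] with ν hν
      rw [hν.self_of_nhds]
  have t2 : Tendsto (fun ν => ∫ x, (ρ ν x) ^ 2 * (‖v x‖ ^ 2 *
      Real.exp (-(φ x - 2 * Ψ x))) ∂μ) atTop
      (𝓝 (∫ x, (AprioriEta c (s x)) ^ 2 * (‖v x‖ ^ 2 *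
        Real.exp (-(φ x - 2 * Ψ x))) ∂μ)) := by
    apply tendsto_integral_of_dominated_convergence
      (fun x => ‖v x‖ ^ 2 * Real.exp (-(φ x - 2 * Ψ x)))
    · exact fun ν => ((hρsm ν).pow 2).aestronglyMeasurable.mul hB.aestronglyMeasurable
    · exact hB
    · intro ν
      refine ae_of_all _ fun x => ?_
      rw [Real.norm_of_nonneg (mul_nonneg (by positivity) (hBn x))]
      calc _ ≤ 1 * (‖v x‖ ^ 2 * Real.exp (-(φ x - 2 * Ψ x))) :=
            mul_le_mul_of_nonneg_right (hρ2 ν x) (hBn x)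
        _ = _ := one_mul _
    · refine ae_of_all _ fun x => ?_
      apply tendsto_const_nhds.congr'
      filter_upwards [hev x] with ν hν
      rw [hν.self_of_nhds]
  have t3 : Tendsto (fun ν => ∫ x, (gsq X (ρ ν) x * Real.exp (-Ψ x)) * ((∑ j, ‖f j x‖ ^ 2) *
      Real.exp (-(φ x - Ψ x))) ∂μ) atTop
      (𝓝 (∫ x, (gsq X (fun y => AprioriEta c (s y)) x * Real.exp (-Ψ x)) *
        ((∑ j, ‖f j x‖ ^ 2) * Real.exp (-(φ x - Ψ x))) ∂μ)) := by
    apply tendsto_integral_of_dominated_convergence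
      (fun x => (n * (C + C₀ * B) ^ 2) * ((∑ j, ‖f j x‖ ^ 2) * Real.exp (-(φ x - Ψ x))))
    · exact fun ν => ((Apriori_gsq_continuous (hρCS ν).1).mul
        (Real.continuous_exp.comp hΨ.continuous.neg)).aestronglyMeasurable.mul
        hA.aestronglyMeasurable
    · exact hA.const_mul _
    · intro ν
      refine ae_of_all _ fun x => ?_
      rw [Real.norm_of_nonneg (mul_nonneg (mul_nonneg (Apriori_gsq_nonneg _ _) (by positivity))
        (hAn x))]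
      exact mul_le_mul_of_nonneg_right (hM ν x) (hAn x)
    · refine ae_of_all _ fun x => ?_
      apply tendsto_const_nhds.congr'
      filter_upwards [hev x] with ν hν
      rw [Apriori_gsq_congr hν]
  exact le_of_tendsto_of_tendsto' t1 ((t2.const_mul _).add (t3.const_mul _)) hstep

end Apriori

theorem s_Apriori (_hPullFacts : S_PullFacts) (hAprC : S_AprC) : S_Apriori := by
  intro n X μ hμ φ Ψ s hφ hΨ hs hΨ0 hL C₀ c₀ hC hg f v hf hv hA hB hT hW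
  have hAn : ∀ x, 0 ≤ (∑ j, ‖f j x‖ ^ 2) * Real.exp (-(φ x - Ψ x)) := fun x => by positivity
  have hBn : ∀ x, 0 ≤ ‖v x‖ ^ 2 * Real.exp (-(φ x - 2 * Ψ x)) := fun x => by positivity
  have hηs : ∀ c, Sm X (fun y => AprioriEta c (s y)) := fun c => hs.sm.comp (AprioriEta_contDiff c)
  have key : ∀ ε : ℝ, 0 < ε → ∫ x, (∑ j, ‖f j x‖ ^ 2) * Real.exp (-(φ x - Ψ x)) ∂μ ≤
      (1 + ε) * ∫ x, ‖v x‖ ^ 2 * Real.exp (-(φ x - 2 * Ψ x)) ∂μ + (2 + 1 / ε) * 0 := by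
    intro ε hε
    have hev : ∀ x, ∀ᶠ m : ℕ in atTop, ∀ᶠ y in 𝓝 x,
        AprioriEta ((m : ℝ) + ⌈c₀⌉₊) (s y) = 1 := by
      intro x
      have h1 : ∀ᶠ m : ℕ in atTop, s x < (m : ℝ) :=
        tendsto_natCast_atTop_atTop.eventually_gt_atTop (s x)
      filter_upwards [h1] with m hm
      have h2 : s x < (m : ℝ) + ⌈c₀⌉₊ := by
        have : (0 : ℝ) ≤ (⌈c₀⌉₊ : ℝ) := Nat.cast_nonneg _
        linarith
      filter_upwards [hs.sm.continuous.continuousAt.eventually (gt_mem_nhds h2)] with y hy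
      exact AprioriEta_one hy.le
    have hη2 : ∀ c t : ℝ, AprioriEta c t ^ 2 ≤ 1 := fun c t =>
      pow_le_one₀ (AprioriEta_nonneg _ _) (AprioriEta_le_one _ _)
    have t1 : Tendsto (fun m : ℕ => ∫ x, (AprioriEta ((m : ℝ) + ⌈c₀⌉₊) (s x)) ^ 2 *
        ((∑ j, ‖f j x‖ ^ 2) * Real.exp (-(φ x - Ψ x))) ∂μ) atTop
        (𝓝 (∫ x, (∑ j, ‖f j x‖ ^ 2) * Real.exp (-(φ x - Ψ x)) ∂μ)) := by
      apply tendsto_integral_of_dominated_convergence
        (fun x => (∑ j, ‖f j x‖ ^ 2) * Real.exp (-(φ x - Ψ x)))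
      · exact fun m => ((hηs _).continuous.pow 2).aestronglyMeasurable.mul hA.aestronglyMeasurable
      · exact hA
      · intro m
        refine ae_of_all _ fun x => ?_
        rw [Real.norm_of_nonneg (mul_nonneg (by positivity) (hAn x))]
        calc _ ≤ 1 * ((∑ j, ‖f j x‖ ^ 2) * Real.exp (-(φ x - Ψ x))) :=
              mul_le_mul_of_nonneg_right (hη2 _ _) (hAn x)
          _ = _ := one_mul _
      · refine ae_of_all _ fun x => ?_
        apply tendsto_const_nhds.congr'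
        filter_upwards [hev x] with m hm
        rw [hm.self_of_nhds]; ring
    have t2 : Tendsto (fun m : ℕ => ∫ x, (AprioriEta ((m : ℝ) + ⌈c₀⌉₊) (s x)) ^ 2 *
        (‖v x‖ ^ 2 * Real.exp (-(φ x - 2 * Ψ x))) ∂μ) atTop
        (𝓝 (∫ x, ‖v x‖ ^ 2 * Real.exp (-(φ x - 2 * Ψ x)) ∂μ)) := by
      apply tendsto_integral_of_dominated_convergence
        (fun x => ‖v x‖ ^ 2 * Real.exp (-(φ x - 2 * Ψ x)))
      · exact fun m => ((hηs _).continuous.pow 2).aestronglyMeasurable.mul hB.aestronglyMeasurable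
      · exact hB
      · intro m
        refine ae_of_all _ fun x => ?_
        rw [Real.norm_of_nonneg (mul_nonneg (by positivity) (hBn x))]
        calc _ ≤ 1 * (‖v x‖ ^ 2 * Real.exp (-(φ x - 2 * Ψ x))) :=
              mul_le_mul_of_nonneg_right (hη2 _ _) (hBn x)
          _ = _ := one_mul _
      · refine ae_of_all _ fun x => ?_
        apply tendsto_const_nhds.congr'
        filter_upwards [hev x] with m hm
        rw [hm.self_of_nhds]; ring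
    have t3 : Tendsto (fun m : ℕ => ∫ x, (gsq X (fun y => AprioriEta ((m : ℝ) + ⌈c₀⌉₊) (s y)) x *
        Real.exp (-Ψ x)) * ((∑ j, ‖f j x‖ ^ 2) * Real.exp (-(φ x - Ψ x))) ∂μ) atTop
        (𝓝 (∫ _x : X, (0 : ℝ) ∂μ)) := by
      apply tendsto_integral_of_dominated_convergence
        (fun x => (∑ j, ‖f j x‖ ^ 2) * Real.exp (-(φ x - Ψ x)))
      · exact fun m => ((Apriori_gsq_continuous (hηs _)).mul
          (Real.continuous_exp.comp hΨ.continuous.neg)).aestronglyMeasurable.mul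
          hA.aestronglyMeasurable
      · exact hA
      · intro m
        refine ae_of_all _ fun x => ?_
        have hc : c₀ ≤ (m : ℝ) + ⌈c₀⌉₊ := by
          have h1 := Nat.le_ceil c₀
          have h2 : (0 : ℝ) ≤ m := Nat.cast_nonneg _
          linarith
        rw [Real.norm_of_nonneg (mul_nonneg (mul_nonneg (Apriori_gsq_nonneg _ _) (by positivity))
          (hAn x))]
        calc _ ≤ 1 * ((∑ j, ‖f j x‖ ^ 2) * Real.exp (-(φ x - Ψ x))) :=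
              mul_le_mul_of_nonneg_right (Apriori_gsq_eta hC hs.sm hg hc x) (hAn x)
          _ = _ := one_mul _
      · refine ae_of_all _ fun x => ?_
        apply tendsto_const_nhds.congr'
        filter_upwards [hev x] with m hm
        have h1 : (fun y => AprioriEta ((m : ℝ) + ⌈c₀⌉₊) (s y)) =ᶠ[𝓝 x] fun _ => 1 := hm
        rw [Apriori_gsq_congr h1, Apriori_gsq_const]; ring
    rw [integral_zero] at t3
    refine le_of_tendsto_of_tendsto' t1 ((t2.const_mul _).add (t3.const_mul _)) fun m => ?_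
    exact Apriori_level hAprC hμ hφ hΨ hs hΨ0 hL hC hf hv hA hB hT hW hε _
  have hb : 0 ≤ ∫ x, ‖v x‖ ^ 2 * Real.exp (-(φ x - 2 * Ψ x)) ∂μ := integral_nonneg hBn
  apply le_of_forall_pos_le_add
  intro δ hδ
  set b := ∫ x, ‖v x‖ ^ 2 * Real.exp (-(φ x - 2 * Ψ x)) ∂μ with hbdef
  have h1 := key (δ / (b + 1)) (by positivity)
  have h2 : δ / (b + 1) * b ≤ δ := by
    rw [div_mul_eq_mul_div, div_le_iff₀ (by positivity)]
    nlinarith
  nlinarith

end Pool.Agent.Lib.MP_55bc5f_an
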