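import Pool.Agent.Lib.MP_55bc5f_an.Full.SpecL2

/-!
# The basic inequality
-/

set_option autoImplicit false

open scoped Manifold ContDiff Topology ComplexConjugate
open Set Filter Metric MeasureTheory

namespace Pool.Agent.Lib.MP_55bc5f_an

section

variable {n : ℕ} {X : Dom n}

/-- The second derivative is symmetric. -/
theorem Basic_symm {u : X → ℂ} {x : X} (hu : SmAt X u x) (v w : Cn n) :
    dR X (dR X u) x v w = dR X (dR X u) x w v := by
  obtain ⟨g, h1, h2⟩ := hu
  have h3 : dR X (dR X u) x = fderiv ℝ (fderiv ℝ g) (X.π x) := dR_eq (dR_eventually_eq h2)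
  rw [h3]
  exact (h1.isSymmSndFDerivAt (by
    rw [minSmoothness_of_isRCLikeNormedField]
    exact WithTop.coe_le_coe.2 (le_top (a := (2 : ℕ∞))))) v w

theorem Basic_dRwdb {u : X → ℂ} {x : X} (hu : SmAt X u x) (k : Fin n) (v : Cn n) :
    dR X (wdb X k u) x v = (1 / 2) * (dR X (dR X u) x v (Pi.single k 1) +
      Complex.I * dR X (dR X u) x v (Pi.single k Complex.I)) := by
  have h := dR_clm hu.dR ((1 / 2 : ℂ) • (ContinuousLinearMap.apply ℝ ℂ (Pi.single k 1 : Cn n) +
    Complex.I • ContinuousLinearMap.apply ℝ ℂ (Pi.single k Complex.I : Cn n)))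
  have h2 : wdb X k u = fun y => ((1 / 2 : ℂ) • (ContinuousLinearMap.apply ℝ ℂ
      (Pi.single k 1 : Cn n) + Complex.I • ContinuousLinearMap.apply ℝ ℂ
        (Pi.single k Complex.I : Cn n))) (dR X u y) := by
    funext y
    simp [wdb]
    ring
  rw [h2, h]
  simp
  ring

theorem Basic_dRwd {u : X → ℂ} {x : X} (hu : SmAt X u x) (k : Fin n) (v : Cn n) :
    dR X (wd X k u) x v = (1 / 2) * (dR X (dR X u) x v (Pi.single k 1) -
      Complex.I * dR X (dR X u) x v (Pi.single k Complex.I)) := by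
  have h := dR_clm hu.dR ((1 / 2 : ℂ) • (ContinuousLinearMap.apply ℝ ℂ (Pi.single k 1 : Cn n) -
    Complex.I • ContinuousLinearMap.apply ℝ ℂ (Pi.single k Complex.I : Cn n)))
  have h2 : wd X k u = fun y => ((1 / 2 : ℂ) • (ContinuousLinearMap.apply ℝ ℂ
      (Pi.single k 1 : Cn n) - Complex.I • ContinuousLinearMap.apply ℝ ℂ
        (Pi.single k Complex.I : Cn n))) (dR X u y) := by
    funext y
    simp [wd]
  rw [h2, h]
  simp

/-- `wd` and `wdb` commute. -/
theorem Basic_comm {u : X → ℂ} {x : X} (hu : SmAt X u x) (j k : Fin n) :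
    wdb X k (wd X j u) x = wd X j (wdb X k u) x := by
  rw [wdb, wd, Basic_dRwd hu, Basic_dRwd hu, Basic_dRwdb hu, Basic_dRwdb hu,
    Basic_symm hu (Pi.single k 1) (Pi.single j 1),
    Basic_symm hu (Pi.single k 1) (Pi.single j Complex.I),
    Basic_symm hu (Pi.single k Complex.I) (Pi.single j 1),
    Basic_symm hu (Pi.single k Complex.I) (Pi.single j Complex.I)]
  ring

theorem Basic_dRexp {φ : X → ℝ} (hφ : Sm X φ) (x : X) (v : Cn n) :
    dR X (fun y => Real.exp (-φ y)) x v = - Real.exp (-φ x) * dR X φ x v := by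
  have h1 : HasDerivAt (fun t : ℝ => Real.exp (-t)) (-(Real.exp (-φ x))) (φ x) := by
    simpa using (hasDerivAt_neg (φ x)).exp
  have h2 := dR_comp (hφ x) (F := fun t : ℝ => Real.exp (-t)) h1.differentiableAt
  rw [h2, h1.hasFDerivAt.fderiv]
  simp [mul_comm]

theorem Basic_smE {φ : X → ℝ} (hφ : Sm X φ) : Sm X (fun y => ((Real.exp (-φ y) : ℝ) : ℂ)) := by
  have h : Sm X (fun y => Real.exp (-φ y)) :=
    hφ.comp (F := fun t : ℝ => Real.exp (-t)) (by fun_prop)
  exact h.ofReal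

theorem Basic_wdE {φ : X → ℝ} (hφ : Sm X φ) (j : Fin n) (x : X) :
    wd X j (fun y => ((Real.exp (-φ y) : ℝ) : ℂ)) x =
      -((Real.exp (-φ x) : ℝ) : ℂ) * wd X j (fun y => (φ y : ℂ)) x := by
  have h : Sm X (fun y => Real.exp (-φ y)) :=
    hφ.comp (F := fun t : ℝ => Real.exp (-t)) (by fun_prop)
  rw [wd, wd, dR_ofReal (h x), dR_ofReal (h x), dR_ofReal (hφ x), dR_ofReal (hφ x),
    Basic_dRexp hφ, Basic_dRexp hφ]
  push_cast
  ring

theorem Basic_wdbE {φ : X → ℝ} (hφ : Sm X φ) (j : Fin n) (x : X) :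
    wdb X j (fun y => ((Real.exp (-φ y) : ℝ) : ℂ)) x =
      -((Real.exp (-φ x) : ℝ) : ℂ) * wdb X j (fun y => (φ y : ℂ)) x := by
  have h : Sm X (fun y => Real.exp (-φ y)) :=
    hφ.comp (F := fun t : ℝ => Real.exp (-t)) (by fun_prop)
  rw [wdb, wdb, dR_ofReal (h x), dR_ofReal (h x), dR_ofReal (hφ x), dR_ofReal (hφ x),
    Basic_dRexp hφ, Basic_dRexp hφ]
  push_cast
  ring

theorem Basic_wdb_real {φ : X → ℝ} (hφ : Sm X φ) (j : Fin n) (x : X) :
    wdb X j (fun y => (φ y : ℂ)) x = conj (wd X j (fun y => (φ y : ℂ)) x) := by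
  have h := wdb_conj (hφ.ofReal x) j
  rw [← h]
  apply wdb_congr
  exact Eventually.of_forall fun y => by simp

theorem Basic_CS_wd {u : X → ℂ} (hu : CS X u) (j : Fin n) : CS X (wd X j u) :=
  ⟨hu.1.wd j, hu.2.mono' (by
    intro x hx
    by_contra h
    exact hx (by simp [wd, dR_of_notMem_tsupport h]))⟩

theorem Basic_CS_wdb {u : X → ℂ} (hu : CS X u) (j : Fin n) : CS X (wdb X j u) :=
  ⟨hu.1.wdb j, hu.2.mono' (by
    intro x hx
    by_contra h
    exact hx (by simp [wdb, dR_of_notMem_tsupport h]))⟩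

theorem Basic_CS_mul {u v : X → ℂ} (hu : Sm X u) (hv : CS X v) : CS X (fun y => u y * v y) :=
  ⟨hu.mul hv.1, hv.2.mul_left⟩

theorem Basic_CS_mul' {u v : X → ℂ} (hu : CS X u) (hv : Sm X v) : CS X (fun y => u y * v y) :=
  ⟨hu.1.mul hv, hu.2.mul_right⟩

theorem Basic_CS_conj {u : X → ℂ} (hu : CS X u) : CS X (fun y => conj (u y)) :=
  ⟨hu.1.conj, hu.2.comp_left (g := conj) (by simp)⟩

theorem Basic_CS_sub {u v : X → ℂ} (hu : CS X u) (hv : CS X v) : CS X (fun y => u y - v y) :=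
  ⟨hu.1.sub hv.1, hu.2.sub hv.2⟩

theorem Basic_CS_sum {ι : Type} (s : Finset ι) {u : ι → X → ℂ} (hu : ∀ i, CS X (u i)) :
    CS X (fun y => ∑ i ∈ s, u i y) := by
  classical
  refine ⟨Sm.sum fun i _ => (hu i).1, ?_⟩
  induction s using Finset.induction_on with
  | empty =>
    simp only [Finset.sum_empty]
    exact HasCompactSupport.zero
  | insert a s ha ih =>
    simp only [Finset.sum_insert ha]
    exact (hu a).2.add ih

theorem Basic_CS_int {μ : Measure X} [IsFiniteMeasureOnCompacts μ] {u : X → ℂ} (hu : CS X u) :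
    Integrable u μ := hu.1.continuous.integrable_of_hasCompactSupport hu.2

/-- The pointwise identity. -/
theorem Basic_pt {φ : X → ℝ} (hφ : Sm X φ) {f : Fin n → X → ℂ} (hf : ∀ j, Sm X (f j))
    (j k : Fin n) (x : X) :
    wdb X k (fun y => (wd X j (f j) y - f j y * wd X j (fun y => (φ y : ℂ)) y) *
        (conj (f k y) * ((Real.exp (-φ y) : ℝ) : ℂ))) x -
      wd X j (fun y => wdb X k (f j) y * (conj (f k y) * ((Real.exp (-φ y) : ℝ) : ℂ))) x =
    ((wd X j (f j) x - f j x * wd X j (fun y => (φ y : ℂ)) x) *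
        conj (wd X k (f k) x - f k x * wd X k (fun y => (φ y : ℂ)) x) -
      wd X j (wdb X k (fun y => (φ y : ℂ))) x * f j x * conj (f k x) -
      wdb X k (f j) x * conj (wdb X j (f k) x)) * ((Real.exp (-φ x) : ℝ) : ℂ) := by
  have hΦ : Sm X (fun y => (φ y : ℂ)) := hφ.ofReal
  have hE := Basic_smE hφ
  have hδ : SmAt X (fun y => wd X j (f j) y - f j y * wd X j (fun y => (φ y : ℂ)) y) x :=
    (((hf j).wd j).sub ((hf j).mul (hΦ.wd j))) x
  have hcE : SmAt X (fun y => conj (f k y) * ((Real.exp (-φ y) : ℝ) : ℂ)) x :=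
    ((hf k).conj.mul hE) x
  rw [wdb_mul hδ hcE, wd_mul ((hf j).wdb k x) hcE,
    wdb_mul ((hf k).conj x) (hE x), wd_mul ((hf k).conj x) (hE x),
    wdb_sub ((hf j).wd j x) (((hf j).mul (hΦ.wd j)) x),
    wdb_mul (hf j x) (hΦ.wd j x), Basic_wdE hφ, Basic_wdbE hφ, wd_conj (hf k x), wdb_conj (hf k x),
    Basic_wdb_real hφ k x, Basic_comm (hf j x), Basic_comm (hΦ x)]
  simp only [map_sub, map_mul]
  ring

end

theorem s_Basic (hPullFacts : S_PullFacts) (hIBP : S_IBP) (hLevSum : S_LevSum) : S_Basic := by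
  intro n X μ hμ φ hφ f hf
  have : IsFiniteMeasureOnCompacts μ := (hPullFacts n X μ hμ).1
  have hΦ : Sm X (fun y => (φ y : ℂ)) := hφ.ofReal
  have hE := Basic_smE hφ
  set E : X → ℂ := fun y => ((Real.exp (-φ y) : ℝ) : ℂ) with hEdef
  set δ : Fin n → X → ℂ := fun j y => wd X j (f j) y - f j y * wd X j (fun y => (φ y : ℂ)) y
    with hδdef
  have hδ : ∀ j, CS X (δ j) := fun j =>
    Basic_CS_sub (Basic_CS_wd (hf j) j) (Basic_CS_mul' (hf j) (hΦ.wd j))
  have hcE : ∀ k, CS X (fun y => conj (f k y) * E y) := fun k =>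
    Basic_CS_mul' (Basic_CS_conj (hf k)) hE
  have hG : ∀ j k, CS X (fun y => δ j y * (conj (f k y) * E y)) := fun j k =>
    Basic_CS_mul (hδ j).1 (hcE k)
  have hH : ∀ j k, CS X (fun y => wdb X k (f j) y * (conj (f k y) * E y)) := fun j k =>
    Basic_CS_mul ((hf j).1.wdb k) (hcE k)
  have hD0 : ∫ x, (∑ j, ∑ k, (wdb X k (fun y => δ j y * (conj (f k y) * E y)) x -
      wd X j (fun y => wdb X k (f j) y * (conj (f k y) * E y)) x)) ∂μ = 0 := by
    have hint : ∀ j k, Integrable (fun x => wdb X k (fun y => δ j y * (conj (f k y) * E y)) x -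
        wd X j (fun y => wdb X k (f j) y * (conj (f k y) * E y)) x) μ := fun j k =>
      (Basic_CS_int (Basic_CS_wdb (hG j k) k)).sub (Basic_CS_int (Basic_CS_wd (hH j k) j))
    rw [integral_finsetSum _ (fun j _ => integrable_finsetSum _ fun k _ => hint j k)]
    refine Finset.sum_eq_zero fun j _ => ?_
    rw [integral_finsetSum _ (fun k _ => hint j k)]
    refine Finset.sum_eq_zero fun k _ => ?_
    rw [integral_sub (Basic_CS_int (Basic_CS_wdb (hG j k) k))
      (Basic_CS_int (Basic_CS_wd (hH j k) j)), (hIBP n X μ hμ _ (hG j k)).2.2 k,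
      (hIBP n X μ hμ _ (hH j k)).2.1 j, sub_zero]
  -- the four real integrands
  set I1 : X → ℝ := fun x => Lev X φ x (fun j => f j x) * Real.exp (-φ x) with hI1
  set I2 : X → ℝ := fun x => ‖∑ j, δ j x‖ ^ 2 * Real.exp (-φ x) with hI2
  set I3 : X → ℝ := fun x => (∑ j, ∑ k, ‖wdb X j (f k) x - wdb X k (f j) x‖ ^ 2) *
    Real.exp (-φ x) with hI3
  set I4 : X → ℝ := fun x => (∑ j, ∑ k, ‖wdb X k (f j) x‖ ^ 2) * Real.exp (-φ x) with hI4
  have hnn : ∀ z : ℂ, ((‖z‖ ^ 2 : ℝ) : ℂ) = z * conj z := fun z => by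
    rw [Complex.mul_conj, Complex.normSq_eq_norm_sq]
  have e1 : ∀ x, ((I1 x : ℝ) : ℂ) = (∑ j, ∑ k, wd X j (wdb X k (fun y => (φ y : ℂ))) x * f j x *
      conj (f k x)) * E x := by
    intro x
    simp only [hI1, Complex.ofReal_mul]
    rw [hLevSum n X φ hφ]
  have e2 : ∀ x, ((I2 x : ℝ) : ℂ) = (∑ j, ∑ k, δ j x * conj (δ k x)) * E x := by
    intro x
    simp only [hI2, Complex.ofReal_mul]
    rw [hnn, map_sum, Finset.sum_mul_sum]
  have e3 : ∀ x, ((I3 x : ℝ) : ℂ) = (∑ j, ∑ k, (wdb X j (f k) x - wdb X k (f j) x) *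
      conj (wdb X j (f k) x - wdb X k (f j) x)) * E x := by
    intro x
    simp only [hI3, Complex.ofReal_mul, Complex.ofReal_sum, hnn]
    rfl
  have e4 : ∀ x, ((I4 x : ℝ) : ℂ) = (∑ j, ∑ k, wdb X k (f j) x * conj (wdb X k (f j) x)) *
      E x := by
    intro x
    simp only [hI4, Complex.ofReal_mul, Complex.ofReal_sum, hnn]
    rfl
  have hw : ∀ j k, CS X (wdb X k (f j)) := fun j k => Basic_CS_wdb (hf j) k
  have i1 : Integrable I1 μ := by
    have : Integrable (fun x => ((I1 x : ℝ) : ℂ)) μ := by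
      simp only [e1]
      exact Basic_CS_int (Basic_CS_mul' (Basic_CS_sum _ fun j => Basic_CS_sum _ fun k =>
        Basic_CS_mul' (Basic_CS_mul ((hΦ.wdb k).wd j) (hf j)) (hf k).1.conj) hE)
    simpa using this.re
  have i2 : Integrable I2 μ := by
    have : Integrable (fun x => ((I2 x : ℝ) : ℂ)) μ := by
      simp only [e2]
      exact Basic_CS_int (Basic_CS_mul' (Basic_CS_sum _ fun j => Basic_CS_sum _ fun k =>
        Basic_CS_mul' (hδ j) (hδ k).1.conj) hE)
    simpa using this.re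
  have i3 : Integrable I3 μ := by
    have : Integrable (fun x => ((I3 x : ℝ) : ℂ)) μ := by
      simp only [e3]
      exact Basic_CS_int (Basic_CS_mul' (Basic_CS_sum _ fun j => Basic_CS_sum _ fun k =>
        Basic_CS_mul' (Basic_CS_sub (hw k j) (hw j k)) ((hw k j).1.sub (hw j k).1).conj) hE)
    simpa using this.re
  have i4 : Integrable I4 μ := by
    have : Integrable (fun x => ((I4 x : ℝ) : ℂ)) μ := by
      simp only [e4]
      exact Basic_CS_int (Basic_CS_mul' (Basic_CS_sum _ fun j => Basic_CS_sum _ fun k =>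
        Basic_CS_mul' (hw j k) (hw j k).1.conj) hE)
    simpa using this.re
  have hpt : ∀ x, (∑ j, ∑ k, (wdb X k (fun y => δ j y * (conj (f k y) * E y)) x -
      wd X j (fun y => wdb X k (f j) y * (conj (f k y) * E y)) x)) =
      ((I2 x + (1 / 2) * I3 x - I1 x - I4 x : ℝ) : ℂ) := by
    intro x
    have h1 : (∑ j, ∑ k, (wdb X k (fun y => δ j y * (conj (f k y) * E y)) x -
        wd X j (fun y => wdb X k (f j) y * (conj (f k y) * E y)) x)) =
        ∑ j, ∑ k, ((δ j x * conj (δ k x) -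
          wd X j (wdb X k (fun y => (φ y : ℂ))) x * f j x * conj (f k x) -
          wdb X k (f j) x * conj (wdb X j (f k) x)) * E x) :=
      Finset.sum_congr rfl fun j _ => Finset.sum_congr rfl fun k _ =>
        Basic_pt hφ (fun j => (hf j).1) j k x
    rw [h1]
    push_cast
    rw [e1, e2, e3, e4]
    have h2 : (∑ j, ∑ k, ((wdb X j (f k) x - wdb X k (f j) x) *
        conj (wdb X j (f k) x - wdb X k (f j) x))) =
        2 * (∑ j, ∑ k, wdb X k (f j) x * conj (wdb X k (f j) x)) -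
        2 * (∑ j, ∑ k, wdb X k (f j) x * conj (wdb X j (f k) x)) := by
      have h3 : (∑ j, ∑ k, wdb X j (f k) x * conj (wdb X j (f k) x)) =
          ∑ j, ∑ k, wdb X k (f j) x * conj (wdb X k (f j) x) := Finset.sum_comm
      have h4 : (∑ j, ∑ k, wdb X j (f k) x * conj (wdb X k (f j) x)) =
          ∑ j, ∑ k, wdb X k (f j) x * conj (wdb X j (f k) x) := Finset.sum_comm
      have h5 : (∑ j, ∑ k, ((wdb X j (f k) x - wdb X k (f j) x) *
          conj (wdb X j (f k) x - wdb X k (f j) x))) =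
          (∑ j, ∑ k, wdb X j (f k) x * conj (wdb X j (f k) x)) -
          (∑ j, ∑ k, wdb X j (f k) x * conj (wdb X k (f j) x)) -
          (∑ j, ∑ k, wdb X k (f j) x * conj (wdb X j (f k) x)) +
          (∑ j, ∑ k, wdb X k (f j) x * conj (wdb X k (f j) x)) := by
        simp only [← Finset.sum_sub_distrib, ← Finset.sum_add_distrib]
        refine Finset.sum_congr rfl fun j _ => Finset.sum_congr rfl fun k _ => ?_
        simp only [map_sub]
        ring
      rw [h5, h3, h4]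
      ring
    rw [h2]
    simp only [← Finset.sum_mul, Finset.sum_sub_distrib]
    ring
  have hfin : ∫ x, (I2 x + (1 / 2) * I3 x - I1 x - I4 x) ∂μ = 0 := by
    have h1 : ((∫ x, (I2 x + (1 / 2) * I3 x - I1 x - I4 x) ∂μ : ℝ) : ℂ) = 0 := by
      rw [← integral_complex_ofReal, ← hD0]
      exact integral_congr_ae (Eventually.of_forall fun x => (hpt x).symm)
    exact_mod_cast h1
  have i3' : Integrable (fun x => (1 / 2) * I3 x) μ := i3.const_mul _
  have i23 : Integrable (fun x => I2 x + (1 / 2) * I3 x) μ := i2.add i3'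
  have i231 : Integrable (fun x => I2 x + (1 / 2) * I3 x - I1 x) μ := i23.sub i1
  rw [integral_sub i231 i4, integral_sub i23 i1, integral_add i2 i3',
    integral_const_mul] at hfin
  have h4 : 0 ≤ ∫ x, I4 x ∂μ := by
    refine integral_nonneg fun x => ?_
    simp only [hI4]
    positivity
  linarith

end Pool.Agent.Lib.MP_55bc5f_an
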