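import Pool.Agent.Lib.MP_55bc5f_an.Full.SpecL2

/-!
# The main estimate of the `L²` theorem on domains étale over `ℂⁿ`
-/

set_option autoImplicit false

open scoped Manifold ContDiff Topology ComplexConjugate
open Set Filter Metric MeasureTheory

namespace Pool.Agent.Lib.MP_55bc5f_an

section EstPointwise

variable {n : ℕ} {X : Dom n}

private lemma Est_nsq_nonneg (w : Cn n) : 0 ≤ nsq w :=
  Finset.sum_nonneg fun j _ => by positivity

private lemma Est_two {W : Type} [NormedAddCommGroup W] [NormedSpace ℝ W] {φ : X → W} {x : X}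
    (h : SmAt X φ x) (v w : Cn n) :
    dR X (dR X φ) x v w = dR X (fun y => dR X φ y w) x v := by
  have h1 := dR_clm h.dR (ContinuousLinearMap.apply ℝ W w)
  have h2 : (fun y => (ContinuousLinearMap.apply ℝ W w) (dR X φ y)) = fun y => dR X φ y w := rfl
  rw [h2] at h1
  rw [h1]
  rfl

private lemma Est_dir {W : Type} [NormedAddCommGroup W] [NormedSpace ℝ W] {φ : X → W} {x : X}
    (h : SmAt X φ x) (w : Cn n) :
    SmAt X (fun y => dR X φ y w) x := h.dR.clm (ContinuousLinearMap.apply ℝ W w)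

private lemma Est_symm {u : X → ℂ} {x : X} (h : SmAt X u x) (v w : Cn n) :
    dR X (dR X u) x v w = dR X (dR X u) x w v := by
  obtain ⟨g, h1, h2⟩ := h
  rw [dR_eq (dR_eventually_eq h2)]
  have h3 := h1.isSymmSndFDerivAt (by simp only [minSmoothness_of_isRCLikeNormedField]
                                      exact WithTop.coe_le_coe.2 (le_top (a := (2 : ℕ∞))))
  exact h3 v w

/-- The derivatives with respect to `z̄_j` and `z̄_k` commute. -/
private lemma Est_comm {u : X → ℂ} {x : X} (h : SmAt X u x) (j k : Fin n) :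
    wdb X j (wdb X k u) x = wdb X k (wdb X j u) x := by
  have key : ∀ (k : Fin n) (v : Cn n), dR X (wdb X k u) x v =
      (1 / 2) * (dR X (dR X u) x v (Pi.single k 1) +
        Complex.I * dR X (dR X u) x v (Pi.single k Complex.I)) := by
    intro k v
    have e1 : wdb X k u = fun y => (1 / 2) * (dR X u y (Pi.single k 1) +
        Complex.I * dR X u y (Pi.single k Complex.I)) := rfl
    have s1 := Est_dir h (Pi.single k 1)
    have s2 := Est_dir h (Pi.single k Complex.I)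
    have s3 : SmAt X (fun y => Complex.I * dR X u y (Pi.single k Complex.I)) x :=
      (SmAt.const Complex.I x).mul s2
    rw [e1, dR_mul (u := fun _ => (1 / 2 : ℂ)) (SmAt.const _ x) (s1.add s3), dR_const,
      dR_add s1 s3, dR_mul (u := fun _ => Complex.I) (SmAt.const _ x) s2, dR_const,
      Est_two h, Est_two h]
    simp only [_root_.add_apply, _root_.smul_apply, smul_eq_mul, smul_zero, add_zero]
  rw [show wdb X j (wdb X k u) x = (1 / 2) * (dR X (wdb X k u) x (Pi.single j 1) +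
      Complex.I * dR X (wdb X k u) x (Pi.single j Complex.I)) from rfl,
    show wdb X k (wdb X j u) x = (1 / 2) * (dR X (wdb X j u) x (Pi.single k 1) +
      Complex.I * dR X (wdb X j u) x (Pi.single k Complex.I)) from rfl,
    key, key, key, key, Est_symm h (Pi.single k 1) (Pi.single j 1),
    Est_symm h (Pi.single k 1) (Pi.single j Complex.I),
    Est_symm h (Pi.single k Complex.I) (Pi.single j 1),
    Est_symm h (Pi.single k Complex.I) (Pi.single j Complex.I)]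
  ring

private lemma Est_wd_le {ρ : X → ℝ} {x : X} (h : SmAt X ρ x) (j : Fin n) :
    ‖wd X j (fun y => (ρ y : ℂ)) x‖ ≤ ‖dR X ρ x‖ := by
  have a1 : ‖dR X (fun y => (ρ y : ℂ)) x (Pi.single j 1)‖ ≤ ‖dR X ρ x‖ := by
    rw [dR_ofReal h, Complex.norm_real]
    have := (dR X ρ x).le_opNorm (Pi.single j 1)
    rwa [Pi.norm_single, norm_one, mul_one] at this
  have a2 : ‖dR X (fun y => (ρ y : ℂ)) x (Pi.single j Complex.I)‖ ≤ ‖dR X ρ x‖ := by
    rw [dR_ofReal h, Complex.norm_real]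
    have := (dR X ρ x).le_opNorm (Pi.single j Complex.I)
    rwa [Pi.norm_single, Complex.norm_I, mul_one] at this
  unfold wd
  rw [norm_mul]
  have a3 : ‖dR X (fun y => (ρ y : ℂ)) x (Pi.single j 1) -
      Complex.I * dR X (fun y => (ρ y : ℂ)) x (Pi.single j Complex.I)‖ ≤
      ‖dR X ρ x‖ + ‖dR X ρ x‖ := by
    refine (norm_sub_le _ _).trans ?_
    rw [norm_mul, Complex.norm_I, one_mul]
    exact add_le_add a1 a2
  have a4 : ‖(1 / 2 : ℂ)‖ = 1 / 2 := by simp
  rw [a4]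
  linarith

private lemma Est_gsq {s : X → ℝ} {χ : ℝ → ℝ} (hs : Sm X s) (hχ : ContDiff ℝ ∞ χ) (x : X) :
    gsq X (fun y => χ (s y)) x ≤ n * (deriv χ (s x) * ‖dR X s x‖) ^ 2 := by
  have h1 : ‖dR X (fun y => χ (s y)) x‖ ≤ |deriv χ (s x)| * ‖dR X s x‖ := by
    rw [dR_comp (hs x) (hχ.differentiable (by simp)).differentiableAt]
    refine (ContinuousLinearMap.opNorm_comp_le _ _).trans ?_
    rw [← norm_deriv_eq_norm_fderiv, Real.norm_eq_abs]
  have h2 : ∀ j : Fin n, ‖wd X j (fun y => ((χ (s y) : ℝ) : ℂ)) x‖ ^ 2 ≤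
      (deriv χ (s x) * ‖dR X s x‖) ^ 2 := by
    intro j
    rw [mul_pow, ← sq_abs (deriv χ (s x)), ← mul_pow]
    apply pow_le_pow_left₀ (norm_nonneg _)
    exact (Est_wd_le (hs.comp hχ x) j).trans h1
  unfold gsq
  refine (Finset.sum_le_sum fun j _ => h2 j).trans ?_
  simp

end EstPointwise

/-- The weights. -/
private lemma Est_weights (hLevComp : S_LevComp) (hWt : S_Wt) {n : ℕ} (X : Dom n)
    (s φ : X → ℝ) (hs : Exh X s) (hφ : Sm X φ) (hlev : ∀ x w, 2 * nsq w ≤ Lev X φ x w)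
    (a C₀ : ℝ) : ∃ φ' Ψ : X → ℝ, Sm X φ' ∧ Sm X Ψ ∧ (∀ x, 0 ≤ Ψ x) ∧
      (∀ x, s x ≤ a → φ' x = φ x ∧ Ψ x = 0) ∧
      (∀ x w, 2 * (gsq X Ψ x + Real.exp (Ψ x)) * nsq w ≤ Lev X φ' x w) ∧
      ∀ x, a + 2 ≤ s x → C₀ ^ 2 * n * ‖dR X s x‖ ^ 2 ≤ Real.exp (Ψ x) := by
  obtain ⟨l1, l2, -⟩ := hLevComp n X
  choose B hB using fun k : ℕ => hs.grad (k : ℝ)
  choose δ hδ0 hδ using fun k : ℕ => hs.lev (k : ℝ)
  obtain ⟨ϑ, ϑsm, ϑ0, ϑp, ϑr⟩ := hWt (fun k => Real.log (1 + C₀ ^ 2 * n * (B k) ^ 2)) (a + 1)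
  obtain ⟨κ, κsm, κ0, κp, κr⟩ := hWt (fun k => (2 * (n * (deriv ϑ k * B k) ^ 2) +
    2 * Real.exp (ϑ k)) / δ k) a
  have hs0 := hs.sm
  have hnn : (0 : ℝ) ≤ n := Nat.cast_nonneg n
  have ϑmono : Monotone ϑ := monotone_of_deriv_nonneg (ϑsm.differentiable (by simp))
    fun t => (ϑp t).2.1
  have ϑsm' : ContDiff ℝ ∞ (deriv ϑ) := (contDiff_infty_iff_deriv.1 ϑsm).2
  have ϑmono' : Monotone (deriv ϑ) := monotone_of_deriv_nonneg (ϑsm'.differentiable (by simp))
    fun t => (ϑp t).2.2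
  refine ⟨fun y => φ y + κ (s y), fun y => ϑ (s y), hφ.add (hs0.comp κsm), hs0.comp ϑsm,
    fun x => (ϑp _).1, ?_, ?_, ?_⟩
  · intro x hx
    refine ⟨?_, ϑ0 _ (by linarith)⟩
    show φ x + κ (s x) = φ x
    rw [κ0 _ hx, add_zero]
  · intro x w
    have hnw := Est_nsq_nonneg w
    have hk : s x ≤ (⌈s x⌉₊ : ℝ) := Nat.le_ceil _
    have hL := hδ ⌈s x⌉₊ x hk w
    have hL0 : 0 ≤ Lev X s x w :=
      (mul_nonneg (hδ0 ⌈s x⌉₊).le hnw).trans hL
    have e2 : Lev X (fun y => φ y + κ (s y)) x w = Lev X φ x w + (deriv κ (s x) * Lev X s x w +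
      deriv (deriv κ) (s x) * ((dR X s x w) ^ 2 + (dR X s x (Complex.I • w)) ^ 2) / 4) := by
      rw [l2 φ (fun y => κ (s y)) hφ (hs0.comp κsm) x w, l1 s κ hs0 κsm x w]
    have e3 : deriv κ (s x) * Lev X s x w ≤ deriv κ (s x) * Lev X s x w +
      deriv (deriv κ) (s x) * ((dR X s x w) ^ 2 + (dR X s x (Complex.I • w)) ^ 2) / 4 := by
      have := mul_nonneg (κp (s x)).2.2
        (add_nonneg (sq_nonneg (dR X s x w)) (sq_nonneg (dR X s x (Complex.I • w))))
      linarith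
    have hφw := hlev x w
    have hg := Est_gsq hs0 ϑsm x
    rw [e2]
    rcases le_or_gt (a + 1) (s x) with hsx | hsx
    · have hr := (κr (s x) hsx).2
      have hB1 := hB ⌈s x⌉₊ x hk
      have hD : deriv ϑ (s x) * ‖dR X s x‖ ≤ deriv ϑ (⌈s x⌉₊ : ℝ) * B ⌈s x⌉₊ :=
        mul_le_mul (ϑmono' hk) hB1 (norm_nonneg _) (ϑp _).2.1
      have hD0 : 0 ≤ deriv ϑ (s x) * ‖dR X s x‖ := mul_nonneg (ϑp _).2.1 (norm_nonneg _)
      have hD2 : n * (deriv ϑ (s x) * ‖dR X s x‖) ^ 2 ≤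
          n * (deriv ϑ (⌈s x⌉₊ : ℝ) * B ⌈s x⌉₊) ^ 2 :=
        mul_le_mul_of_nonneg_left (pow_le_pow_left₀ hD0 hD 2) hnn
      have hE : Real.exp (ϑ (s x)) ≤ Real.exp (ϑ (⌈s x⌉₊ : ℝ)) := Real.exp_le_exp.2 (ϑmono hk)
      have h5 : (2 * (n * (deriv ϑ (⌈s x⌉₊ : ℝ) * B ⌈s x⌉₊) ^ 2) +
          2 * Real.exp (ϑ (⌈s x⌉₊ : ℝ))) * nsq w ≤ deriv κ (s x) * Lev X s x w := by
        have h6 : (2 * (n * (deriv ϑ (⌈s x⌉₊ : ℝ) * B ⌈s x⌉₊) ^ 2) +
          2 * Real.exp (ϑ (⌈s x⌉₊ : ℝ))) ≤ deriv κ (s x) * δ ⌈s x⌉₊ := by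
          rw [← div_le_iff₀ (hδ0 _)]
          exact hr
        calc _ ≤ deriv κ (s x) * δ ⌈s x⌉₊ * nsq w := mul_le_mul_of_nonneg_right h6 hnw
          _ = deriv κ (s x) * (δ ⌈s x⌉₊ * nsq w) := by ring
          _ ≤ _ := mul_le_mul_of_nonneg_left hL (κp _).2.1
      have h7 : 2 * (gsq X (fun y => ϑ (s y)) x + Real.exp (ϑ (s x))) ≤
          (2 * (n * (deriv ϑ (⌈s x⌉₊ : ℝ) * B ⌈s x⌉₊) ^ 2) +
          2 * Real.exp (ϑ (⌈s x⌉₊ : ℝ))) := by linarith
      have h8 := mul_le_mul_of_nonneg_right h7 hnw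
      linarith
    · have z0 : ϑ (s x) = 0 := ϑ0 _ hsx.le
      have z1 : deriv ϑ (s x) = 0 := by
        have : ϑ =ᶠ[𝓝 (s x)] fun _ => 0 := by
          filter_upwards [Iio_mem_nhds hsx] with t ht
          exact ϑ0 t (le_of_lt ht)
        rw [this.deriv_eq]
        simp
      rw [z1] at hg
      have hg0 : gsq X (fun y => ϑ (s y)) x ≤ 0 := by simpa using hg
      have h5 : 0 ≤ deriv κ (s x) * Lev X s x w := mul_nonneg (κp _).2.1 hL0
      have h6 : 2 * (gsq X (fun y => ϑ (s y)) x + Real.exp (ϑ (s x))) ≤ 2 := by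
        rw [z0, Real.exp_zero]; linarith
      have h8 := mul_le_mul_of_nonneg_right h6 hnw
      linarith
  · intro x hx
    have hk : s x ≤ (⌈s x⌉₊ : ℝ) := Nat.le_ceil _
    have hr := (ϑr (s x) (by linarith)).1
    have hB1 := hB ⌈s x⌉₊ x hk
    have h1 : ‖dR X s x‖ ^ 2 ≤ (B ⌈s x⌉₊) ^ 2 := pow_le_pow_left₀ (norm_nonneg _) hB1 2
    have hC : 0 ≤ C₀ ^ 2 * (n : ℝ) := by positivity
    have h2 : 0 < 1 + C₀ ^ 2 * n * (B ⌈s x⌉₊) ^ 2 := by positivity
    calc C₀ ^ 2 * n * ‖dR X s x‖ ^ 2 ≤ C₀ ^ 2 * n * (B ⌈s x⌉₊) ^ 2 :=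
          mul_le_mul_of_nonneg_left h1 hC
      _ ≤ 1 + C₀ ^ 2 * n * (B ⌈s x⌉₊) ^ 2 := by linarith
      _ = Real.exp (Real.log (1 + C₀ ^ 2 * n * (B ⌈s x⌉₊) ^ 2)) := (Real.exp_log h2).symm
      _ ≤ _ := Real.exp_le_exp.2 hr


section EstL2

variable {n : ℕ} {X : Dom n} {μ : Measure X}

/-- Vector valued functions. -/
private noncomputable def EstVec (G : Fin n → X → ℂ) : X → EuclideanSpace ℂ (Fin n) :=
  fun x => WithLp.toLp 2 (fun j => G j x)

private lemma EstVec_apply (G : Fin n → X → ℂ) (x : X) (j : Fin n) : EstVec G x j = G j x := rfl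

private lemma Est_vec_memLp [IsFiniteMeasureOnCompacts μ] {G : Fin n → X → ℂ}
    (hG : ∀ j, Continuous (G j) ∧ HasCompactSupport (G j)) : MemLp (EstVec G) 2 μ := by
  have h1 : Continuous (EstVec G) :=
    (PiLp.continuous_toLp 2 _).comp (continuous_pi fun j => (hG j).1)
  refine h1.memLp_of_hasCompactSupport ?_
  refine HasCompactSupport.intro (K := ⋃ j, tsupport (G j))
    (isCompact_iUnion fun j => (hG j).2.isCompact) ?_
  intro x hx
  ext j
  show G j x = 0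
  apply image_eq_zero_of_notMem_tsupport
  exact fun h => hx (mem_iUnion.2 ⟨j, h⟩)

private lemma Est_inner {G : Fin n → X → ℂ} (hG : MemLp (EstVec G) 2 μ)
    (F : Lp (EuclideanSpace ℂ (Fin n)) 2 μ) :
    inner ℂ (hG.toLp _) F = ∫ x, ∑ j, conj (G j x) * F x j ∂μ := by
  rw [L2.inner_def]
  apply integral_congr_ae
  filter_upwards [hG.coeFn_toLp] with x hx
  rw [hx, PiLp.inner_apply]
  apply Finset.sum_congr rfl
  intro j _
  rw [RCLike.inner_apply, EstVec_apply, mul_comm]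

private lemma Est_inner_vec {G G' : Fin n → X → ℂ} (hG : MemLp (EstVec G) 2 μ)
    (hG' : MemLp (EstVec G') 2 μ) :
    inner ℂ (hG.toLp _) (hG'.toLp _) = ∫ x, ∑ j, conj (G j x) * G' j x ∂μ := by
  rw [Est_inner]
  apply integral_congr_ae
  filter_upwards [hG'.coeFn_toLp] with x hx
  simp only [hx, EstVec_apply]

private lemma Est_inner_scalar {g : X → ℂ} (hg : MemLp g 2 μ) (V : Lp ℂ 2 μ) :
    inner ℂ (hg.toLp _) V = ∫ x, conj (g x) * V x ∂μ := by
  rw [L2.inner_def]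
  apply integral_congr_ae
  filter_upwards [hg.coeFn_toLp] with x hx
  rw [hx, RCLike.inner_apply, mul_comm]

private lemma Est_norm_sq {E : Type} [NormedAddCommGroup E] [InnerProductSpace ℂ E]
    (F : Lp E 2 μ) : ‖F‖ ^ 2 = ∫ x, ‖F x‖ ^ 2 ∂μ := by
  have h := inner_self_eq_norm_sq_to_K (𝕜 := ℂ) F
  rw [L2.inner_def] at h
  simp_rw [inner_self_eq_norm_sq_to_K] at h
  have h2 : (fun x => ((‖F x‖ : ℝ) : ℂ) ^ 2) = fun x => ((‖F x‖ ^ 2 : ℝ) : ℂ) := by
    funext x; push_cast; rfl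
  have h3 : (∫ x, ((‖F x‖ : ℝ) : ℂ) ^ 2 ∂μ) = ((‖F‖ : ℝ) : ℂ) ^ 2 := h
  rw [h2, integral_complex_ofReal] at h3
  exact_mod_cast h3.symm

private lemma Est_norm_toLp {E : Type} [NormedAddCommGroup E] [InnerProductSpace ℂ E]
    {g : X → E} (hg : MemLp g 2 μ) : ‖hg.toLp g‖ ^ 2 = ∫ x, ‖g x‖ ^ 2 ∂μ := by
  rw [Est_norm_sq]
  apply integral_congr_ae
  filter_upwards [hg.coeFn_toLp] with x hx
  rw [hx]

private lemma Est_vec_norm (v : EuclideanSpace ℂ (Fin n)) : ‖v‖ ^ 2 = ∑ j, ‖v j‖ ^ 2 := by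
  rw [EuclideanSpace.norm_sq_eq]

private lemma Est_comp_memLp (F : Lp (EuclideanSpace ℂ (Fin n)) 2 μ) (j : Fin n) :
    MemLp (fun x => F x j) 2 μ :=
  (EuclideanSpace.proj (𝕜 := ℂ) j : EuclideanSpace ℂ (Fin n) →L[ℂ] ℂ).comp_memLp' (Lp.memLp F)

end EstL2


section EstCore

variable {n : ℕ} {X : Dom n} {μ : Measure X}

private lemma Est_cs_wdb {u : X → ℂ} (hu : CS X u) (j : Fin n) : CS X (wdb X j u) := by
  refine ⟨hu.1.wdb j, hu.2.of_isClosed_subset (isClosed_tsupport _)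
    (closure_minimal ?_ (isClosed_tsupport _))⟩
  intro x hx
  by_contra h
  apply hx
  simp [wdb, dR_of_notMem_tsupport h]

private lemma Est_cs_wd {u : X → ℂ} (hu : CS X u) (j : Fin n) : CS X (wd X j u) := by
  refine ⟨hu.1.wd j, hu.2.of_isClosed_subset (isClosed_tsupport _)
    (closure_minimal ?_ (isClosed_tsupport _))⟩
  intro x hx
  by_contra h
  apply hx
  simp [wd, dR_of_notMem_tsupport h]

private lemma Est_cs_conj {u : X → ℂ} (hu : CS X u) : CS X (fun x => conj (u x)) := by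
  refine ⟨hu.1.conj, ?_⟩
  exact hu.2.comp_left (g := fun z : ℂ => conj z) (map_zero _)

private lemma Est_cs_mul {u v : X → ℂ} (hu : CS X u) (hv : Sm X v) :
    CS X (fun x => u x * v x) := ⟨hu.1.mul hv, hu.2.mul_right⟩

private lemma Est_cs_int [IsFiniteMeasureOnCompacts μ] {u : X → ℂ} (hu : CS X u) :
    Integrable u μ := hu.1.continuous.integrable_of_hasCompactSupport hu.2

private lemma Est_closed_int (hIBP : S_IBP) (hμ : Pull X μ) [IsFiniteMeasureOnCompacts μ]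
    {ξ u : X → ℂ} (hξ : CS X ξ) (hu : CS X u) (j k : Fin n) :
    ∫ x, (wdb X j ξ x * wdb X k u x - wdb X k ξ x * wdb X j u x) ∂μ = 0 := by
  have w1 : CS X (fun x => ξ x * wdb X k u x) := Est_cs_mul hξ (hu.1.wdb k)
  have w2 : CS X (fun x => ξ x * wdb X j u x) := Est_cs_mul hξ (hu.1.wdb j)
  have h1 := (hIBP n X μ hμ _ w1).2.2 j
  have h2 := (hIBP n X μ hμ _ w2).2.2 k
  have h3 : ∀ x, wdb X j ξ x * wdb X k u x - wdb X k ξ x * wdb X j u x =
      wdb X j (fun x => ξ x * wdb X k u x) x - wdb X k (fun x => ξ x * wdb X j u x) x := by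
    intro x
    rw [wdb_mul (hξ.1 x) ((hu.1.wdb k) x), wdb_mul (hξ.1 x) ((hu.1.wdb j) x),
      Est_comm (hu.1 x) j k]
    ring
  simp_rw [h3]
  rw [integral_sub (Est_cs_int (Est_cs_wdb w1 j)) (Est_cs_int (Est_cs_wdb w2 k)), h1, h2, sub_zero]

set_option maxHeartbeats 4000000 in
/-- The estimate for given weights. -/
private lemma Est_core (hIBP : S_IBP) (hApriori : S_Apriori) (hHilb : S_Hilb) (hμ : Pull X μ)
    [IsFiniteMeasureOnCompacts μ] (s φ Ψ : X → ℝ) (hs : Exh X s) (hφ : Sm X φ) (hΨ : Sm X Ψ)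
    (hΨ0 : ∀ x, 0 ≤ Ψ x)
    (hlev : ∀ x w, 2 * (gsq X Ψ x + Real.exp (Ψ x)) * nsq w ≤ Lev X φ x w)
    (C₀ c₀ : ℝ) (hC₀ : ∀ t, |deriv Real.smoothTransition t| ≤ C₀)
    (hc₀ : ∀ x, c₀ ≤ s x → C₀ ^ 2 * n * ‖dR X s x‖ ^ 2 ≤ Real.exp (Ψ x))
    (χ : X → ℂ) (f : Fin n → X → ℂ) (hχ : CS X χ) (hf : ∀ j, CS X (f j)) (v : X → ℂ)
    (hv : Continuous v) (hv' : HasCompactSupport v)
    (hWT : WT X μ (fun x => φ x - 2 * Ψ x) (fun x => φ x - Ψ x) f v) :
    ‖∫ x, (∑ j, conj (wdb X j χ x) * f j x) * Real.exp (-(φ x - Ψ x)) ∂μ‖ ^ 2 ≤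
      (∫ x, (∑ j, ‖wdb X j χ x‖ ^ 2) * Real.exp (-(φ x - Ψ x)) ∂μ) *
      ∫ x, ‖v x‖ ^ 2 * Real.exp (-(φ x - 2 * Ψ x)) ∂μ := by
  have hφc : Continuous φ := hφ.continuous
  have hΨc : Continuous Ψ := hΨ.continuous
  obtain ⟨A, hAdef⟩ : ∃ A : X → ℝ, A = fun x => Real.exp (-(φ x - Ψ x) / 2) := ⟨_, rfl⟩
  obtain ⟨B, hBdef⟩ : ∃ B : X → ℝ, B = fun x => Real.exp (-(φ x - 2 * Ψ x) / 2) := ⟨_, rfl⟩
  have hA : ∀ x, A x * A x = Real.exp (-(φ x - Ψ x)) := by
    intro x; rw [hAdef, ← Real.exp_add]; congr 1; ring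
  have hB : ∀ x, B x * B x = Real.exp (-(φ x - 2 * Ψ x)) := by
    intro x; rw [hBdef, ← Real.exp_add]; congr 1; ring
  have hA0 : ∀ x, 0 < A x := by intro x; rw [hAdef]; exact Real.exp_pos _
  have hB0 : ∀ x, 0 < B x := by intro x; rw [hBdef]; exact Real.exp_pos _
  have hAc : Continuous A := by rw [hAdef]; fun_prop
  have hBc : Continuous B := by rw [hBdef]; fun_prop
  have hAC : Continuous fun x => (A x : ℂ) := Complex.continuous_ofReal.comp hAc
  have hBC : Continuous fun x => (B x : ℂ) := Complex.continuous_ofReal.comp hBc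
  have hAn : ∀ x, (A x : ℂ) ≠ 0 := fun x => Complex.ofReal_ne_zero.2 (hA0 x).ne'
  have hBn : ∀ x, (B x : ℂ) ≠ 0 := fun x => Complex.ofReal_ne_zero.2 (hB0 x).ne'
  have hAI : Continuous fun x => ((A x : ℂ))⁻¹ := hAC.inv₀ hAn
  have hBI : Continuous fun x => ((B x : ℂ))⁻¹ := hBC.inv₀ hBn
  -- the vectors
  have mb : ∀ (G : Fin n → X → ℂ), (∀ j, Continuous (G j) ∧ HasCompactSupport (G j)) →
      MemLp (EstVec fun j x => (A x : ℂ) * G j x) 2 μ := fun G hG =>
    Est_vec_memLp fun j => ⟨hAC.mul (hG j).1, (hG j).2.mul_left⟩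
  have ma : ∀ g : X → ℂ, Continuous g → HasCompactSupport g →
      MemLp (fun x => (B x : ℂ) * g x) 2 μ := fun g hg hg' =>
    (hBC.mul hg).memLp_of_hasCompactSupport hg'.mul_left
  have gb : ∀ u : {u : X → ℂ // CS X u}, ∀ j, Continuous (wdb X j u.1) ∧
      HasCompactSupport (wdb X j u.1) := fun u j =>
    ⟨(Est_cs_wdb u.2 j).1.continuous, (Est_cs_wdb u.2 j).2⟩
  obtain ⟨b, hbdef⟩ : ∃ b : {u : X → ℂ // CS X u} → Lp (EuclideanSpace ℂ (Fin n)) 2 μ,
    b = fun u => (mb (fun j => wdb X j u.1) (gb u)).toLp _ := ⟨_, rfl⟩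
  obtain ⟨a, hadef⟩ : ∃ a : {u : X → ℂ // CS X u} → Lp ℂ 2 μ,
    a = fun u => (ma u.1 u.2.1.continuous u.2.2).toLp _ := ⟨_, rfl⟩
  have gc : ∀ (i : {u : X → ℂ // CS X u} × Fin n × Fin n) (l : Fin n),
      Continuous (fun x => (if l = i.2.2 then conj ((A x : ℂ)⁻¹ * wdb X i.2.1 i.1.1 x) else 0) -
        (if l = i.2.1 then conj ((A x : ℂ)⁻¹ * wdb X i.2.2 i.1.1 x) else 0)) ∧
      HasCompactSupport (fun x => (if l = i.2.2 then conj ((A x : ℂ)⁻¹ * wdb X i.2.1 i.1.1 x)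
        else 0) - (if l = i.2.1 then conj ((A x : ℂ)⁻¹ * wdb X i.2.2 i.1.1 x) else 0)) := by
    intro i l
    have h1 := gb i.1 i.2.1
    have h2 := gb i.1 i.2.2
    have c1 : Continuous fun x => conj ((A x : ℂ)⁻¹ * wdb X i.2.1 i.1.1 x) :=
      Complex.continuous_conj.comp (hAI.mul h1.1)
    have c2 : Continuous fun x => conj ((A x : ℂ)⁻¹ * wdb X i.2.2 i.1.1 x) :=
      Complex.continuous_conj.comp (hAI.mul h2.1)
    constructor
    · apply Continuous.sub
      · split_ifs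
        · exact c1
        · exact continuous_const
      · split_ifs
        · exact c2
        · exact continuous_const
    · refine HasCompactSupport.intro (K := tsupport i.1.1) i.1.2.2.isCompact ?_
      intro x hx
      have e1 : ∀ j, wdb X j i.1.1 x = 0 := by
        intro j
        simp [wdb, dR_of_notMem_tsupport hx]
      simp [e1]
  obtain ⟨c, hcdef⟩ : ∃ c : {u : X → ℂ // CS X u} × Fin n × Fin n →
      Lp (EuclideanSpace ℂ (Fin n)) 2 μ,
    c = fun i => (Est_vec_memLp (gc i)).toLp _ := ⟨_, rfl⟩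
  have hcF : ∀ i (F : Lp (EuclideanSpace ℂ (Fin n)) 2 μ), inner ℂ (c i) F =
      ∫ x, ((A x : ℂ)⁻¹ * wdb X i.2.1 i.1.1 x * F x i.2.2 -
        (A x : ℂ)⁻¹ * wdb X i.2.2 i.1.1 x * F x i.2.1) ∂μ := by
    intro i F
    rw [hcdef]
    rw [Est_inner]
    apply integral_congr_ae
    filter_upwards with x
    simp only [map_sub, sub_mul, Finset.sum_sub_distrib]
    congr 1
    · rw [Finset.sum_eq_single i.2.2]
      · simp
      · intro l _ hl; simp [hl]
      · intro h; exact absurd (Finset.mem_univ _) h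
    · rw [Finset.sum_eq_single i.2.1]
      · simp
      · intro l _ hl; simp [hl]
      · intro h; exact absurd (Finset.mem_univ _) h
  let K : Submodule ℂ (Lp (EuclideanSpace ℂ (Fin n)) 2 μ) :=
    { carrier := {F | ∀ i, inner ℂ (c i) F = 0}
      add_mem' := by
        intro F G hF hG i
        rw [inner_add_right, hF i, hG i, add_zero]
      zero_mem' := fun i => inner_zero_right _
      smul_mem' := by
        intro z F hF i
        rw [inner_smul_right, hF i, mul_zero] }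
  have hKmem : ∀ F, F ∈ K ↔ ∀ i, inner ℂ (c i) F = 0 := fun F => Iff.rfl
  have hKc : IsClosed (K : Set (Lp (EuclideanSpace ℂ (Fin n)) 2 μ)) := by
    have : (K : Set (Lp (EuclideanSpace ℂ (Fin n)) 2 μ)) = ⋂ i, {F | inner ℂ (c i) F = 0} := by
      ext F
      simp only [mem_iInter]
      exact hKmem F
    rw [this]
    exact isClosed_iInter fun i => isClosed_eq (continuous_const.inner continuous_id)
      continuous_const
  have hb : ∀ u, b u ∈ K := by
    intro u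
    rw [hKmem]
    intro i
    rw [hcF, hbdef]
    have h1 := (mb (fun j => wdb X j u.1) (gb u)).coeFn_toLp
    rw [← Est_closed_int hIBP hμ i.1.2 u.2 i.2.1 i.2.2]
    apply integral_congr_ae
    filter_upwards [h1] with x hx
    rw [hx]
    simp only [EstVec_apply]
    field_simp [hAn x]
  -- the functional
  have hbF : ∀ u (F : Lp (EuclideanSpace ℂ (Fin n)) 2 μ), inner ℂ (b u) F =
      ∫ x, (A x : ℂ) * ∑ j, conj (wdb X j u.1 x) * F x j ∂μ := by
    intro u F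
    rw [hbdef]
    rw [Est_inner]
    apply integral_congr_ae
    filter_upwards with x
    rw [Finset.mul_sum]
    apply Finset.sum_congr rfl
    intro j _
    simp only [map_mul, Complex.conj_ofReal]
    ring
  have haV : ∀ u (V : Lp ℂ 2 μ), inner ℂ (a u) V = ∫ x, (B x : ℂ) * (conj (u.1 x) * V x) ∂μ := by
    intro u V
    rw [hadef]
    rw [Est_inner_scalar]
    apply integral_congr_ae
    filter_upwards with x
    simp only [map_mul, Complex.conj_ofReal]
    ring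
  have hK : ∀ F ∈ K, ∀ V, (∀ u, inner ℂ (b u) F = inner ℂ (a u) V) → ‖F‖ ≤ ‖V‖ := by
    intro F hF V hFV
    have hFm : AEStronglyMeasurable F μ := (Lp.memLp F).1
    have hVm : AEStronglyMeasurable V μ := (Lp.memLp V).1
    have q1 : ∀ x, (∑ j, ‖(A x : ℂ)⁻¹ * F x j‖ ^ 2) * Real.exp (-(φ x - Ψ x)) = ‖F x‖ ^ 2 := by
      intro x
      rw [Est_vec_norm, ← hA, Finset.sum_mul]
      apply Finset.sum_congr rfl
      intro j _
      rw [norm_mul, norm_inv, Complex.norm_real, Real.norm_of_nonneg (hA0 x).le]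
      have := (hA0 x).ne'
      field_simp
    have q2 : ∀ x, ‖(B x : ℂ)⁻¹ * V x‖ ^ 2 * Real.exp (-(φ x - 2 * Ψ x)) = ‖V x‖ ^ 2 := by
      intro x
      rw [← hB, norm_mul, norm_inv, Complex.norm_real, Real.norm_of_nonneg (hB0 x).le]
      have := (hB0 x).ne'
      field_simp
    have h1 := hApriori n X μ hμ φ Ψ s hφ hΨ hs hΨ0 hlev C₀ c₀ hC₀ hc₀
      (fun j x => (A x : ℂ)⁻¹ * F x j) (fun x => (B x : ℂ)⁻¹ * V x)
      (fun j => hAI.aestronglyMeasurable.mul (Est_comp_memLp F j).1)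
      (hBI.aestronglyMeasurable.mul hVm)
      (by
        simp_rw [q1]
        exact (Lp.memLp F).integrable_norm_pow (by norm_num))
      (by
        simp_rw [q2]
        exact (Lp.memLp V).integrable_norm_pow (by norm_num))
      (by
        intro ξ hξ
        have h2 := hFV ⟨fun x => conj (ξ x), Est_cs_conj hξ⟩
        rw [hbF, haV] at h2
        have e1 : ∀ x, (∑ j, (A x : ℂ)⁻¹ * F x j * wd X j ξ x) *
            (Real.exp (-(φ x - Ψ x)) : ℂ) =
            (A x : ℂ) * ∑ j, conj (wdb X j (fun x => conj (ξ x)) x) * F x j := by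
          intro x
          rw [← hA, Finset.sum_mul, Finset.mul_sum]
          apply Finset.sum_congr rfl
          intro j _
          rw [wdb_conj (hξ.1 x), Complex.conj_conj]
          push_cast
          have := hAn x
          field_simp
        have e2 : ∀ x, (B x : ℂ)⁻¹ * V x * ξ x * (Real.exp (-(φ x - 2 * Ψ x)) : ℂ) =
            (B x : ℂ) * (conj (conj (ξ x)) * V x) := by
          intro x
          rw [← hB, Complex.conj_conj]
          push_cast
          have := hBn x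
          field_simp
        simp_rw [e1, e2]
        exact h2)
      (by
        intro ξ hξ j k
        have h2 := (hKmem F).1 hF (⟨ξ, hξ⟩, j, k)
        rw [hcF] at h2
        have i1 : ∀ j k : Fin n, Integrable (fun x => (A x : ℂ)⁻¹ * wdb X j ξ x * F x k) μ := by
          intro j k
          have m1 : MemLp (fun x => (A x : ℂ)⁻¹ * wdb X j ξ x) 2 μ :=
            (hAI.mul (gb ⟨ξ, hξ⟩ j).1).memLp_of_hasCompactSupport (gb ⟨ξ, hξ⟩ j).2.mul_left
          exact m1.integrable_mul (Est_comp_memLp F k)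
        rw [integral_sub (i1 j k) (i1 k j), sub_eq_zero] at h2
        have e1 : ∀ (j k : Fin n) x, (A x : ℂ)⁻¹ * F x k * wdb X j ξ x =
          (A x : ℂ)⁻¹ * wdb X j ξ x * F x k := fun j k x => by ring
        simp_rw [e1]
        exact h2)
    simp_rw [q1, q2] at h1
    rw [← Est_norm_sq, ← Est_norm_sq] at h1
    exact le_of_sq_le_sq h1 (norm_nonneg _)
  have F₀ := (mb f fun j => ⟨(hf j).1.continuous, (hf j).2⟩)
  have V₀ := ma v hv hv'
  have key := hHilb (Lp ℂ 2 μ) (Lp (EuclideanSpace ℂ (Fin n)) 2 μ) K hKc _ a b hb hK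
    (F₀.toLp _) (V₀.toLp _) (by
      intro u
      rw [hbF, haV]
      have h2 := hWT (fun x => conj (u.1 x)) (Est_cs_conj u.2)
      have e1 : (∫ x, (A x : ℂ) * ∑ j, conj (wdb X j u.1 x) * (F₀.toLp _ : X → _) x j ∂μ) =
          ∫ x, (∑ j, f j x * wd X j (fun x => conj (u.1 x)) x) *
            (Real.exp (-(φ x - Ψ x)) : ℂ) ∂μ := by
        apply integral_congr_ae
        filter_upwards [F₀.coeFn_toLp] with x hx
        rw [hx, ← hA, Finset.sum_mul, Finset.mul_sum]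
        apply Finset.sum_congr rfl
        intro j _
        rw [wd_conj (u.2.1 x), EstVec_apply]
        push_cast
        ring
      have e2 : (∫ x, (B x : ℂ) * (conj (u.1 x) * (V₀.toLp _ : X → _) x) ∂μ) =
          ∫ x, v x * conj (u.1 x) * (Real.exp (-(φ x - 2 * Ψ x)) : ℂ) ∂μ := by
        apply integral_congr_ae
        filter_upwards [V₀.coeFn_toLp] with x hx
        rw [hx, ← hB]
        push_cast
        ring
      rw [e1, e2]
      exact h2)
    (b ⟨χ, hχ⟩) (hb _)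
  have r1 : inner ℂ (b ⟨χ, hχ⟩) (F₀.toLp _) =
      ∫ x, (∑ j, conj (wdb X j χ x) * f j x) * Real.exp (-(φ x - Ψ x)) ∂μ := by
    rw [hbF]
    apply integral_congr_ae
    filter_upwards [F₀.coeFn_toLp] with x hx
    rw [hx, ← hA, Finset.sum_mul, Finset.mul_sum]
    apply Finset.sum_congr rfl
    intro j _
    rw [EstVec_apply]
    push_cast
    ring
  have r2 : ‖b ⟨χ, hχ⟩‖ ^ 2 =
      ∫ x, (∑ j, ‖wdb X j χ x‖ ^ 2) * Real.exp (-(φ x - Ψ x)) ∂μ := by
    rw [hbdef]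
    rw [Est_norm_toLp]
    apply integral_congr_ae
    filter_upwards with x
    rw [Est_vec_norm, ← hA, Finset.sum_mul]
    apply Finset.sum_congr rfl
    intro j _
    rw [EstVec_apply, norm_mul, Complex.norm_real, Real.norm_of_nonneg (hA0 x).le]
    ring
  have r3 : ‖V₀.toLp _‖ ^ 2 = ∫ x, ‖v x‖ ^ 2 * Real.exp (-(φ x - 2 * Ψ x)) ∂μ := by
    rw [Est_norm_toLp]
    apply integral_congr_ae
    filter_upwards with x
    rw [norm_mul, Complex.norm_real, Real.norm_of_nonneg (hB0 x).le, ← hB]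
    ring
  rw [← r1, ← r2, ← r3, ← mul_pow]
  exact pow_le_pow_left₀ (norm_nonneg _) key 2

end EstCore


private lemma Est_wd_exp {n : ℕ} {X : Dom n} {φ : X → ℝ} {x : X} (h : SmAt X φ x) (j : Fin n) :
    wd X j (fun y => ((Real.exp (-φ y) : ℝ) : ℂ)) x =
      -((Real.exp (-φ x) : ℝ) : ℂ) * wd X j (fun y => (φ y : ℂ)) x := by
  have s1 : SmAt X (fun y => Real.exp (-φ y)) x :=
    h.neg.comp Real.contDiff_exp.contDiffAt
  have e1 : ∀ w : Cn n, dR X (fun y => Real.exp (-φ y)) x w = -(Real.exp (-φ x) * dR X φ x w) := by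
    intro w
    rw [dR_comp (F := Real.exp) h.neg Real.differentiableAt_exp, dR_neg h]
    simp only [ContinuousLinearMap.comp_apply, _root_.neg_apply, map_neg]
    rw [(Real.hasDerivAt_exp (-φ x)).hasFDerivAt.fderiv]
    simp [mul_comm]
  unfold wd
  rw [dR_ofReal s1, dR_ofReal s1, dR_ofReal h, dR_ofReal h, e1, e1]
  push_cast
  ring

private lemma Est_C0 : ∃ C₀ : ℝ, ∀ t, |deriv Real.smoothTransition t| ≤ C₀ := by
  have hc : Continuous (deriv Real.smoothTransition) :=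
    (Real.smoothTransition.contDiff (n := 1)).continuous_deriv le_rfl
  obtain ⟨C, hC⟩ := isCompact_Icc.exists_bound_of_continuousOn (s := Icc (0 : ℝ) 1) hc.continuousOn
  have hC0 : 0 ≤ C := (norm_nonneg _).trans (hC 0 (by simp))
  refine ⟨C, fun t => ?_⟩
  by_cases ht : t ∈ Icc (0 : ℝ) 1
  · exact hC t ht
  · rw [mem_Icc, not_and_or, not_le, not_le] at ht
    rcases ht with ht | ht
    · have : Real.smoothTransition =ᶠ[𝓝 t] fun _ => 0 := by
        filter_upwards [Iio_mem_nhds ht] with y hy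
        exact Real.smoothTransition.zero_of_nonpos (le_of_lt hy)
      rw [this.deriv_eq]
      simpa using hC0
    · have : Real.smoothTransition =ᶠ[𝓝 t] fun _ => 1 := by
        filter_upwards [Ioi_mem_nhds ht] with y hy
        exact Real.smoothTransition.one_of_one_le (le_of_lt hy)
      rw [this.deriv_eq]
      simpa using hC0

set_option maxHeartbeats 4000000 in
theorem s_Est (hPullFacts : S_PullFacts) (hIBP : S_IBP) (hLevComp : S_LevComp)
    (hApriori : S_Apriori) (hHilb : S_Hilb) (hWt : S_Wt) : S_Est := by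
  intro n X μ hμ s φ hs hφ hlev χ f hχ hf
  have : IsFiniteMeasureOnCompacts μ := (hPullFacts n X μ hμ).1
  obtain ⟨C₀, hC₀⟩ := Est_C0
  have hK₀ : IsCompact (tsupport χ ∪ ⋃ j, tsupport (f j)) :=
    hχ.2.isCompact.union (isCompact_iUnion fun j => (hf j).2.isCompact)
  obtain ⟨a, ha⟩ := hK₀.bddAbove_image hs.sm.continuous.continuousOn
  have ha' : ∀ x, x ∈ tsupport χ ∪ ⋃ j, tsupport (f j) → s x ≤ a := fun x hx =>
    ha ⟨x, hx, rfl⟩
  obtain ⟨φ', Ψ, hφ', hΨ, hΨ0, hw, hlev', hC⟩ := Est_weights hLevComp hWt X s φ hs hφ hlev a C₀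
  -- away from the supports
  have z1 : ∀ x, ¬ s x ≤ a → (∀ j, f j x = 0) ∧ (∀ j, wd X j (f j) x = 0) ∧
      ∀ j, wdb X j χ x = 0 := by
    intro x hx
    have h1 : x ∉ tsupport χ ∪ ⋃ j, tsupport (f j) := fun h => hx (ha' x h)
    rw [mem_union, not_or, mem_iUnion, not_exists] at h1
    refine ⟨fun j => image_eq_zero_of_notMem_tsupport (h1.2 j), fun j => ?_, fun j => ?_⟩
    · simp [wd, dR_of_notMem_tsupport (h1.2 j)]
    · simp [wdb, dR_of_notMem_tsupport h1.1]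
  obtain ⟨v, hvdef⟩ : ∃ v : X → ℂ, v = fun x => -∑ j, (wd X j (f j) x -
    f j x * wd X j (fun y => (φ y : ℂ)) x) := ⟨_, rfl⟩
  have z2 : ∀ x, ¬ s x ≤ a → v x = 0 := by
    intro x hx
    obtain ⟨h1, h2, -⟩ := z1 x hx
    rw [hvdef]
    simp [h1, h2]
  have hφC : Sm X fun y => (φ y : ℂ) := hφ.ofReal
  have hvs : Sm X v := by
    rw [hvdef]
    exact (Sm.sum fun j _ => ((hf j).1.wd j).sub ((hf j).1.mul (hφC.wd j))).neg
  have hvc : HasCompactSupport v := by
    refine HasCompactSupport.intro hK₀ ?_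
    intro x hx
    rw [mem_union, not_or, mem_iUnion, not_exists] at hx
    rw [hvdef]
    have h1 : ∀ j, f j x = 0 := fun j => image_eq_zero_of_notMem_tsupport (hx.2 j)
    have h2 : ∀ j, wd X j (f j) x = 0 := fun j => by simp [wd, dR_of_notMem_tsupport (hx.2 j)]
    simp [h1, h2]
  have hEs : Sm X fun x => ((Real.exp (-φ x) : ℝ) : ℂ) :=
    (hφ.neg.comp Real.contDiff_exp).ofReal
  have hWT : WT X μ (fun x => φ' x - 2 * Ψ x) (fun x => φ' x - Ψ x) f v := by
    intro ξ hξ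
    have e1 : ∀ x, (∑ j, f j x * wd X j ξ x) * (Real.exp (-(φ' x - Ψ x)) : ℂ) =
        (∑ j, f j x * wd X j ξ x) * ((Real.exp (-φ x) : ℝ) : ℂ) := by
      intro x
      by_cases hx : s x ≤ a
      · rw [(hw x hx).1, (hw x hx).2, sub_zero]
      · simp [(z1 x hx).1]
    have e2 : ∀ x, v x * ξ x * (Real.exp (-(φ' x - 2 * Ψ x)) : ℂ) =
        v x * ξ x * ((Real.exp (-φ x) : ℝ) : ℂ) := by
      intro x
      by_cases hx : s x ≤ a
      · rw [(hw x hx).1, (hw x hx).2, mul_zero, sub_zero]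
      · simp [z2 x hx]
    simp_rw [e1, e2]
    have wξ : ∀ x, x ∉ tsupport ξ → ∀ j, wd X j ξ x = 0 := fun x hx j => by
      simp [wd, dR_of_notMem_tsupport hx]
    have iL : Integrable (fun x => (∑ j, f j x * wd X j ξ x) * ((Real.exp (-φ x) : ℝ) : ℂ)) μ := by
      apply Continuous.integrable_of_hasCompactSupport
      · exact ((Sm.sum fun j _ => (hf j).1.mul (hξ.1.wd j)).mul hEs).continuous
      · refine HasCompactSupport.intro hξ.2.isCompact ?_
        intro x hx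
        simp [wξ x hx]
    have iR : Integrable (fun x => v x * ξ x * ((Real.exp (-φ x) : ℝ) : ℂ)) μ := by
      apply Continuous.integrable_of_hasCompactSupport
      · exact ((hvs.mul hξ.1).mul hEs).continuous
      · refine HasCompactSupport.intro hξ.2.isCompact ?_
        intro x hx
        simp [image_eq_zero_of_notMem_tsupport hx]
    have hg : ∀ j, CS X (fun x => f j x * (ξ x * ((Real.exp (-φ x) : ℝ) : ℂ))) := fun j =>
      Est_cs_mul (hf j) (hξ.1.mul hEs)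
    have e3 : ∀ x, (∑ j, f j x * wd X j ξ x) * ((Real.exp (-φ x) : ℝ) : ℂ) -
        v x * ξ x * ((Real.exp (-φ x) : ℝ) : ℂ) =
        ∑ j, wd X j (fun x => f j x * (ξ x * ((Real.exp (-φ x) : ℝ) : ℂ))) x := by
      intro x
      have e4 : ∀ j, wd X j (fun x => f j x * (ξ x * ((Real.exp (-φ x) : ℝ) : ℂ))) x =
          (f j x * wd X j ξ x) * ((Real.exp (-φ x) : ℝ) : ℂ) + (wd X j (f j) x -
            f j x * wd X j (fun y => (φ y : ℂ)) x) * (ξ x * ((Real.exp (-φ x) : ℝ) : ℂ)) := by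
        intro j
        rw [wd_mul ((hf j).1 x) ((hξ.1.mul hEs) x), wd_mul (hξ.1 x) (hEs x), Est_wd_exp (hφ x)]
        ring
      simp_rw [e4]
      rw [Finset.sum_add_distrib, ← Finset.sum_mul, ← Finset.sum_mul, hvdef]
      ring
    rw [← sub_eq_zero, ← integral_sub iL iR]
    simp_rw [e3]
    rw [integral_finsetSum _ fun j _ => Est_cs_int (Est_cs_wd (hg j) j)]
    exact Finset.sum_eq_zero fun j _ => (hIBP n X μ hμ _ (hg j)).2.1 j
  have key := Est_core hIBP hApriori hHilb hμ s φ' Ψ hs hφ' hΨ hΨ0 hlev' C₀ (a + 2) hC₀ hC χ f hχ hf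
    v hvs.continuous hvc hWT
  have t1 : ∀ x, (∑ j, conj (wdb X j χ x) * f j x) * (Real.exp (-(φ' x - Ψ x)) : ℂ) =
      (∑ j, conj (wdb X j χ x) * f j x) * (Real.exp (-φ x) : ℂ) := by
    intro x
    by_cases hx : s x ≤ a
    · rw [(hw x hx).1, (hw x hx).2, sub_zero]
    · simp [(z1 x hx).1]
  have t2 : ∀ x, (∑ j, ‖wdb X j χ x‖ ^ 2) * Real.exp (-(φ' x - Ψ x)) =
      (∑ j, ‖wdb X j χ x‖ ^ 2) * Real.exp (-φ x) := by
    intro x
    by_cases hx : s x ≤ a
    · rw [(hw x hx).1, (hw x hx).2, sub_zero]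
    · simp [(z1 x hx).2.2]
  have t3 : ∀ x, ‖v x‖ ^ 2 * Real.exp (-(φ' x - 2 * Ψ x)) =
      ‖∑ j, (wd X j (f j) x - f j x * wd X j (fun y => (φ y : ℂ)) x)‖ ^ 2 *
        Real.exp (-φ x) := by
    intro x
    have hn : ‖v x‖ = ‖∑ j, (wd X j (f j) x - f j x * wd X j (fun y => (φ y : ℂ)) x)‖ := by
      rw [hvdef]
      exact norm_neg _
    by_cases hx : s x ≤ a
    · rw [(hw x hx).1, (hw x hx).2, mul_zero, sub_zero, hn]
    · rw [← hn, z2 x hx]; simp
  simp_rw [t1, t2, t3] at key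
  exact key

end Pool.Agent.Lib.MP_55bc5f_an
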