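import Pool.Agent.Lib.MP_55bc5f_an.Full.SpecL2

/-!
# Holomorphic functions with almost prescribed values at two points of a fibre
-/

set_option autoImplicit false

open scoped Manifold ContDiff Topology ComplexConjugate
open Set Filter Metric MeasureTheory

namespace Pool.Agent.Lib.MP_55bc5f_an

private lemma eval_nsq_nonneg {n : ℕ} (w : Cn n) : 0 ≤ nsq w :=
  Finset.sum_nonneg fun j _ => by positivity

private lemma eval_nsq_cont {n : ℕ} : Continuous (nsq : Cn n → ℝ) := by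
  change Continuous fun w : Cn n => ∑ j, ‖w j‖ ^ 2
  fun_prop

private lemma eval_nsq_ge {n : ℕ} {w : Cn n} {R : ℝ} (hR : 0 < R) (h : R ≤ ‖w‖) :
    R ^ 2 ≤ nsq w := by
  by_contra hc
  push Not at hc
  have h2 : ‖w‖ < R := by
    rw [pi_norm_lt_iff hR]
    intro j
    have h1 : ‖w j‖ ^ 2 ≤ nsq w :=
      Finset.single_le_sum (f := fun j => ‖w j‖ ^ 2) (fun i _ => by positivity)
        (Finset.mem_univ j)
    exact lt_of_pow_lt_pow_left₀ 2 hR.le (h1.trans_lt hc)
  linarith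

private lemma eval_nsq_sub {n : ℕ} (u v : Cn n) : nsq (u - v) ≤ 2 * nsq u + 2 * nsq v := by
  unfold nsq
  rw [Finset.mul_sum, Finset.mul_sum, ← Finset.sum_add_distrib]
  apply Finset.sum_le_sum
  intro j _
  have h1 : ‖(u - v) j‖ ≤ ‖u j‖ + ‖v j‖ := norm_sub_le _ _
  have h2 : 0 ≤ ‖(u - v) j‖ := norm_nonneg _
  nlinarith [sq_nonneg (‖u j‖ - ‖v j‖)]

private lemma eval_nsq_smul {n : ℕ} (z : Cn n) (ζ : ℂ) (hζ : ‖ζ‖ = 1) : nsq (ζ • z) = nsq z := by
  unfold nsq
  apply Finset.sum_congr rfl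
  intro j _
  rw [Pi.smul_apply, norm_smul, hζ, one_mul]

private lemma eval_exp {n : ℕ} (p u : ℝ) (hu : 0 < u) :
    Real.exp (-(p + (n : ℝ) * Real.log u)) = Real.exp (-p) * (u ^ n)⁻¹ := by
  rw [neg_add, Real.exp_add, Real.exp_neg ((n : ℝ) * Real.log u), Real.exp_nat_mul,
    Real.exp_log hu]

private lemma eval_point (hPullFacts : S_PullFacts) (hMeanRad : S_MeanRad) (hLogInf : S_LogInf)
    {n : ℕ} (hn : 0 < n) (X : Dom n) (μ : Measure X) (hμ : Pull X μ) (φ : X → ℝ)
    (hφ : Continuous φ) (c : X) (z₀ : Cn n) (hc : X.π c = z₀) (r : ℝ) (hr : 0 < r)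
    (hsub : closedBall z₀ r ⊆ (ch X.hπ c).source) (k : ℂ) (C : ℝ) :
    ∃ ε₀ > 0, ∀ ε, 0 < ε → ε < ε₀ → ∀ (h χ : X → ℂ), (∀ x, HolAt X.π h x) →
      (∀ x ∈ ch X.hπ c '' ball z₀ r, χ x = k) →
      Integrable (fun x => ‖χ x - h x‖ ^ 2 *
        Real.exp (-(φ x + n * Real.log (nsq (X.π x - z₀) + ε ^ 2)))) μ →
      ∫ x, ‖χ x - h x‖ ^ 2 *
        Real.exp (-(φ x + n * Real.log (nsq (X.π x - z₀) + ε ^ 2))) ∂μ ≤ C →
      ‖k - h c‖ < 1 / 4 := by
  subst hc
  obtain ⟨_, _, _, hI, _, _⟩ := hPullFacts n X μ hμ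
  have hcomp : IsCompact (ch X.hπ c '' closedBall (X.π c) r) :=
    (isCompact_closedBall _ _).image_of_continuousOn ((ch X.hπ c).continuousOn.mono hsub)
  obtain ⟨M, hM⟩ := hcomp.exists_bound_of_continuousOn hφ.continuousOn
  set m : ℝ := Real.exp (-M) with hm
  have hm0 : 0 < m := Real.exp_pos _
  have hSs : ball (X.π c) r ⊆ (ch X.hπ c).source := ball_subset_closedBall.trans hsub
  obtain ⟨ε₀, hε₀, H⟩ := hLogInf n hn r hr (16 * (max C 0 / m) + 1)
  refine ⟨ε₀, hε₀, fun ε h1 h2 h χ hh hχ hint hle => ?_⟩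
  have H' := H ε h1 h2
  have hpos : ∀ z : Cn n, 0 < nsq z + ε ^ 2 := fun z => by
    have := eval_nsq_nonneg z
    positivity
  set q : Cn n → ℝ := fun z => ((nsq z + ε ^ 2) ^ n)⁻¹ with hq
  have hq0 : ∀ z, 0 ≤ q z := fun z => inv_nonneg.2 (pow_nonneg (hpos z).le n)
  have hqc : Continuous q := by
    apply Continuous.inv₀
    · exact (eval_nsq_cont.add continuous_const).pow n
    · intro z
      exact (pow_pos (hpos z) n).ne'
  set f : X → ℝ := fun x => ‖χ x - h x‖ ^ 2 *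
        Real.exp (-(φ x + n * Real.log (nsq (X.π x - X.π c) + ε ^ 2))) with hf
  set F : Cn n → ℝ := fun z => ‖k - h (ch X.hπ c z)‖ ^ 2 * q (z - X.π c) with hF
  have hfF : ∀ z ∈ ball (X.π c) r, m * F z ≤ f (ch X.hπ c z) := by
    intro z hz
    have e1 : χ (ch X.hπ c z) = k := hχ _ ⟨z, hz, rfl⟩
    have e2 : X.π (ch X.hπ c z) = z := p_ch X.hπ (hSs hz)
    have e3 : m ≤ Real.exp (-φ (ch X.hπ c z)) := by
      apply Real.exp_le_exp.2
      have := hM (ch X.hπ c z) ⟨z, ball_subset_closedBall hz, rfl⟩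
      rw [Real.norm_eq_abs] at this
      have := (abs_le.1 this).2
      linarith
    simp only [hf, hF, hq]
    rw [e1, e2, eval_exp _ _ (hpos _)]
    have h3 : 0 ≤ ‖k - h (ch X.hπ c z)‖ ^ 2 * ((nsq (z - X.π c) + ε ^ 2) ^ n)⁻¹ :=
      mul_nonneg (by positivity) (hq0 (z - X.π c))
    calc m * (‖k - h (ch X.hπ c z)‖ ^ 2 * ((nsq (z - X.π c) + ε ^ 2) ^ n)⁻¹)
        ≤ Real.exp (-φ (ch X.hπ c z)) *
          (‖k - h (ch X.hπ c z)‖ ^ 2 * ((nsq (z - X.π c) + ε ^ 2) ^ n)⁻¹) :=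
          mul_le_mul_of_nonneg_right e3 h3
      _ = _ := by ring
  have hF0 : ∀ z, 0 ≤ F z := fun z => mul_nonneg (by positivity) (hq0 _)
  have hf0 : ∀ x, 0 ≤ f x := fun x => mul_nonneg (by positivity) (Real.exp_pos _).le
  obtain ⟨E1, E2⟩ := hI c (ball (X.π c) r) measurableSet_ball hSs ℝ f
  have I2 : IntegrableOn (fun z => f (ch X.hπ c z)) (ball (X.π c) r) := E2.1 hint.integrableOn
  have le1 : ∫ z in ball (X.π c) r, f (ch X.hπ c z) ≤ C := by
    rw [← E1]
    exact (setIntegral_le_integral hint (Eventually.of_forall hf0)).trans hle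
  have hhc : ContinuousOn (fun z => h (ch X.hπ c z)) (ball (X.π c) r) := by
    intro z hz
    have h3 : DifferentiableAt ℂ (h ∘ ch X.hπ c) z :=
      (HolAt.ch X.hπ (hSs hz) (hh _)).self_of_nhds
    exact h3.continuousAt.continuousWithinAt
  have contF : ContinuousOn F (ball (X.π c) r) := by
    apply ContinuousOn.mul
    · exact ((continuousOn_const.sub hhc).norm).pow 2
    · exact (hqc.comp (continuous_id.sub continuous_const)).continuousOn
  have IF : IntegrableOn F (ball (X.π c) r) := by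
    refine Integrable.mono' (g := fun z => m⁻¹ * f (ch X.hπ c z)) (I2.const_mul m⁻¹)
      (contF.aestronglyMeasurable measurableSet_ball) ?_
    filter_upwards [ae_restrict_mem measurableSet_ball] with z hz
    rw [Real.norm_eq_abs, abs_of_nonneg (hF0 z), le_inv_mul_iff₀ hm0]
    exact hfF z hz
  have le2 : m * ∫ z in ball (X.π c) r, F z ≤ C := by
    rw [← integral_const_mul]
    refine le_trans ?_ le1
    apply setIntegral_mono_on (IF.const_mul m) I2 measurableSet_ball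
    exact hfF
  -- translation
  have hpre : (fun z => X.π c + z) ⁻¹' ball (X.π c) r = ball (0 : Cn n) r := by
    ext z
    simp [mem_ball, dist_eq_norm]
  have T1 : ∫ z in ball (0 : Cn n) r, F (X.π c + z) = ∫ z in ball (X.π c) r, F z := by
    rw [← hpre]
    exact (measurePreserving_add_left volume (X.π c)).setIntegral_preimage_emb
      (measurableEmbedding_addLeft _) F _
  have T2 : IntegrableOn (fun z => F (X.π c + z)) (ball (0 : Cn n) r) := by
    rw [← hpre]
    exact ((measurePreserving_add_left volume (X.π c)).integrableOn_comp_preimage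
      (measurableEmbedding_addLeft _)).2 IF
  set g : Cn n → ℂ := fun z => k - h (ch X.hπ c (X.π c + z)) with hg
  have hFg : ∀ z, F (X.π c + z) = ‖g z‖ ^ 2 * q z := by
    intro z
    simp only [hF, hg, add_sub_cancel_left]
  simp only [hFg] at T1 T2
  have hgd : DifferentiableOn ℂ g (ball 0 r) := by
    intro z hz
    have hz' : X.π c + z ∈ ball (X.π c) r := by
      have : z ∈ (fun z => X.π c + z) ⁻¹' ball (X.π c) r := by rw [hpre]; exact hz
      exact this
    have h3 : DifferentiableAt ℂ (h ∘ ch X.hπ c) (X.π c + z) :=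
      (HolAt.ch X.hπ (hSs hz') (hh _)).self_of_nhds
    have h4 : DifferentiableAt ℂ (fun z : Cn n => X.π c + z) z :=
      (differentiableAt_const _).add differentiableAt_id
    have h5 : DifferentiableAt ℂ ((h ∘ ch X.hπ c) ∘ (fun z : Cn n => X.π c + z)) z :=
      DifferentiableAt.comp (g := h ∘ ch X.hπ c) z h3 h4
    exact ((differentiableAt_const k).sub h5).differentiableWithinAt
  have hmr := hMeanRad n r hr g q hgd hqc hq0
    (fun z ζ hζ => by simp only [hq]; rw [eval_nsq_smul z ζ hζ]) T2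
  rw [T1] at hmr
  have hg0 : g 0 = k - h c := by
    simp only [hg, add_zero, ch_self]
  rw [hg0] at hmr
  -- conclusion
  have hle3 : ∫ z in ball (X.π c) r, F z ≤ max C 0 / m := by
    rw [le_div_iff₀ hm0, mul_comm]
    exact le2.trans (le_max_left _ _)
  by_contra hcon
  push Not at hcon
  have h5 : (1 / 4 : ℝ) ^ 2 ≤ ‖k - h c‖ ^ 2 := pow_le_pow_left₀ (by norm_num) hcon 2
  have h6 : 0 ≤ max C 0 / m := div_nonneg (le_max_right _ _) hm0.le
  have h7 : (1 / 4 : ℝ) ^ 2 * (16 * (max C 0 / m) + 1) ≤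
      ‖k - h c‖ ^ 2 * ∫ z in ball (0 : Cn n) r, q z :=
    mul_le_mul h5 H' (by positivity) (by positivity)
  nlinarith

theorem s_Eval (hPullFacts : S_PullFacts) (hLevComp : S_LevComp) (hLogLev : S_LogLev)
    (hL2 : S_L2) (hMeanRad : S_MeanRad) (hLogInf : S_LogInf) : S_Eval := by
  classical
  intro n hn X μ hμ s φ hs hφ hLev a b hab
  obtain ⟨hfin, _, _, _, _, _⟩ := hPullFacts n X μ hμ
  -- the radius
  obtain ⟨ρ, hρ, hρs⟩ := Metric.isOpen_iff.1 (ch X.hπ a).open_source _ (ch_mem X.hπ a)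
  set z₀ := X.π a with hz₀
  set R : ℝ := ρ / 4 with hR
  have hR0 : 0 < R := by positivity
  have hsub3 : closedBall z₀ (3 * R) ⊆ (ch X.hπ a).source :=
    (closedBall_subset_ball (by rw [hR]; linarith)).trans hρs
  have hsub2 : closedBall z₀ (2 * R) ⊆ (ch X.hπ a).source :=
    (closedBall_subset_closedBall (by linarith)).trans hsub3
  have hsub1 : closedBall z₀ R ⊆ (ch X.hπ a).source :=
    (closedBall_subset_closedBall (by linarith)).trans hsub3
  have hsubb : ball z₀ (3 * R) ⊆ (ch X.hπ a).source := ball_subset_closedBall.trans hsub3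
  set Ua : Set X := ch X.hπ a '' ball z₀ (3 * R) with hUa
  set Ka : Set X := ch X.hπ a '' closedBall z₀ (2 * R) with hKa
  have hUo : IsOpen Ua := (ch X.hπ a).isOpen_image_of_subset_source isOpen_ball hsubb
  have hKc : IsCompact Ka :=
    (isCompact_closedBall _ _).image_of_continuousOn ((ch X.hπ a).continuousOn.mono hsub2)
  have hKU : Ka ⊆ Ua := image_mono (closedBall_subset_ball (by linarith))
  let β : ContDiffBump z₀ := ⟨R, 2 * R, hR0, by linarith⟩
  set χ : X → ℂ := fun x => if x ∈ Ua then ((β (X.π x) : ℝ) : ℂ) else 0 with hχ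
  have hχ0 : ∀ x ∉ Ka, χ x = 0 := by
    intro x hx
    by_cases hxU : x ∈ Ua
    · obtain ⟨z, hz, rfl⟩ := hxU
      have h1 : ch X.hπ a z ∈ Ua := ⟨z, hz, rfl⟩
      have h2 : β z = 0 := by
        apply β.zero_of_le_dist
        change 2 * R ≤ dist z z₀
        by_contra hc
        push Not at hc
        exact hx ⟨z, hc.le, rfl⟩
      simp only [hχ, if_pos h1, p_ch X.hπ (hsubb hz), h2, Complex.ofReal_zero]
    · simp only [hχ, if_neg hxU]
  have hχ1 : ∀ x ∈ ch X.hπ a '' ball z₀ R, χ x = 1 := by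
    rintro x ⟨z, hz, rfl⟩
    have hz3 : z ∈ ball z₀ (3 * R) := ball_subset_ball (by linarith) hz
    have h1 : ch X.hπ a z ∈ Ua := ⟨z, hz3, rfl⟩
    have h2 : β z = 1 := β.one_of_mem_closedBall (ball_subset_closedBall hz)
    simp only [hχ, if_pos h1, p_ch X.hπ (hsubb hz3), h2, Complex.ofReal_one]
  have hχsm : Sm X χ := by
    intro x
    by_cases hxU : x ∈ Ua
    · refine ⟨fun z => ((β z : ℝ) : ℂ), ?_, ?_⟩
      · exact (Complex.ofRealCLM.contDiff.comp β.contDiff).contDiffAt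
      · filter_upwards [hUo.mem_nhds hxU] with y hy
        simp only [hχ, if_pos hy, Function.comp_apply]
    · have hxK : x ∉ Ka := fun h => hxU (hKU h)
      apply (SmAt.const (0 : ℂ) x).congr
      filter_upwards [hKc.isClosed.isOpen_compl.mem_nhds hxK] with y hy
      exact (hχ0 y hy).symm
  have hχcs : CS X χ := ⟨hχsm, HasCompactSupport.intro hKc hχ0⟩
  have hU1o : IsOpen (ch X.hπ a '' ball z₀ R) :=
    (ch X.hπ a).isOpen_image_of_subset_source isOpen_ball (ball_subset_closedBall.trans hsub1)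
  -- the bound
  set G : X → ℝ := fun x => (∑ j, ‖wdb X j χ x‖ ^ 2) * Real.exp (-φ x) with hG
  have hGc : Continuous G := by
    apply Continuous.mul
    · exact continuous_finsetSum _ fun j _ => ((hχsm.wdb j).continuous.norm).pow 2
    · exact Real.continuous_exp.comp hφ.continuous.neg
  have hwK : ∀ x ∉ Ka, ∀ j, wdb X j χ x = 0 := by
    intro x hx j
    rw [← wdb_const (0 : ℂ) x j]
    apply wdb_congr
    filter_upwards [hKc.isClosed.isOpen_compl.mem_nhds hx] with y hy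
    exact hχ0 y hy
  have hw1 : ∀ x ∈ ch X.hπ a '' ball z₀ R, ∀ j, wdb X j χ x = 0 := by
    intro x hx j
    rw [← wdb_const (1 : ℂ) x j]
    apply wdb_congr
    filter_upwards [hU1o.mem_nhds hx] with y hy
    exact hχ1 y hy
  have hGcs : HasCompactSupport G := by
    apply HasCompactSupport.intro hKc
    intro x hx
    simp [hG, hwK x hx]
  have hGi : Integrable G μ := hGc.integrable_of_hasCompactSupport hGcs
  set C : ℝ := ((R ^ 2) ^ n)⁻¹ * ∫ x, G x ∂μ with hC
  have hbound : ∀ ε : ℝ, 0 < ε → ∫ x, (∑ j, ‖wdb X j χ x‖ ^ 2) *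
      Real.exp (-(φ x + n * Real.log (nsq (X.π x - z₀) + ε ^ 2))) ∂μ ≤ C := by
    intro ε hε
    rw [hC, ← integral_const_mul]
    apply integral_mono_of_nonneg
    · exact Eventually.of_forall fun x => mul_nonneg
        (Finset.sum_nonneg fun j _ => by positivity) (Real.exp_pos _).le
    · exact hGi.const_mul _
    · apply Eventually.of_forall
      intro x
      have hpos : 0 < nsq (X.π x - z₀) + ε ^ 2 := by
        have := eval_nsq_nonneg (X.π x - z₀)
        positivity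
      simp only [hG]
      rw [eval_exp _ _ hpos]
      by_cases hxK : x ∈ Ka
      · by_cases hx1 : x ∈ ch X.hπ a '' ball z₀ R
        · simp [hw1 x hx1]
        · have hd : R ≤ ‖X.π x - z₀‖ := by
            by_contra hc
            push Not at hc
            obtain ⟨z, hz, rfl⟩ := hxK
            rw [p_ch X.hπ (hsub2 hz)] at hc
            exact hx1 ⟨z, by rwa [mem_ball, dist_eq_norm], rfl⟩
          have hge : R ^ 2 ≤ nsq (X.π x - z₀) + ε ^ 2 := by
            have := eval_nsq_ge hR0 hd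
            nlinarith [sq_nonneg ε]
          have hinv : ((nsq (X.π x - z₀) + ε ^ 2) ^ n)⁻¹ ≤ ((R ^ 2) ^ n)⁻¹ := by
            apply inv_anti₀ (by positivity)
            exact pow_le_pow_left₀ (by positivity) hge n
          have h0 : 0 ≤ (∑ j, ‖wdb X j χ x‖ ^ 2) * Real.exp (-φ x) :=
            mul_nonneg (Finset.sum_nonneg fun j _ => by positivity) (Real.exp_pos _).le
          calc (∑ j, ‖wdb X j χ x‖ ^ 2) *
                (Real.exp (-φ x) * ((nsq (X.π x - z₀) + ε ^ 2) ^ n)⁻¹)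
              = ((nsq (X.π x - z₀) + ε ^ 2) ^ n)⁻¹ *
                ((∑ j, ‖wdb X j χ x‖ ^ 2) * Real.exp (-φ x)) := by ring
            _ ≤ _ := mul_le_mul_of_nonneg_right hinv h0
      · simp [hwK x hxK]
  -- the point a
  obtain ⟨ε₁, hε₁, Ha⟩ := eval_point hPullFacts hMeanRad hLogInf hn X μ hμ φ hφ.continuous a z₀ rfl R
    hR0 hsub1 1 C
  -- the point b
  have hb : ∃ ε₂ > 0, ∀ ε, 0 < ε → ε < ε₂ → ∀ (h : X → ℂ), (∀ x, HolAt X.π h x) →
      Integrable (fun x => ‖χ x - h x‖ ^ 2 *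
        Real.exp (-(φ x + n * Real.log (nsq (X.π x - z₀) + ε ^ 2)))) μ →
      ∫ x, ‖χ x - h x‖ ^ 2 *
        Real.exp (-(φ x + n * Real.log (nsq (X.π x - z₀) + ε ^ 2))) ∂μ ≤ C →
      (b ≠ a → ‖h b‖ < 1 / 4) := by
    by_cases hba : b = a
    · exact ⟨1, one_pos, fun ε _ _ h _ _ _ hne => absurd hba hne⟩
    · have hbK : b ∉ Ka := by
        rintro ⟨z, hz, hzb⟩
        apply hba
        have h1 : X.π b = z := by rw [← hzb]; exact p_ch X.hπ (hsub2 hz)
        have h2 : z = X.π a := by rw [← h1, hab]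
        rw [← hzb, h2, ch_self]
      have hmem : (ch X.hπ b).source ∩ (ch X.hπ b) ⁻¹' Kaᶜ ∈ 𝓝 z₀ := by
        have h1 : (ch X.hπ b).source ∈ 𝓝 z₀ := by
          rw [← hab]
          exact (ch X.hπ b).open_source.mem_nhds (ch_mem X.hπ b)
        have h2 : (ch X.hπ b) ⁻¹' Kaᶜ ∈ 𝓝 z₀ := by
          rw [← hab]
          exact (ch_tendsto X.hπ b) (hKc.isClosed.isOpen_compl.mem_nhds hbK)
        exact inter_mem h1 h2
      obtain ⟨r, hr, hrs⟩ := Metric.nhds_basis_closedBall.mem_iff.1 hmem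
      obtain ⟨ε₂, hε₂, Hb⟩ := eval_point hPullFacts hMeanRad hLogInf hn X μ hμ φ hφ.continuous b z₀
        hab r hr (hrs.trans inter_subset_left) 0 C
      refine ⟨ε₂, hε₂, fun ε h1 h2 h hh hi hle _ => ?_⟩
      have := Hb ε h1 h2 h χ hh ?_ hi hle
      · rwa [zero_sub, norm_neg] at this
      · rintro x ⟨z, hz, rfl⟩
        exact hχ0 _ (hrs (ball_subset_closedBall hz)).2
  obtain ⟨ε₂, hε₂, Hb⟩ := hb
  set ε : ℝ := min ε₁ ε₂ / 2 with hε
  have hε0 : 0 < ε := by
    have := lt_min hε₁ hε₂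
    rw [hε]
    linarith
  have hεm : ε < min ε₁ ε₂ := by
    have := lt_min hε₁ hε₂
    rw [hε]
    linarith
  have hεa : ε < ε₁ := hεm.trans_le (min_le_left _ _)
  have hεb : ε < ε₂ := hεm.trans_le (min_le_right _ _)
  -- the weight
  obtain ⟨hlogs, hlogl⟩ := hLogLev n X z₀ ε hε0
  have hφs : Sm X (fun x => φ x + n * Real.log (nsq (X.π x - z₀) + ε ^ 2)) := hφ.add hlogs
  have hφl : ∀ x w, 2 * nsq w ≤
      Lev X (fun x => φ x + n * Real.log (nsq (X.π x - z₀) + ε ^ 2)) x w := by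
    intro x w
    rw [(hLevComp n X).2.1 φ _ hφ hlogs x w]
    have h1 := hLev x w
    have h2 := hlogl x w
    linarith
  obtain ⟨h, hh, hi, hle⟩ := hL2 n X μ hμ s _ hs hφs hφl χ hχcs
  have hleC := hle.trans (hbound ε hε0)
  have hhc : Continuous h := continuous_iff_continuousAt.2 fun x =>
    (hh x).continuousAt X.hπ.continuous.continuousAt
  refine ⟨h, hh, ?_, Hb ε hε0 hεb h hh hi hleC, ?_⟩
  · have := Ha ε hε0 hεa h χ hh hχ1 hi hleC
    rwa [norm_sub_rev] at this
  · intro r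
    set D : ℝ := (2 * max r 0 + 2 * nsq z₀ + ε ^ 2) ^ n with hD
    have hmeas : MeasurableSet {x : X | nsq (X.π x) ≤ r} :=
      (isClosed_le (eval_nsq_cont.comp X.hπ.continuous) continuous_const).measurableSet
    have hχi : Integrable (fun x => ‖χ x‖ ^ 2 * Real.exp (-φ x)) μ := by
      apply Continuous.integrable_of_hasCompactSupport
      · exact ((hχsm.continuous.norm).pow 2).mul (Real.continuous_exp.comp hφ.continuous.neg)
      · apply HasCompactSupport.intro hKc
        intro x hx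
        simp [hχ0 x hx]
    have hbd : Integrable (fun x => 2 * D * (‖χ x - h x‖ ^ 2 *
        Real.exp (-(φ x + n * Real.log (nsq (X.π x - z₀) + ε ^ 2)))) +
        2 * (‖χ x‖ ^ 2 * Real.exp (-φ x))) (μ.restrict {x : X | nsq (X.π x) ≤ r}) :=
      ((hi.const_mul _).add (hχi.const_mul _)).restrict
    refine Integrable.mono' hbd ?_ ?_
    · exact (((hhc.norm).pow 2).mul
        (Real.continuous_exp.comp hφ.continuous.neg)).aestronglyMeasurable
    · filter_upwards [ae_restrict_mem hmeas] with x hx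
      have hx' : nsq (X.π x) ≤ r := hx
      have hpos : 0 < nsq (X.π x - z₀) + ε ^ 2 := by
        have := eval_nsq_nonneg (X.π x - z₀)
        positivity
      have hub : nsq (X.π x - z₀) + ε ^ 2 ≤ 2 * max r 0 + 2 * nsq z₀ + ε ^ 2 := by
        have h1 := eval_nsq_sub (X.π x) z₀
        have h2 := le_max_left r 0
        linarith
      have hDge : (nsq (X.π x - z₀) + ε ^ 2) ^ n ≤ D := pow_le_pow_left₀ hpos.le hub n
      have hpn : 0 < (nsq (X.π x - z₀) + ε ^ 2) ^ n := pow_pos hpos n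
      have h1D : 1 ≤ D * ((nsq (X.π x - z₀) + ε ^ 2) ^ n)⁻¹ := by
        rw [← div_eq_mul_inv, le_div_iff₀ hpn, one_mul]
        exact hDge
      have hn1 : ‖h x‖ ≤ ‖χ x - h x‖ + ‖χ x‖ := by
        calc ‖h x‖ = ‖χ x - (χ x - h x)‖ := by congr 1; ring
          _ ≤ ‖χ x‖ + ‖χ x - h x‖ := norm_sub_le _ _
          _ = _ := add_comm _ _
      have hn2 : ‖h x‖ ^ 2 ≤ 2 * ‖χ x - h x‖ ^ 2 + 2 * ‖χ x‖ ^ 2 := by
        nlinarith [sq_nonneg (‖χ x - h x‖ - ‖χ x‖), norm_nonneg (h x)]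
      have he : 0 < Real.exp (-φ x) := Real.exp_pos _
      rw [Real.norm_eq_abs, abs_of_nonneg (by positivity), eval_exp _ _ hpos]
      calc ‖h x‖ ^ 2 * Real.exp (-φ x)
          ≤ (2 * ‖χ x - h x‖ ^ 2 + 2 * ‖χ x‖ ^ 2) * Real.exp (-φ x) :=
            mul_le_mul_of_nonneg_right hn2 he.le
        _ = 1 * (2 * ‖χ x - h x‖ ^ 2 * Real.exp (-φ x)) +
            2 * (‖χ x‖ ^ 2 * Real.exp (-φ x)) := by ring
        _ ≤ (D * ((nsq (X.π x - z₀) + ε ^ 2) ^ n)⁻¹) * (2 * ‖χ x - h x‖ ^ 2 * Real.exp (-φ x)) +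
            2 * (‖χ x‖ ^ 2 * Real.exp (-φ x)) := by
            have := mul_le_mul_of_nonneg_right h1D
              (show 0 ≤ 2 * ‖χ x - h x‖ ^ 2 * Real.exp (-φ x) by positivity)
            linarith
        _ = _ := by ring

end Pool.Agent.Lib.MP_55bc5f_an
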