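import Pool.Agent.Lib.MP_55bc5f_an.Full.SpecL2

set_option autoImplicit false

open scoped Manifold ContDiff Topology ComplexConjugate
open Set Filter Metric MeasureTheory

namespace Pool.Agent.Lib.MP_55bc5f_an

theorem s_Hilb : S_Hilb := by
  intro H₁ H₂ _ _ _ _ _ K hK ι a b hb h f v hfv g hg
  haveI : CompleteSpace K := hK.completeSpace_coe
  have hmem : K.starProjection f ∈ K := Submodule.starProjection_apply_mem K f
  have hin : ∀ x ∈ K, inner ℂ x (K.starProjection f) = inner ℂ x f := by
    intro x hx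
    have h1 : f - K.starProjection f ∈ Kᗮ := Submodule.sub_starProjection_mem_orthogonal f
    have h2 := (Submodule.mem_orthogonal K _).1 h1 x hx
    rw [inner_sub_right, sub_eq_zero] at h2
    exact h2.symm
  have h3 : ‖K.starProjection f‖ ≤ ‖v‖ :=
    h _ hmem v (fun i => by rw [hin _ (hb i)]; exact hfv i)
  rw [← hin g hg]
  calc ‖inner ℂ g (K.starProjection f)‖ ≤ ‖g‖ * ‖K.starProjection f‖ := norm_inner_le_norm _ _
    _ ≤ ‖g‖ * ‖v‖ := by gcongr

end Pool.Agent.Lib.MP_55bc5f_an
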