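import Pool.Agent.Lib.MP_55bc5f_an.Full.SpecL2

/-!
# Integrals of derivatives of compactly supported functions on domains étale over `ℂⁿ`
-/

set_option autoImplicit false

open scoped Manifold ContDiff Topology ComplexConjugate
open Set Filter Metric MeasureTheory

namespace Pool.Agent.Lib.MP_55bc5f_an

/-- On `ℂⁿ`. -/
private lemma IBP_integral_fderiv {n : ℕ} {F : Cn n → ℂ} (hF : ContDiff ℝ ∞ F)
    (hc : HasCompactSupport F) (v : Cn n) : ∫ z, fderiv ℝ F z v = 0 := by
  have hd : Differentiable ℝ F := hF.differentiable (by simp)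
  have h1 : Continuous (fun z => fderiv ℝ F z v) :=
    (hF.continuous_fderiv (by simp)).clm_apply continuous_const
  have h2 : HasCompactSupport (fun z => fderiv ℝ F z v) := hc.fderiv_apply ℝ v
  have hi : Integrable (fun z => fderiv ℝ F z v) := h1.integrable_of_hasCompactSupport h2
  have hi2 : Integrable F := hF.continuous.integrable_of_hasCompactSupport hc
  have h := integral_mul_fderiv_eq_neg_fderiv_mul_of_integrable (μ := volume)
    (f := fun _ : Cn n => (1 : ℂ)) (g := F) (v := v) (by simp) (by simpa using hi)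
    (by simpa using hi2) (fun x _ => differentiableAt_const _) (fun x _ => hd x)
  simpa using h

/-- The derivative of a compactly supported function has compact support. -/
private lemma IBP_dR_compact {n : ℕ} {X : Dom n} {u : X → ℂ} (hc : HasCompactSupport u)
    (v : Cn n) : HasCompactSupport (fun x => dR X u x v) := by
  refine hc.of_isClosed_subset (isClosed_tsupport _) ?_
  refine closure_minimal ?_ (isClosed_tsupport _)
  intro x hx
  by_contra h
  apply hx
  simp [dR_of_notMem_tsupport h]

private lemma IBP_dR_continuous {n : ℕ} {X : Dom n} {u : X → ℂ} (hu : Sm X u)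
    (v : Cn n) : Continuous (fun x => dR X u x v) :=
  (hu.dR.clm (ContinuousLinearMap.apply ℝ ℂ v)).continuous

private lemma IBP_integrable {n : ℕ} {X : Dom n} {μ : Measure X} [IsFiniteMeasureOnCompacts μ]
    {u : X → ℂ} (hu : CS X u) (v : Cn n) : Integrable (fun x => dR X u x v) μ :=
  (IBP_dR_continuous hu.1 v).integrable_of_hasCompactSupport (IBP_dR_compact hu.2 v)

/-- The case of a support in one chart. -/
private lemma IBP_local (hPullFacts : S_PullFacts) {n : ℕ} (X : Dom n) (μ : Measure X)
    (hμ : Pull X μ) (c : X) (u : X → ℂ) (hu : CS X u) (hs : tsupport u ⊆ (ch X.hπ c).target)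
    (v : Cn n) : ∫ x, dR X u x v ∂μ = 0 := by
  obtain ⟨-, -, -, h4, -⟩ := hPullFacts n X μ hμ
  have hsrc : IsOpen (ch X.hπ c).source := (ch X.hπ c).open_source
  have htgt : IsOpen (ch X.hπ c).target := (ch X.hπ c).open_target
  have e1 : ∫ x, dR X u x v ∂μ = ∫ x in (ch X.hπ c).target, dR X u x v ∂μ := by
    symm
    apply setIntegral_eq_integral_of_forall_compl_eq_zero
    intro x hx
    rw [dR_of_notMem_tsupport (fun h => hx (hs h))]
    simp
  have e2 : (ch X.hπ c).target = ch X.hπ c '' (ch X.hπ c).source :=
    ((ch X.hπ c).image_source_eq_target).symm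
  have e3 := (h4 c (ch X.hπ c).source hsrc.measurableSet (subset_refl _) ℂ
    (fun x => dR X u x v)).1
  set F : Cn n → ℂ := (ch X.hπ c).source.indicator (u ∘ ch X.hπ c) with hFdef
  set K' : Set (Cn n) := X.π '' tsupport u with hK'
  have hK'c : IsCompact K' := hu.2.isCompact.image X.hπ.continuous
  have hK's : K' ⊆ (ch X.hπ c).source := by
    rintro _ ⟨x, hx, rfl⟩
    have := (ch X.hπ c).map_target (hs hx)
    rwa [ch_symm] at this
  have hF0 : ∀ z, z ∉ K' → F z = 0 := by
    intro z hz
    rw [hFdef]
    by_cases hz2 : z ∈ (ch X.hπ c).source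
    · rw [indicator_of_mem hz2]
      by_contra h
      apply hz
      refine ⟨ch X.hπ c z, subset_tsupport _ h, p_ch X.hπ hz2⟩
    · rw [indicator_of_notMem hz2]
  have hFsupp : tsupport F ⊆ K' := by
    refine closure_minimal ?_ hK'c.isClosed
    intro z hz
    by_contra h
    exact hz (hF0 z h)
  have hFc : HasCompactSupport F := hK'c.of_isClosed_subset (isClosed_tsupport _) hFsupp
  have hFsrc : ∀ z ∈ (ch X.hπ c).source, F =ᶠ[𝓝 z] u ∘ ch X.hπ c := by
    intro z hz
    filter_upwards [hsrc.mem_nhds hz] with w hw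
    rw [hFdef, indicator_of_mem hw]
  have hFsm : ContDiff ℝ ∞ F := by
    rw [contDiff_iff_contDiffAt]
    intro z
    by_cases hz : z ∈ (ch X.hπ c).source
    · exact (SmAt.ch hz (hu.1 _)).congr_of_eventuallyEq (hFsrc z hz)
    · have hz2 : z ∈ (tsupport F)ᶜ := fun h => hz (hK's (hFsupp h))
      apply (contDiffAt_const (c := (0 : ℂ))).congr_of_eventuallyEq
      filter_upwards [(isClosed_tsupport F).isOpen_compl.mem_nhds hz2] with w hw
      exact image_eq_zero_of_notMem_tsupport hw
  rw [e1, e2, e3]
  have e4 : ∫ z in (ch X.hπ c).source, dR X u (ch X.hπ c z) v =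
      ∫ z in (ch X.hπ c).source, fderiv ℝ F z v := by
    apply setIntegral_congr_fun hsrc.measurableSet
    intro z hz
    show dR X u (ch X.hπ c z) v = fderiv ℝ F z v
    rw [dR_ch hz (hu.1 _), (hFsrc z hz).fderiv_eq]
  rw [e4, setIntegral_eq_integral_of_forall_compl_eq_zero]
  · exact IBP_integral_fderiv hFsm hFc v
  · intro z hz
    have hz2 : z ∈ (tsupport F)ᶜ := fun h => hz (hK's (hFsupp h))
    have h0 : F =ᶠ[𝓝 z] fun _ => (0 : ℂ) := by
      filter_upwards [(isClosed_tsupport F).isOpen_compl.mem_nhds hz2] with w hw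
      exact image_eq_zero_of_notMem_tsupport hw
    rw [h0.fderiv_eq]
    simp

theorem s_IBP (hPullFacts : S_PullFacts) (hPU : S_PU) : S_IBP := by
  intro n X μ hμ u hu
  haveI : IsFiniteMeasureOnCompacts μ := (hPullFacts n X μ hμ).1
  have key : ∀ v : Cn n, ∫ x, dR X u x v ∂μ = 0 := by
    intro v
    obtain ⟨m, c, θ, h1, h2, U, hU, hKU, h3⟩ := hPU n X (tsupport u) hu.2.isCompact
      (fun _ => univ) (fun _ => univ_mem)
    set w : Fin m → X → ℂ := fun i x => (θ i x : ℂ) * u x with hw
    have hwsm : ∀ i, Sm X (w i) := fun i => (h1 i).1.1.ofReal.mul hu.1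
    have hwcs : ∀ i, CS X (w i) := fun i => ⟨hwsm i, hu.2.mul_left⟩
    have hwt : ∀ i, tsupport (w i) ⊆ (ch X.hπ (c i)).target := by
      intro i
      have : tsupport (w i) ⊆ tsupport (θ i) := by
        refine closure_mono ?_
        intro x hx
        rw [Function.mem_support] at hx ⊢
        intro h
        apply hx
        simp [hw, h]
      exact fun x hx => ((h1 i).2.1 (this hx)).1
    have hsum : u = fun x => ∑ i, w i x := by
      funext x
      by_cases hx : x ∈ tsupport u
      · have : (∑ i, (θ i x : ℂ)) = 1 := by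
          have := h3 x (hKU hx)
          exact_mod_cast this
        simp only [hw]
        rw [← Finset.sum_mul, this, one_mul]
      · have : u x = 0 := image_eq_zero_of_notMem_tsupport hx
        simp [hw, this]
    have e : ∀ x, dR X u x v = ∑ i, dR X (w i) x v := by
      intro x
      conv_lhs => rw [hsum]
      rw [dR_sum (fun i _ => hwsm i x)]
      simp
    simp_rw [e]
    rw [integral_finset_sum _ (fun i _ => IBP_integrable (hwcs i) v)]
    apply Finset.sum_eq_zero
    intro i _
    exact IBP_local hPullFacts X μ hμ (c i) (w i) (hwcs i) (hwt i) v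
  refine ⟨key, ?_, ?_⟩
  · intro j
    simp only [wd]
    rw [integral_const_mul, integral_sub (IBP_integrable hu _)
      ((IBP_integrable hu _).const_mul _), integral_const_mul, key, key]
    simp
  · intro j
    simp only [wdb]
    rw [integral_const_mul, integral_add (IBP_integrable hu _)
      ((IBP_integrable hu _).const_mul _), integral_const_mul, key, key]
    simp

end Pool.Agent.Lib.MP_55bc5f_an
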