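import Pool.Agent.Lib.MP_55bc5f_an.Full.SpecL2

/-!
# Hörmander's theorem from the weak solution and Weyl's lemma
-/

set_option autoImplicit false

open scoped Manifold ContDiff Topology ComplexConjugate
open Set Filter Metric MeasureTheory

namespace Pool.Agent.Lib.MP_55bc5f_an

private lemma L2_locInt {n : ℕ} {X : Dom n} {μ : Measure X} [IsFiniteMeasureOnCompacts μ]
    {u : X → ℂ} {φ : X → ℝ} (hu : AEStronglyMeasurable u μ) (hφ : Continuous φ)
    (hi : Integrable (fun x => ‖u x‖ ^ 2 * Real.exp (-φ x)) μ) (K : Set X) (hK : IsCompact K) :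
    IntegrableOn u K μ := by
  obtain ⟨C, hC⟩ := hK.bddAbove_image hφ.continuousOn
  have h1 : IntegrableOn (fun x => 1 + Real.exp C * (‖u x‖ ^ 2 * Real.exp (-φ x))) K μ := by
    refine Integrable.add ?_ (hi.integrableOn.const_mul _)
    exact integrableOn_const (hs := hK.measure_lt_top.ne)
  refine Integrable.mono' h1 hu.restrict ?_
  filter_upwards [ae_restrict_mem hK.measurableSet] with x hx
  have h2 : φ x ≤ C := hC ⟨x, hx, rfl⟩
  have h3 : (1 : ℝ) ≤ Real.exp C * Real.exp (-φ x) := by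
    rw [← Real.exp_add]
    exact Real.one_le_exp (by linarith)
  have h4 : ‖u x‖ ≤ 1 + ‖u x‖ ^ 2 := by nlinarith [sq_nonneg (‖u x‖ - 1), norm_nonneg (u x)]
  have h5 : ‖u x‖ ^ 2 ≤ Real.exp C * (‖u x‖ ^ 2 * Real.exp (-φ x)) := by
    have := mul_le_mul_of_nonneg_left h3 (sq_nonneg ‖u x‖)
    nlinarith
  linarith

private lemma L2_mulInt {n : ℕ} {X : Dom n} {μ : Measure X} {u ψ : X → ℂ}
    (hu : ∀ K, IsCompact K → IntegrableOn u K μ) (hψ : Continuous ψ) (hc : HasCompactSupport ψ) :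
    Integrable (fun x => u x * ψ x) μ := by
  have hK : IsCompact (tsupport ψ) := hc
  rw [← integrableOn_iff_integrable_of_support_subset (s := tsupport ψ)]
  · obtain ⟨C, hC⟩ := hc.exists_bound_of_continuous hψ
    exact Integrable.mul_bdd (hu _ hK) hψ.aestronglyMeasurable (Eventually.of_forall hC)
  · intro x hx
    apply subset_tsupport
    intro h
    apply hx
    simp only [h, mul_zero]

private lemma L2_csWdb {n : ℕ} {X : Dom n} {ξ : X → ℂ} (hξ : CS X ξ) (j : Fin n) :
    Continuous (wdb X j ξ) ∧ HasCompactSupport (wdb X j ξ) := by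
  refine ⟨(hξ.1.wdb j).continuous, HasCompactSupport.intro hξ.2 fun x hx => ?_⟩
  rw [wdb, dR_of_notMem_tsupport hx]
  simp

theorem s_L2 (hPullFacts : S_PullFacts) (hIBP : S_IBP) (hRiesz : S_Riesz) (hWeyl : S_Weyl) :
    S_L2 := by
  intro n X μ hμ s φ hs hφ hlev χ hχ
  obtain ⟨u, hum, hui, hub, hue⟩ := hRiesz n X μ hμ s φ hs hφ hlev χ hχ
  obtain ⟨hfin, -⟩ := hPullFacts n X μ hμ
  have huK : ∀ K, IsCompact K → IntegrableOn u K μ := L2_locInt hum hφ.continuous hui
  have hχK : ∀ K, IsCompact K → IntegrableOn χ K μ := fun K hK =>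
    hχ.1.continuous.continuousOn.integrableOn_compact hK
  obtain ⟨h, hh, hae⟩ := hWeyl n X μ hμ (fun x => χ x - u x)
    (fun K hK => (hχK K hK).sub (huK K hK)) (by
      intro ξ hξ j
      obtain ⟨hc1, hc2⟩ := L2_csWdb hξ j
      have i1 : Integrable (fun x => χ x * wdb X j ξ x) μ := L2_mulInt hχK hc1 hc2
      have i2 : Integrable (fun x => u x * wdb X j ξ x) μ := L2_mulInt huK hc1 hc2
      have i3 : Integrable (fun x => wdb X j χ x * ξ x) μ := by
        refine L2_mulInt (fun K hK => ?_) hξ.1.continuous hξ.2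
        exact (L2_csWdb hχ j).1.continuousOn.integrableOn_compact hK
      have e1 : ∫ x, (χ x - u x) * wdb X j ξ x ∂μ =
          ∫ x, χ x * wdb X j ξ x ∂μ - ∫ x, u x * wdb X j ξ x ∂μ := by
        rw [← integral_sub i1 i2]
        exact integral_congr_ae (Eventually.of_forall fun x => by ring)
      have e2 := (hIBP n X μ hμ (fun x => χ x * ξ x) ⟨hχ.1.mul hξ.1, hξ.2.mul_left⟩).2.2 j
      have e3 : ∫ x, wdb X j (fun y => χ y * ξ y) x ∂μ =
          ∫ x, χ x * wdb X j ξ x ∂μ + ∫ x, wdb X j χ x * ξ x ∂μ := by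
        rw [← integral_add i1 i3]
        refine integral_congr_ae (Eventually.of_forall fun x => ?_)
        simp only
        rw [wdb_mul (hχ.1 x) (hξ.1 x)]
        ring
      rw [e1, hue ξ hξ j, sub_neg_eq_add, ← e3]
      exact e2)
  have hae2 : (fun x => ‖χ x - h x‖ ^ 2 * Real.exp (-φ x)) =ᵐ[μ]
      fun x => ‖u x‖ ^ 2 * Real.exp (-φ x) := by
    filter_upwards [hae] with x hx
    have : χ x - h x = u x := by rw [← hx]; ring
    rw [this]
  refine ⟨h, hh, hui.congr hae2.symm, ?_⟩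
  rw [integral_congr_ae hae2]
  exact hub

end Pool.Agent.Lib.MP_55bc5f_an
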