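import Pool.Agent.Lib.MP_55bc5f_an.Full.SpecL2

/-!
# The Levi form as a sum of second Wirtinger derivatives
-/

set_option autoImplicit false

open scoped Manifold ContDiff Topology ComplexConjugate
open Set Filter Metric MeasureTheory

namespace Pool.Agent.Lib.MP_55bc5f_an

private lemma LevSum_expand {n : ℕ} (L : Cn n →L[ℝ] ℝ) (w : Cn n) :
    L w = ∑ j, ((w j).re * L (Pi.single j 1) + (w j).im * L (Pi.single j Complex.I)) := by
  have hw : w = ∑ j, ((w j).re • (Pi.single j 1 : Cn n) +
      (w j).im • (Pi.single j Complex.I : Cn n)) := by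
    funext i
    rw [Finset.sum_apply, Finset.sum_eq_single i]
    · simp only [Pi.add_apply, Pi.smul_apply, Pi.single_eq_same, Complex.real_smul, mul_one]
      exact (Complex.re_add_im (w i)).symm
    · intro b _ hb
      simp [Pi.single_eq_of_ne hb.symm]
    · intro h
      exact absurd (Finset.mem_univ i) h
  conv_lhs => rw [hw]
  rw [map_sum]
  refine Finset.sum_congr rfl fun j _ => ?_
  rw [map_add, map_smul, map_smul, smul_eq_mul, smul_eq_mul]

private lemma LevSum_expand2 {n : ℕ} (Φ : Cn n →L[ℝ] (Cn n →L[ℝ] ℝ)) (u w : Cn n) :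
    Φ u w = ∑ j, ∑ k,
      ((u j).re * (w k).re * Φ (Pi.single j 1) (Pi.single k 1) +
       (u j).re * (w k).im * Φ (Pi.single j 1) (Pi.single k Complex.I) +
       (u j).im * (w k).re * Φ (Pi.single j Complex.I) (Pi.single k 1) +
       (u j).im * (w k).im * Φ (Pi.single j Complex.I) (Pi.single k Complex.I)) := by
  have h1 := LevSum_expand ((ContinuousLinearMap.apply ℝ ℝ w).comp Φ) u
  simp only [ContinuousLinearMap.comp_apply, ContinuousLinearMap.apply_apply] at h1
  rw [h1]
  refine Finset.sum_congr rfl fun j _ => ?_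
  rw [LevSum_expand (Φ (Pi.single j 1)) w, LevSum_expand (Φ (Pi.single j Complex.I)) w,
    Finset.mul_sum, Finset.mul_sum, ← Finset.sum_add_distrib]
  refine Finset.sum_congr rfl fun k _ => ?_
  ring

theorem s_LevSum : S_LevSum := by
  intro n X φ hφ x w
  set Φ := dR X (dR X φ) x with hΦ
  -- symmetry
  have hsym : ∀ u v, Φ u v = Φ v u := by
    obtain ⟨g, h1, h2⟩ := hφ x
    have h3 : Φ = fderiv ℝ (fderiv ℝ g) (X.π x) := dR_eq (dR_eventually_eq h2)
    intro u v
    rw [h3]
    have h4 : IsSymmSndFDerivAt ℝ g (X.π x) := h1.isSymmSndFDerivAt (by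
      simp only [minSmoothness_of_isRCLikeNormedField]
      exact WithTop.coe_le_coe.2 le_top)
    exact h4 u v
  -- the mixed derivative
  have hmix : ∀ j k, wd X j (wdb X k (fun y => (φ y : ℂ))) x =
      (1 / 4) * (((Φ (Pi.single j 1) (Pi.single k 1) +
        Φ (Pi.single j Complex.I) (Pi.single k Complex.I) : ℝ) : ℂ) +
        Complex.I * ((Φ (Pi.single j 1) (Pi.single k Complex.I) -
        Φ (Pi.single j Complex.I) (Pi.single k 1) : ℝ) : ℂ)) := by
    intro j k
    have e1 : wdb X k (fun y => (φ y : ℂ)) = fun y =>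
        (1 / 2 : ℂ) * ((dR X φ y (Pi.single k 1) : ℂ) +
          Complex.I * (dR X φ y (Pi.single k Complex.I) : ℂ)) := by
      funext y
      rw [wdb, dR_ofReal (hφ y), dR_ofReal (hφ y)]
    have hs : ∀ v : Cn n, SmAt X (fun y => dR X φ y v) x := fun v =>
      (hφ x).dR.clm (ContinuousLinearMap.apply ℝ ℝ v)
    have hd : ∀ v u : Cn n, dR X (fun y => (dR X φ y v : ℂ)) x u = ((Φ u v : ℝ) : ℂ) := by
      intro v u
      rw [dR_ofReal (hs v)]
      congr 1
      have := dR_clm (hφ x).dR (ContinuousLinearMap.apply ℝ ℝ v)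
      simp only [ContinuousLinearMap.apply_apply] at this
      rw [this]
      rfl
    have hw1 : ∀ v : Cn n, wd X j (fun y => (dR X φ y v : ℂ)) x =
        (1 / 2) * (((Φ (Pi.single j 1) v : ℝ) : ℂ) -
          Complex.I * ((Φ (Pi.single j Complex.I) v : ℝ) : ℂ)) := by
      intro v
      rw [wd, hd, hd]
    rw [e1, wd_mul (SmAt.const _ x) ((hs _).ofReal.add ((SmAt.const _ x).mul (hs _).ofReal)),
      wd_add (hs _).ofReal ((SmAt.const _ x).mul (hs _).ofReal),
      wd_mul (SmAt.const _ x) (hs _).ofReal, wd_const, wd_const, hw1, hw1]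
    push_cast
    ring_nf
    rw [Complex.I_sq]
    ring
  -- the antisymmetric part
  set U : Fin n → Fin n → ℝ := fun j k =>
    (Φ (Pi.single j 1) (Pi.single k 1) + Φ (Pi.single j Complex.I) (Pi.single k Complex.I)) *
      ((w j).im * (w k).re - (w j).re * (w k).im) +
    (Φ (Pi.single j 1) (Pi.single k Complex.I) - Φ (Pi.single j Complex.I) (Pi.single k 1)) *
      ((w j).re * (w k).re + (w j).im * (w k).im) with hU
  have hU0 : ∑ j, ∑ k, U j k = 0 := by
    have h1 : ∑ j, ∑ k, U j k = ∑ j, ∑ k, U k j := Finset.sum_comm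
    have h2 : ∑ j, ∑ k, U k j = - ∑ j, ∑ k, U j k := by
      rw [← Finset.sum_neg_distrib]
      refine Finset.sum_congr rfl fun j _ => ?_
      rw [← Finset.sum_neg_distrib]
      refine Finset.sum_congr rfl fun k _ => ?_
      simp only [hU]
      rw [hsym (Pi.single k 1) (Pi.single j 1),
        hsym (Pi.single k Complex.I) (Pi.single j Complex.I),
        hsym (Pi.single k 1) (Pi.single j Complex.I),
        hsym (Pi.single k Complex.I) (Pi.single j 1)]
      ring
    linarith
  set T : Fin n → Fin n → ℝ := fun j k =>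
    (Φ (Pi.single j 1) (Pi.single k 1) + Φ (Pi.single j Complex.I) (Pi.single k Complex.I)) *
      ((w j).re * (w k).re + (w j).im * (w k).im) +
    (Φ (Pi.single j 1) (Pi.single k Complex.I) - Φ (Pi.single j Complex.I) (Pi.single k 1)) *
      ((w j).re * (w k).im - (w j).im * (w k).re) with hT
  have hlev : Lev X φ x w = (1 / 4) * ∑ j, ∑ k, T j k := by
    rw [Lev, ← hΦ, LevSum_expand2 Φ w w, LevSum_expand2 Φ (Complex.I • w) (Complex.I • w),
      ← Finset.sum_add_distrib]
    congr 1
    refine Finset.sum_congr rfl fun j _ => ?_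
    rw [← Finset.sum_add_distrib]
    refine Finset.sum_congr rfl fun k _ => ?_
    simp only [Pi.smul_apply, smul_eq_mul, Complex.mul_re, Complex.mul_im, Complex.I_re,
      Complex.I_im, zero_mul, one_mul, zero_sub, zero_add, hT]
    ring
  have hterm : ∀ j k, wd X j (wdb X k (fun y => (φ y : ℂ))) x * w j * conj (w k) =
      (1 / 4) * ((T j k : ℝ) : ℂ) + (1 / 4) * Complex.I * ((U j k : ℝ) : ℂ) := by
    intro j k
    rw [hmix]
    have h1 : w j = ((w j).re : ℂ) + ((w j).im : ℂ) * Complex.I := (Complex.re_add_im _).symm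
    have h2 : conj (w k) = ((w k).re : ℂ) - ((w k).im : ℂ) * Complex.I := by
      apply Complex.ext <;> simp
    rw [h2]
    conv_lhs => rw [h1]
    simp only [hT, hU]
    push_cast
    ring_nf
    simp only [Complex.I_sq, Complex.I_pow_three]
    ring
  have hsum : ∑ j, ∑ k, wd X j (wdb X k (fun y => (φ y : ℂ))) x * w j * conj (w k) =
      (1 / 4) * ((∑ j, ∑ k, T j k : ℝ) : ℂ) + (1 / 4) * Complex.I * ((∑ j, ∑ k, U j k : ℝ) : ℂ) := by
    push_cast
    rw [Finset.mul_sum, Finset.mul_sum, ← Finset.sum_add_distrib]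
    refine Finset.sum_congr rfl fun j _ => ?_
    rw [Finset.mul_sum, Finset.mul_sum, ← Finset.sum_add_distrib]
    refine Finset.sum_congr rfl fun k _ => ?_
    exact hterm j k
  rw [hsum, hU0, hlev]
  push_cast
  ring

end Pool.Agent.Lib.MP_55bc5f_an
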