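import Pool.Agent.Lib.MP_55bc5f_an.Full.SpecL2

/-!
# The logarithmic divergence of the singular weight
-/

set_option autoImplicit false

open scoped Manifold ContDiff Topology ComplexConjugate
open Set Filter Metric MeasureTheory

namespace Pool.Agent.Lib.MP_55bc5f_an

namespace LogInfAux

variable {n : ℕ}

lemma nsq_nonneg (w : Cn n) : 0 ≤ nsq w := Finset.sum_nonneg fun j _ => by positivity

lemma continuous_nsq : Continuous (nsq : Cn n → ℝ) := by
  unfold nsq
  fun_prop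

lemma nsq_le (z : Cn n) {r : ℝ} (hz : ‖z‖ ≤ r) : nsq z ≤ n * r ^ 2 := by
  have h : ∀ j ∈ (Finset.univ : Finset (Fin n)), ‖z j‖ ^ 2 ≤ r ^ 2 := fun j _ =>
    pow_le_pow_left₀ (norm_nonneg _) ((norm_le_pi_norm z j).trans hz) 2
  have := Finset.sum_le_sum h
  simpa [nsq] using this

lemma finrank_Cn : Module.finrank ℝ (Cn n) = n * 2 := by
  rw [Module.finrank_pi_fintype]
  simp [Complex.finrank_real_complex]

lemma vol_ball {r : ℝ} (hr : 0 < r) :
    volume.real (ball (0 : Cn n) r) = (r ^ 2) ^ n * volume.real (ball (0 : Cn n) 1) := by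
  rw [Measure.real, Measure.addHaar_ball_of_pos volume (0 : Cn n) hr, finrank_Cn, ENNReal.toReal_mul,
    ENNReal.toReal_ofReal (by positivity), ← Measure.real, mul_comm n 2, pow_mul]

lemma cont_f {ε : ℝ} (hε : 0 < ε) : Continuous fun z : Cn n => ((nsq z + ε ^ 2) ^ n)⁻¹ := by
  apply Continuous.inv₀
  · exact (continuous_nsq.add continuous_const).pow n
  · intro z
    have : 0 < nsq z + ε ^ 2 := add_pos_of_nonneg_of_pos (nsq_nonneg z) (by positivity)
    positivity

lemma integrableOn_f {ε : ℝ} (hε : 0 < ε) (r : ℝ) :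
    IntegrableOn (fun z : Cn n => ((nsq z + ε ^ 2) ^ n)⁻¹) (ball 0 r) :=
  ((cont_f hε).continuousOn.integrableOn_compact (isCompact_closedBall 0 r)).mono_set
    ball_subset_closedBall

/-- The contribution of one shell. -/
noncomputable def c0 (n : ℕ) : ℝ :=
  volume.real (ball (0 : Cn n) 1) * (1 - (1 / 4) ^ n) / (n + 1) ^ n

lemma c0_pos (hn : 0 < n) : 0 < c0 n := by
  have h1 : 0 < volume.real (ball (0 : Cn n) 1) :=
    ENNReal.toReal_pos (measure_ball_pos _ _ one_pos).ne' measure_ball_lt_top.ne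
  have h2 : ((1 : ℝ) / 4) ^ n < 1 := pow_lt_one₀ (by norm_num) (by norm_num) hn.ne'
  unfold c0
  have h3 : 0 < 1 - ((1 : ℝ) / 4) ^ n := by linarith
  positivity

lemma shell {r ε : ℝ} (hr : 0 < r) (hε : 0 < ε) (hεr : ε ≤ r) :
    c0 n ≤ ∫ z in ball (0 : Cn n) r \ ball 0 (r / 2), ((nsq z + ε ^ 2) ^ n)⁻¹ := by
  have hsub : ball (0 : Cn n) (r / 2) ⊆ ball 0 r := ball_subset_ball (by linarith)
  have hms : MeasurableSet (ball (0 : Cn n) r \ ball 0 (r / 2)) :=
    measurableSet_ball.diff measurableSet_ball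
  have hfin : volume (ball (0 : Cn n) r \ ball 0 (r / 2)) ≠ ⊤ :=
    ((measure_mono sdiff_subset).trans_lt measure_ball_lt_top).ne
  have h1 : ∫ _z in ball (0 : Cn n) r \ ball 0 (r / 2), (((n + 1) * r ^ 2) ^ n)⁻¹ ≤
      ∫ z in ball (0 : Cn n) r \ ball 0 (r / 2), ((nsq z + ε ^ 2) ^ n)⁻¹ := by
    apply setIntegral_mono_on
    · exact integrableOn_const hfin
    · exact (integrableOn_f hε r).mono_set sdiff_subset
    · exact hms
    · intro z hz
      have h2 : nsq z ≤ n * r ^ 2 := nsq_le z (by simpa using (mem_ball_zero_iff.1 hz.1).le)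
      have h3 : 0 < nsq z + ε ^ 2 := add_pos_of_nonneg_of_pos (nsq_nonneg z) (by positivity)
      have h4 : nsq z + ε ^ 2 ≤ (n + 1) * r ^ 2 := by
        have : ε ^ 2 ≤ r ^ 2 := pow_le_pow_left₀ hε.le hεr 2
        linarith
      gcongr
  refine le_trans (le_of_eq ?_) h1
  rw [setIntegral_const, smul_eq_mul, measureReal_sdiff hsub measurableSet_ball, vol_ball hr,
    vol_ball (half_pos hr)]
  have h5 : (((n : ℝ) + 1) * r ^ 2) ^ n = ((n : ℝ) + 1) ^ n * (r ^ 2) ^ n := mul_pow _ _ _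
  have h6 : ((r / 2) ^ 2) ^ n = (r ^ 2) ^ n * (1 / 4) ^ n := by
    rw [← mul_pow]
    congr 1
    ring
  rw [h5, h6, c0]
  have h7 : (r ^ 2) ^ n ≠ 0 := by positivity
  have h8 : ((n : ℝ) + 1) ^ n ≠ 0 := by positivity
  field_simp

lemma many (K : ℕ) : ∀ r ε : ℝ, 0 < r → 0 < ε → ε * 2 ^ K ≤ r →
    K * c0 n ≤ ∫ z in ball (0 : Cn n) r, ((nsq z + ε ^ 2) ^ n)⁻¹ := by
  induction K with
  | zero =>
    intro r ε hr hε _
    have : 0 ≤ ∫ z in ball (0 : Cn n) r, ((nsq z + ε ^ 2) ^ n)⁻¹ := by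
      apply integral_nonneg
      intro z
      have : 0 < nsq z + ε ^ 2 := add_pos_of_nonneg_of_pos (nsq_nonneg z) (by positivity)
      positivity
    simpa using this
  | succ K ih =>
    intro r ε hr hε h
    have h1 : ε * 2 ^ K ≤ r / 2 := by
      rw [pow_succ] at h
      linarith
    have h2 : ε ≤ r := by
      have : (1 : ℝ) ≤ 2 ^ (K + 1) := one_le_pow₀ (by norm_num)
      nlinarith
    have h3 := ih (r / 2) ε (half_pos hr) hε h1
    have h4 := shell (n := n) hr hε h2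
    have hsub : ball (0 : Cn n) (r / 2) ⊆ ball 0 r := ball_subset_ball (by linarith)
    have h5 : ∫ z in ball (0 : Cn n) r, ((nsq z + ε ^ 2) ^ n)⁻¹ =
        (∫ z in ball (0 : Cn n) (r / 2), ((nsq z + ε ^ 2) ^ n)⁻¹) +
        ∫ z in ball (0 : Cn n) r \ ball 0 (r / 2), ((nsq z + ε ^ 2) ^ n)⁻¹ := by
      rw [← setIntegral_union disjoint_sdiff_right (measurableSet_ball.diff measurableSet_ball)
        (integrableOn_f hε _) ((integrableOn_f hε r).mono_set sdiff_subset), union_sdiff_cancel hsub]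
    rw [h5]
    push_cast
    linarith

end LogInfAux

open LogInfAux

theorem s_LogInf : S_LogInf := by
  intro n hn r hr C
  obtain ⟨K, hK⟩ := exists_nat_gt (C / c0 n)
  refine ⟨r / 2 ^ K, by positivity, fun ε hε hεr => ?_⟩
  have h1 : ε * 2 ^ K ≤ r := by
    rw [lt_div_iff₀ (by positivity)] at hεr
    exact hεr.le
  have h2 := many (n := n) K r ε hr hε h1
  rw [div_lt_iff₀ (c0_pos hn)] at hK
  linarith

end Pool.Agent.Lib.MP_55bc5f_an
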