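import Pool.Agent.Lib.MP_55bc5f_an.Full.SpecL2

/-!
# The Levi form of the logarithmic weight
-/

set_option autoImplicit false

open scoped Manifold ContDiff Topology ComplexConjugate
open Set Filter Metric MeasureTheory

namespace Pool.Agent.Lib.MP_55bc5f_an

namespace LogLevAux

variable {n : ℕ} {X : Dom n}

lemma smAt_comp_pi {W : Type} [NormedAddCommGroup W] [NormedSpace ℝ W] {F : Cn n → W} {x : X}
    (hF : ContDiffAt ℝ ∞ F (X.π x)) : SmAt X (fun y => F (X.π y)) x :=
  ⟨F, hF, EventuallyEq.refl _ _⟩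

lemma dR_comp_pi {W : Type} [NormedAddCommGroup W] [NormedSpace ℝ W] {F : Cn n → W} {x : X} :
    dR X (fun y => F (X.π y)) x = fderiv ℝ F (X.π x) :=
  dR_eq (EventuallyEq.refl _ _)

lemma contDiff_nsq_sub (a : Cn n) : ContDiff ℝ ∞ (fun z : Cn n => nsq (z - a)) := by
  unfold nsq
  apply ContDiff.sum
  intro j _
  have h : ContDiff ℝ ∞ (fun z : Cn n => (z - a) j) := by
    have h1 : ContDiff ℝ ∞ (fun z : Cn n => z j) :=
      (ContinuousLinearMap.proj (R := ℝ) (φ := fun _ : Fin n => ℂ) j).contDiff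
    exact h1.sub contDiff_const
  exact h.norm_sq ℝ

lemma nsq_nonneg (w : Cn n) : 0 ≤ nsq w := Finset.sum_nonneg fun j _ => by positivity

lemma hasFDerivAt_nsq (a z w : Cn n) :
    fderiv ℝ (fun z : Cn n => nsq (z - a)) z w = 2 * (∑ j, conj ((z - a) j) * w j).re := by
  have h : ∀ j ∈ (Finset.univ : Finset (Fin n)), HasFDerivAt (fun z : Cn n => ‖(z - a) j‖ ^ 2)
      (2 • (innerSL ℝ ((z - a) j)).comp
        (ContinuousLinearMap.proj (R := ℝ) (φ := fun _ : Fin n => ℂ) j)) z := by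
    intro j _
    apply HasFDerivAt.norm_sq
    have h1 := (ContinuousLinearMap.proj (R := ℝ) (φ := fun _ : Fin n => ℂ) j).hasFDerivAt (x := z)
    exact h1.sub_const (a j)
  have h2 := HasFDerivAt.fun_sum h
  have h3 : (fun z : Cn n => nsq (z - a)) = fun z : Cn n => ∑ j, ‖(z - a) j‖ ^ 2 := rfl
  rw [h3, h2.fderiv]
  simp only [_root_.sum_apply, Complex.re_sum, Finset.mul_sum]
  apply Finset.sum_congr rfl
  intro j _
  simp [Complex.inner]
  ring

lemma sq_le (b w : Cn n) :
    ‖∑ j, conj (b j) * w j‖ ^ 2 ≤ nsq b * nsq w := by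
  have h1 : ‖∑ j, conj (b j) * w j‖ ≤ ∑ j, ‖b j‖ * ‖w j‖ := by
    refine (norm_sum_le _ _).trans (le_of_eq ?_)
    apply Finset.sum_congr rfl
    intro j _
    rw [norm_mul, RCLike.norm_conj]
  calc ‖∑ j, conj (b j) * w j‖ ^ 2 ≤ (∑ j, ‖b j‖ * ‖w j‖) ^ 2 := by gcongr
    _ ≤ (∑ j, ‖b j‖ ^ 2) * ∑ j, ‖w j‖ ^ 2 := Finset.sum_mul_sq_le_sq_mul_sq _ _ _

lemma lev_const (c : ℝ) (x : X) (w : Cn n) : Lev X (fun _ => c) x w = 0 := by
  have h : dR X (fun _ : X => c) = fun _ => 0 := by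
    funext y
    exact dR_const c y
  rw [Lev, h, dR_const]
  simp

end LogLevAux

open LogLevAux

theorem s_LogLev (hLevComp : S_LevComp) : S_LogLev := by
  intro n X a ε hε
  obtain ⟨h1, h2, h3, h4, -⟩ := hLevComp n X
  set L : X → ℝ := fun x => Real.log (nsq (X.π x - a) + ε ^ 2) with hLdef
  have hpos : ∀ z : Cn n, 0 < nsq (z - a) + ε ^ 2 := fun z =>
    add_pos_of_nonneg_of_pos (nsq_nonneg _) (by positivity)
  have hL : Sm X L := by
    intro x
    apply smAt_comp_pi (F := fun z : Cn n => Real.log (nsq (z - a) + ε ^ 2))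
    exact (((contDiff_nsq_sub a).add contDiff_const).contDiffAt).log (hpos _).ne'
  refine ⟨(Sm.const (n : ℝ)).mul hL, ?_⟩
  intro x w
  rw [h3 L n hL]
  apply mul_nonneg (Nat.cast_nonneg n)
  have hu : ∀ s : Finset (Fin n), Sm X (fun y => ∑ j ∈ s, ‖X.π y j - a j‖ ^ 2) ∧
      Lev X (fun y => ∑ j ∈ s, ‖X.π y j - a j‖ ^ 2) x w = ∑ j ∈ s, ‖w j‖ ^ 2 := by
    have hh : ∀ j, ∀ y : X, HolAt X.π (fun y => X.π y j - a j) y := by
      intro j y
      refine ⟨fun z => z j - a j, Eventually.of_forall fun z => ?_, EventuallyEq.refl _ _⟩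
      exact ((ContinuousLinearMap.proj (R := ℂ) (φ := fun _ : Fin n => ℂ) j).differentiableAt).sub_const _
    have hsm : ∀ j, Sm X (fun y => ‖X.π y j - a j‖ ^ 2) := by
      intro j y
      apply smAt_comp_pi (F := fun z : Cn n => ‖z j - a j‖ ^ 2)
      have h : ContDiff ℝ ∞ (fun z : Cn n => z j - a j) :=
        (ContinuousLinearMap.proj (R := ℝ) (φ := fun _ : Fin n => ℂ) j).contDiff.sub contDiff_const
      exact (h.norm_sq ℝ).contDiffAt
    intro s
    induction s using Finset.induction_on with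
    | empty => simpa using ⟨Sm.const (0 : ℝ), lev_const (X := X) (0 : ℝ) x w⟩
    | insert j s hj ih =>
      simp only [Finset.sum_insert hj]
      refine ⟨(hsm j).add ih.1, ?_⟩
      rw [h2 _ _ (hsm j) ih.1, ih.2]
      congr 1
      rw [h4 _ (hh j)]
      have hrd : HasRD X.π (fun y => X.π y j - a j)
          (ContinuousLinearMap.proj (R := ℂ) (φ := fun _ : Fin n => ℂ) j) x :=
        ⟨fun z => z j - a j,
          ((ContinuousLinearMap.proj (R := ℂ) (φ := fun _ : Fin n => ℂ) j).hasFDerivAt).sub_const _,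
          EventuallyEq.refl _ _⟩
      rw [hrd.rd_eq X.hπ]
      rfl
  have e2 : (fun y => Real.exp (L y)) = fun y => nsq (X.π y - a) + ε ^ 2 := by
    funext y
    exact Real.exp_log (hpos _)
  have hun : (fun y => nsq (X.π y - a)) = fun y => ∑ j, ‖X.π y j - a j‖ ^ 2 := rfl
  have e3 : Lev X (fun y => nsq (X.π y - a) + ε ^ 2) x w = nsq w := by
    have h := h2 (fun y => nsq (X.π y - a)) (fun _ => ε ^ 2) (by rw [hun]; exact (hu _).1)
      (Sm.const _) x w
    rw [h, lev_const, add_zero, hun, (hu _).2]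
    rfl
  have e1 := h1 L Real.exp hL Real.contDiff_exp x w
  rw [e2, e3, Real.deriv_exp, Real.deriv_exp] at e1
  have hd : ∀ v : Cn n, Real.exp (L x) * dR X L x v =
      2 * (∑ j, conj ((X.π x - a) j) * v j).re := by
    intro v
    have h := dR_comp (hL x) (F := Real.exp) Real.differentiableAt_exp
    rw [e2] at h
    have h5 : dR X (fun y => nsq (X.π y - a) + ε ^ 2) x v =
        2 * (∑ j, conj ((X.π x - a) j) * v j).re := by
      rw [dR_comp_pi (F := fun z : Cn n => nsq (z - a) + ε ^ 2), fderiv_add_const,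
        hasFDerivAt_nsq]
    rw [← h5, h]
    simp [mul_comm]
  have hS : ∑ j, conj ((X.π x - a) j) * (Complex.I • w) j =
      Complex.I * ∑ j, conj ((X.π x - a) j) * w j := by
    rw [Finset.mul_sum]
    apply Finset.sum_congr rfl
    intro j _
    simp only [Pi.smul_apply, smul_eq_mul]
    ring
  have d1 := hd w
  have d2 := hd (Complex.I • w)
  rw [hS] at d2
  have hcs := sq_le (X.π x - a) w
  set S : ℂ := ∑ j, conj ((X.π x - a) j) * w j with hSdef
  have hnS : ‖S‖ ^ 2 = S.re ^ 2 + S.im ^ 2 := by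
    rw [Complex.sq_norm, Complex.normSq_apply]
    ring
  have him : (Complex.I * S).re = - S.im := by simp
  rw [him] at d2
  have hE : Real.exp (L x) = nsq (X.π x - a) + ε ^ 2 := congrFun e2 x
  have hE0 : 0 < Real.exp (L x) := Real.exp_pos _
  have hw := nsq_nonneg w
  set E : ℝ := Real.exp (L x) with hEdef
  have key : E * E * Lev X L x w = ε ^ 2 * nsq w + (nsq (X.π x - a) * nsq w - ‖S‖ ^ 2) := by
    have h6 : (E * dR X L x w) ^ 2 + (E * dR X L x (Complex.I • w)) ^ 2 = 4 * ‖S‖ ^ 2 := by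
      rw [d1, d2, hnS]
      ring
    have h7 : E * (E * Lev X L x w) = E * nsq w -
        ((E * dR X L x w) ^ 2 + (E * dR X L x (Complex.I • w)) ^ 2) / 4 := by
      rw [e1]
      ring
    rw [h6] at h7
    rw [mul_assoc, h7, hE]
    ring
  have hnn : 0 ≤ E * E * Lev X L x w := by
    rw [key]
    have : 0 ≤ ε ^ 2 * nsq w := by positivity
    linarith
  exact nonneg_of_mul_nonneg_right hnn (by positivity)

end Pool.Agent.Lib.MP_55bc5f_an
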