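import Pool.Agent.Lib.MP_55bc5f_an.Full.SpecL2

/-!
# The pull back of Lebesgue measure to a domain étale over `ℂⁿ`
-/

set_option autoImplicit false

open scoped Manifold ContDiff Topology ComplexConjugate
open Set Filter Metric MeasureTheory

namespace Pool.Agent.Lib.MP_55bc5f_an

section

variable {n : ℕ} (X : Dom n)

private lemma Meas_image {c : X} {A : Set X} (hA : A ⊆ (ch X.hπ c).target) :
    X.π '' A = (ch X.hπ c) ⁻¹' A ∩ (ch X.hπ c).source := by
  ext z
  constructor
  · rintro ⟨a, ha, rfl⟩
    refine ⟨?_, ?_⟩
    · rw [mem_preimage, ch_p X.hπ (hA ha)]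
      exact ha
    · have := (ch X.hπ c).map_target (hA ha)
      rwa [ch_symm] at this
  · rintro ⟨hz, hs⟩
    exact ⟨ch X.hπ c z, hz, p_ch X.hπ hs⟩

private lemma Meas_measurable (c : X) {A : Set X} (hA : MeasurableSet A) :
    MeasurableSet ((ch X.hπ c) ⁻¹' A ∩ (ch X.hπ c).source) := by
  have hc : Continuous fun z : (ch X.hπ c).source => ch X.hπ c z :=
    continuousOn_iff_continuous_domRestrict.mp (ch X.hπ c).continuousOn
  have h1 : MeasurableSet ((fun z : (ch X.hπ c).source => ch X.hπ c z) ⁻¹' A) :=
    hc.measurable hA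
  have h2 := MeasurableSet.subtype_image (ch X.hπ c).open_source.measurableSet h1
  convert h2 using 1
  ext z
  simp only [mem_inter_iff, mem_preimage, mem_image, Subtype.exists, exists_and_right,
    exists_eq_right]
  constructor
  · rintro ⟨h, hs⟩
    exact ⟨hs, h⟩
  · rintro ⟨hs, h⟩
    exact ⟨h, hs⟩

/-- The image of the Lebesgue measure in the chart at `c`. -/
private noncomputable def Meas_loc (c : X) : Measure X :=
  (volume.restrict (ch X.hπ c).source).map (ch X.hπ c)

private lemma Meas_loc_apply (c : X) {A : Set X} (hA : MeasurableSet A)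
    (hs : A ⊆ (ch X.hπ c).target) : Meas_loc X c A = volume (X.π '' A) := by
  have hae : AEMeasurable (ch X.hπ c) (volume.restrict (ch X.hπ c).source) :=
    (ch X.hπ c).continuousOn.aemeasurable (ch X.hπ c).open_source.measurableSet
  rw [Meas_loc, Measure.map_apply_of_aemeasurable hae hA,
    Measure.restrict_apply' (ch X.hπ c).open_source.measurableSet, Meas_image X hs]

end

theorem s_Meas : S_Meas := by
  intro n X
  rcases isEmpty_or_nonempty X with hX | hX
  · refine ⟨0, ?_⟩
    intro U _ _ A _ _
    have : A = ∅ := Subsingleton.elim _ _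
    rw [this]
    simp
  · obtain ⟨s, hsc, hsu⟩ := TopologicalSpace.countable_cover_nhds
      (f := fun x : X => (ch X.hπ x).target)
      (fun x => (ch X.hπ x).open_target.mem_nhds (ch_mem' X.hπ x))
    have hne : s.Nonempty := by
      by_contra h
      rw [not_nonempty_iff_eq_empty] at h
      rw [h] at hsu
      simp only [mem_empty_iff_false, iUnion_of_empty, iUnion_empty] at hsu
      exact empty_ne_univ hsu
    obtain ⟨c, rfl⟩ := hsc.exists_eq_range hne
    set U : ℕ → Set X := fun i => (ch X.hπ (c i)).target with hU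
    have hUm : ∀ i, MeasurableSet (U i) := fun i => (ch X.hπ (c i)).open_target.measurableSet
    have hDm : ∀ i, MeasurableSet (disjointed U i) := fun i => MeasurableSet.disjointed hUm i
    have hDs : ∀ i, disjointed U i ⊆ U i := fun i => disjointed_subset U i
    have hDu : ⋃ i, disjointed U i = univ := by
      rw [iUnion_disjointed]
      rw [biUnion_range] at hsu
      exact hsu
    refine ⟨Measure.sum fun i => (Meas_loc X (c i)).restrict (disjointed U i), ?_⟩
    intro W hW hinj A hAW hA
    rw [Measure.sum_apply _ hA]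
    have h1 : ∀ i, (Meas_loc X (c i)).restrict (disjointed U i) A =
        volume (X.π '' (A ∩ disjointed U i)) := by
      intro i
      rw [Measure.restrict_apply hA, Meas_loc_apply X (c i) (hA.inter (hDm i))
        (inter_subset_right.trans (hDs i))]
    simp only [h1]
    have h2 : X.π '' A = ⋃ i, X.π '' (A ∩ disjointed U i) := by
      rw [← image_iUnion, ← inter_iUnion, hDu, inter_univ]
    rw [h2, measure_iUnion]
    · intro i j hij
      rw [Function.onFun, Set.disjoint_left]
      rintro z ⟨a, ⟨ha, hai⟩, rfl⟩ ⟨b, ⟨hb, hbj⟩, hab⟩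
      have hEq : b = a := hinj (hAW hb) (hAW ha) hab
      rw [hEq] at hbj
      exact Set.disjoint_left.mp (disjoint_disjointed U hij) hai hbj
    · intro i
      rw [Meas_image X (inter_subset_right.trans (hDs i))]
      exact Meas_measurable X (c i) (hA.inter (hDm i))

end Pool.Agent.Lib.MP_55bc5f_an
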