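import Pool.Agent.Lib.MP_55bc5f_an.Full.SpecL2

/-!
# Regularization on a domain which is étale over `ℂⁿ`
-/

set_option autoImplicit false

open scoped Manifold ContDiff Topology ComplexConjugate
open Set Filter Metric MeasureTheory

namespace Pool.Agent.Lib.MP_55bc5f_an

section

variable {n : ℕ} {X : Dom n} {μ : Measure X}

/-- Transfer of a function to the chart. -/
noncomputable def mollT {W : Type} [Zero W] (a : X) (g : X → W) : Cn n → W :=
  (ch X.hπ a).source.indicator (fun z => g (ch X.hπ a z))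

/-- Transfer of a function from the chart. -/
noncomputable def mollB (a : X) (F : Cn n → ℂ) : X → ℂ :=
  (ch X.hπ a).target.indicator (fun x => F (X.π x))

lemma moll_ch_mem {a x : X} (hx : x ∈ (ch X.hπ a).target) :
    X.π x ∈ (ch X.hπ a).source := by
  have h := (ch X.hπ a).map_target hx
  rwa [ch_symm] at h

lemma moll_int (hPF : S_PullFacts) (hμ : Pull X μ) {W : Type} [NormedAddCommGroup W]
    [NormedSpace ℝ W] (a : X) {h : X → W} (h0 : ∀ x ∉ (ch X.hπ a).target, h x = 0) :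
    ∫ x, h x ∂μ = ∫ z, mollT a h z := by
  have hS : MeasurableSet (ch X.hπ a).source := (ch X.hπ a).open_source.measurableSet
  have h1 := ((hPF n X μ hμ).2.2.2.1 a _ hS Subset.rfl W h).1
  rw [(ch X.hπ a).image_source_eq_target] at h1
  rw [mollT, integral_indicator hS, ← h1]
  exact (setIntegral_eq_integral_of_forall_compl_eq_zero fun x hx => h0 x hx).symm

lemma moll_integrable (hPF : S_PullFacts) (hμ : Pull X μ) {K : Set X} (hK : IsCompact K)
    {g : X → ℂ} (hg : MemLp g 2 μ) (h0 : ∀ x ∉ K, g x = 0) : Integrable g μ := by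
  haveI := (hPF n X μ hμ).1
  haveI : IsFiniteMeasure (μ.restrict K) := ⟨by
    rw [Measure.restrict_apply_univ]; exact hK.measure_lt_top⟩
  have h1 : IntegrableOn g K μ := (hg.restrict K).integrable one_le_two
  exact (integrableOn_iff_integrable_of_support_subset (fun x hx => by
    by_contra h
    exact hx (h0 x h))).1 h1

lemma moll_memLp (hPF : S_PullFacts) (hμ : Pull X μ) {K : Set X} (hK : IsCompact K)
    (a : X) {g : X → ℂ} (hg : MemLp g 2 μ) (h0 : ∀ x ∉ K, g x = 0) :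
    MemLp (mollT a g) 2 volume := by
  have hS : MeasurableSet (ch X.hπ a).source := (ch X.hπ a).open_source.measurableSet
  have hPF' := (hPF n X μ hμ).2.2.2.1 a _ hS Subset.rfl
  rw [mollT, memLp_indicator_iff_restrict hS]
  have h1 : IntegrableOn (fun z => g (ch X.hπ a z)) (ch X.hπ a).source :=
    (hPF' ℂ g).2.1 (moll_integrable hPF hμ hK hg h0).integrableOn
  rw [memLp_two_iff_integrable_sq_norm h1.aestronglyMeasurable]
  have h2 : Integrable (fun x => ‖g x‖ ^ 2) μ := (memLp_two_iff_integrable_sq_norm hg.1).1 hg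
  exact (hPF' ℝ (fun x => ‖g x‖ ^ 2)).2.1 h2.integrableOn

lemma moll_mul {u f : X → ℂ} (hu : Continuous u) (hc : HasCompactSupport u) (hf : MemLp f 2 μ) :
    MemLp (fun x => u x * f x) 2 μ := by
  obtain ⟨C, hC⟩ := hu.bounded_above_of_compact_support hc
  refine MemLp.of_le_mul (c := C) hf (hu.aestronglyMeasurable.mul hf.1)
    (Eventually.of_forall fun x => ?_)
  rw [norm_mul]
  exact mul_le_mul_of_nonneg_right (hC x) (norm_nonneg _)

lemma moll_wd_cs {u : X → ℂ} (hu : CS X u) (j : Fin n) :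
    Sm X (wd X j u) ∧ HasCompactSupport (wd X j u) ∧ ∀ x ∉ tsupport u, wd X j u x = 0 := by
  have h0 : ∀ x ∉ tsupport u, wd X j u x = 0 := fun x hx => by
    simp [wd, dR_of_notMem_tsupport hx]
  exact ⟨hu.1.wd j, HasCompactSupport.intro hu.2 h0, h0⟩

lemma moll_wdb_cs {u : X → ℂ} (hu : CS X u) (j : Fin n) :
    Sm X (wdb X j u) ∧ HasCompactSupport (wdb X j u) ∧ ∀ x ∉ tsupport u, wdb X j u x = 0 := by
  have h0 : ∀ x ∉ tsupport u, wdb X j u x = 0 := fun x hx => by
    simp [wdb, dR_of_notMem_tsupport hx]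
  exact ⟨hu.1.wdb j, HasCompactSupport.intro hu.2 h0, h0⟩

/-- A test function. -/
lemma moll_test {θ : X → ℂ} (hθ : CS X θ) {ξ : Cn n → ℂ} (hξ : ContDiff ℝ ∞ ξ) :
    CS X (fun x => θ x * ξ (X.π x)) ∧
    (∀ j x, wd X j (fun x => θ x * ξ (X.π x)) x = θ x * ((1 / 2) *
      (fderiv ℝ ξ (X.π x) (Pi.single j 1) -
        Complex.I * fderiv ℝ ξ (X.π x) (Pi.single j Complex.I))) + ξ (X.π x) * wd X j θ x) ∧
    (∀ j x, wdb X j (fun x => θ x * ξ (X.π x)) x = θ x * ((1 / 2) *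
      (fderiv ℝ ξ (X.π x) (Pi.single j 1) +
        Complex.I * fderiv ℝ ξ (X.π x) (Pi.single j Complex.I))) + ξ (X.π x) * wdb X j θ x) := by
  have h1 : Sm X (fun x => ξ (X.π x)) := fun x =>
    ⟨ξ, hξ.contDiffAt, EventuallyEq.refl _ _⟩
  have h2 : ∀ x, dR X (fun x => ξ (X.π x)) x = fderiv ℝ ξ (X.π x) := fun x =>
    dR_eq (u := fun x => ξ (X.π x)) (g := ξ) (EventuallyEq.refl _ _)
  refine ⟨⟨hθ.1.mul h1, hθ.2.mul_right⟩, fun j x => ?_, fun j x => ?_⟩
  · rw [wd_mul (hθ.1 x) (h1 x)]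
    simp only [wd, h2]
  · rw [wdb_mul (hθ.1 x) (h1 x)]
    simp only [wdb, h2]

/-- Smooth functions with compact support in the chart. -/
lemma moll_back (a : X) {K' : Set (Cn n)} (hK' : IsCompact K') (hKs : K' ⊆ (ch X.hπ a).source)
    {F : Cn n → ℂ} (hF : ContDiff ℝ ∞ F) (h0 : ∀ z ∉ K', F z = 0) :
    Sm X (mollB a F) ∧ (∀ x ∉ ch X.hπ a '' K', mollB a F x = 0) ∧
    (∀ z ∈ (ch X.hπ a).source, mollB a F (ch X.hπ a z) = F z) ∧
    (∀ z ∈ (ch X.hπ a).source, dR X (mollB a F) (ch X.hπ a z) = fderiv ℝ F z) ∧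
    (∀ x ∉ (ch X.hπ a).target, mollB a F x = 0 ∧ dR X (mollB a F) x = 0) ∧
    (∀ z ∉ (ch X.hπ a).source, F z = 0 ∧ fderiv ℝ F z = 0) := by
  have hC : IsCompact (ch X.hπ a '' K') := hK'.image_of_continuousOn
    ((ch X.hπ a).continuousOn.mono hKs)
  have hz : ∀ x ∉ ch X.hπ a '' K', mollB a F x = 0 := by
    intro x hx
    by_cases hxt : x ∈ (ch X.hπ a).target
    · rw [mollB, indicator_of_mem hxt]
      apply h0
      intro h
      exact hx ⟨X.π x, h, ch_p X.hπ hxt⟩
    · rw [mollB, indicator_of_notMem hxt]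
  have hev : ∀ x ∈ (ch X.hπ a).target, mollB a F =ᶠ[𝓝 x] F ∘ X.π := by
    intro x hx
    filter_upwards [(ch X.hπ a).open_target.mem_nhds hx] with y hy
    rw [mollB, indicator_of_mem hy]
    rfl
  have hev0 : ∀ x ∉ ch X.hπ a '' K', mollB a F =ᶠ[𝓝 x] fun _ => 0 := by
    intro x hx
    filter_upwards [hC.isClosed.isOpen_compl.mem_nhds hx] with y hy
    exact hz y hy
  have hsub : ch X.hπ a '' K' ⊆ (ch X.hπ a).target := by
    rintro _ ⟨z, hz', rfl⟩
    exact (ch X.hπ a).map_source (hKs hz')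
  refine ⟨fun x => ?_, hz, fun z hzs => ?_, fun z hzs => ?_, fun x hx => ⟨?_, ?_⟩,
    fun z hzs => ⟨h0 z fun h => hzs (hKs h), ?_⟩⟩
  · by_cases hx : x ∈ (ch X.hπ a).target
    · exact ⟨F, hF.contDiffAt, hev x hx⟩
    · exact (SmAt.const (0 : ℂ) x).congr (hev0 x fun h => hx (hsub h)).symm
  · rw [mollB, indicator_of_mem ((ch X.hπ a).map_source hzs), p_ch X.hπ hzs]
  · rw [dR_eq (hev _ ((ch X.hπ a).map_source hzs)), p_ch X.hπ hzs]
  · exact hz x fun h => hx (hsub h)
  · rw [dR_congr (hev0 x fun h => hx (hsub h)), dR_const]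
  · have h1 : F =ᶠ[𝓝 z] fun _ => (0 : ℂ) := by
      filter_upwards [hK'.isClosed.isOpen_compl.mem_nhds (fun h => hzs (hKs h))] with y hy
      exact h0 y hy
    rw [h1.fderiv_eq]
    exact fderiv_const_apply _

lemma moll_sq (hPF : S_PullFacts) (hμ : Pull X μ) (a : X) {P : X → ℂ} {Q : Cn n → ℂ}
    (h1 : ∀ x ∉ (ch X.hπ a).target, P x = 0) (h2 : ∀ z ∈ (ch X.hπ a).source, P (ch X.hπ a z) = Q z)
    (h3 : ∀ z ∉ (ch X.hπ a).source, Q z = 0) :
    ∫ x, ‖P x‖ ^ 2 ∂μ = ∫ z, ‖Q z‖ ^ 2 := by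
  rw [moll_int hPF hμ a (h := fun x => ‖P x‖ ^ 2) (fun x hx => by simp [h1 x hx])]
  congr 1
  funext z
  by_cases hz : z ∈ (ch X.hπ a).source
  · rw [mollT, indicator_of_mem hz, h2 z hz]
  · rw [mollT, indicator_of_notMem hz, h3 z hz]
    simp

/-- The regularization of `θ f`. -/
lemma moll_local (hPF : S_PullFacts) (hCn : S_MollCn) (hμ : Pull X μ) {K : Set X}
    {f : Fin n → X → ℂ} {d : X → ℂ} {c : Fin n → Fin n → X → ℂ} (hK : IsCompact K)
    (hf : ∀ j, MemLp (f j) 2 μ ∧ ∀ z ∉ K, f j z = 0) (hd : MemLp d 2 μ ∧ ∀ z ∉ K, d z = 0)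
    (hc : ∀ j k, MemLp (c j k) 2 μ ∧ ∀ z ∉ K, c j k z = 0)
    (h1 : ∀ ξ : X → ℂ, CS X ξ → ∫ x, ∑ j, f j x * wd X j ξ x ∂μ = - ∫ x, d x * ξ x ∂μ)
    (h2 : ∀ ξ : X → ℂ, CS X ξ → ∀ j k,
      ∫ x, (f k x * wdb X j ξ x - f j x * wdb X k ξ x) ∂μ = - ∫ x, c j k x * ξ x ∂μ)
    (a : X) {θ : X → ℂ} (hθ : CS X θ) (hs : tsupport θ ⊆ (ch X.hπ a).target) :
    ∃ (K' : Set X) (F : ℕ → Fin n → X → ℂ), IsCompact K' ∧
      (∀ ν j, Sm X (F ν j) ∧ ∀ x ∉ K', F ν j x = 0) ∧
      (∀ j, Tendsto (fun ν => ∫ x, ‖F ν j x - θ x * f j x‖ ^ 2 ∂μ) atTop (𝓝 0)) ∧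
      Tendsto (fun ν => ∫ x, ‖(∑ j, wd X j (F ν j) x) -
        (θ x * d x + ∑ j, wd X j θ x * f j x)‖ ^ 2 ∂μ) atTop (𝓝 0) ∧
      ∀ j k, Tendsto (fun ν => ∫ x, ‖(wdb X j (F ν k) x - wdb X k (F ν j) x) -
        (θ x * c j k x + (wdb X j θ x * f k x - wdb X k θ x * f j x))‖ ^ 2 ∂μ)
        atTop (𝓝 0) := by
  -- the support
  set T : Set X := tsupport θ with hT
  have hTc : IsCompact T := hθ.2
  have hθ0 : ∀ x ∉ T, θ x = 0 := fun x hx => image_eq_zero_of_notMem_tsupport hx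
  have hwd0 : ∀ j, ∀ x ∉ T, wd X j θ x = 0 := fun j => (moll_wd_cs hθ j).2.2
  have hwdb0 : ∀ j, ∀ x ∉ T, wdb X j θ x = 0 := fun j => (moll_wdb_cs hθ j).2.2
  set f' : Fin n → X → ℂ := fun j x => θ x * f j x with hf'
  set d' : X → ℂ := fun x => θ x * d x + ∑ j, wd X j θ x * f j x with hd'
  set c' : Fin n → Fin n → X → ℂ := fun j k x =>
    θ x * c j k x + (wdb X j θ x * f k x - wdb X k θ x * f j x) with hc'
  have mf' : ∀ j, MemLp (f' j) 2 μ := fun j => moll_mul hθ.1.continuous hθ.2 (hf j).1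
  have mwd : ∀ j k, MemLp (fun x => wd X j θ x * f k x) 2 μ := fun j k =>
    moll_mul (moll_wd_cs hθ j).1.continuous (moll_wd_cs hθ j).2.1 (hf k).1
  have mwdb : ∀ j k, MemLp (fun x => wdb X j θ x * f k x) 2 μ := fun j k =>
    moll_mul (moll_wdb_cs hθ j).1.continuous (moll_wdb_cs hθ j).2.1 (hf k).1
  have md0 : MemLp (fun x => θ x * d x) 2 μ := moll_mul hθ.1.continuous hθ.2 hd.1
  have md' : MemLp d' 2 μ := md0.add (memLp_finsetSum _ fun j _ => mwd j j)
  have mc0 : ∀ j k, MemLp (fun x => θ x * c j k x) 2 μ := fun j k =>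
    moll_mul hθ.1.continuous hθ.2 (hc j k).1
  have mc' : ∀ j k, MemLp (c' j k) 2 μ := fun j k => (mc0 j k).add ((mwdb j k).sub (mwdb k j))
  have zf' : ∀ j, ∀ x ∉ T, f' j x = 0 := fun j x hx => by simp [hf', hθ0 x hx]
  have zd' : ∀ x ∉ T, d' x = 0 := fun x hx => by simp [hd', hθ0 x hx, hwd0 _ x hx]
  have zc' : ∀ j k, ∀ x ∉ T, c' j k x = 0 := fun j k x hx => by
    simp [hc', hθ0 x hx, hwdb0 _ x hx]
  -- transfer
  have hKn : IsCompact (X.π '' T) := hTc.image X.hπ.continuous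
  have hKnS : X.π '' T ⊆ (ch X.hπ a).source := by
    rintro _ ⟨x, hx, rfl⟩
    exact moll_ch_mem (hs hx)
  have zT : ∀ g : X → ℂ, (∀ x ∉ T, g x = 0) → ∀ z ∉ X.π '' T, mollT a g z = 0 := by
    intro g hg z hz
    by_cases hzs : z ∈ (ch X.hπ a).source
    · rw [mollT, indicator_of_mem hzs]
      apply hg
      intro h
      exact hz ⟨_, h, p_ch X.hπ hzs⟩
    · rw [mollT, indicator_of_notMem hzs]
  have key : ∀ (g : X → ℂ) (ζ : Cn n → ℂ), (∀ x ∉ T, g x = 0) →
      ∫ z, mollT a g z * ζ z = ∫ x, g x * ζ (X.π x) ∂μ := by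
    intro g ζ hg
    rw [moll_int hPF hμ a (h := fun x => g x * ζ (X.π x))
      (fun x hx => by simp [hg x fun h => hx (hs h)])]
    congr 1
    funext z
    by_cases hz : z ∈ (ch X.hπ a).source
    · rw [mollT, mollT, indicator_of_mem hz, indicator_of_mem hz, p_ch X.hπ hz]
    · rw [mollT, mollT, indicator_of_notMem hz, indicator_of_notMem hz, zero_mul]
  have e1 : ∀ ξ : Cn n → ℂ, ContDiff ℝ ∞ ξ → HasCompactSupport ξ →
      ∫ z, ∑ j, mollT a (f' j) z * ((1 / 2) * (fderiv ℝ ξ z (Pi.single j 1) -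
        Complex.I * fderiv ℝ ξ z (Pi.single j Complex.I))) = - ∫ z, mollT a d' z * ξ z := by
    intro ξ hξ _
    obtain ⟨hη, hη1, -⟩ := moll_test hθ hξ
    have hξc : Continuous fun x => ξ (X.π x) := hξ.continuous.comp X.hπ.continuous
    have I1 : ∀ j, Integrable (fun x => f j x * wd X j (fun x => θ x * ξ (X.π x)) x) μ := by
      intro j
      have := moll_integrable hPF hμ hK (moll_mul (moll_wd_cs hη j).1.continuous
        (moll_wd_cs hη j).2.1 (hf j).1) (fun x hx => by simp [(hf j).2 x hx])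
      exact this.congr (Eventually.of_forall fun x => mul_comm _ _)
    have I2 : ∀ j, Integrable (fun x => (wd X j θ x * ξ (X.π x)) * f j x) μ := fun j =>
      moll_integrable hPF hμ hK (moll_mul ((moll_wd_cs hθ j).1.continuous.mul hξc)
        (moll_wd_cs hθ j).2.1.mul_right (hf j).1) (fun x hx => by simp [(hf j).2 x hx])
    have I3 : Integrable (fun x => (θ x * ξ (X.π x)) * d x) μ :=
      moll_integrable hPF hμ hK (moll_mul hη.1.continuous hη.2 hd.1)
        (fun x hx => by simp [hd.2 x hx])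
    have a1 : ∫ z, ∑ j, mollT a (f' j) z * ((1 / 2) * (fderiv ℝ ξ z (Pi.single j 1) -
        Complex.I * fderiv ℝ ξ z (Pi.single j Complex.I))) =
        ∫ x, ∑ j, f' j x * ((1 / 2) * (fderiv ℝ ξ (X.π x) (Pi.single j 1) -
        Complex.I * fderiv ℝ ξ (X.π x) (Pi.single j Complex.I))) ∂μ := by
      rw [moll_int hPF hμ a (h := fun x => ∑ j, f' j x * ((1 / 2) *
        (fderiv ℝ ξ (X.π x) (Pi.single j 1) -
        Complex.I * fderiv ℝ ξ (X.π x) (Pi.single j Complex.I))))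
        (fun x hx => by simp [zf' _ x fun h => hx (hs h)])]
      congr 1
      funext z
      by_cases hz : z ∈ (ch X.hπ a).source
      · simp only [mollT, indicator_of_mem hz, p_ch X.hπ hz]
      · simp only [mollT, indicator_of_notMem hz, zero_mul, Finset.sum_const_zero]
    have a2 : ∫ x, ∑ j, f' j x * ((1 / 2) * (fderiv ℝ ξ (X.π x) (Pi.single j 1) -
        Complex.I * fderiv ℝ ξ (X.π x) (Pi.single j Complex.I))) ∂μ =
        ∫ x, (∑ j, f j x * wd X j (fun x => θ x * ξ (X.π x)) x) ∂μ -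
        ∫ x, (∑ j, (wd X j θ x * ξ (X.π x)) * f j x) ∂μ := by
      rw [← integral_sub (integrable_finsetSum _ fun j _ => I1 j)
        (integrable_finsetSum _ fun j _ => I2 j)]
      congr 1
      funext x
      rw [← Finset.sum_sub_distrib]
      apply Finset.sum_congr rfl
      intro j _
      rw [hη1]
      simp only [hf']
      ring
    have a3 : ∫ x, d' x * ξ (X.π x) ∂μ = ∫ x, (θ x * ξ (X.π x)) * d x ∂μ +
        ∫ x, (∑ j, (wd X j θ x * ξ (X.π x)) * f j x) ∂μ := by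
      rw [← integral_add I3 (integrable_finsetSum _ fun j _ => I2 j)]
      congr 1
      funext x
      simp only [hd', add_mul, Finset.sum_mul]
      congr 1
      · ring
      · apply Finset.sum_congr rfl
        intro j _
        ring
    rw [a1, a2, h1 _ hη, key d' ξ zd', a3]
    have a4 : ∫ x, d x * (θ x * ξ (X.π x)) ∂μ = ∫ x, (θ x * ξ (X.π x)) * d x ∂μ := by
      congr 1
      funext x
      ring
    rw [a4]
    ring
  have e2 : ∀ ξ : Cn n → ℂ, ContDiff ℝ ∞ ξ → HasCompactSupport ξ → ∀ j k,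
      ∫ z, (mollT a (f' k) z * ((1 / 2) * (fderiv ℝ ξ z (Pi.single j 1) +
          Complex.I * fderiv ℝ ξ z (Pi.single j Complex.I))) -
        mollT a (f' j) z * ((1 / 2) * (fderiv ℝ ξ z (Pi.single k 1) +
          Complex.I * fderiv ℝ ξ z (Pi.single k Complex.I)))) = - ∫ z, mollT a (c' j k) z * ξ z := by
    intro ξ hξ _ j k
    obtain ⟨hη, -, hη1⟩ := moll_test hθ hξ
    have hξc : Continuous fun x => ξ (X.π x) := hξ.continuous.comp X.hπ.continuous
    have I1 : ∀ j k, Integrable (fun x => f k x * wdb X j (fun x => θ x * ξ (X.π x)) x) μ := by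
      intro j k
      have := moll_integrable hPF hμ hK (moll_mul (moll_wdb_cs hη j).1.continuous
        (moll_wdb_cs hη j).2.1 (hf k).1) (fun x hx => by simp [(hf k).2 x hx])
      exact this.congr (Eventually.of_forall fun x => mul_comm _ _)
    have I2 : ∀ j k, Integrable (fun x => (wdb X j θ x * ξ (X.π x)) * f k x) μ := fun j k =>
      moll_integrable hPF hμ hK (moll_mul ((moll_wdb_cs hθ j).1.continuous.mul hξc)
        (moll_wdb_cs hθ j).2.1.mul_right (hf k).1) (fun x hx => by simp [(hf k).2 x hx])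
    have I3 : Integrable (fun x => (θ x * ξ (X.π x)) * c j k x) μ :=
      moll_integrable hPF hμ hK (moll_mul hη.1.continuous hη.2 (hc j k).1)
        (fun x hx => by simp [(hc j k).2 x hx])
    have J1 : Integrable (fun x => f k x * wdb X j (fun x => θ x * ξ (X.π x)) x -
        f j x * wdb X k (fun x => θ x * ξ (X.π x)) x) μ := (I1 j k).sub (I1 k j)
    have J2 : Integrable (fun x => (wdb X j θ x * ξ (X.π x)) * f k x -
        (wdb X k θ x * ξ (X.π x)) * f j x) μ := (I2 j k).sub (I2 k j)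
    have a1 : ∫ z, (mollT a (f' k) z * ((1 / 2) * (fderiv ℝ ξ z (Pi.single j 1) +
          Complex.I * fderiv ℝ ξ z (Pi.single j Complex.I))) -
        mollT a (f' j) z * ((1 / 2) * (fderiv ℝ ξ z (Pi.single k 1) +
          Complex.I * fderiv ℝ ξ z (Pi.single k Complex.I)))) =
        ∫ x, (f' k x * ((1 / 2) * (fderiv ℝ ξ (X.π x) (Pi.single j 1) +
          Complex.I * fderiv ℝ ξ (X.π x) (Pi.single j Complex.I))) -
        f' j x * ((1 / 2) * (fderiv ℝ ξ (X.π x) (Pi.single k 1) +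
          Complex.I * fderiv ℝ ξ (X.π x) (Pi.single k Complex.I)))) ∂μ := by
      rw [moll_int hPF hμ a (h := fun x => (f' k x * ((1 / 2) *
          (fderiv ℝ ξ (X.π x) (Pi.single j 1) +
          Complex.I * fderiv ℝ ξ (X.π x) (Pi.single j Complex.I))) -
        f' j x * ((1 / 2) * (fderiv ℝ ξ (X.π x) (Pi.single k 1) +
          Complex.I * fderiv ℝ ξ (X.π x) (Pi.single k Complex.I)))))
        (fun x hx => by simp [zf' _ x fun h => hx (hs h)])]
      congr 1
      funext z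
      by_cases hz : z ∈ (ch X.hπ a).source
      · simp only [mollT, indicator_of_mem hz, p_ch X.hπ hz]
      · simp only [mollT, indicator_of_notMem hz, zero_mul, sub_zero]
    have a2 : ∫ x, (f' k x * ((1 / 2) * (fderiv ℝ ξ (X.π x) (Pi.single j 1) +
          Complex.I * fderiv ℝ ξ (X.π x) (Pi.single j Complex.I))) -
        f' j x * ((1 / 2) * (fderiv ℝ ξ (X.π x) (Pi.single k 1) +
          Complex.I * fderiv ℝ ξ (X.π x) (Pi.single k Complex.I)))) ∂μ =
        ∫ x, (f k x * wdb X j (fun x => θ x * ξ (X.π x)) x -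
          f j x * wdb X k (fun x => θ x * ξ (X.π x)) x) ∂μ -
        ∫ x, ((wdb X j θ x * ξ (X.π x)) * f k x - (wdb X k θ x * ξ (X.π x)) * f j x) ∂μ := by
      rw [← integral_sub J1 J2]
      congr 1
      funext x
      rw [hη1, hη1]
      simp only [hf']
      ring
    have a3 : ∫ x, c' j k x * ξ (X.π x) ∂μ = ∫ x, (θ x * ξ (X.π x)) * c j k x ∂μ +
        ∫ x, ((wdb X j θ x * ξ (X.π x)) * f k x - (wdb X k θ x * ξ (X.π x)) * f j x) ∂μ := by
      rw [← integral_add I3 J2]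
      congr 1
      funext x
      simp only [hc']
      ring
    rw [a1, a2, h2 _ hη, key (c' j k) ξ (zc' j k), a3]
    have a4 : ∫ x, c j k x * (θ x * ξ (X.π x)) ∂μ = ∫ x, (θ x * ξ (X.π x)) * c j k x ∂μ := by
      congr 1
      funext x
      ring
    rw [a4]
    ring
  obtain ⟨K', F, hK', hK's, hF, l1, l2, l3⟩ := hCn n (X.π '' T) (ch X.hπ a).source hKn
    (ch X.hπ a).open_source hKnS (fun j => mollT a (f' j)) (mollT a d')
    (fun j k => mollT a (c' j k))
    (fun j => ⟨moll_memLp hPF hμ hTc a (mf' j) (zf' j), zT _ (zf' j)⟩)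
    ⟨moll_memLp hPF hμ hTc a md' zd', zT _ zd'⟩
    (fun j k => ⟨moll_memLp hPF hμ hTc a (mc' j k) (zc' j k), zT _ (zc' j k)⟩) e1 e2
  have hB := fun ν j => moll_back a hK' hK's (hF ν j).1 (hF ν j).2
  refine ⟨ch X.hπ a '' K', fun ν j => mollB a (F ν j), hK'.image_of_continuousOn
    ((ch X.hπ a).continuousOn.mono hK's), fun ν j => ⟨(hB ν j).1, (hB ν j).2.1⟩,
    fun j => ?_, ?_, fun j k => ?_⟩
  · refine (l1 j).congr fun ν => ?_
    obtain ⟨-, -, b1, b2, b3, b4⟩ := hB ν j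
    refine (moll_sq hPF hμ a (P := fun x => mollB a (F ν j) x - θ x * f j x)
      (Q := fun z => F ν j z - mollT a (f' j) z) ?_ ?_ ?_).symm
    · intro x hx
      simp [(b3 x hx).1, hθ0 x fun h => hx (hs h)]
    · intro z hz
      simp only [b1 z hz, mollT, indicator_of_mem hz, hf']
    · intro z hz
      simp only [(b4 z hz).1, mollT, indicator_of_notMem hz, sub_zero]
  · refine l2.congr fun ν => ?_
    refine (moll_sq hPF hμ a (P := fun x => (∑ j, wd X j (mollB a (F ν j)) x) -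
        (θ x * d x + ∑ j, wd X j θ x * f j x))
      (Q := fun z => (∑ j, (1 / 2) * (fderiv ℝ (F ν j) z (Pi.single j 1) -
      Complex.I * fderiv ℝ (F ν j) z (Pi.single j Complex.I))) - mollT a d' z) ?_ ?_ ?_).symm
    · intro x hx
      have := zd' x fun h => hx (hs h)
      simp only [hd'] at this
      rw [this]
      simp [wd, ((hB ν _).2.2.2.2.1 x hx).2]
    · intro z hz
      simp only [wd, (hB ν _).2.2.2.1 z hz, mollT, indicator_of_mem hz, hd']
    · intro z hz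
      simp [((hB ν _).2.2.2.2.2 z hz).2, mollT, indicator_of_notMem hz]
  · refine (l3 j k).congr fun ν => ?_
    refine (moll_sq hPF hμ a (P := fun x => (wdb X j (mollB a (F ν k)) x -
        wdb X k (mollB a (F ν j)) x) -
        (θ x * c j k x + (wdb X j θ x * f k x - wdb X k θ x * f j x)))
      (Q := fun z => ((1 / 2) * (fderiv ℝ (F ν k) z (Pi.single j 1) +
        Complex.I * fderiv ℝ (F ν k) z (Pi.single j Complex.I)) -
      (1 / 2) * (fderiv ℝ (F ν j) z (Pi.single k 1) +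
        Complex.I * fderiv ℝ (F ν j) z (Pi.single k Complex.I))) - mollT a (c' j k) z)
        ?_ ?_ ?_).symm
    · intro x hx
      have := zc' j k x fun h => hx (hs h)
      simp only [hc'] at this
      rw [this]
      simp [wdb, ((hB ν _).2.2.2.2.1 x hx).2]
    · intro z hz
      simp only [wdb, (hB ν _).2.2.2.1 z hz, mollT, indicator_of_mem hz, hc']
    · intro z hz
      simp [((hB ν _).2.2.2.2.2 z hz).2, mollT, indicator_of_notMem hz]

lemma moll_sum {ι : Type} (s : Finset ι) {g : ι → ℕ → X → ℂ}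
    (hg : ∀ i ∈ s, ∀ ν, MemLp (g i ν) 2 μ)
    (ht : ∀ i ∈ s, Tendsto (fun ν => ∫ x, ‖g i ν x‖ ^ 2 ∂μ) atTop (𝓝 0)) :
    Tendsto (fun ν => ∫ x, ‖∑ i ∈ s, g i ν x‖ ^ 2 ∂μ) atTop (𝓝 0) := by
  have h1 : Tendsto (fun ν => (s.card : ℝ) * ∑ i ∈ s, ∫ x, ‖g i ν x‖ ^ 2 ∂μ) atTop (𝓝 0) := by
    have h := tendsto_finsetSum s ht
    simp only [Finset.sum_const_zero] at h
    simpa using h.const_mul (s.card : ℝ)
  refine squeeze_zero (fun ν => integral_nonneg fun x => by positivity) (fun ν => ?_) h1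
  have h2 : ∀ i ∈ s, Integrable (fun x => ‖g i ν x‖ ^ 2) μ := fun i hi =>
    (memLp_two_iff_integrable_sq_norm (hg i hi ν).1).1 (hg i hi ν)
  rw [← integral_finsetSum s h2, ← integral_const_mul]
  refine integral_mono_of_nonneg (Eventually.of_forall fun x => by positivity)
    ((integrable_finsetSum s h2).const_mul _) (Eventually.of_forall fun x => ?_)
  calc ‖∑ i ∈ s, g i ν x‖ ^ 2 ≤ (∑ i ∈ s, ‖g i ν x‖) ^ 2 := by
        gcongr
        exact norm_sum_le _ _
    _ ≤ (s.card : ℝ) * ∑ i ∈ s, ‖g i ν x‖ ^ 2 := sq_sum_le_card_mul_sum_sq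

end

/-- **Moll.** -/
theorem s_Moll (hPullFacts : S_PullFacts) (hPU : S_PU) (_hIBP : S_IBP) (hMollCn : S_MollCn) :
    S_Moll := by
  intro n X μ hμ K hK f d c hf hd hc h1 h2
  haveI := (hPullFacts n X μ hμ).1
  obtain ⟨m, a, ϑ, hϑ, -, U, hU, hKU, hsum⟩ := hPU n X K hK (fun _ => univ) (fun _ => univ_mem)
  -- complex valued partition of unity
  set θ : Fin m → X → ℂ := fun i x => (ϑ i x : ℂ) with hθ
  have hsupp : ∀ i, tsupport (θ i) ⊆ tsupport (ϑ i) := by
    intro i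
    apply closure_mono
    intro x hx h
    exact hx (by simp [hθ, h])
  have hθc : ∀ i, CS X (θ i) := fun i => ⟨(hϑ i).1.1.ofReal,
    HasCompactSupport.intro (hϑ i).1.2 fun x hx => by
      simp [hθ, image_eq_zero_of_notMem_tsupport hx]⟩
  have hloc := fun i => moll_local hPullFacts hMollCn hμ hK hf hd hc h1 h2 (a i) (hθc i)
    ((hsupp i).trans fun x hx => ((hϑ i).2.1 hx).1)
  choose K' F hK' hF l1 l2 l3 using hloc
  have hθsum : ∀ x ∈ U, ∑ i, θ i x = 1 := by
    intro x hx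
    have h := hsum x hx
    simp only [hθ]
    exact_mod_cast h
  have hev : ∀ x ∈ K, (fun y => ∑ i, θ i y) =ᶠ[𝓝 x] fun _ => 1 := by
    intro x hx
    filter_upwards [hU.mem_nhds (hKU hx)] with y hy
    exact hθsum y hy
  have hwd : ∀ x ∈ K, ∀ j, ∑ i, wd X j (θ i) x = 0 := by
    intro x hx j
    rw [← wd_sum fun i _ => (hθc i).1 x, wd_congr j (hev x hx), wd_const]
  have hwdb : ∀ x ∈ K, ∀ j, ∑ i, wdb X j (θ i) x = 0 := by
    intro x hx j
    rw [← wdb_sum fun i _ => (hθc i).1 x, wdb_congr j (hev x hx), wdb_const]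
  have s0 : ∀ g : X → ℂ, (∀ x ∉ K, g x = 0) → ∀ x, ∑ i, θ i x * g x = g x := by
    intro g hg x
    by_cases hx : x ∈ K
    · rw [← Finset.sum_mul, hθsum x (hKU hx), one_mul]
    · simp [hg x hx]
  have s1 : ∀ g : X → ℂ, (∀ x ∉ K, g x = 0) → ∀ j x, ∑ i, wd X j (θ i) x * g x = 0 := by
    intro g hg j x
    by_cases hx : x ∈ K
    · rw [← Finset.sum_mul, hwd x hx j, zero_mul]
    · simp [hg x hx]
  have s2 : ∀ g : X → ℂ, (∀ x ∉ K, g x = 0) → ∀ j x, ∑ i, wdb X j (θ i) x * g x = 0 := by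
    intro g hg j x
    by_cases hx : x ∈ K
    · rw [← Finset.sum_mul, hwdb x hx j, zero_mul]
    · simp [hg x hx]
  -- smooth functions with compact support
  have cF : ∀ i ν j, CS X (F i ν j) := fun i ν j =>
    ⟨(hF i ν j).1, HasCompactSupport.intro (hK' i) (hF i ν j).2⟩
  have mCS : ∀ u : X → ℂ, Continuous u → HasCompactSupport u → MemLp u 2 μ := fun u h h' =>
    h.memLp_of_hasCompactSupport h'
  refine ⟨⋃ i, K' i, fun ν j x => ∑ i, F i ν j x, isCompact_iUnion hK', fun ν j =>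
    ⟨Sm.sum fun i _ => (cF i ν j).1, fun x hx => ?_⟩, fun j => ?_, ?_, fun j k => ?_⟩
  · apply Finset.sum_eq_zero
    intro i _
    apply (hF i ν j).2
    intro h
    exact hx (mem_iUnion.2 ⟨i, h⟩)
  · refine (moll_sum Finset.univ (g := fun i ν x => F i ν j x - θ i x * f j x)
      (fun i _ ν => (mCS _ (cF i ν j).1.continuous (cF i ν j).2).sub
        (moll_mul (hθc i).1.continuous (hθc i).2 (hf j).1)) (fun i _ => l1 i j)).congr fun ν => ?_
    congr 1
    funext x
    rw [Finset.sum_sub_distrib, s0 (f j) (hf j).2]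
  · refine (moll_sum Finset.univ (g := fun i ν x => (∑ j, wd X j (F i ν j) x) -
        (θ i x * d x + ∑ j, wd X j (θ i) x * f j x))
      (fun i _ ν => (memLp_finsetSum _ fun j _ => mCS _ (moll_wd_cs (cF i ν j) j).1.continuous
        (moll_wd_cs (cF i ν j) j).2.1).sub
        ((moll_mul (hθc i).1.continuous (hθc i).2 hd.1).add (memLp_finsetSum _ fun j _ =>
          moll_mul (moll_wd_cs (hθc i) j).1.continuous (moll_wd_cs (hθc i) j).2.1 (hf j).1)))
      (fun i _ => l2 i)).congr fun ν => ?_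
    congr 1
    funext x
    have e1 : ∀ j, wd X j (fun x => ∑ i, F i ν j x) x = ∑ i, wd X j (F i ν j) x := fun j =>
      wd_sum (fun i _ => (cF i ν j).1 x) j
    have e2 : ∑ i, ∑ j, wd X j (θ i) x * f j x = 0 := by
      rw [Finset.sum_comm]
      exact Finset.sum_eq_zero fun j _ => s1 (f j) (hf j).2 j x
    have e3 : ∑ i, ∑ j, wd X j (F i ν j) x = ∑ j, ∑ i, wd X j (F i ν j) x := Finset.sum_comm
    simp only [e1]
    rw [Finset.sum_sub_distrib, Finset.sum_add_distrib, s0 d hd.2, e2, e3, add_zero]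
  · refine (moll_sum Finset.univ (g := fun i ν x =>
        (wdb X j (F i ν k) x - wdb X k (F i ν j) x) -
        (θ i x * c j k x + (wdb X j (θ i) x * f k x - wdb X k (θ i) x * f j x)))
      (fun i _ ν => ((mCS _ (moll_wdb_cs (cF i ν k) j).1.continuous
        (moll_wdb_cs (cF i ν k) j).2.1).sub (mCS _ (moll_wdb_cs (cF i ν j) k).1.continuous
        (moll_wdb_cs (cF i ν j) k).2.1)).sub
        ((moll_mul (hθc i).1.continuous (hθc i).2 (hc j k).1).add
          ((moll_mul (moll_wdb_cs (hθc i) j).1.continuous (moll_wdb_cs (hθc i) j).2.1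
            (hf k).1).sub (moll_mul (moll_wdb_cs (hθc i) k).1.continuous
              (moll_wdb_cs (hθc i) k).2.1 (hf j).1))))
      (fun i _ => l3 i j k)).congr fun ν => ?_
    congr 1
    funext x
    have e1 : ∀ j k, wdb X j (fun x => ∑ i, F i ν k x) x = ∑ i, wdb X j (F i ν k) x := fun j k =>
      wdb_sum (fun i _ => (cF i ν k).1 x) j
    simp only [e1]
    rw [Finset.sum_sub_distrib, Finset.sum_add_distrib, Finset.sum_sub_distrib,
      Finset.sum_sub_distrib, s0 (c j k) (hc j k).2, s2 (f k) (hf k).2, s2 (f j) (hf j).2,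
      sub_zero, add_zero]

end Pool.Agent.Lib.MP_55bc5f_an
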