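import Pool.Agent.Lib.MP_55bc5f_an.Full.SpecL2

/-!
# Regularization in `ℂⁿ`
-/

set_option autoImplicit false

open scoped Manifold ContDiff Topology ComplexConjugate Convolution
open Set Filter Metric MeasureTheory

namespace Pool.Agent.Lib.MP_55bc5f_an

private theorem MollCn_trans {n : ℕ} {g : Cn n → ℂ} (hg : MemLp g 2 volume) {δ : ENNReal}
    (hδ : 0 < δ) : ∃ ε : ℝ, 0 < ε ∧ ∀ t : Cn n, ‖t‖ < ε →
      ∫⁻ z, ‖g (z - t) - g z‖ₑ ^ (2 : ℝ) ≤ δ := by
  let G : Cn n → C(Cn n, Cn n) := fun t => ⟨fun z => z - t, by fun_prop⟩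
  have hG : ∀ t, MeasurePreserving (G t) (volume : Measure (Cn n)) volume := fun t =>
    measurePreserving_sub_right volume t
  have hGc : Continuous G := by
    have h : Continuous (fun p : Cn n × Cn n => p.2 - p.1) := by fun_prop
    exact ContinuousMap.continuous_of_continuous_uncurry G h
  have h1 : Tendsto (fun t => Lp.compMeasurePreserving (G t) (hG t) (hg.toLp g)) (𝓝 0)
      (𝓝 (Lp.compMeasurePreserving (G 0) (hG 0) (hg.toLp g))) :=
    Filter.Tendsto.compMeasurePreservingLp tendsto_const_nhds (hGc.tendsto 0) hG (hG 0)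
      (by norm_num)
  have h2 := EMetric.tendsto_nhds.1 h1 (δ ^ (1 / 2 : ℝ)) (ENNReal.rpow_pos_of_nonneg hδ (by norm_num))
  obtain ⟨ε, hε, h3⟩ := Metric.eventually_nhds_iff.1 h2
  refine ⟨ε, hε, fun t ht => ?_⟩
  have h4 := h3 (y := t) (by rwa [dist_zero_right])
  rw [Lp.edist_def] at h4
  have h5 : eLpNorm (⇑(Lp.compMeasurePreserving (G t) (hG t) (hg.toLp g)) -
      ⇑(Lp.compMeasurePreserving (G 0) (hG 0) (hg.toLp g))) 2 volume =
      eLpNorm (fun z => g (z - t) - g z) 2 volume := by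
    apply eLpNorm_congr_ae
    have e1 := Lp.coeFn_compMeasurePreserving (hg.toLp g) (hG t)
    have e2 := Lp.coeFn_compMeasurePreserving (hg.toLp g) (hG 0)
    have e3 := hg.coeFn_toLp
    have e4 := (hG t).quasiMeasurePreserving.ae_eq_comp e3
    have e5 := (hG 0).quasiMeasurePreserving.ae_eq_comp e3
    filter_upwards [e1, e2, e4, e5] with z a1 a2 a4 a5
    rw [Pi.sub_apply, a1, a2, a4, a5]
    simp [G]
  rw [h5, eLpNorm_eq_lintegral_rpow_enorm_toReal (by norm_num) (by norm_num)] at h4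
  have h6 : (2 : ENNReal).toReal = 2 := by norm_num
  rw [h6] at h4
  exact (ENNReal.rpow_lt_rpow_iff (by norm_num : (0 : ℝ) < 1 / 2)).1 h4 |>.le

private theorem MollCn_jensen {n : ℕ} {r a : Cn n → ENNReal} (hr : AEMeasurable r volume)
    (ha : AEMeasurable a volume) (h1 : ∫⁻ t, r t = 1) :
    (∫⁻ t, r t * a t) ^ (2 : ℝ) ≤ ∫⁻ t, r t * a t ^ (2 : ℝ) := by
  have hc : (2 : ℝ).HolderConjugate 2 := by
    rw [Real.holderConjugate_iff]; norm_num
  have h2 := ENNReal.lintegral_mul_le_Lp_mul_Lq (μ := (volume : Measure (Cn n))) hc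
    (f := fun t => r t ^ (1 / 2 : ℝ)) (g := fun t => r t ^ (1 / 2 : ℝ) * a t)
    (hr.pow_const _) ((hr.pow_const _).mul ha)
  have h3 : ∀ t, ((fun t => r t ^ (1 / 2 : ℝ)) * (fun t => r t ^ (1 / 2 : ℝ) * a t)) t =
      r t * a t := by
    intro t
    simp only [Pi.mul_apply]
    rw [← mul_assoc, ← ENNReal.rpow_add_of_nonneg _ _ (by norm_num) (by norm_num)]
    norm_num
  have h4 : ∀ t, (r t ^ (1 / 2 : ℝ)) ^ (2 : ℝ) = r t := by
    intro t
    rw [← ENNReal.rpow_mul]; norm_num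
  have h5 : ∀ t, (r t ^ (1 / 2 : ℝ) * a t) ^ (2 : ℝ) = r t * a t ^ (2 : ℝ) := by
    intro t
    rw [ENNReal.mul_rpow_of_nonneg _ _ (by norm_num), h4]
  simp only [h3, h4, h5, h1, ENNReal.one_rpow, one_mul] at h2
  calc (∫⁻ t, r t * a t) ^ (2 : ℝ) ≤ ((∫⁻ t, r t * a t ^ (2 : ℝ)) ^ (1 / 2 : ℝ)) ^ (2 : ℝ) :=
        ENNReal.rpow_le_rpow h2 (by norm_num)
    _ = _ := by rw [← ENNReal.rpow_mul]; norm_num

private theorem MollCn_young {n : ℕ} {g : Cn n → ℂ} (hg : MemLp g 2 volume) {δ : ENNReal} {ε : ℝ}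
    (h : ∀ t : Cn n, ‖t‖ < ε → ∫⁻ z, ‖g (z - t) - g z‖ₑ ^ (2 : ℝ) ≤ δ)
    (φ : ContDiffBump (0 : Cn n)) (hφ : φ.rOut < ε) :
    ∫⁻ z, ‖(φ.normed volume ⋆[ContinuousLinearMap.lsmul ℝ ℝ, volume] g) z - g z‖ₑ ^ (2 : ℝ) ≤ δ := by
  obtain ⟨ρ, hρ⟩ : ∃ ρ : Cn n → ℝ, ρ = φ.normed volume := ⟨_, rfl⟩
  rw [← hρ]
  have hρc : Continuous ρ := by rw [hρ]; exact φ.continuous_normed
  have hρs : HasCompactSupport ρ := by rw [hρ]; exact φ.hasCompactSupport_normed
  have hρ0 : ∀ t, 0 ≤ ρ t := by rw [hρ]; exact φ.nonneg_normed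
  have hρi : ∫ t, ρ t = 1 := by rw [hρ]; exact φ.integral_normed
  have hρI : Integrable ρ := hρc.integrable_of_hasCompactSupport hρs
  have hr1 : ∫⁻ t, ‖ρ t‖ₑ = 1 := by
    have h1 : ∀ t, ‖ρ t‖ₑ = ENNReal.ofReal (ρ t) := fun t => by
      rw [Real.enorm_eq_ofReal (hρ0 t)]
    simp only [h1]
    rw [← ofReal_integral_eq_lintegral_ofReal hρI (Eventually.of_forall hρ0), hρi,
      ENNReal.ofReal_one]
  have hloc : LocallyIntegrable g volume := hg.locallyIntegrable (by norm_num)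
  have hex : ∀ z, Integrable (fun t => ρ t • g (z - t)) := fun z =>
    hρs.convolutionExists_left (ContinuousLinearMap.lsmul ℝ ℝ) hρc hloc z
  have hdiff : ∀ z, (ρ ⋆[ContinuousLinearMap.lsmul ℝ ℝ, volume] g) z - g z =
      ∫ t, ρ t • (g (z - t) - g z) := by
    intro z
    have h1 : ∀ t, ρ t • (g (z - t) - g z) = ρ t • g (z - t) - ρ t • g z := fun t => smul_sub _ _ _
    simp only [h1]
    rw [integral_sub (hex z) (hρI.smul_const (g z)), integral_smul_const, hρi, one_smul]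
    rfl
  have hmeas : AEStronglyMeasurable (fun p : Cn n × Cn n => g (p.1 - p.2) - g p.1)
      ((volume : Measure (Cn n)).prod volume) := by
    refine AEStronglyMeasurable.sub ?_ ?_
    · exact hg.1.comp_quasiMeasurePreserving
        (quasiMeasurePreserving_sub_of_right_invariant volume volume)
    · exact hg.1.comp_fst
  have hpt : ∀ᵐ z, ‖(ρ ⋆[ContinuousLinearMap.lsmul ℝ ℝ, volume] g) z - g z‖ₑ ^ (2 : ℝ) ≤
      ∫⁻ t, ‖ρ t‖ₑ * ‖g (z - t) - g z‖ₑ ^ (2 : ℝ) := by
    filter_upwards [hmeas.prodMk_left] with z hz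
    rw [hdiff z]
    have h1 : ‖∫ t, ρ t • (g (z - t) - g z)‖ₑ ≤ ∫⁻ t, ‖ρ t‖ₑ * ‖g (z - t) - g z‖ₑ := by
      refine (enorm_integral_le_lintegral_enorm _).trans (le_of_eq ?_)
      congr 1
      funext t
      rw [enorm_smul]
    refine (ENNReal.rpow_le_rpow h1 (by norm_num)).trans ?_
    exact MollCn_jensen hρc.aestronglyMeasurable.enorm hz.enorm hr1
  refine (lintegral_mono_ae hpt).trans ?_
  rw [lintegral_lintegral_swap]
  · have h2 : ∀ t, ∫⁻ z, ‖ρ t‖ₑ * ‖g (z - t) - g z‖ₑ ^ (2 : ℝ) ≤ ‖ρ t‖ₑ * δ := by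
      intro t
      by_cases ht : ‖t‖ < ε
      · rw [lintegral_const_mul' _ _ enorm_ne_top]
        gcongr
        exact h t ht
      · have h3 : ρ t = 0 := by
          by_contra hne
          have h4 : t ∈ Function.support (φ.normed volume) := by
            rw [← hρ]; exact hne
          rw [φ.support_normed_eq, mem_ball_zero_iff] at h4
          exact ht (h4.trans hφ)
        simp [h3]
    refine (lintegral_mono h2).trans ?_
    rw [lintegral_mul_const'' _ hρc.aestronglyMeasurable.enorm, hr1, one_mul]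
  · refine AEMeasurable.mul ?_ ?_
    · exact (hρc.comp continuous_snd).aestronglyMeasurable.enorm
    · exact hmeas.enorm.pow_const _

private theorem MollCn_L2 {n : ℕ} {g : Cn n → ℂ} (hg : MemLp g 2 volume)
    (φ : ℕ → ContDiffBump (0 : Cn n)) (hφ : Tendsto (fun ν => (φ ν).rOut) atTop (𝓝 0)) :
    Tendsto (fun ν => ∫ z, ‖((φ ν).normed volume ⋆[ContinuousLinearMap.lsmul ℝ ℝ, volume] g) z -
      g z‖ ^ 2) atTop (𝓝 0) := by
  have hloc : LocallyIntegrable g volume := hg.locallyIntegrable (by norm_num)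
  have h1 : ∀ ν, ∫ z, ‖((φ ν).normed volume ⋆[ContinuousLinearMap.lsmul ℝ ℝ, volume] g) z -
      g z‖ ^ 2 = (∫⁻ z, ‖((φ ν).normed volume ⋆[ContinuousLinearMap.lsmul ℝ ℝ, volume] g) z -
      g z‖ₑ ^ (2 : ℝ)).toReal := by
    intro ν
    have hc : Continuous ((φ ν).normed volume ⋆[ContinuousLinearMap.lsmul ℝ ℝ, volume] g) :=
      (φ ν).hasCompactSupport_normed.continuous_convolution_left _ (φ ν).continuous_normed hloc
    have hm : AEStronglyMeasurable (fun z => ‖((φ ν).normed volume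
        ⋆[ContinuousLinearMap.lsmul ℝ ℝ, volume] g) z - g z‖ ^ 2) volume :=
      (hc.aestronglyMeasurable.sub hg.1).norm.pow 2
    have h0 : 0 ≤ᵐ[volume] (fun z => ‖((φ ν).normed volume
        ⋆[ContinuousLinearMap.lsmul ℝ ℝ, volume] g) z - g z‖ ^ 2) :=
      Eventually.of_forall fun z => sq_nonneg _
    rw [integral_eq_lintegral_of_nonneg_ae h0 hm]
    congr 2
    funext z
    rw [← ofReal_norm, ENNReal.ofReal_rpow_of_nonneg (norm_nonneg _) (by norm_num),
      Real.rpow_two]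
  simp only [h1]
  have h2 : Tendsto (fun ν => ∫⁻ z, ‖((φ ν).normed volume ⋆[ContinuousLinearMap.lsmul ℝ ℝ, volume]
      g) z - g z‖ₑ ^ (2 : ℝ)) atTop (𝓝 0) := by
    rw [ENNReal.tendsto_nhds_zero]
    intro δ hδ
    obtain ⟨ε, hε, h3⟩ := MollCn_trans hg hδ
    filter_upwards [hφ.eventually (gt_mem_nhds hε)] with ν hν
    exact MollCn_young hg h3 (φ ν) hν
  have h3 := (ENNReal.tendsto_toReal ENNReal.zero_ne_top).comp h2
  exact h3

private theorem MollCn_fd {n : ℕ} {g : Cn n → ℂ} (hg : MemLp g 2 volume)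
    (φ : ContDiffBump (0 : Cn n)) (z e : Cn n) :
    Integrable (fun y => (fderiv ℝ (φ.normed volume) (z - y) e) • g y) ∧
    fderiv ℝ (φ.normed volume ⋆[ContinuousLinearMap.lsmul ℝ ℝ, volume] g) z e =
      ∫ y, (fderiv ℝ (φ.normed volume) (z - y) e) • g y := by
  have hloc : LocallyIntegrable g volume := hg.locallyIntegrable (by norm_num)
  obtain ⟨ρ, hρ⟩ : ∃ ρ : Cn n → ℝ, ρ = φ.normed volume := ⟨_, rfl⟩
  rw [← hρ]
  have hρd : ContDiff ℝ 1 ρ := by rw [hρ]; exact φ.contDiff_normed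
  have hρs : HasCompactSupport ρ := by rw [hρ]; exact φ.hasCompactSupport_normed
  have h2 := hρs.hasFDerivAt_convolution_left (ContinuousLinearMap.lsmul ℝ ℝ : ℝ →L[ℝ] ℂ →L[ℝ] ℂ)
    hρd hloc (μ := volume) z
  have hex : ConvolutionExistsAt (fderiv ℝ ρ) g z
      ((ContinuousLinearMap.lsmul ℝ ℝ : ℝ →L[ℝ] ℂ →L[ℝ] ℂ).precompL (Cn n)) volume :=
    (hρs.fderiv ℝ).convolutionExists_left _ (hρd.continuous_fderiv (by simp)) hloc z
  have hex2 := convolutionExistsAt_iff_integrable_swap.1 hex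
  constructor
  · exact (hex2.apply_continuousLinearMap e)
  · rw [h2.fderiv, convolution_eq_swap, ContinuousLinearMap.integral_apply]
    · rfl
    · exact hex2

private theorem MollCn_xi {n : ℕ} (φ : ContDiffBump (0 : Cn n)) (z : Cn n) :
    ContDiff ℝ ∞ (fun y : Cn n => ((φ.normed volume (z - y) : ℝ) : ℂ)) ∧
    HasCompactSupport (fun y : Cn n => ((φ.normed volume (z - y) : ℝ) : ℂ)) ∧
    ∀ y e, fderiv ℝ (fun y : Cn n => ((φ.normed volume (z - y) : ℝ) : ℂ)) y e =
      -((fderiv ℝ (φ.normed volume) (z - y) e : ℝ) : ℂ) := by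
  obtain ⟨ρ, hρ⟩ : ∃ ρ : Cn n → ℝ, ρ = φ.normed volume := ⟨_, rfl⟩
  rw [← hρ]
  have hρd : ContDiff ℝ ∞ ρ := by rw [hρ]; exact φ.contDiff_normed
  have hρs : HasCompactSupport ρ := by rw [hρ]; exact φ.hasCompactSupport_normed
  refine ⟨?_, ?_, ?_⟩
  · exact (Complex.ofRealCLM.contDiff).comp (hρd.comp (contDiff_const.sub contDiff_id))
  · have h1 : HasCompactSupport (fun y : Cn n => ρ (z - y)) :=
      hρs.comp_homeomorph (Homeomorph.subLeft z)
    exact h1.comp_left (g := fun x : ℝ => (x : ℂ)) (by simp)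
  · intro y e
    have h1 : HasFDerivAt (fun y : Cn n => z - y) (-(ContinuousLinearMap.id ℝ (Cn n))) y :=
      (hasFDerivAt_id y).const_sub z
    have h2 : HasFDerivAt ρ (fderiv ℝ ρ (z - y)) (z - y) :=
      ((hρd.differentiable (by simp)) (z - y)).hasFDerivAt
    have h3 : HasFDerivAt (fun y : Cn n => ρ (z - y))
        ((fderiv ℝ ρ (z - y)).comp (-(ContinuousLinearMap.id ℝ (Cn n)))) y := h2.comp y h1
    have h4 : HasFDerivAt (fun y : Cn n => ((ρ (z - y) : ℝ) : ℂ))
        (Complex.ofRealCLM.comp ((fderiv ℝ ρ (z - y)).comp (-(ContinuousLinearMap.id ℝ (Cn n))))) y :=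
      (Complex.ofRealCLM.hasFDerivAt).comp y h3
    rw [h4.fderiv]
    simp

private theorem MollCn_lin {n : ℕ} {A B C D : Cn n → ℂ} (hA : Integrable A) (hB : Integrable B)
    (hC : Integrable C) (hD : Integrable D) :
    ∫ y, ((1 / 2 : ℂ) * (A y + Complex.I * B y) - (1 / 2 : ℂ) * (C y + Complex.I * D y)) =
      (1 / 2 : ℂ) * ((∫ y, A y) + Complex.I * ∫ y, B y) -
        (1 / 2 : ℂ) * ((∫ y, C y) + Complex.I * ∫ y, D y) := by
  have h1 : Integrable (fun y => A y + Complex.I * B y) := hA.add (hB.const_mul _)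
  have h2 : Integrable (fun y => C y + Complex.I * D y) := hC.add (hD.const_mul _)
  rw [integral_sub (h1.const_mul _) (h2.const_mul _), integral_const_mul, integral_const_mul,
    integral_add hA (hB.const_mul _), integral_add hC (hD.const_mul _), integral_const_mul,
    integral_const_mul]

theorem s_MollCn : S_MollCn := by
  intro n K O hK hO hKO f d c hf hd hc hdiv hcurl
  obtain ⟨ε₀, hε₀, hthick⟩ := hK.exists_cthickening_subset_open hO hKO
  let φ : ℕ → ContDiffBump (0 : Cn n) := fun ν =>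
    ⟨ε₀ / (ν + 1) / 2, ε₀ / (ν + 1), by positivity, half_lt_self (by positivity)⟩
  have hφr : ∀ ν, (φ ν).rOut = ε₀ / (ν + 1) := fun ν => rfl
  have hφ : Tendsto (fun ν => (φ ν).rOut) atTop (𝓝 0) := by
    simp only [hφr]
    exact tendsto_const_div_atTop_nhds_zero_nat ε₀ |>.comp (tendsto_add_atTop_nat 1) |>.congr
      (fun ν => by simp)
  have hφle : ∀ ν, (φ ν).rOut ≤ ε₀ := fun ν => by
    rw [hφr]
    exact div_le_self hε₀.le (by have : (0 : ℝ) ≤ ν := Nat.cast_nonneg ν; linarith)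
  refine ⟨cthickening ε₀ K, fun ν j => (φ ν).normed volume
    ⋆[ContinuousLinearMap.lsmul ℝ ℝ, volume] f j, hK.cthickening, hthick, ?_, ?_, ?_, ?_⟩
  · intro ν j
    have hloc : LocallyIntegrable (f j) volume := (hf j).1.locallyIntegrable (by norm_num)
    refine ⟨HasCompactSupport.contDiff_convolution_left _ (φ ν).hasCompactSupport_normed
      (φ ν).contDiff_normed hloc, ?_⟩
    intro z hz
    by_contra hne
    have h3 := support_convolution_subset (L := ContinuousLinearMap.lsmul ℝ ℝ)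
      (μ := (volume : Measure (Cn n))) (f := (φ ν).normed volume) (g := f j) hne
    obtain ⟨b, hb, a, ha, hab⟩ := h3
    simp only at hab
    rw [(φ ν).support_normed_eq, mem_ball_zero_iff] at hb
    have haK : a ∈ K := by
      by_contra haK
      exact ha ((hf j).2 a haK)
    apply hz
    rw [← hab]
    apply Metric.mem_cthickening_of_dist_le (b + a) a ε₀ _ haK
    rw [dist_eq_norm, add_sub_cancel_right]
    exact hb.le.trans (hφle ν)
  · intro j
    exact MollCn_L2 (hf j).1 φ hφ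
  · refine (MollCn_L2 hd.1 φ hφ).congr fun ν => ?_
    congr 1
    funext z
    congr 3
    obtain ⟨x1, x2, x3⟩ := MollCn_xi (φ ν) z
    have h1 := hdiv _ x1 x2
    simp only [x3] at h1
    have h2 : ∀ j, (1 / 2 : ℂ) * (fderiv ℝ ((φ ν).normed volume
          ⋆[ContinuousLinearMap.lsmul ℝ ℝ, volume] f j) z (Pi.single j 1) -
        Complex.I * fderiv ℝ ((φ ν).normed volume
          ⋆[ContinuousLinearMap.lsmul ℝ ℝ, volume] f j) z (Pi.single j Complex.I)) =
        ∫ y, (1 / 2 : ℂ) * ((fderiv ℝ ((φ ν).normed volume) (z - y) (Pi.single j 1)) • f j y -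
          Complex.I * ((fderiv ℝ ((φ ν).normed volume) (z - y) (Pi.single j Complex.I)) • f j y)) := by
      intro j
      obtain ⟨i1, e1⟩ := MollCn_fd (hf j).1 (φ ν) z (Pi.single j 1)
      obtain ⟨i2, e2⟩ := MollCn_fd (hf j).1 (φ ν) z (Pi.single j Complex.I)
      rw [integral_const_mul, integral_sub i1 (i2.const_mul _), integral_const_mul, e1, e2]
    simp only [h2]
    rw [← integral_finsetSum]
    · rw [convolution_eq_swap]
      have h3 : ∫ y, ∑ j, (1 / 2 : ℂ) * ((fderiv ℝ ((φ ν).normed volume) (z - y)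
            (Pi.single j 1)) • f j y - Complex.I * ((fderiv ℝ ((φ ν).normed volume) (z - y)
            (Pi.single j Complex.I)) • f j y)) =
          - ∫ y, ∑ j, f j y * ((1 / 2) * (-((fderiv ℝ ((φ ν).normed volume) (z - y)
            (Pi.single j 1) : ℝ) : ℂ) - Complex.I * -((fderiv ℝ ((φ ν).normed volume) (z - y)
            (Pi.single j Complex.I) : ℝ) : ℂ))) := by
        rw [← integral_neg]
        congr 1
        funext y
        rw [← Finset.sum_neg_distrib]
        refine Finset.sum_congr rfl fun j _ => ?_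
        rw [Complex.real_smul, Complex.real_smul]
        ring
      rw [h3, h1, neg_neg]
      congr 1
      funext y
      change ((φ ν).normed volume (z - y)) • d y = _
      rw [Complex.real_smul, mul_comm]
    · intro j _
      obtain ⟨i1, e1⟩ := MollCn_fd (hf j).1 (φ ν) z (Pi.single j 1)
      obtain ⟨i2, e2⟩ := MollCn_fd (hf j).1 (φ ν) z (Pi.single j Complex.I)
      exact (i1.sub (i2.const_mul _)).const_mul _
  · intro j k
    refine (MollCn_L2 (hc j k).1 φ hφ).congr fun ν => ?_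
    congr 1
    funext z
    congr 3
    obtain ⟨x1, x2, x3⟩ := MollCn_xi (φ ν) z
    have h1 := hcurl _ x1 x2 j k
    simp only [x3] at h1
    obtain ⟨i1, e1⟩ := MollCn_fd (hf k).1 (φ ν) z (Pi.single j 1)
    obtain ⟨i2, e2⟩ := MollCn_fd (hf k).1 (φ ν) z (Pi.single j Complex.I)
    obtain ⟨i3, e3⟩ := MollCn_fd (hf j).1 (φ ν) z (Pi.single k 1)
    obtain ⟨i4, e4⟩ := MollCn_fd (hf j).1 (φ ν) z (Pi.single k Complex.I)
    rw [e1, e2, e3, e4, convolution_eq_swap]
    have h5 : ∫ y, ((1 / 2 : ℂ) * ((fderiv ℝ ((φ ν).normed volume) (z - y) (Pi.single j 1)) • f k y +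
          Complex.I * ((fderiv ℝ ((φ ν).normed volume) (z - y) (Pi.single j Complex.I)) • f k y)) -
          (1 / 2 : ℂ) * ((fderiv ℝ ((φ ν).normed volume) (z - y) (Pi.single k 1)) • f j y +
          Complex.I * ((fderiv ℝ ((φ ν).normed volume) (z - y)
            (Pi.single k Complex.I)) • f j y))) =
        (1 / 2 : ℂ) * ((∫ y, (fderiv ℝ ((φ ν).normed volume) (z - y) (Pi.single j 1)) • f k y) +
          Complex.I * ∫ y, (fderiv ℝ ((φ ν).normed volume) (z - y)
            (Pi.single j Complex.I)) • f k y) -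
        (1 / 2 : ℂ) * ((∫ y, (fderiv ℝ ((φ ν).normed volume) (z - y) (Pi.single k 1)) • f j y) +
          Complex.I * ∫ y, (fderiv ℝ ((φ ν).normed volume) (z - y)
            (Pi.single k Complex.I)) • f j y) := by
      exact MollCn_lin i1 i2 i3 i4
    rw [← h5]
    have h6 : ∫ y, ((1 / 2 : ℂ) * ((fderiv ℝ ((φ ν).normed volume) (z - y) (Pi.single j 1)) • f k y +
          Complex.I * ((fderiv ℝ ((φ ν).normed volume) (z - y) (Pi.single j Complex.I)) • f k y)) -
          (1 / 2 : ℂ) * ((fderiv ℝ ((φ ν).normed volume) (z - y) (Pi.single k 1)) • f j y +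
          Complex.I * ((fderiv ℝ ((φ ν).normed volume) (z - y)
            (Pi.single k Complex.I)) • f j y))) =
        - ∫ y, (f k y * ((1 / 2) * (-((fderiv ℝ ((φ ν).normed volume) (z - y)
            (Pi.single j 1) : ℝ) : ℂ) + Complex.I * -((fderiv ℝ ((φ ν).normed volume) (z - y)
            (Pi.single j Complex.I) : ℝ) : ℂ))) -
          f j y * ((1 / 2) * (-((fderiv ℝ ((φ ν).normed volume) (z - y)
            (Pi.single k 1) : ℝ) : ℂ) + Complex.I * -((fderiv ℝ ((φ ν).normed volume) (z - y)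
            (Pi.single k Complex.I) : ℝ) : ℂ)))) := by
      rw [← integral_neg]
      congr 1
      funext y
      rw [Complex.real_smul, Complex.real_smul, Complex.real_smul, Complex.real_smul]
      ring
    rw [h6, h1, neg_neg]
    congr 1
    funext y
    change ((φ ν).normed volume (z - y)) • c j k y = _
    rw [Complex.real_smul, mul_comm]

end Pool.Agent.Lib.MP_55bc5f_an
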