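import Pool.Agent.Lib.MP_55bc5f_an.Full.SpecL2

/-!
# Partitions of unity on domains étale over `ℂⁿ`
-/

set_option autoImplicit false

open scoped Manifold ContDiff Topology ComplexConjugate
open Set Filter Metric MeasureTheory

namespace Pool.Agent.Lib.MP_55bc5f_an

/-- A smooth bump at a point, with compact support in a chart and in a given neighbourhood. -/
lemma pu_bump {n : ℕ} (X : Dom n) (c : X) (N : Set X) (hN : N ∈ 𝓝 c) :
    ∃ β : X → ℝ, ∃ U : Set X, IsOpen U ∧ c ∈ U ∧ CS X β ∧
      tsupport β ⊆ (ch X.hπ c).target ∩ N ∧ (∀ x, 0 ≤ β x ∧ β x ≤ 1) ∧ ∀ x ∈ U, β x = 1 := by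
  classical
  set e := ch X.hπ c with he
  have hV : e.source ∩ e ⁻¹' N ∈ 𝓝 (X.π c) :=
    inter_mem (e.open_source.mem_nhds (ch_mem X.hπ c)) (ch_tendsto X.hπ c hN)
  obtain ⟨r, hr0, hr⟩ := Metric.nhds_basis_closedBall.mem_iff.1 hV
  let b : ContDiffBump (X.π c) := ⟨r / 2, r, by positivity, by linarith⟩
  have hts : tsupport (b : Cn n → ℝ) = closedBall (X.π c) r := b.tsupport_eq
  let Kc : Set X := e '' closedBall (X.π c) r
  have hKs : closedBall (X.π c) r ⊆ e.source := fun z hz => (hr hz).1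
  have hKc : IsCompact Kc :=
    (isCompact_closedBall _ _).image_of_continuousOn (e.continuousOn.mono hKs)
  have hKt : Kc ⊆ e.target ∩ N := by
    rintro _ ⟨z, hz, rfl⟩
    exact ⟨e.map_source (hKs hz), (hr hz).2⟩
  let β : X → ℝ := fun x => if x ∈ e.target then b (X.π x) else 0
  have hsupp : Function.support β ⊆ Kc := by
    intro x hx
    by_cases hxt : x ∈ e.target
    · have h1 : b (X.π x) ≠ 0 := by
        have : β x ≠ 0 := hx
        simpa [β, hxt] using this
      have h2 : X.π x ∈ closedBall (X.π c) r := by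
        rw [← hts]
        exact subset_tsupport _ h1
      exact ⟨X.π x, h2, ch_p X.hπ hxt⟩
    · exact absurd (by simp [β, hxt]) hx
  have htsupp : tsupport β ⊆ Kc := closure_minimal hsupp hKc.isClosed
  have hopen : ∀ x ∈ e.target, β =ᶠ[𝓝 x] (b : Cn n → ℝ) ∘ X.π := by
    intro x hx
    filter_upwards [e.open_target.mem_nhds hx] with y hy
    simp [β, hy]
  refine ⟨β, e.target ∩ X.π ⁻¹' ball (X.π c) (r / 2), ?_, ?_, ⟨?_, ?_⟩, htsupp.trans hKt, ?_, ?_⟩
  · exact e.open_target.inter (isOpen_ball.preimage X.hπ.continuous)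
  · exact ⟨ch_mem' X.hπ c, by simpa using hr0⟩
  · intro x
    by_cases hxt : x ∈ e.target
    · exact ⟨b, b.contDiff.contDiffAt, hopen x hxt⟩
    · have hxK : x ∉ Kc := fun h => hxt (hKt h).1
      refine (SmAt.const (0 : ℝ) x).congr ?_
      filter_upwards [hKc.isClosed.isOpen_compl.mem_nhds hxK] with y hy
      by_contra h
      exact hy (hsupp (Ne.symm h))
  · exact hKc.of_isClosed_subset (isClosed_tsupport _) htsupp
  · intro x
    by_cases hxt : x ∈ e.target
    · simp only [β, hxt, if_true]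
      exact ⟨b.nonneg, b.le_one⟩
    · simp [β, hxt]
  · rintro x ⟨hxt, hx⟩
    simp only [β, hxt, if_true]
    exact b.one_of_mem_closedBall (ball_subset_closedBall hx)

lemma pu_sm_prod {n : ℕ} {X : Dom n} {ι : Type} (s : Finset ι) (f : ι → X → ℝ)
    (h : ∀ i ∈ s, Sm X (f i)) : Sm X (fun x => ∏ i ∈ s, f i x) := by
  classical
  induction s using Finset.induction_on with
  | empty => simpa using Sm.const (1 : ℝ)
  | insert a s ha ih =>
    simp only [Finset.prod_insert ha]
    intro x
    exact (h a (Finset.mem_insert_self a s) x).mul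
      (ih (fun i hi => h i (Finset.mem_insert_of_mem hi)) x)

theorem s_PU : S_PU := by
  classical
  intro n X K hK N hN
  choose β U hUo hcU hCS hts h01 h1 using fun c : X => pu_bump X c (N c) (hN c)
  obtain ⟨t, -, ht⟩ := hK.elim_nhds_subcover U (fun c _ => (hUo c).mem_nhds (hcU c))
  let eq := t.equivFin
  let c : Fin t.card → X := fun i => (eq.symm i : X)
  let θ : Fin t.card → X → ℝ := fun i x =>
    β (c i) x * ∏ j ∈ Finset.univ.filter (fun j => j < i), (1 - β (c j) x)
  have hsum : ∀ x, ∏ i, (1 - β (c i) x) = 1 - ∑ i, θ i x := fun x =>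
    Finset.prod_one_sub_ordered Finset.univ (fun i => β (c i) x)
  have hprod0 : ∀ x, ∀ s : Finset (Fin t.card), 0 ≤ ∏ j ∈ s, (1 - β (c j) x) ∧
      ∏ j ∈ s, (1 - β (c j) x) ≤ 1 := by
    intro x s
    constructor
    · exact Finset.prod_nonneg fun j _ => by linarith [(h01 (c j) x).2]
    · exact Finset.prod_le_one (fun j _ => by linarith [(h01 (c j) x).2])
        fun j _ => by linarith [(h01 (c j) x).1]
  refine ⟨t.card, c, θ, ?_, ?_, ⋃ i, U (c i), isOpen_iUnion fun i => hUo _, ?_, ?_⟩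
  · intro i
    have hsub : tsupport (θ i) ⊆ tsupport (β (c i)) := by
      apply closure_mono
      intro x hx hb
      exact hx (by simp only [θ, hb, zero_mul])
    refine ⟨⟨?_, ?_⟩, hsub.trans (hts (c i)), ?_⟩
    · intro x
      exact ((hCS (c i)).1 x).mul
        (pu_sm_prod _ _ (fun j _ => (Sm.const (1 : ℝ)).sub (hCS (c j)).1) x)
    · exact (hCS (c i)).2.of_isClosed_subset (isClosed_tsupport _) hsub
    · intro x
      have h2 := h01 (c i) x
      have h3 := hprod0 x (Finset.univ.filter (fun j => j < i))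
      exact ⟨mul_nonneg h2.1 h3.1, mul_le_one₀ h2.2 h3.1 h3.2⟩
  · intro x
    have := (hprod0 x Finset.univ).1
    rw [hsum x] at this
    linarith
  · intro x hx
    obtain ⟨y, hy, hxy⟩ := mem_iUnion₂.1 (ht hx)
    refine mem_iUnion.2 ⟨eq ⟨y, hy⟩, ?_⟩
    simpa [c] using hxy
  · intro x hx
    obtain ⟨i, hi⟩ := mem_iUnion.1 hx
    have h2 : ∏ i, (1 - β (c i) x) = 0 := by
      apply Finset.prod_eq_zero (Finset.mem_univ i)
      rw [h1 _ x hi]
      simp
    rw [hsum x] at h2
    linarith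

end Pool.Agent.Lib.MP_55bc5f_an
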