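import Pool.Agent.Lib.MP_55bc5f_an.Full.SpecL2

/-!
# Facts on the pull back of the Lebesgue measure to a domain étale over `ℂⁿ`
-/

set_option autoImplicit false

open scoped Manifold ContDiff Topology ComplexConjugate
open Set Filter Metric MeasureTheory

namespace Pool.Agent.Lib.MP_55bc5f_an

lemma pullFacts_injOn {n : ℕ} (X : Dom n) (x : X) : InjOn X.π (ch X.hπ x).target := by
  intro y hy y' hy' h
  rw [← ch_p X.hπ hy, ← ch_p X.hπ hy', h]

lemma pullFacts_image_eq {n : ℕ} (X : Dom n) (x : X) {S : Set (Cn n)}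
    (hS : S ⊆ (ch X.hπ x).source) :
    ch X.hπ x '' S = (ch X.hπ x).target ∩ X.π ⁻¹' S := by
  have h := (ch X.hπ x).image_eq_target_inter_inv_preimage hS
  rwa [ch_symm] at h

lemma pullFacts_meas_image {n : ℕ} (X : Dom n) (x : X) {S : Set (Cn n)}
    (hSm : MeasurableSet S) (hS : S ⊆ (ch X.hπ x).source) :
    MeasurableSet (ch X.hπ x '' S) := by
  rw [pullFacts_image_eq X x hS]
  exact (ch X.hπ x).open_target.measurableSet.inter (X.hπ.continuous.measurable hSm)

/-- The chart, restricted to `S`. -/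
noncomputable def pullFacts_e {n : ℕ} (X : Dom n) (x : X) (S : Set (Cn n)) : S → X :=
  fun z => ch X.hπ x z

lemma pullFacts_emb {n : ℕ} (X : Dom n) (x : X) {S : Set (Cn n)}
    (hSm : MeasurableSet S) (hS : S ⊆ (ch X.hπ x).source) :
    MeasurableEmbedding (pullFacts_e X x S) := by
  refine ⟨?_, ?_, ?_⟩
  · intro z z' h
    exact Subtype.ext ((ch X.hπ x).injOn (hS z.2) (hS z'.2) h)
  · have h : Continuous (pullFacts_e X x S) :=
      continuousOn_iff_continuous_domRestrict.1 ((ch X.hπ x).continuousOn.mono hS)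
    exact h.measurable
  · intro T hT
    have h1 : MeasurableSet (Subtype.val '' T : Set (Cn n)) := hSm.subtype_image hT
    have h2 : (Subtype.val '' T : Set (Cn n)) ⊆ (ch X.hπ x).source := by
      rintro _ ⟨z, _, rfl⟩
      exact hS z.2
    have h3 : pullFacts_e X x S '' T = ch X.hπ x '' (Subtype.val '' T) := by
      rw [image_image]
      rfl
    rw [h3]
    exact pullFacts_meas_image X x h1 h2

lemma pullFacts_restrict {n : ℕ} (X : Dom n) {μ : Measure X} (hμ : Pull X μ) (x : X)
    {S : Set (Cn n)} (hSm : MeasurableSet S) (hS : S ⊆ (ch X.hπ x).source) :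
    μ.restrict (ch X.hπ x '' S) =
      Measure.map (pullFacts_e X x S) (Measure.comap Subtype.val volume) := by
  ext A hA
  rw [Measure.restrict_apply hA, (pullFacts_emb X x hSm hS).map_apply,
    (MeasurableEmbedding.subtype_coe hSm).comap_apply]
  have h1 : A ∩ ch X.hπ x '' S ⊆ (ch X.hπ x).target := by
    rw [pullFacts_image_eq X x hS]
    exact fun y hy => hy.2.1
  rw [hμ _ (ch X.hπ x).open_target (pullFacts_injOn X x) _ h1
    (hA.inter (pullFacts_meas_image X x hSm hS))]
  congr 1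
  ext z
  constructor
  · rintro ⟨y, ⟨hyA, w, hw, rfl⟩, rfl⟩
    rw [p_ch X.hπ (hS hw)]
    exact ⟨⟨w, hw⟩, hyA, rfl⟩
  · rintro ⟨w, hw, rfl⟩
    exact ⟨ch X.hπ x w, ⟨hw, w, w.2, rfl⟩, p_ch X.hπ (hS w.2)⟩

lemma pullFacts_locfin {n : ℕ} (X : Dom n) {μ : Measure X} (hμ : Pull X μ) :
    IsLocallyFiniteMeasure μ := by
  refine ⟨fun x => ?_⟩
  obtain ⟨ε, hε, hb⟩ := Metric.isOpen_iff.1 (ch X.hπ x).open_source _ (ch_mem X.hπ x)
  refine ⟨ch X.hπ x '' ball (X.π x) ε, ?_, ?_⟩
  · rw [pullFacts_image_eq X x hb]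
    exact inter_mem ((ch X.hπ x).open_target.mem_nhds (ch_mem' X.hπ x))
      (X.hπ.continuous.continuousAt.preimage_mem_nhds (ball_mem_nhds _ hε))
  · have h1 : ch X.hπ x '' ball (X.π x) ε ⊆ (ch X.hπ x).target := by
      rw [pullFacts_image_eq X x hb]
      exact inter_subset_left
    rw [hμ _ (ch X.hπ x).open_target (pullFacts_injOn X x) _ h1
      (pullFacts_meas_image X x measurableSet_ball hb)]
    have h2 : X.π '' (ch X.hπ x '' ball (X.π x) ε) ⊆ ball (X.π x) ε := by
      rintro _ ⟨_, ⟨w, hw, rfl⟩, rfl⟩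
      rw [p_ch X.hπ (hb hw)]
      exact hw
    exact lt_of_le_of_lt (measure_mono h2) measure_ball_lt_top

theorem s_PullFacts : S_PullFacts := by
  intro n X μ hμ
  have hlf := pullFacts_locfin X hμ
  refine ⟨inferInstance, inferInstance, ?_, ?_, ?_, ?_⟩
  · intro U hU hne h0
    obtain ⟨x, hx⟩ := hne
    have h1 : μ (U ∩ (ch X.hπ x).target) = 0 := measure_mono_null inter_subset_left h0
    have hopen : IsOpen (U ∩ (ch X.hπ x).target) := hU.inter (ch X.hπ x).open_target
    rw [hμ _ (ch X.hπ x).open_target (pullFacts_injOn X x) _ inter_subset_right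
      hopen.measurableSet] at h1
    have h2 : IsOpen (X.π '' (U ∩ (ch X.hπ x).target)) := X.hπ.isOpenMap _ hopen
    exact h2.measure_ne_zero volume ⟨X.π x, x, ⟨hx, ch_mem' X.hπ x⟩, rfl⟩ h1
  · intro x S hSm hS F _ _ f
    constructor
    · rw [pullFacts_restrict X hμ x hSm hS, (pullFacts_emb X x hSm hS).integral_map]
      exact integral_subtype_comap hSm (fun z => f (ch X.hπ x z))
    · rw [IntegrableOn, pullFacts_restrict X hμ x hSm hS,
        (pullFacts_emb X x hSm hS).integrable_map_iff]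
      exact (integrableOn_iff_comap_subtypeVal (f := fun z => f (ch X.hπ x z)) hSm).symm
  · intro x S hSm hS f
    rw [pullFacts_restrict X hμ x hSm hS, (pullFacts_emb X x hSm hS).lintegral_map]
    exact lintegral_subtype_comap hSm (fun z => f (ch X.hπ x z))
  · intro x S hSm hS P
    rw [pullFacts_restrict X hμ x hSm hS, (pullFacts_emb X x hSm hS).ae_map_iff,
      ae_restrict_iff_subtype hSm]
    rfl

end Pool.Agent.Lib.MP_55bc5f_an
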