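import Pool.Agent.Lib.MP_55bc5f_an.Full.SpecL2

/-!
# Hörmander's theorem, `Riesz`: solution of the `∂̄`-equation
-/

set_option autoImplicit false

open scoped Manifold ContDiff Topology ComplexConjugate
open Set Filter Metric MeasureTheory

namespace Pool.Agent.Lib.MP_55bc5f_an

/-- The functional analysis. -/
private lemma Riesz_abs {S H : Type} [AddCommGroup S] [Module ℂ S] [NormedAddCommGroup H]
    [InnerProductSpace ℂ H] [CompleteSpace H] (a : S →ₗ[ℂ] H) (l : S →ₗ[ℂ] ℂ) (M : ℝ)
    (hM : 0 ≤ M) (h : ∀ f, ‖l f‖ ≤ M * ‖a f‖) :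
    ∃ w : H, ‖w‖ ≤ M ∧ ∀ f, inner ℂ w (a f) = l f := by
  have hker : LinearMap.ker a ≤ LinearMap.ker l := by
    intro f hf
    rw [LinearMap.mem_ker] at hf ⊢
    have := h f
    rw [hf, norm_zero, mul_zero] at this
    exact norm_le_zero_iff.1 this
  let g : LinearMap.range a →ₗ[ℂ] ℂ :=
    ((LinearMap.ker a).liftQ l hker).comp (a.quotKerEquivRange.symm : _ →ₗ[ℂ] _)
  have hg : ∀ f, g (a.rangeRestrict f) = l f := by
    intro f
    have h1 : a.quotKerEquivRange.symm (a.rangeRestrict f) = (LinearMap.ker a).mkQ f := by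
      rw [LinearEquiv.symm_apply_eq]
      rfl
    change (LinearMap.ker a).liftQ l hker (a.quotKerEquivRange.symm (a.rangeRestrict f)) = _
    rw [h1]
    simp
  have hb : ∀ y : LinearMap.range a, ‖g y‖ ≤ M * ‖y‖ := by
    rintro ⟨y, f, rfl⟩
    have := hg f
    change ‖g (a.rangeRestrict f)‖ ≤ _
    rw [this]
    exact h f
  obtain ⟨G, hG1, hG2⟩ := exists_extension_norm_eq (LinearMap.range a) (g.mkContinuous M hb)
  refine ⟨(InnerProductSpace.toDual ℂ H).symm G, ?_, ?_⟩
  · rw [LinearIsometryEquiv.norm_map, hG2]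
    exact LinearMap.mkContinuous_norm_le _ hM _
  · intro f
    rw [InnerProductSpace.toDual_symm_apply]
    have := hG1 (a.rangeRestrict f)
    rw [← hg f]
    exact this

section

variable {n : ℕ} {X : Dom n}

private lemma Riesz_CS_wd {u : X → ℂ} (hu : CS X u) (j : Fin n) : CS X (wd X j u) := by
  refine ⟨hu.1.wd j, hu.2.mono' ?_⟩
  intro x hx
  by_contra h
  apply hx
  simp [wd, dR_of_notMem_tsupport h]

private lemma Riesz_CS_wdb {u : X → ℂ} (hu : CS X u) (j : Fin n) : CS X (wdb X j u) := by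
  refine ⟨hu.1.wdb j, hu.2.mono' ?_⟩
  intro x hx
  by_contra h
  apply hx
  simp [wdb, dR_of_notMem_tsupport h]

private lemma Riesz_cs_sum {ι : Type} (s : Finset ι) {u : ι → X → ℂ}
    (h : ∀ i ∈ s, HasCompactSupport (u i)) : HasCompactSupport (fun x => ∑ i ∈ s, u i x) := by
  classical
  induction s using Finset.induction_on with
  | empty =>
    simp only [Finset.sum_empty]
    exact (HasCompactSupport.zero : HasCompactSupport (0 : X → ℂ))
  | insert a s ha ih =>
    simp only [Finset.sum_insert ha]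
    exact (h a (Finset.mem_insert_self a s)).add
      (ih fun i hi => h i (Finset.mem_insert_of_mem hi))

/-- Forms with compact support. -/
private noncomputable def Riesz_S (X : Dom n) : Submodule ℂ (Fin n → X → ℂ) where
  carrier := {f | ∀ j, CS X (f j)}
  add_mem' := by
    intro f g hf hg j
    exact ⟨(hf j).1.add (hg j).1, (hf j).2.add (hg j).2⟩
  zero_mem' := fun j => ⟨Sm.const 0, HasCompactSupport.zero⟩
  smul_mem' := by
    intro c f hf j
    refine ⟨(Sm.const c).mul (hf j).1, ?_⟩
    exact (hf j).2.mul_left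

private noncomputable def Riesz_T (φ : X → ℝ) (f : Fin n → X → ℂ) (x : X) : ℂ :=
  -∑ j, (wd X j (f j) x - f j x * wd X j (fun y => (φ y : ℂ)) x)

private lemma Riesz_T_add (φ : X → ℝ) {f g : Fin n → X → ℂ} (hf : ∀ j, CS X (f j))
    (hg : ∀ j, CS X (g j)) (x : X) :
    Riesz_T φ (f + g) x = Riesz_T φ f x + Riesz_T φ g x := by
  unfold Riesz_T
  rw [← neg_add, ← Finset.sum_add_distrib]
  congr 1
  apply Finset.sum_congr rfl
  intro j _
  have h1 : (f + g) j = fun y => f j y + g j y := rfl
  rw [h1, wd_add ((hf j).1 x) ((hg j).1 x)]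
  ring

private lemma Riesz_T_smul (φ : X → ℝ) (c : ℂ) {f : Fin n → X → ℂ} (hf : ∀ j, CS X (f j))
    (x : X) : Riesz_T φ (c • f) x = c * Riesz_T φ f x := by
  unfold Riesz_T
  rw [mul_neg, Finset.mul_sum]
  congr 1
  apply Finset.sum_congr rfl
  intro j _
  have h1 : (c • f) j = fun y => c * f j y := rfl
  rw [h1, wd_mul (SmAt.const c x) ((hf j).1 x), wd_const]
  ring

private lemma Riesz_T_cs {φ : X → ℝ} (hφ : Sm X φ) {f : Fin n → X → ℂ} (hf : ∀ j, CS X (f j)) :
    CS X (Riesz_T φ f) := by
  refine ⟨Sm.neg (Sm.sum fun j _ => ((hf j).1.wd j).sub ((hf j).1.mul (hφ.ofReal.wd j))), ?_⟩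
  apply HasCompactSupport.neg
  apply Riesz_cs_sum
  intro j _
  exact (Riesz_CS_wd (hf j) j).2.sub (hf j).2.mul_right

end

private lemma Riesz_norm {Y : Type} [MeasurableSpace Y] {μ : Measure Y} (w : Lp ℂ 2 μ) :
    ‖w‖ ^ 2 = ∫ x, ‖w x‖ ^ 2 ∂μ := by
  have h1 : inner ℂ w w = ((‖w‖ : ℂ)) ^ 2 := inner_self_eq_norm_sq_to_K w
  rw [L2.inner_def] at h1
  have h2 : ∀ x, inner ℂ (w x) (w x) = ((‖w x‖ ^ 2 : ℝ) : ℂ) := by
    intro x
    rw [inner_self_eq_norm_sq_to_K]
    simp
  simp only [h2] at h1
  rw [integral_complex_ofReal] at h1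
  exact_mod_cast h1.symm

theorem s_Riesz (hPullFacts : S_PullFacts) (hIBP : S_IBP) (hEst : S_Est) : S_Riesz := by
  have _ := hIBP
  intro n X μ hμ s φ hs hφ hlev χ hχ
  have : IsFiniteMeasureOnCompacts μ := (hPullFacts n X μ hμ).1
  set M2 : ℝ := ∫ x, (∑ j, ‖wdb X j χ x‖ ^ 2) * Real.exp (-φ x) ∂μ with hM2
  have hφc : Continuous φ := hφ.continuous
  have hM0 : 0 ≤ M2 := integral_nonneg fun x => by positivity
  let E : X → ℂ := fun x => ((Real.exp (-φ x / 2) : ℝ) : ℂ)
  have hE : Continuous E :=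
    Complex.continuous_ofReal.comp (Real.continuous_exp.comp (hφc.neg.div_const 2))
  have hEE : ∀ x, Real.exp (-φ x / 2) * Real.exp (-φ x / 2) = Real.exp (-φ x) := by
    intro x
    rw [← Real.exp_add]
    congr 1
    ring
  have hL : ∀ f : Riesz_S X, MemLp (fun x => Riesz_T φ f.1 x * E x) 2 μ := by
    intro f
    have h1 := Riesz_T_cs hφ f.2
    exact (h1.1.continuous.mul hE).memLp_of_hasCompactSupport (h1.2.mul_right)
  let a : Riesz_S X →ₗ[ℂ] Lp ℂ 2 μ :=
    { toFun := fun f => (hL f).toLp _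
      map_add' := by
        intro f g
        rw [← MemLp.toLp_add]
        apply MemLp.toLp_congr
        filter_upwards with x
        change Riesz_T φ (f.1 + g.1) x * E x = Riesz_T φ f.1 x * E x + Riesz_T φ g.1 x * E x
        rw [Riesz_T_add φ f.2 g.2]
        ring
      map_smul' := by
        intro c f
        rw [RingHom.id_apply, ← MemLp.toLp_const_smul]
        apply MemLp.toLp_congr
        filter_upwards with x
        change Riesz_T φ (c • f.1) x * E x = c * (Riesz_T φ f.1 x * E x)
        rw [Riesz_T_smul φ c f.2]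
        ring }
  have ha : ∀ f : Riesz_S X, a f =ᵐ[μ] fun x => Riesz_T φ f.1 x * E x :=
    fun f => MemLp.coeFn_toLp (hL f)
  have hI : ∀ f : Riesz_S X, Integrable
      (fun x => (∑ j, conj (wdb X j χ x) * f.1 j x) * ((Real.exp (-φ x) : ℝ) : ℂ)) μ := by
    intro f
    apply Continuous.integrable_of_hasCompactSupport
    · apply Continuous.mul
      · exact continuous_finsetSum _ fun j _ =>
          ((hχ.1.wdb j).conj.continuous).mul (f.2 j).1.continuous
      · exact Complex.continuous_ofReal.comp (Real.continuous_exp.comp hφc.neg)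
    · apply HasCompactSupport.mul_right
      apply Riesz_cs_sum
      intro j _
      exact (f.2 j).2.mul_left
  let l : Riesz_S X →ₗ[ℂ] ℂ :=
    { toFun := fun f => ∫ x, (∑ j, conj (wdb X j χ x) * f.1 j x) * ((Real.exp (-φ x) : ℝ) : ℂ) ∂μ
      map_add' := by
        intro f g
        rw [← integral_add (hI f) (hI g)]
        congr 1
        ext x
        rw [← add_mul, ← Finset.sum_add_distrib]
        congr 1
        apply Finset.sum_congr rfl
        intro j _
        change _ * (f.1 j x + g.1 j x) = _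
        ring
      map_smul' := by
        intro c f
        rw [RingHom.id_apply, smul_eq_mul, ← integral_const_mul]
        congr 1
        ext x
        rw [← mul_assoc, Finset.mul_sum]
        congr 1
        apply Finset.sum_congr rfl
        intro j _
        change _ * (c * f.1 j x) = _
        ring }
  have hanorm : ∀ f : Riesz_S X, ‖a f‖ ^ 2 =
      ∫ x, ‖∑ j, (wd X j (f.1 j) x - f.1 j x * wd X j (fun y => (φ y : ℂ)) x)‖ ^ 2 *
        Real.exp (-φ x) ∂μ := by
    intro f
    rw [Riesz_norm]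
    apply integral_congr_ae
    filter_upwards [ha f] with x hx
    rw [hx]
    simp only [Riesz_T, E, norm_mul, norm_neg, Complex.norm_real, Real.norm_eq_abs, Real.abs_exp]
    rw [mul_pow, sq (Real.exp (-φ x / 2)), hEE]
  have hbound : ∀ f, ‖l f‖ ≤ Real.sqrt M2 * ‖a f‖ := by
    intro f
    have h1 := hEst n X μ hμ s φ hs hφ hlev χ f.1 hχ f.2
    rw [← hanorm f, ← hM2] at h1
    have h2 : ‖l f‖ ^ 2 ≤ M2 * ‖a f‖ ^ 2 := h1
    have h3 : ‖l f‖ ^ 2 ≤ (Real.sqrt M2 * ‖a f‖) ^ 2 := by
      rw [mul_pow, Real.sq_sqrt hM0]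
      exact h2
    exact (abs_le_of_sq_le_sq' h3 (by positivity)).2
  obtain ⟨w, hw1, hw2⟩ := Riesz_abs a l (Real.sqrt M2) (Real.sqrt_nonneg _) hbound
  have hwm : AEStronglyMeasurable w μ := Lp.aestronglyMeasurable w
  have hwi : Integrable (fun x => ‖w x‖ ^ 2) μ := (Lp.memLp w).integrable_norm_pow (by norm_num)
  have hE2 : Continuous fun x => ((Real.exp (φ x / 2) : ℝ) : ℂ) :=
    Complex.continuous_ofReal.comp (Real.continuous_exp.comp (hφc.div_const 2))
  have hw3 : ∀ x, ‖w x * ((Real.exp (φ x / 2) : ℝ) : ℂ)‖ ^ 2 * Real.exp (-φ x) = ‖w x‖ ^ 2 := by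
    intro x
    rw [norm_mul, Complex.norm_real, Real.norm_eq_abs, Real.abs_exp, mul_pow, mul_assoc,
      ← Real.exp_nat_mul, ← Real.exp_add]
    have : ((2 : ℕ) : ℝ) * (φ x / 2) + -φ x = 0 := by push_cast; ring
    rw [this, Real.exp_zero, mul_one]
  refine ⟨fun x => w x * ((Real.exp (φ x / 2) : ℝ) : ℂ), hwm.mul hE2.aestronglyMeasurable, ?_, ?_,
    ?_⟩
  · simpa only [hw3] using hwi
  · simp only [hw3]
    rw [← Riesz_norm]
    calc ‖w‖ ^ 2 ≤ (Real.sqrt M2) ^ 2 := by gcongr
      _ = M2 := Real.sq_sqrt hM0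
  · intro ξ hξ j
    classical
    let ζ : X → ℂ := fun x => conj (ξ x)
    have hζ : CS X ζ := by
      refine ⟨hξ.1.conj, hξ.2.mono' ?_⟩
      intro x hx
      apply subset_tsupport
      intro h
      apply hx
      simp [ζ, h]
    let e : X → ℂ := fun x => ((Real.exp (φ x) : ℝ) : ℂ)
    have he : Sm X e := (hφ.comp (F := Real.exp) Real.contDiff_exp).ofReal
    have hζe : CS X (fun x => ζ x * e x) := ⟨hζ.1.mul he, hζ.2.mul_right⟩
    have hwde : ∀ x, wd X j e x = e x * wd X j (fun y => (φ y : ℂ)) x := by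
      intro x
      have h1 : ∀ v, dR X (fun y => Real.exp (φ y)) x v = Real.exp (φ x) * dR X φ x v := by
        intro v
        rw [dR_comp (hφ x) Real.differentiable_exp.differentiableAt]
        simp [mul_comm]
      simp only [wd, e, dR_ofReal ((hφ.comp (F := Real.exp) Real.contDiff_exp) x),
        dR_ofReal (hφ x), h1]
      push_cast
      ring
    let f : Riesz_S X := ⟨fun k => if k = j then fun x => ζ x * e x else fun _ => 0, by
      intro k
      dsimp only
      split_ifs with h
      · exact hζe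
      · exact ⟨Sm.const 0, HasCompactSupport.zero⟩⟩
    have hfT : ∀ x, Riesz_T φ f.1 x = - (e x * wd X j ζ x) := by
      intro x
      unfold Riesz_T
      rw [Finset.sum_eq_single j]
      · have h1 : f.1 j = fun x => ζ x * e x := by simp [f]
        rw [h1, wd_mul (hζ.1 x) (he x), hwde]
        ring
      · intro k _ hk
        have h1 : f.1 k = fun x => 0 := by simp [f, hk]
        rw [h1, wd_const]
        ring
      · intro h
        exact absurd (Finset.mem_univ j) h
    have key := hw2 f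
    have hleft : inner ℂ w (a f) =
        ∫ x, - (conj (w x * ((Real.exp (φ x / 2) : ℝ) : ℂ)) * wd X j ζ x) ∂μ := by
      rw [L2.inner_def]
      apply integral_congr_ae
      filter_upwards [ha f] with x hx
      rw [hx, hfT x]
      have h1 : e x * E x = ((Real.exp (φ x / 2) : ℝ) : ℂ) := by
        simp only [e, E]
        rw [← Complex.ofReal_mul, ← Real.exp_add]
        congr 2
        ring
      rw [RCLike.inner_apply, map_mul, Complex.conj_ofReal, ← h1]
      ring
    have hright : l f = ∫ x, conj (wdb X j χ x) * ζ x ∂μ := by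
      change ∫ x, (∑ j, conj (wdb X j χ x) * f.1 j x) * ((Real.exp (-φ x) : ℝ) : ℂ) ∂μ = _
      congr 1
      ext x
      rw [Finset.sum_eq_single j]
      · have h1 : f.1 j = fun x => ζ x * e x := by simp [f]
        rw [h1]
        have h2 : e x * ((Real.exp (-φ x) : ℝ) : ℂ) = 1 := by
          simp only [e]
          rw [← Complex.ofReal_mul, ← Real.exp_add]
          simp
        dsimp only
        linear_combination (conj (wdb X j χ x) * ζ x) * h2
      · intro k _ hk
        have h1 : f.1 k = fun x => 0 := by simp [f, hk]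
        rw [h1]
        ring
      · intro h
        exact absurd (Finset.mem_univ j) h
    rw [hleft, hright] at key
    have key2 := congrArg conj key
    rw [← integral_conj, ← integral_conj] at key2
    rw [← neg_eq_iff_eq_neg, ← integral_neg]
    calc _ = ∫ x, conj (- (conj (w x * ((Real.exp (φ x / 2) : ℝ) : ℂ)) * wd X j ζ x)) ∂μ := by
          congr 1
          ext x
          rw [map_neg, map_mul, Complex.conj_conj, wd_conj (hξ.1 x), Complex.conj_conj]
      _ = _ := key2
      _ = _ := by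
          congr 1
          ext x
          simp [ζ]

end Pool.Agent.Lib.MP_55bc5f_an
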