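import Pool.Agent.Lib.MP_55bc5f_an.Full.SpecL2

/-!
# Weakly holomorphic functions on domains which are étale over `ℂⁿ` are holomorphic
-/

set_option autoImplicit false
set_option linter.unusedSectionVars false

open scoped Manifold ContDiff Topology ComplexConjugate
open Set Filter Metric MeasureTheory

namespace Pool.Agent.Lib.MP_55bc5f_an

section

variable {n : ℕ} (X : Dom n)

open Classical in
/-- Transport of a function on `ℂⁿ` to `X` by the chart at `x`. -/
noncomputable def weylPush (x : X) (ξ : Cn n → ℂ) (y : X) : ℂ :=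
  if y ∈ (ch X.hπ x).target then ξ (X.π y) else 0

lemma weylPush_ev (x : X) (ξ : Cn n → ℂ) {y : X} (hy : y ∈ (ch X.hπ x).target) :
    weylPush X x ξ =ᶠ[𝓝 y] ξ ∘ X.π := by
  filter_upwards [(ch X.hπ x).open_target.mem_nhds hy] with y' hy'
  rw [weylPush, if_pos hy']
  rfl

lemma weylPush_zero (x : X) (ξ : Cn n → ℂ) {y : X} (hy : y ∉ ch X.hπ x '' tsupport ξ) :
    weylPush X x ξ y = 0 := by
  rw [weylPush]
  split_ifs with h
  · by_contra hne
    exact hy ⟨X.π y, subset_tsupport ξ hne, ch_p X.hπ h⟩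
  · rfl

lemma weylK_compact (x : X) {ξ : Cn n → ℂ} (hc : HasCompactSupport ξ)
    (hs : tsupport ξ ⊆ (ch X.hπ x).source) : IsCompact (ch X.hπ x '' tsupport ξ) :=
  IsCompact.image_of_continuousOn hc ((ch X.hπ x).continuousOn.mono hs)

lemma weylPush_CS (x : X) {ξ : Cn n → ℂ} (hξ : ContDiff ℝ ∞ ξ) (hc : HasCompactSupport ξ)
    (hs : tsupport ξ ⊆ (ch X.hπ x).source) : CS X (weylPush X x ξ) := by
  have hK := weylK_compact X x hc hs
  refine ⟨fun y => ?_, HasCompactSupport.intro hK fun y hy => weylPush_zero X x ξ hy⟩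
  by_cases hy : y ∈ (ch X.hπ x).target
  · exact ⟨ξ, hξ.contDiffAt, weylPush_ev X x ξ hy⟩
  · have hy' : y ∉ ch X.hπ x '' tsupport ξ := by
      rintro ⟨z, hz, rfl⟩
      exact hy ((ch X.hπ x).map_source (hs hz))
    apply (SmAt.const (0 : ℂ) y).congr
    filter_upwards [hK.isClosed.isOpen_compl.mem_nhds hy'] with y' h'
    exact (weylPush_zero X x ξ h').symm

lemma weylPush_wdb (x : X) (ξ : Cn n → ℂ) (j : Fin n) {y : X} (hy : y ∈ (ch X.hπ x).target) :
    wdb X j (weylPush X x ξ) y = (1 / 2) * (fderiv ℝ ξ (X.π y) (Pi.single j 1) +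
      Complex.I * fderiv ℝ ξ (X.π y) (Pi.single j Complex.I)) := by
  rw [wdb, dR_eq (weylPush_ev X x ξ hy)]

lemma weylPush_wdb_zero (x : X) {ξ : Cn n → ℂ} (hc : HasCompactSupport ξ)
    (hs : tsupport ξ ⊆ (ch X.hπ x).source) (j : Fin n) {y : X}
    (hy : y ∉ ch X.hπ x '' tsupport ξ) : wdb X j (weylPush X x ξ) y = 0 := by
  have hK := weylK_compact X x hc hs
  have h1 : weylPush X x ξ =ᶠ[𝓝 y] fun _ => 0 := by
    filter_upwards [hK.isClosed.isOpen_compl.mem_nhds hy] with y' h'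
    exact weylPush_zero X x ξ h'
  rw [wdb_congr j h1, wdb_const]

end

/-- The local statement. -/
lemma weyl_local (hPF : S_PullFacts) (hW : S_WeylCn) {n : ℕ} (X : Dom n) (μ : Measure X)
    (hμ : Pull X μ) (u : X → ℂ) (hu : ∀ K : Set X, IsCompact K → IntegrableOn u K μ)
    (hw : ∀ ξ : X → ℂ, CS X ξ → ∀ j, ∫ x, u x * wdb X j ξ x ∂μ = 0) (x : X) :
    ∃ (r : ℝ) (g : Cn n → ℂ), 0 < r ∧ ball (X.π x) r ⊆ (ch X.hπ x).source ∧
      DifferentiableOn ℂ g (ball (X.π x) r) ∧
      ∀ᵐ y ∂μ, y ∈ ch X.hπ x '' ball (X.π x) r → u y = g (X.π y) := by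
  obtain ⟨_, _, _, hF4, _, hF6⟩ := hPF n X μ hμ
  obtain ⟨r, hr, hrs⟩ := Metric.nhds_basis_closedBall.mem_iff.1
    ((ch X.hπ x).open_source.mem_nhds (ch_mem X.hπ x))
  have hbs : ball (X.π x) r ⊆ (ch X.hπ x).source := ball_subset_closedBall.trans hrs
  have hcomp : IsCompact (ch X.hπ x '' closedBall (X.π x) r) :=
    (isCompact_closedBall (X.π x) r).image_of_continuousOn ((ch X.hπ x).continuousOn.mono hrs)
  have hint : IntegrableOn u (ch X.hπ x '' ball (X.π x) r) μ :=
    (hu _ hcomp).mono_set (image_mono ball_subset_closedBall)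
  have hint' := (hF4 x (ball (X.π x) r) isOpen_ball.measurableSet hbs ℂ u).2.1 hint
  obtain ⟨g, hg1, hg2⟩ := hW n (X.π x) r hr (fun z => u (ch X.hπ x z)) hint' (by
    intro ξ hξ hc hts j
    have hs : tsupport ξ ⊆ (ch X.hπ x).source := hts.trans hbs
    have h1 := hw (weylPush X x ξ) (weylPush_CS X x hξ hc hs) j
    have h2 : ∫ y in ch X.hπ x '' ball (X.π x) r, u y * wdb X j (weylPush X x ξ) y ∂μ =
        ∫ y, u y * wdb X j (weylPush X x ξ) y ∂μ := by
      apply setIntegral_eq_integral_of_forall_compl_eq_zero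
      intro y hy
      rw [weylPush_wdb_zero X x hc hs j (fun h => hy (image_mono hts h)), mul_zero]
    rw [← h2, (hF4 x (ball (X.π x) r) isOpen_ball.measurableSet hbs ℂ _).1] at h1
    have h3 : ∫ z in ball (X.π x) r, u (ch X.hπ x z) * wdb X j (weylPush X x ξ) (ch X.hπ x z) =
        ∫ z in ball (X.π x) r, (1 / 2) * (u (ch X.hπ x z) * (fderiv ℝ ξ z (Pi.single j 1) +
          Complex.I * fderiv ℝ ξ z (Pi.single j Complex.I))) := by
      refine setIntegral_congr_fun isOpen_ball.measurableSet fun z hz => ?_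
      have hz' := hbs hz
      rw [weylPush_wdb X x ξ j ((ch X.hπ x).map_source hz'), p_ch X.hπ hz']
      ring
    rw [h3, integral_const_mul] at h1
    have h4 : ∫ z in ball (X.π x) r, (u (ch X.hπ x z) * (fderiv ℝ ξ z (Pi.single j 1) +
          Complex.I * fderiv ℝ ξ z (Pi.single j Complex.I))) =
        ∫ z, (u (ch X.hπ x z) * (fderiv ℝ ξ z (Pi.single j 1) +
          Complex.I * fderiv ℝ ξ z (Pi.single j Complex.I))) := by
      apply setIntegral_eq_integral_of_forall_compl_eq_zero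
      intro z hz
      have hz' : z ∉ tsupport ξ := fun h => hz (hts h)
      have h5 : fderiv ℝ ξ z = 0 := by
        have h6 : ξ =ᶠ[𝓝 z] fun _ => 0 := by
          filter_upwards [(isClosed_tsupport ξ).isOpen_compl.mem_nhds hz'] with w hw
          exact image_eq_zero_of_notMem_tsupport hw
        rw [h6.fderiv_eq]
        exact fderiv_const_apply 0
      rw [h5]
      simp
    rw [h4] at h1
    have h7 : (1 / 2 : ℂ) ≠ 0 := by norm_num
    exact (mul_eq_zero.1 h1).resolve_left h7)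
  refine ⟨r, g, hr, hbs, hg1, ?_⟩
  have hopen : IsOpen (ch X.hπ x '' ball (X.π x) r) :=
    (ch X.hπ x).isOpen_image_of_subset_source isOpen_ball hbs
  rw [← ae_restrict_iff' hopen.measurableSet]
  rw [hF6 x (ball (X.π x) r) isOpen_ball.measurableSet hbs (fun y => u y = g (X.π y))]
  filter_upwards [hg2, ae_restrict_mem isOpen_ball.measurableSet] with z hz1 hz2
  rw [p_ch X.hπ (hbs hz2)]
  exact hz1

/-- **Weyl.** -/
theorem s_Weyl (hPullFacts : S_PullFacts) (hWeylCn : S_WeylCn) : S_Weyl := by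
  intro n X μ hμ u hu hw
  choose r g hr hbs hg hae using weyl_local hPullFacts hWeylCn X μ hμ u hu hw
  obtain ⟨_, _, hF3, _, _, _⟩ := hPullFacts n X μ hμ
  have hopen : ∀ x, IsOpen (ch X.hπ x '' ball (X.π x) (r x)) := fun x =>
    (ch X.hπ x).isOpen_image_of_subset_source isOpen_ball (hbs x)
  have hmem : ∀ x, x ∈ ch X.hπ x '' ball (X.π x) (r x) := fun x =>
    ⟨X.π x, mem_ball_self (hr x), ch_self X.hπ x⟩
  have hball : ∀ x y, y ∈ ch X.hπ x '' ball (X.π x) (r x) → X.π y ∈ ball (X.π x) (r x) := by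
    rintro x _ ⟨z, hz, rfl⟩
    rw [p_ch X.hπ (hbs x hz)]
    exact hz
  have hcont : ∀ x, ContinuousOn (fun y => g x (X.π y)) (ch X.hπ x '' ball (X.π x) (r x)) :=
    fun x => (hg x).continuousOn.comp X.hπ.continuous.continuousOn (fun y hy => hball x y hy)
  -- the local functions agree
  have hagree : ∀ x y, y ∈ ch X.hπ x '' ball (X.π x) (r x) → g y (X.π y) = g x (X.π y) := by
    intro x y hy
    by_contra hne
    set O : Set X := (ch X.hπ x '' ball (X.π x) (r x)) ∩ (ch X.hπ y '' ball (X.π y) (r y)) with hO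
    have hOo : IsOpen O := (hopen x).inter (hopen y)
    have hcd : ContinuousOn (fun w => g y (X.π w) - g x (X.π w)) O :=
      ((hcont y).mono inter_subset_right).sub ((hcont x).mono inter_subset_left)
    have hN : IsOpen (O ∩ (fun w => g y (X.π w) - g x (X.π w)) ⁻¹' {0}ᶜ) :=
      hcd.isOpen_inter_preimage hOo isOpen_compl_singleton
    have hyN : y ∈ O ∩ (fun w => g y (X.π w) - g x (X.π w)) ⁻¹' {0}ᶜ :=
      ⟨⟨hy, hmem y⟩, fun h => hne (sub_eq_zero.1 h)⟩
    have hpos := hF3 _ hN ⟨y, hyN⟩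
    apply hpos
    have hnull : ∀ᵐ w ∂μ, ¬ (w ∈ O ∩ (fun w => g y (X.π w) - g x (X.π w)) ⁻¹' {0}ᶜ) := by
      filter_upwards [hae x, hae y] with w hw1 hw2
      rintro ⟨⟨ha, hb⟩, hc⟩
      apply hc
      have h1 := hw1 ha
      have h2 := hw2 hb
      show g y (X.π w) - g x (X.π w) = 0
      rw [← h1, ← h2, sub_self]
    have := ae_iff.1 hnull
    simpa only [not_not, Set.ofPred_mem_eq] using this
  refine ⟨fun y => g y (X.π y), fun x => ?_, ?_⟩
  · refine ⟨g x, ?_, ?_⟩
    · filter_upwards [isOpen_ball.mem_nhds (mem_ball_self (hr x))] with z hz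
      exact (hg x z hz).differentiableAt (isOpen_ball.mem_nhds hz)
    · filter_upwards [(hopen x).mem_nhds (hmem x)] with y hy
      exact hagree x y hy
  · obtain ⟨s, hs, hsU⟩ := TopologicalSpace.countable_cover_nhds
      (f := fun x => ch X.hπ x '' ball (X.π x) (r x)) fun x => (hopen x).mem_nhds (hmem x)
    have h1 : ∀ᵐ w ∂μ, ∀ x ∈ s, w ∈ ch X.hπ x '' ball (X.π x) (r x) → u w = g x (X.π w) :=
      (ae_ball_iff hs).2 fun x _ => hae x
    filter_upwards [h1] with w hw1
    have h2 : w ∈ ⋃ x ∈ s, ch X.hπ x '' ball (X.π x) (r x) := by rw [hsU]; trivial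
    obtain ⟨x, hx, hwx⟩ := mem_iUnion₂.1 h2
    rw [hw1 x hx hwx]
    exact (hagree x w hwx).symm

end Pool.Agent.Lib.MP_55bc5f_an
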