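import Pool.Agent.Lib.MP_55bc5f_an.Full.SpecL2

set_option autoImplicit false

open scoped Manifold ContDiff Topology ComplexConjugate
open Set Filter Metric MeasureTheory

namespace Pool.Agent.Lib.MP_55bc5f_an

/-- The antiderivative of the smooth transition function vanishing at `0`. -/
noncomputable def WtF (x : ℝ) : ℝ := ∫ y in (0:ℝ)..x, Real.smoothTransition y

theorem Wt_hasDeriv (x : ℝ) : HasDerivAt WtF (Real.smoothTransition x) x :=
  (Real.smoothTransition.continuous.integral_hasStrictDerivAt 0 x).hasDerivAt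

theorem Wt_deriv : deriv WtF = Real.smoothTransition := funext fun x => (Wt_hasDeriv x).deriv

theorem Wt_contDiff : ContDiff ℝ ∞ WtF := by
  rw [contDiff_infty_iff_deriv]
  refine ⟨fun x => (Wt_hasDeriv x).differentiableAt, ?_⟩
  rw [Wt_deriv]
  exact Real.smoothTransition.contDiff

theorem Wt_mono : Monotone WtF :=
  monotone_of_deriv_nonneg (fun x => (Wt_hasDeriv x).differentiableAt) (fun x => by
    rw [Wt_deriv]; exact Real.smoothTransition.nonneg x)

theorem Wt_zero {x : ℝ} (hx : x ≤ 0) : WtF x = 0 := by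
  unfold WtF
  rw [intervalIntegral.integral_congr (g := fun _ => (0:ℝ))]
  · simp
  · intro y hy
    rw [uIcc_of_ge hx] at hy
    exact Real.smoothTransition.zero_of_nonpos hy.2

theorem Wt_nonneg (x : ℝ) : 0 ≤ WtF x := by
  rcases le_total x 0 with h | h
  · rw [Wt_zero h]
  · rw [← Wt_zero (le_refl (0:ℝ))]; exact Wt_mono h

theorem Wt_one_pos : 0 < WtF 1 := by
  unfold WtF
  refine intervalIntegral.intervalIntegral_pos_of_pos_on
    (Real.smoothTransition.continuous.intervalIntegrable _ _) (fun x hx => ?_) one_pos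
  exact Real.smoothTransition.pos_of_pos hx.1

/-- Finite partial sums. -/
noncomputable def WtH (C : ℕ → ℝ) (a : ℝ) (N : ℕ) (t : ℝ) : ℝ :=
  ∑ k ∈ Finset.range N, C k * WtF (2 * (t - a) - k)

theorem Wt_H_contDiff (C : ℕ → ℝ) (a : ℝ) (N : ℕ) : ContDiff ℝ ∞ (WtH C a N) := by
  unfold WtH
  refine ContDiff.sum fun k _ => ?_
  refine contDiff_const.mul (Wt_contDiff.comp ?_)
  fun_prop

theorem Wt_H_hasDeriv (C : ℕ → ℝ) (a : ℝ) (N : ℕ) (t : ℝ) :
    HasDerivAt (WtH C a N)
      (∑ k ∈ Finset.range N, C k * (Real.smoothTransition (2 * (t - a) - k) * 2)) t := by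
  unfold WtH
  refine HasDerivAt.fun_sum fun k _ => ?_
  refine HasDerivAt.const_mul _ ?_
  have h1 : HasDerivAt (fun t : ℝ => 2 * (t - a) - (k:ℝ)) 2 t := by
    have := (((hasDerivAt_id t).sub_const a).const_mul (2:ℝ)).sub_const (k:ℝ)
    simpa using this
  exact (Wt_hasDeriv (2 * (t - a) - k)).comp t h1

theorem Wt_H_deriv (C : ℕ → ℝ) (a : ℝ) (N : ℕ) :
    deriv (WtH C a N) =
      fun t => ∑ k ∈ Finset.range N, C k * (Real.smoothTransition (2 * (t - a) - k) * 2) :=
  funext fun t => (Wt_H_hasDeriv C a N t).deriv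

theorem Wt_H_deriv2 (C : ℕ → ℝ) (hC : ∀ k, 0 ≤ C k) (a : ℝ) (N : ℕ) (t : ℝ) :
    0 ≤ deriv (deriv (WtH C a N)) t := by
  rw [Wt_H_deriv]
  refine Monotone.deriv_nonneg (fun x y hxy => ?_)
  refine Finset.sum_le_sum fun k _ => ?_
  refine mul_le_mul_of_nonneg_left ?_ (hC k)
  refine mul_le_mul_of_nonneg_right ?_ (by norm_num)
  exact Real.smoothTransition.monotone (by linarith)

/-- The full sum. -/
noncomputable def WtX (C : ℕ → ℝ) (a : ℝ) (t : ℝ) : ℝ :=
  ∑' k : ℕ, C k * WtF (2 * (t - a) - k)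

theorem Wt_X_eq (C : ℕ → ℝ) (a : ℝ) (N : ℕ) (t : ℝ) (h : 2 * (t - a) ≤ N) :
    WtX C a t = WtH C a N t := by
  unfold WtX WtH
  refine tsum_eq_sum fun k hk => ?_
  rw [Finset.mem_range, not_lt] at hk
  have : (N:ℝ) ≤ k := by exact_mod_cast hk
  rw [Wt_zero (by linarith), mul_zero]

theorem Wt_X_ev (C : ℕ → ℝ) (a : ℝ) (N : ℕ) (t : ℝ) (h : 2 * (t - a) < N) :
    WtX C a =ᶠ[𝓝 t] WtH C a N := by
  have hc : Continuous fun s : ℝ => 2 * (s - a) := by fun_prop
  filter_upwards [hc.continuousAt.eventually (gt_mem_nhds h)] with s hs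
  exact Wt_X_eq C a N s hs.le

theorem s_Wt : S_Wt := by
  intro r a
  set m : ℝ := min (WtF 1) 1 with hm
  have hm0 : 0 < m := lt_min Wt_one_pos one_pos
  have hmF : m ≤ WtF 1 := min_le_left _ _
  have hm1 : m ≤ 1 := min_le_right _ _
  set R : ℕ → ℝ := fun k => ∑ j ∈ Finset.range (⌈a + k / 2 + 1⌉₊ + 1), |r j| with hR
  set C : ℕ → ℝ := fun k => R k / m with hC
  have hR0 : ∀ k, 0 ≤ R k := fun k => Finset.sum_nonneg fun j _ => abs_nonneg _
  have hC0 : ∀ k, 0 ≤ C k := fun k => div_nonneg (hR0 k) hm0.le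
  have hN : ∀ t : ℝ, ∃ N : ℕ, 2 * (t - a) < N := fun t => exists_nat_gt _
  refine ⟨WtX C a, ?_, ?_, ?_, ?_⟩
  · rw [contDiff_iff_contDiffAt]
    intro t
    obtain ⟨N, h⟩ := hN t
    exact ((Wt_H_contDiff C a N).contDiffAt).congr_of_eventuallyEq (Wt_X_ev C a N t h)
  · intro t ht
    rw [Wt_X_eq C a 0 t (by push_cast; linarith)]
    simp [WtH]
  · intro t
    obtain ⟨N, h⟩ := hN t
    have he := Wt_X_ev C a N t h
    refine ⟨?_, ?_, ?_⟩
    · rw [he.eq_of_nhds]
      exact Finset.sum_nonneg fun k _ => mul_nonneg (hC0 k) (Wt_nonneg _)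
    · rw [he.deriv_eq, Wt_H_deriv]
      exact Finset.sum_nonneg fun k _ => mul_nonneg (hC0 k)
        (mul_nonneg (Real.smoothTransition.nonneg _) (by norm_num))
    · rw [he.deriv.deriv_eq]
      exact Wt_H_deriv2 C hC0 a N t
  · intro t ht
    obtain ⟨N, h⟩ := hN t
    have he := Wt_X_ev C a N t h
    -- the index
    have h2 : (2:ℝ) ≤ 2 * (t - a) := by linarith
    set u : ℝ := 2 * (t - a) with hu
    have hfl : (⌊u⌋₊ : ℝ) ≤ u := Nat.floor_le (by linarith)
    have hfl' : u < ⌊u⌋₊ + 1 := Nat.lt_floor_add_one u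
    have hf2 : 2 ≤ ⌊u⌋₊ := Nat.le_floor (by exact_mod_cast h2)
    obtain ⟨k, hk⟩ : ∃ k : ℕ, ⌊u⌋₊ = k + 1 := ⟨⌊u⌋₊ - 1, by omega⟩
    rw [hk] at hfl hfl'
    push_cast at hfl hfl'
    have hkN : k < N := by
      have : (k:ℝ) < N := by linarith
      exact_mod_cast this
    have hx1 : 1 ≤ u - k := by linarith
    have htk : t ≤ a + k / 2 + 1 := by linarith
    have hrR : r ⌈t⌉₊ ≤ R k := by
      refine (le_abs_self _).trans ?_
      refine Finset.single_le_sum (f := fun j => |r j|) (fun j _ => abs_nonneg _) ?_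
      rw [Finset.mem_range]
      exact Nat.lt_succ_of_le (Nat.ceil_le_ceil htk)
    have hCm : R k = C k * m := by
      simp only [hC]
      field_simp
    have hS1 : Real.smoothTransition (u - k) = 1 := Real.smoothTransition.one_of_one_le hx1
    constructor
    · rw [he.eq_of_nhds]
      calc r ⌈t⌉₊ ≤ C k * m := hrR.trans hCm.le
        _ ≤ C k * WtF (u - k) := mul_le_mul_of_nonneg_left (hmF.trans (Wt_mono hx1)) (hC0 k)
        _ ≤ WtH C a N t :=
            Finset.single_le_sum (f := fun k : ℕ => C k * WtF (2 * (t - a) - k))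
              (fun j _ => mul_nonneg (hC0 j) (Wt_nonneg _)) (Finset.mem_range.2 hkN)
    · rw [he.deriv_eq, Wt_H_deriv]
      calc r ⌈t⌉₊ ≤ C k * m := hrR.trans hCm.le
        _ ≤ C k * (Real.smoothTransition (u - k) * 2) :=
            mul_le_mul_of_nonneg_left (by rw [hS1]; linarith) (hC0 k)
        _ ≤ ∑ k ∈ Finset.range N, C k * (Real.smoothTransition (2 * (t - a) - k) * 2) :=
            Finset.single_le_sum
              (f := fun k : ℕ => C k * (Real.smoothTransition (2 * (t - a) - k) * 2))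
              (fun j _ => mul_nonneg (hC0 j)
                (mul_nonneg (Real.smoothTransition.nonneg _) (by norm_num)))
              (Finset.mem_range.2 hkN)

end Pool.Agent.Lib.MP_55bc5f_an
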