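import Pool.Agent.Lib.MP_55bc5f_an.Full.SpecL2

/-!
# The a priori estimate with three weights for smooth forms
-/

set_option autoImplicit false

open scoped Manifold ContDiff Topology ComplexConjugate
open Set Filter Metric MeasureTheory

namespace Pool.Agent.Lib.MP_55bc5f_an

/-- Cauchy-Schwarz for finite sums of complex numbers. -/
lemma AprSm_cs {n : ℕ} (a b : Fin n → ℂ) :
    ‖∑ j, a j * b j‖ ^ 2 ≤ (∑ j, ‖b j‖ ^ 2) * ∑ j, ‖a j‖ ^ 2 := by
  have h1 : ‖∑ j, a j * b j‖ ≤ ∑ j, ‖a j‖ * ‖b j‖ := by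
    refine (norm_sum_le _ _).trans (le_of_eq ?_)
    exact Finset.sum_congr rfl fun j _ => norm_mul _ _
  have h2 : (∑ j, ‖a j‖ * ‖b j‖) ^ 2 ≤ (∑ j, ‖a j‖ ^ 2) * ∑ j, ‖b j‖ ^ 2 :=
    Finset.sum_mul_sq_le_sq_mul_sq _ _ _
  calc ‖∑ j, a j * b j‖ ^ 2 ≤ (∑ j, ‖a j‖ * ‖b j‖) ^ 2 :=
        pow_le_pow_left₀ (norm_nonneg _) h1 2
    _ ≤ _ := h2
    _ = _ := mul_comm _ _

lemma AprSm_sq (a b : ℂ) : ‖a‖ ^ 2 ≤ 2 * ‖a + b‖ ^ 2 + 2 * ‖b‖ ^ 2 := by
  have h1 : ‖a‖ ≤ ‖a + b‖ + ‖b‖ := by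
    have := norm_sub_le (a + b) b
    rwa [add_sub_cancel_right] at this
  have h2 : 0 ≤ ‖a‖ := norm_nonneg _
  nlinarith [sq_nonneg (‖a + b‖ - ‖b‖)]

lemma AprSm_lev {n : ℕ} {X : Dom n} {φ : X → ℝ} (hφ : Sm X φ) {f : Fin n → X → ℂ}
    (hf : ∀ j, Continuous (f j)) : Continuous fun x => Lev X φ x (fun j => f j x) := by
  have h1 : Continuous (dR X (dR X φ)) := hφ.dR.dR.continuous
  have h2 : Continuous fun x => (fun j => f j x : Cn n) := continuous_pi hf
  have h3 : Continuous fun x => (Complex.I • (fun j => f j x : Cn n) : Cn n) :=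
    continuous_pi fun j => continuous_const.mul (hf j)
  unfold Lev
  exact continuous_const.mul (((h1.clm_apply h2).clm_apply h2).add
    ((h1.clm_apply h3).clm_apply h3))

lemma AprSm_exp (a b : ℝ) (c : ℂ) :
    ‖(Real.exp (-b) : ℂ) * c‖ ^ 2 * Real.exp (-(a - 2 * b)) = ‖c‖ ^ 2 * Real.exp (-a) := by
  have h1 : ‖(Real.exp (-b) : ℂ)‖ = Real.exp (-b) := by
    rw [Complex.norm_real, Real.norm_of_nonneg (Real.exp_pos _).le]
  have h2 : Real.exp (-b) ^ 2 * Real.exp (-(a - 2 * b)) = Real.exp (-a) := by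
    rw [sq, ← Real.exp_add, ← Real.exp_add]
    congr 1
    ring
  rw [norm_mul, h1, mul_pow, ← h2]
  ring

theorem s_AprSm (hPullFacts : S_PullFacts) (hBasic : S_Basic) : S_AprSm := by
  intro n X μ hμ φ Ψ hφ hΨ hlev f hf
  obtain ⟨hfin, -⟩ := hPullFacts n X μ hμ
  have hB := hBasic n X μ hμ φ hφ f hf
  have hfc : ∀ j, Continuous (f j) := fun j => (hf j).1.continuous
  have hwf : ∀ j, Continuous (wd X j (f j)) := fun j => ((hf j).1.wd j).continuous
  have hwφ : ∀ j, Continuous (wd X j (fun y => (φ y : ℂ))) := fun j => (hφ.ofReal.wd j).continuous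
  have hwΨ : ∀ j, Continuous (wd X j (fun y => (Ψ y : ℂ))) := fun j => (hΨ.ofReal.wd j).continuous
  have hφc : Continuous φ := hφ.continuous
  have hΨc : Continuous Ψ := hΨ.continuous
  set K : Set X := ⋃ j, tsupport (f j) with hK
  have hKc : IsCompact K := isCompact_iUnion fun j => (hf j).2
  have hf0 : ∀ x ∉ K, ∀ j, f j x = 0 := by
    intro x hx j
    rw [hK, mem_iUnion] at hx
    push Not at hx
    exact image_eq_zero_of_notMem_tsupport (hx j)
  have hw0 : ∀ x ∉ K, ∀ j, wd X j (f j) x = 0 := by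
    intro x hx j
    rw [hK, mem_iUnion] at hx
    push Not at hx
    rw [wd, dR_of_notMem_tsupport (hx j)]
    simp
  have hint : ∀ F : X → ℝ, Continuous F → (∀ x ∉ K, F x = 0) → Integrable F μ := by
    intro F hF h0
    exact hF.integrable_of_hasCompactSupport (HasCompactSupport.intro hKc h0)
  -- the functions
  have hwsub : ∀ j x, wd X j (fun y => ((φ y - Ψ y : ℝ) : ℂ)) x =
      wd X j (fun y => (φ y : ℂ)) x - wd X j (fun y => (Ψ y : ℂ)) x := by
    intro j x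
    rw [← wd_sub (hφ.ofReal x) (hΨ.ofReal x)]
    congr 1
    funext y
    push_cast
    rfl
  set A : X → ℂ := fun x => ∑ j, (wd X j (f j) x - f j x * wd X j (fun y => (φ y : ℂ)) x) with hA
  set G : X → ℂ := fun x => ∑ j, f j x * wd X j (fun y => (Ψ y : ℂ)) x with hG
  have hAc : Continuous A := continuous_finsetSum _ fun j _ => (hwf j).sub ((hfc j).mul (hwφ j))
  have hGc : Continuous G := continuous_finsetSum _ fun j _ => (hfc j).mul (hwΨ j)
  have hA0 : ∀ x ∉ K, A x = 0 := by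
    intro x hx
    simp only [hA]
    exact Finset.sum_eq_zero fun j _ => by rw [hf0 x hx, hw0 x hx]; ring
  have hG0 : ∀ x ∉ K, G x = 0 := by
    intro x hx
    simp only [hG]
    exact Finset.sum_eq_zero fun j _ => by rw [hf0 x hx]; ring
  have hT : ∀ x, ‖(Real.exp (-Ψ x) : ℂ) * ∑ j, (wd X j (f j) x -
          f j x * wd X j (fun y => ((φ y - Ψ y : ℝ) : ℂ)) x)‖ ^ 2 *
        Real.exp (-(φ x - 2 * Ψ x)) = ‖A x + G x‖ ^ 2 * Real.exp (-φ x) := by
    intro x
    rw [AprSm_exp]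
    congr 3
    simp only [hA, hG]
    rw [← Finset.sum_add_distrib]
    refine Finset.sum_congr rfl fun j _ => ?_
    rw [hwsub]
    ring
  set N : X → ℝ := fun x => ∑ j, ‖f j x‖ ^ 2 with hN
  have hNc : Continuous N := continuous_finsetSum _ fun j _ => (hfc j).norm.pow 2
  have hN0 : ∀ x ∉ K, N x = 0 := by
    intro x hx
    simp only [hN]
    exact Finset.sum_eq_zero fun j _ => by rw [hf0 x hx]; simp
  have hgc : Continuous (gsq X Ψ) := continuous_finsetSum _ fun j _ => (hwΨ j).norm.pow 2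
  have hEφ : Continuous fun x => Real.exp (-φ x) := Real.continuous_exp.comp hφc.neg
  have hEφΨ : Continuous fun x => Real.exp (-(φ x - Ψ x)) :=
    Real.continuous_exp.comp (hφc.sub hΨc).neg
  have i1 : Integrable (fun x => N x * Real.exp (-(φ x - Ψ x))) μ :=
    hint _ (hNc.mul hEφΨ) fun x hx => by rw [hN0 x hx, zero_mul]
  have i2 : Integrable (fun x => ‖A x + G x‖ ^ 2 * Real.exp (-φ x)) μ :=
    hint _ (((hAc.add hGc).norm.pow 2).mul hEφ) fun x hx => by
      rw [hA0 x hx, hG0 x hx]; simp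
  have i4 : Integrable (fun x => Lev X φ x (fun j => f j x) * Real.exp (-φ x)) μ :=
    hint _ ((AprSm_lev hφ hfc).mul hEφ) fun x hx => by
      have : (fun j => f j x : Cn n) = 0 := by funext j; exact hf0 x hx j
      rw [this]
      simp [Lev]
  have i5 : Integrable (fun x => ‖A x‖ ^ 2 * Real.exp (-φ x)) μ :=
    hint _ ((hAc.norm.pow 2).mul hEφ) fun x hx => by rw [hA0 x hx]; simp
  have i6 : Integrable (fun x => gsq X Ψ x * N x * Real.exp (-φ x)) μ :=
    hint _ ((hgc.mul hNc).mul hEφ) fun x hx => by rw [hN0 x hx]; simp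
  have m1 : ∫ x, (2 * (gsq X Ψ x * N x * Real.exp (-φ x)) +
      2 * (N x * Real.exp (-(φ x - Ψ x)))) ∂μ ≤
      ∫ x, Lev X φ x (fun j => f j x) * Real.exp (-φ x) ∂μ := by
    apply integral_mono ((i6.const_mul 2).add (i1.const_mul 2)) i4
    intro x
    have h1 := hlev x (fun j => f j x)
    have h2 : Real.exp (-(φ x - Ψ x)) = Real.exp (Ψ x) * Real.exp (-φ x) := by
      rw [← Real.exp_add]; congr 1; ring
    have h3 : nsq (fun j => f j x) = N x := rfl
    rw [h3] at h1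
    have h4 := mul_le_mul_of_nonneg_right h1 (Real.exp_pos (-φ x)).le
    refine le_trans (le_of_eq ?_) h4
    change 2 * (gsq X Ψ x * N x * Real.exp (-φ x)) + 2 * (N x * Real.exp (-(φ x - Ψ x))) = _
    rw [h2]
    ring
  have m2 : ∫ x, ‖A x‖ ^ 2 * Real.exp (-φ x) ∂μ ≤
      ∫ x, (2 * (‖A x + G x‖ ^ 2 * Real.exp (-φ x)) + 2 * (gsq X Ψ x * N x * Real.exp (-φ x))) ∂μ := by
    apply integral_mono i5 ((i2.const_mul 2).add (i6.const_mul 2))
    intro x
    have h1 := AprSm_sq (A x) (G x)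
    have h2 : ‖G x‖ ^ 2 ≤ gsq X Ψ x * N x := AprSm_cs _ _
    have h3 : ‖A x‖ ^ 2 ≤ 2 * ‖A x + G x‖ ^ 2 + 2 * (gsq X Ψ x * N x) := by linarith
    have h4 := mul_le_mul_of_nonneg_right h3 (Real.exp_pos (-φ x)).le
    refine le_trans h4 (le_of_eq ?_)
    change _ = 2 * (‖A x + G x‖ ^ 2 * Real.exp (-φ x)) + 2 * (gsq X Ψ x * N x * Real.exp (-φ x))
    ring
  rw [integral_add (i6.const_mul 2) (i1.const_mul 2), integral_const_mul, integral_const_mul] at m1
  rw [integral_add (i2.const_mul 2) (i6.const_mul 2), integral_const_mul, integral_const_mul] at m2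
  simp only [hT]
  change ∫ x, N x * Real.exp (-(φ x - Ψ x)) ∂μ ≤ _
  change _ ≤ (∫ x, ‖A x‖ ^ 2 * Real.exp (-φ x) ∂μ) + _ at hB
  linarith

end Pool.Agent.Lib.MP_55bc5f_an
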