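import Mathlib
import Pool.Agent.Lib.MP_55bc5f_an.Full.SpecL2

/-!
# Weakly holomorphic functions on balls of `ℂⁿ` are holomorphic
-/

set_option autoImplicit false

open scoped Manifold ContDiff Topology ComplexConjugate
open Set Filter Metric MeasureTheory

namespace Pool.Agent.Lib.MP_55bc5f_an

/-- The radial profile of the kernels. -/
private noncomputable def WeylCnP (s : ℝ) : ℝ := expNegInvGlue (1 - s)

private theorem WeylCnP_contDiff : ContDiff ℝ ∞ WeylCnP :=
  expNegInvGlue.contDiff.comp (contDiff_const.sub contDiff_id)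

private theorem WeylCnP_nonneg (s : ℝ) : 0 ≤ WeylCnP s := expNegInvGlue.nonneg _

private theorem WeylCnP_pos {s : ℝ} (hs : s < 1) : 0 < WeylCnP s :=
  expNegInvGlue.pos_of_pos (by linarith)

private theorem WeylCnP_zero {s : ℝ} (hs : 1 ≤ s) : WeylCnP s = 0 :=
  expNegInvGlue.zero_of_nonpos (by linarith)

private theorem WeylCnP_deriv_zero {s : ℝ} (hs : 1 ≤ s) : deriv WeylCnP s = 0 := by
  apply IsLocalMin.deriv_eq_zero
  refine Filter.Eventually.of_forall fun x => ?_
  rw [WeylCnP_zero hs]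
  exact WeylCnP_nonneg x

private theorem WeylCnP_hasDerivAt (s : ℝ) : HasDerivAt WeylCnP (deriv WeylCnP s) s :=
  ((WeylCnP_contDiff.differentiable (by simp)) s).hasDerivAt

private theorem WeylCnP_deriv_continuous : Continuous (deriv WeylCnP) :=
  WeylCnP_contDiff.continuous_deriv (by simp)

attribute [local irreducible] WeylCnP

private theorem WeylCnN_contDiff (n : ℕ) : ContDiff ℝ ∞ (nsq : Cn n → ℝ) := by
  unfold nsq
  apply ContDiff.sum
  intro j _
  exact (contDiff_apply ℝ ℂ j).norm_sq ℝ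

private theorem WeylCnN_nonneg {n : ℕ} (w : Cn n) : 0 ≤ nsq w :=
  Finset.sum_nonneg fun _ _ => sq_nonneg _

private theorem WeylCnN_norm {n : ℕ} (w : Cn n) : ‖w‖ ^ 2 ≤ nsq w := by
  have h : ‖w‖ ≤ Real.sqrt (nsq w) := by
    rw [pi_norm_le_iff_of_nonneg (Real.sqrt_nonneg _)]
    intro j
    apply Real.le_sqrt_of_sq_le
    exact Finset.single_le_sum (f := fun j => ‖w j‖ ^ 2) (fun i _ => sq_nonneg _)
      (Finset.mem_univ j)
  calc ‖w‖ ^ 2 ≤ (Real.sqrt (nsq w)) ^ 2 := by gcongr
    _ = nsq w := Real.sq_sqrt (WeylCnN_nonneg w)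

private theorem WeylCnN_hasFDerivAt {n : ℕ} (w : Cn n) :
    HasFDerivAt (nsq : Cn n → ℝ)
      (∑ j, (2 : ℕ) • ((innerSL ℝ (w j)).comp (ContinuousLinearMap.proj j : Cn n →L[ℝ] ℂ))) w := by
  unfold nsq
  apply HasFDerivAt.fun_sum
  intro j _
  exact ((ContinuousLinearMap.proj j : Cn n →L[ℝ] ℂ).hasFDerivAt (x := w)).norm_sq

private theorem WeylCnN_fderiv_single {n : ℕ} (w : Cn n) (j : Fin n) (a : ℂ) :
    fderiv ℝ (nsq : Cn n → ℝ) w (Pi.single j a) = 2 * ((w j).re * a.re + (w j).im * a.im) := by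
  rw [(WeylCnN_hasFDerivAt w).fderiv]
  rw [sum_apply]
  rw [Finset.sum_eq_single j]
  · simp [Complex.inner]
    ring
  · intro b _ hb
    simp [Pi.single_eq_of_ne hb]
  · simp

/-- The kernels. -/
private noncomputable def WeylCnK (n : ℕ) (t : ℝ) (w : Cn n) : ℝ :=
  t ^ (2 * n) * WeylCnP (t ^ 2 * nsq w)

private theorem WeylCnK_contDiff (n : ℕ) (t : ℝ) : ContDiff ℝ ∞ (WeylCnK n t) :=
  contDiff_const.mul (WeylCnP_contDiff.comp (contDiff_const.mul (WeylCnN_contDiff n)))

private theorem WeylCnK_arg {n : ℕ} {t : ℝ} (ht : 0 < t) {w : Cn n} (h : t ^ 2 * nsq w < 1) :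
    ‖w‖ < t⁻¹ := by
  have h1 : (t * ‖w‖) ^ 2 < 1 := by
    calc (t * ‖w‖) ^ 2 = t ^ 2 * ‖w‖ ^ 2 := by ring
      _ ≤ t ^ 2 * nsq w := by gcongr; exact WeylCnN_norm w
      _ < 1 := h
  have h2 : t * ‖w‖ < 1 := by
    by_contra hcon
    push Not at hcon
    nlinarith
  rw [← one_div, lt_div_iff₀ ht]
  linarith [mul_comm t ‖w‖]

private theorem WeylCnK_zero {n : ℕ} {t : ℝ} (ht : 0 < t) {w : Cn n} (h : t⁻¹ ≤ ‖w‖) :
    WeylCnP (t ^ 2 * nsq w) = 0 ∧ deriv WeylCnP (t ^ 2 * nsq w) = 0 := by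
  have h1 : 1 ≤ t ^ 2 * nsq w := by
    by_contra hcon
    push Not at hcon
    exact absurd (WeylCnK_arg ht hcon) (not_lt.mpr h)
  exact ⟨WeylCnP_zero h1, WeylCnP_deriv_zero h1⟩

/-- The test functions. -/
private noncomputable def WeylCnG {n : ℕ} (t : ℝ) (j : Fin n) (w : Cn n) : ℂ :=
  conj (w j) * ((WeylCnP (t ^ 2 * nsq w) : ℝ) : ℂ)

private theorem WeylCnG_contDiff {n : ℕ} (t : ℝ) (j : Fin n) :
    ContDiff ℝ ∞ (WeylCnG t j : Cn n → ℂ) := by
  unfold WeylCnG
  apply ContDiff.mul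
  · exact (Complex.conjCLE.contDiff).comp (contDiff_apply ℝ ℂ j)
  · exact (Complex.ofRealCLM.contDiff).comp
      (WeylCnP_contDiff.comp (contDiff_const.mul (WeylCnN_contDiff n)))

private theorem WeylCnPN_hasFDerivAt {n : ℕ} (t : ℝ) (w : Cn n) :
    HasFDerivAt (fun w : Cn n => WeylCnP (t ^ 2 * nsq w))
      (deriv WeylCnP (t ^ 2 * nsq w) • (t ^ 2 • fderiv ℝ (nsq : Cn n → ℝ) w)) w := by
  have h1 : HasFDerivAt (fun w : Cn n => t ^ 2 * nsq w) (t ^ 2 • fderiv ℝ (nsq : Cn n → ℝ) w) w :=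
    (((WeylCnN_contDiff n).differentiable (by simp) w).hasFDerivAt).const_mul (t ^ 2)
  exact (WeylCnP_hasDerivAt (t ^ 2 * nsq w)).comp_hasFDerivAt w h1

private theorem WeylCnG_fderiv_single {n : ℕ} (t : ℝ) (j : Fin n) (w : Cn n) (a : ℂ) :
    fderiv ℝ (WeylCnG t j : Cn n → ℂ) w (Pi.single j a) =
      conj (w j) * ((deriv WeylCnP (t ^ 2 * nsq w) * (t ^ 2 *
        (2 * ((w j).re * a.re + (w j).im * a.im))) : ℝ) : ℂ) +
        conj a * ((WeylCnP (t ^ 2 * nsq w) : ℝ) : ℂ) := by
  have h1 : HasFDerivAt (fun w : Cn n => conj (w j))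
      ((Complex.conjCLE : ℂ →L[ℝ] ℂ).comp (ContinuousLinearMap.proj j : Cn n →L[ℝ] ℂ)) w :=
    ((Complex.conjCLE : ℂ →L[ℝ] ℂ).comp (ContinuousLinearMap.proj j : Cn n →L[ℝ] ℂ)).hasFDerivAt
  have h2 : HasFDerivAt (fun w : Cn n => ((WeylCnP (t ^ 2 * nsq w) : ℝ) : ℂ))
      (Complex.ofRealCLM.comp
        (deriv WeylCnP (t ^ 2 * nsq w) • (t ^ 2 • fderiv ℝ (nsq : Cn n → ℝ) w))) w :=
    (Complex.ofRealCLM.hasFDerivAt).comp w (WeylCnPN_hasFDerivAt t w)
  have h3 := (h1.mul h2).fderiv
  have h4 : (WeylCnG t j : Cn n → ℂ) =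
    (fun w : Cn n => conj (w j)) * (fun w : Cn n => ((WeylCnP (t ^ 2 * nsq w) : ℝ) : ℂ)) := rfl
  rw [h4, h3]
  simp [WeylCnN_fderiv_single]
  ring

/-- The derivative of the kernels with respect to the parameter. -/
private noncomputable def WeylCnD (n : ℕ) (t : ℝ) (w : Cn n) : ℝ :=
  (t ^ (2 * n) / t) * (2 * n * WeylCnP (t ^ 2 * nsq w) +
    2 * (t ^ 2 * nsq w) * deriv WeylCnP (t ^ 2 * nsq w))

private theorem WeylCnK_hasDerivAt (n : ℕ) {t : ℝ} (ht : 0 < t) (w : Cn n) :
    HasDerivAt (fun t => WeylCnK n t w) (WeylCnD n t w) t := by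
  have h1 : HasDerivAt (fun t : ℝ => t ^ 2 * nsq w) ((2 * t) * nsq w) t := by
    have := (hasDerivAt_pow 2 t).mul_const (nsq w)
    simpa using this
  have h2 : HasDerivAt (fun t : ℝ => WeylCnP (t ^ 2 * nsq w))
      (deriv WeylCnP (t ^ 2 * nsq w) * ((2 * t) * nsq w)) t :=
    (WeylCnP_hasDerivAt (t ^ 2 * nsq w)).comp t h1
  have h3 : HasDerivAt (fun t : ℝ => t ^ (2 * n)) ((2 * n) * (t ^ (2 * n) / t)) t := by
    refine (hasDerivAt_pow (2 * n) t).congr_deriv ?_
    rcases Nat.eq_zero_or_pos n with h | h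
    · subst h; simp
    · obtain ⟨m, hm⟩ : ∃ m, 2 * n = m + 1 := ⟨2 * n - 1, by omega⟩
      have hm' : (2 * (n : ℝ)) = ((2 * n : ℕ) : ℝ) := by push_cast; ring
      rw [hm', hm]
      field_simp
      simp [pow_succ]
  refine (h3.mul h2).congr_deriv ?_
  unfold WeylCnD
  field_simp

private theorem WeylCnD_eq {n : ℕ} (t : ℝ) (w : Cn n) :
    ((WeylCnD n t w : ℝ) : ℂ) = ((t ^ (2 * n) / t : ℝ) : ℂ) *
      ∑ j, (fderiv ℝ (WeylCnG t j : Cn n → ℂ) w (Pi.single j 1) +
        Complex.I * fderiv ℝ (WeylCnG t j : Cn n → ℂ) w (Pi.single j Complex.I)) := by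
  have h1 : ∀ j, (fderiv ℝ (WeylCnG t j : Cn n → ℂ) w (Pi.single j 1) +
        Complex.I * fderiv ℝ (WeylCnG t j : Cn n → ℂ) w (Pi.single j Complex.I)) =
      2 * ((WeylCnP (t ^ 2 * nsq w) : ℝ) : ℂ) +
        2 * ((deriv WeylCnP (t ^ 2 * nsq w) : ℝ) : ℂ) * (t : ℂ) ^ 2 * ((‖w j‖ ^ 2 : ℝ) : ℂ) := by
    intro j
    rw [WeylCnG_fderiv_single, WeylCnG_fderiv_single]
    have h2 : ((‖w j‖ ^ 2 : ℝ) : ℂ) = conj (w j) * w j := by
      rw [mul_comm, Complex.mul_conj, Complex.normSq_eq_norm_sq]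
    rw [h2]
    have h3 : w j = ((w j).re : ℂ) + ((w j).im : ℂ) * Complex.I := (Complex.re_add_im (w j)).symm
    generalize (w j).re = x at h3
    generalize (w j).im = y at h3
    rw [h3]
    simp only [Complex.one_re, Complex.one_im, Complex.I_re, Complex.I_im, map_one, Complex.conj_I,
      map_add, map_mul, Complex.conj_ofReal]
    push_cast
    ring_nf
    simp only [Complex.I_sq]
    ring
  rw [Finset.sum_congr rfl fun j _ => h1 j, Finset.sum_add_distrib, ← Finset.mul_sum,
    ← Finset.mul_sum]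
  unfold WeylCnD
  have h5 : ∑ j, ((‖w j‖ ^ 2 : ℝ) : ℂ) = ((nsq w : ℝ) : ℂ) := by
    unfold nsq; push_cast; rfl
  rw [h5]
  simp only [Finset.sum_const, Finset.card_univ, Fintype.card_fin, nsmul_eq_mul]
  push_cast
  ring

/-- The restricted function. -/
private theorem WeylCn_zero {n : ℕ} {c : Cn n} {r : ℝ} {u : Cn n → ℂ}
    (H : ∀ ξ : Cn n → ℂ, ContDiff ℝ ∞ ξ → HasCompactSupport ξ → tsupport ξ ⊆ ball c r → ∀ j,
      ∫ z, u z * (fderiv ℝ ξ z (Pi.single j 1) +
        Complex.I * fderiv ℝ ξ z (Pi.single j Complex.I)) = 0)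
    (ξ : Cn n → ℂ) (h1 : ContDiff ℝ ∞ ξ) (h2 : HasCompactSupport ξ) (h3 : tsupport ξ ⊆ ball c r)
    (j : Fin n) :
    ∫ z, (ball c r).indicator u z * (fderiv ℝ ξ z (Pi.single j 1) +
      Complex.I * fderiv ℝ ξ z (Pi.single j Complex.I)) = 0 := by
  rw [← H ξ h1 h2 h3 j]
  congr 1
  funext z
  by_cases hz : z ∈ ball c r
  · rw [indicator_of_mem hz]
  · have h4 : fderiv ℝ ξ z = 0 := by
      have : z ∉ tsupport (fderiv ℝ ξ) := fun h => hz (h3 (tsupport_fderiv_subset ℝ h))
      exact image_eq_zero_of_notMem_tsupport this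
    rw [h4]
    simp

/-- Translates and reflections of functions with small support. -/
private theorem WeylCn_test {n : ℕ} {c : Cn n} {r : ℝ} {z : Cn n} {t : ℝ}
    (hz : ‖z - c‖ + t⁻¹ < r) (G : Cn n → ℂ) (hG : ∀ w, t⁻¹ ≤ ‖w‖ → G w = 0) :
    HasCompactSupport (fun y => G (z - y)) ∧ tsupport (fun y => G (z - y)) ⊆ ball c r := by
  have h1 : Function.support (fun y => G (z - y)) ⊆ closedBall z t⁻¹ := by
    intro y hy
    by_contra hcon
    rw [mem_closedBall, dist_comm, dist_eq_norm, not_le] at hcon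
    exact hy (hG _ hcon.le)
  have h2 : tsupport (fun y => G (z - y)) ⊆ closedBall z t⁻¹ :=
    closure_minimal h1 isClosed_closedBall
  refine ⟨HasCompactSupport.of_support_subset_isCompact (isCompact_closedBall z t⁻¹) h1,
    h2.trans ?_⟩
  apply closedBall_subset_ball'
  rw [dist_eq_norm]
  linarith

private theorem WeylCn_fderiv_sub {n : ℕ} (G : Cn n → ℂ) (hG : Differentiable ℝ G) (z y v : Cn n) :
    fderiv ℝ (fun y => G (z - y)) y v = - fderiv ℝ G (z - y) v := by
  have h1 : HasFDerivAt (fun y : Cn n => z - y) (-(ContinuousLinearMap.id ℝ (Cn n))) y :=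
    (hasFDerivAt_id y).const_sub z
  have h2 := ((hG (z - y)).hasFDerivAt.comp y h1).fderiv
  have h3 : (fun y => G (z - y)) = G ∘ (fun y => z - y) := rfl
  rw [h3, h2]
  simp

/-- The equations for translates. -/
private theorem WeylCn_eq {n : ℕ} {c : Cn n} {r : ℝ} {u : Cn n → ℂ}
    (H : ∀ ξ : Cn n → ℂ, ContDiff ℝ ∞ ξ → HasCompactSupport ξ → tsupport ξ ⊆ ball c r → ∀ j,
      ∫ z, u z * (fderiv ℝ ξ z (Pi.single j 1) +
        Complex.I * fderiv ℝ ξ z (Pi.single j Complex.I)) = 0)
    {z : Cn n} {t : ℝ} (hz : ‖z - c‖ + t⁻¹ < r) (G : Cn n → ℂ) (hGs : ContDiff ℝ ∞ G)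
    (hG : ∀ w, t⁻¹ ≤ ‖w‖ → G w = 0) (j : Fin n) :
    ∫ y, (ball c r).indicator u y * (fderiv ℝ G (z - y) (Pi.single j 1) +
      Complex.I * fderiv ℝ G (z - y) (Pi.single j Complex.I)) = 0 := by
  obtain ⟨h1, h2⟩ := WeylCn_test hz G hG
  have h3 := WeylCn_zero H (fun y => G (z - y)) (hGs.comp (contDiff_const.sub contDiff_id)) h1 h2 j
  rw [← neg_eq_zero, ← integral_neg, ← h3]
  congr 1
  funext y
  rw [WeylCn_fderiv_sub G (hGs.differentiable (by simp)), WeylCn_fderiv_sub G
    (hGs.differentiable (by simp))]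
  ring

/-- The regularized functions. -/
private noncomputable def WeylCnU {n : ℕ} (u : Cn n → ℂ) (t : ℝ) (z : Cn n) : ℂ :=
  ∫ y, WeylCnK n t (z - y) • u y

private theorem WeylCnK_bound (n : ℕ) : ∃ B : ℝ, 0 ≤ B ∧ ∀ t : ℝ, 0 < t → ∀ w : Cn n,
    |WeylCnK n t w| ≤ t ^ (2 * n) * B ∧ |WeylCnD n t w| ≤ t ^ (2 * n) / t * B := by
  have hc1 : Continuous (fun s : ℝ => |WeylCnP s|) := WeylCnP_contDiff.continuous.abs
  have hc2 : Continuous (fun s : ℝ => |2 * n * WeylCnP s + 2 * s * deriv WeylCnP s|) :=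
    ((continuous_const.mul WeylCnP_contDiff.continuous).add
      ((continuous_const.mul continuous_id).mul WeylCnP_deriv_continuous)).abs
  obtain ⟨B1, hB1⟩ := (isCompact_Icc (a := (0 : ℝ)) (b := 1)).exists_bound_of_continuousOn
    hc1.continuousOn
  obtain ⟨B2, hB2⟩ := (isCompact_Icc (a := (0 : ℝ)) (b := 1)).exists_bound_of_continuousOn
    hc2.continuousOn
  have hB1' : ∀ s, 0 ≤ s → |WeylCnP s| ≤ max 0 (max B1 B2) := by
    intro s hs
    rcases le_total s 1 with h | h
    · have := hB1 s ⟨hs, h⟩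
      rw [Real.norm_eq_abs, abs_abs] at this
      exact this.trans ((le_max_left _ _).trans (le_max_right _ _))
    · rw [WeylCnP_zero h]; simp
  have hB2' : ∀ s, 0 ≤ s → |2 * n * WeylCnP s + 2 * s * deriv WeylCnP s| ≤ max 0 (max B1 B2) := by
    intro s hs
    rcases le_total s 1 with h | h
    · have := hB2 s ⟨hs, h⟩
      rw [Real.norm_eq_abs, abs_abs] at this
      exact this.trans ((le_max_right _ _).trans (le_max_right _ _))
    · rw [WeylCnP_zero h, WeylCnP_deriv_zero h]; simp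
  refine ⟨max 0 (max B1 B2), le_max_left _ _, fun t ht w => ?_⟩
  have hs : 0 ≤ t ^ 2 * nsq w := mul_nonneg (sq_nonneg t) (WeylCnN_nonneg w)
  constructor
  · unfold WeylCnK
    rw [abs_mul, abs_of_pos (by positivity)]
    gcongr
    exact hB1' _ hs
  · unfold WeylCnD
    rw [abs_mul, abs_of_pos (by positivity)]
    gcongr
    exact hB2' _ hs

private theorem WeylCnD_continuous (n : ℕ) (t : ℝ) : Continuous (WeylCnD n t) := by
  have h : Continuous (fun w : Cn n => t ^ 2 * nsq w) :=
    continuous_const.mul (WeylCnN_contDiff n).continuous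
  exact continuous_const.mul ((continuous_const.mul (WeylCnP_contDiff.continuous.comp h)).add
    ((continuous_const.mul h).mul (WeylCnP_deriv_continuous.comp h)))

private theorem WeylCn_integrable_mul {n : ℕ} {u : Cn n → ℂ} (hu : Integrable u) (z : Cn n)
    {g : Cn n → ℂ} (hg : Continuous g) {t : ℝ} (hg0 : ∀ w, t⁻¹ ≤ ‖w‖ → g w = 0) :
    Integrable (fun y => u y * g (z - y)) := by
  have h1 : HasCompactSupport g := by
    apply HasCompactSupport.of_support_subset_isCompact (isCompact_closedBall (0 : Cn n) t⁻¹)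
    intro y hy
    by_contra hcon
    rw [mem_closedBall, dist_zero_right, not_le] at hcon
    exact hy (hg0 _ hcon.le)
  obtain ⟨C, hC⟩ := hg.bounded_above_of_compact_support h1
  exact hu.mul_bdd (c := C) (hg.comp (continuous_const.sub continuous_id)).aestronglyMeasurable
    (Filter.Eventually.of_forall fun y => hC _)

private theorem WeylCn_fderiv_zero {n : ℕ} {G : Cn n → ℂ} {t : ℝ}
    (hG : ∀ w, t⁻¹ ≤ ‖w‖ → G w = 0) (w : Cn n) (hw : t⁻¹ < ‖w‖) :
    fderiv ℝ G w = 0 := by
  have h1 : G =ᶠ[𝓝 w] fun _ => 0 := by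
    have h2 : {w : Cn n | t⁻¹ < ‖w‖} ∈ 𝓝 w :=
      (isOpen_lt continuous_const continuous_norm).mem_nhds hw
    filter_upwards [h2] with y hy
    exact hG y (le_of_lt hy)
  rw [h1.fderiv_eq]
  simp

/-- The regularized functions do not depend on the parameter. -/
private theorem WeylCnU_hasDerivAt {n : ℕ} {c : Cn n} {r : ℝ} {u : Cn n → ℂ}
    (hu : Integrable ((ball c r).indicator u))
    (H : ∀ ξ : Cn n → ℂ, ContDiff ℝ ∞ ξ → HasCompactSupport ξ → tsupport ξ ⊆ ball c r → ∀ j,
      ∫ z, u z * (fderiv ℝ ξ z (Pi.single j 1) +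
        Complex.I * fderiv ℝ ξ z (Pi.single j Complex.I)) = 0)
    {z : Cn n} {t : ℝ} (ht : 0 < t) (hz : ‖z - c‖ + t⁻¹ < r) :
    HasDerivAt (fun t => WeylCnU ((ball c r).indicator u) t z) 0 t := by
  obtain ⟨B, hB0, hB⟩ := WeylCnK_bound n
  have hD : ∀ s ∈ ball t (t / 2), 0 < s ∧ s ≤ 2 * t ∧ s⁻¹ ≤ 2 * t⁻¹ := by
    intro s hs
    rw [mem_ball, Real.dist_eq, abs_lt] at hs
    have hs0 : 0 < s := by linarith [hs.1]
    refine ⟨hs0, by linarith [hs.2], ?_⟩
    rw [inv_le_iff_one_le_mul₀ hs0, mul_comm, ← mul_assoc]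
    rw [← div_eq_mul_inv, le_div_iff₀ ht]
    linarith [hs.1]
  have key := hasDerivAt_integral_of_dominated_loc_of_deriv_le (μ := (volume : Measure (Cn n)))
    (F := fun t y => WeylCnK n t (z - y) • (ball c r).indicator u y)
    (F' := fun t y => WeylCnD n t (z - y) • (ball c r).indicator u y)
    (x₀ := t) (s := ball t (t / 2))
    (bound := fun y => ((2 * t) ^ (2 * n) * (2 * t⁻¹) * B) * ‖(ball c r).indicator u y‖)
    (ball_mem_nhds t (by positivity)) ?_ ?_ ?_ ?_ ?_ ?_
  · refine key.2.congr_deriv ?_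
    have h2 : ∀ y, WeylCnD n t (z - y) • (ball c r).indicator u y =
        ((t ^ (2 * n) / t : ℝ) : ℂ) * ∑ j, (ball c r).indicator u y *
          (fderiv ℝ (WeylCnG t j : Cn n → ℂ) (z - y) (Pi.single j 1) +
          Complex.I * fderiv ℝ (WeylCnG t j : Cn n → ℂ) (z - y) (Pi.single j Complex.I)) := by
      intro y
      rw [Complex.real_smul, WeylCnD_eq, ← Finset.mul_sum]
      ring
    rw [integral_congr_ae (Filter.Eventually.of_forall h2), integral_const_mul,
      integral_finsetSum]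
    · rw [Finset.sum_eq_zero, mul_zero]
      intro j _
      apply WeylCn_eq H hz _ (WeylCnG_contDiff t j)
      intro w hw
      unfold WeylCnG
      rw [(WeylCnK_zero ht hw).1]
      simp
    · intro j _
      have hs : ContDiff ℝ ∞ (WeylCnG t j : Cn n → ℂ) := WeylCnG_contDiff t j
      apply WeylCn_integrable_mul hu z (g := fun w =>
        (fderiv ℝ (WeylCnG t j : Cn n → ℂ) w (Pi.single j 1) +
          Complex.I * fderiv ℝ (WeylCnG t j : Cn n → ℂ) w (Pi.single j Complex.I))) _ (t := t / 2)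
      · intro w hw
        have h0 : fderiv ℝ (WeylCnG t j : Cn n → ℂ) w = 0 := by
          apply WeylCn_fderiv_zero (t := t) _ w
          · refine lt_of_lt_of_le ?_ hw
            rw [inv_lt_inv₀ ht (by positivity)]
            linarith
          · intro w hw
            unfold WeylCnG
            rw [(WeylCnK_zero ht hw).1]
            simp
        rw [h0]; simp
      · have hf := hs.continuous_fderiv (by simp)
        exact (hf.clm_apply continuous_const).add (continuous_const.mul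
          (hf.clm_apply continuous_const))
  · filter_upwards with s
    exact ((WeylCnK_contDiff n s).continuous.comp
      (continuous_const.sub continuous_id)).aestronglyMeasurable.smul hu.aestronglyMeasurable
  · have h3 : Integrable (fun y => (ball c r).indicator u y *
        (fun w => ((WeylCnK n t w : ℝ) : ℂ)) (z - y)) := by
      apply WeylCn_integrable_mul hu z (g := fun w => ((WeylCnK n t w : ℝ) : ℂ)) _ (t := t)
      rotate_left
      · exact Complex.continuous_ofReal.comp (WeylCnK_contDiff n t).continuous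
      · intro w hw
        unfold WeylCnK
        rw [(WeylCnK_zero ht hw).1]
        simp
    refine h3.congr (Filter.Eventually.of_forall fun y => ?_)
    simp only [Complex.real_smul]
    ring
  · exact ((WeylCnD_continuous n t).comp
      (continuous_const.sub continuous_id)).aestronglyMeasurable.smul hu.aestronglyMeasurable
  · filter_upwards with y s hs
    obtain ⟨h1, h2, h3⟩ := hD s hs
    rw [norm_smul, Real.norm_eq_abs]
    have h4 := (hB s h1 (z - y)).2
    refine mul_le_mul_of_nonneg_right (h4.trans ?_) (norm_nonneg _)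
    rw [div_eq_mul_inv]
    gcongr
  · exact hu.norm.const_mul _
  · filter_upwards with y s hs
    exact (WeylCnK_hasDerivAt n (hD s hs).1 (z - y)).smul_const _

/-- Real differentiable functions which satisfy the Cauchy-Riemann equations at a point. -/
private theorem WeylCn_CR {n : ℕ} {f : Cn n → ℂ} {z : Cn n} {L : Cn n →L[ℝ] ℂ}
    (hf : HasFDerivAt f L z) (hL : ∀ j, L (Pi.single j 1) + Complex.I * L (Pi.single j Complex.I) = 0) :
    DifferentiableAt ℂ f z := by
  have hL' : ∀ j, L (Pi.single j Complex.I) = Complex.I * L (Pi.single j 1) := by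
    intro j
    have h := hL j
    have h2 : Complex.I * (L (Pi.single j 1) + Complex.I * L (Pi.single j Complex.I)) = 0 := by
      rw [h, mul_zero]
    have h3 : Complex.I * (Complex.I * L (Pi.single j Complex.I)) =
      - L (Pi.single j Complex.I) := by
      rw [← mul_assoc, Complex.I_mul_I]; ring
    rw [mul_add, h3] at h2
    linear_combination -h2
  let L' : Cn n →L[ℂ] ℂ := ∑ j, L (Pi.single j 1) • (ContinuousLinearMap.proj j : Cn n →L[ℂ] ℂ)
  refine (hasFDerivAt_of_restrictScalars (𝕜 := ℝ) (𝕜' := ℂ) (f' := L') hf ?_).differentiableAt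
  ext v
  have hv : v = ∑ j, ((v j).re • (Pi.single j (1 : ℂ) : Cn n) +
      (v j).im • (Pi.single j Complex.I : Cn n)) := by
    funext k
    rw [Finset.sum_apply, Finset.sum_eq_single k]
    · simp only [Pi.add_apply, Pi.smul_apply, Pi.single_eq_same, Complex.real_smul, mul_one]
      exact (Complex.re_add_im (v k)).symm
    · intro b _ hb
      simp [Pi.single_eq_of_ne' hb]
    · simp
  have h5 : L v = ∑ j, v j * L (Pi.single j 1) := by
    conv_lhs => rw [hv]
    rw [map_sum]
    apply Finset.sum_congr rfl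
    intro j _
    rw [map_add, map_smul, map_smul, hL', Complex.real_smul, Complex.real_smul]
    conv_rhs => rw [← Complex.re_add_im (v j)]
    ring
  rw [h5]
  simp [L', sum_apply, mul_comm]

private theorem WeylCnU_differentiableAt {n : ℕ} {c : Cn n} {r : ℝ} {u : Cn n → ℂ}
    (hu : Integrable ((ball c r).indicator u))
    (H : ∀ ξ : Cn n → ℂ, ContDiff ℝ ∞ ξ → HasCompactSupport ξ → tsupport ξ ⊆ ball c r → ∀ j,
      ∫ z, u z * (fderiv ℝ ξ z (Pi.single j 1) +
        Complex.I * fderiv ℝ ξ z (Pi.single j Complex.I)) = 0)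
    {z : Cn n} {t : ℝ} (ht : 0 < t) (hz : ‖z - c‖ + t⁻¹ < r) :
    DifferentiableAt ℂ (WeylCnU ((ball c r).indicator u) t) z := by
  set v : Cn n → ℂ := (ball c r).indicator u with hv
  have hKc : HasCompactSupport (WeylCnK n t) := by
    apply HasCompactSupport.of_support_subset_isCompact (isCompact_closedBall (0 : Cn n) t⁻¹)
    intro y hy
    by_contra hcon
    rw [mem_closedBall, dist_zero_right, not_le] at hcon
    apply hy
    unfold WeylCnK
    rw [(WeylCnK_zero ht hcon.le).1, mul_zero]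
  have hKd : ContDiff ℝ 1 (WeylCnK n t) := (WeylCnK_contDiff n t).of_le (by simp)
  have h1 : WeylCnU v t = MeasureTheory.convolution (WeylCnK n t) v
      (ContinuousLinearMap.lsmul ℝ ℝ) volume := by
    funext x
    rw [convolution_eq_swap]
    rfl
  have h2 := hKc.hasFDerivAt_convolution_left (ContinuousLinearMap.lsmul ℝ ℝ : ℝ →L[ℝ] ℂ →L[ℝ] ℂ)
    hKd hu.locallyIntegrable (μ := volume) z
  rw [← h1] at h2
  apply WeylCn_CR h2
  intro j
  have h3 : ∀ e : Cn n, (MeasureTheory.convolution (fderiv ℝ (WeylCnK n t)) v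
      ((ContinuousLinearMap.lsmul ℝ ℝ : ℝ →L[ℝ] ℂ →L[ℝ] ℂ).precompL (Cn n)) volume z) e =
      ∫ y, (fderiv ℝ (WeylCnK n t) (z - y) e) • v y := by
    intro e
    have hex : ConvolutionExistsAt (fderiv ℝ (WeylCnK n t)) v z
        ((ContinuousLinearMap.lsmul ℝ ℝ : ℝ →L[ℝ] ℂ →L[ℝ] ℂ).precompL (Cn n)) volume :=
      (hKc.fderiv ℝ).convolutionExists_left _ (hKd.continuous_fderiv (by simp))
        hu.locallyIntegrable z
    rw [convolution_eq_swap, ContinuousLinearMap.integral_apply]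
    · rfl
    · exact (convolutionExistsAt_iff_integrable_swap.1 hex)
  rw [h3, h3]
  have hG : ContDiff ℝ ∞ (fun w : Cn n => ((WeylCnK n t w : ℝ) : ℂ)) :=
    (Complex.ofRealCLM.contDiff).comp (WeylCnK_contDiff n t)
  have h4 := WeylCn_eq H hz (fun w : Cn n => ((WeylCnK n t w : ℝ) : ℂ)) hG (by
    intro w hw
    unfold WeylCnK
    rw [(WeylCnK_zero ht hw).1, mul_zero]; simp) j
  have h5 : ∀ w e, fderiv ℝ (fun w : Cn n => ((WeylCnK n t w : ℝ) : ℂ)) w e =
      ((fderiv ℝ (WeylCnK n t) w e : ℝ) : ℂ) := by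
    intro w e
    have h6 : HasFDerivAt (fun w : Cn n => ((WeylCnK n t w : ℝ) : ℂ))
        (Complex.ofRealCLM.comp (fderiv ℝ (WeylCnK n t) w)) w :=
      (Complex.ofRealCLM.hasFDerivAt).comp w
        (((WeylCnK_contDiff n t).differentiable (by simp)) w).hasFDerivAt
    rw [h6.fderiv]
    rfl
  have h7 : ∀ e : Cn n, Integrable (fun y => (fderiv ℝ (WeylCnK n t) (z - y) e) • v y) := by
    intro e
    have h8 : Integrable (fun y => v y *
        (fun w => fderiv ℝ (fun w : Cn n => ((WeylCnK n t w : ℝ) : ℂ)) w e) (z - y)) := by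
      apply WeylCn_integrable_mul hu z
        (g := fun w => fderiv ℝ (fun w : Cn n => ((WeylCnK n t w : ℝ) : ℂ)) w e) _ (t := t / 2)
      · intro w hw
        have h0 : fderiv ℝ (fun w : Cn n => ((WeylCnK n t w : ℝ) : ℂ)) w = 0 := by
          apply WeylCn_fderiv_zero (t := t) _ w
          · refine lt_of_lt_of_le ?_ hw
            rw [inv_lt_inv₀ ht (by positivity)]
            linarith
          · intro w hw
            unfold WeylCnK
            rw [(WeylCnK_zero ht hw).1]
            simp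
        rw [h0]; simp
      · exact (hG.continuous_fderiv (by simp)).clm_apply continuous_const
    refine h8.congr (Filter.Eventually.of_forall fun y => ?_)
    simp only [h5, Complex.real_smul]
    ring
  rw [← h4, ← integral_const_mul, ← integral_add (h7 _) ((h7 _).const_mul _)]
  congr 1
  funext y
  rw [h5, h5, Complex.real_smul, Complex.real_smul]
  ring

private theorem WeylCnP_int_pos (n : ℕ) : 0 < ∫ w : Cn n, WeylCnP (nsq w) := by
  apply Continuous.integral_pos_of_hasCompactSupport_nonneg_nonzero (x := 0)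
  · exact WeylCnP_contDiff.continuous.comp (WeylCnN_contDiff n).continuous
  · apply HasCompactSupport.of_support_subset_isCompact (isCompact_closedBall (0 : Cn n) 1)
    intro y hy
    by_contra hcon
    rw [mem_closedBall, dist_zero_right, not_le] at hcon
    apply hy
    apply WeylCnP_zero
    have := WeylCnN_norm y
    nlinarith
  · intro w
    exact WeylCnP_nonneg _
  · apply ne_of_gt
    apply WeylCnP_pos
    simp [nsq]

private theorem WeylCn_finrank (n : ℕ) : Module.finrank ℝ (Cn n) = 2 * n := by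
  rw [Module.finrank_pi_fintype]
  simp [Complex.finrank_real_complex, mul_comm]

private theorem WeylCnK_integral (n : ℕ) {t : ℝ} (ht : 0 < t) (z : Cn n) :
    ∫ y, WeylCnK n t (z - y) = ∫ w : Cn n, WeylCnP (nsq w) := by
  rw [integral_sub_left_eq_self (fun y => WeylCnK n t y) volume z]
  have h1 : ∀ w : Cn n, WeylCnK n t w = t ^ (2 * n) * (fun w : Cn n => WeylCnP (nsq w)) (t • w) := by
    intro w
    unfold WeylCnK
    congr 2
    unfold nsq
    rw [Finset.mul_sum]
    apply Finset.sum_congr rfl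
    intro j _
    rw [Pi.smul_apply, norm_smul, mul_pow, Real.norm_eq_abs, sq_abs]
  rw [integral_congr_ae (Filter.Eventually.of_forall h1), integral_const_mul,
    Measure.integral_comp_smul volume (fun w : Cn n => WeylCnP (nsq w)) t, WeylCn_finrank,
    abs_of_pos (by positivity), smul_eq_mul, ← mul_assoc, mul_inv_cancel₀ (by positivity), one_mul]

private theorem WeylCnU_tendsto {n : ℕ} {v : Cn n → ℂ} (hv : Integrable v) :
    ∀ᵐ z, Tendsto (fun t : ℝ => (∫ w : Cn n, WeylCnP (nsq w))⁻¹ • WeylCnU v t z) atTop (𝓝 (v z)) := by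
  obtain ⟨B, hB0, hB⟩ := WeylCnK_bound n
  filter_upwards [IsUnifLocDoublingMeasure.ae_tendsto_average_norm_sub (volume : Measure (Cn n))
    hv.locallyIntegrable 1] with z hz
  set C := ∫ w : Cn n, WeylCnP (nsq w) with hC
  have hCpos : 0 < C := WeylCnP_int_pos n
  have h1 := hz (fun _ : ℝ => z) (fun t : ℝ => t⁻¹) (l := atTop) tendsto_inv_atTop_nhdsGT_zero (by
    filter_upwards [eventually_gt_atTop 0] with t ht
    rw [one_mul]
    exact mem_closedBall_self (by positivity))
  have h2 := tendsto_integral_smul_of_tendsto_average_norm_sub (μ := (volume : Measure (Cn n)))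
    (g := fun t y => C⁻¹ * WeylCnK n t (z - y))
    (C⁻¹ * B * (volume : Measure (Cn n)).real (ball 0 1)) h1
    (Filter.Eventually.of_forall fun t => hv.integrableOn) ?_ ?_ ?_
  · refine h2.congr fun t => ?_
    unfold WeylCnU
    rw [← integral_smul]
    congr 1
    funext y
    rw [mul_smul]
  · apply tendsto_const_nhds.congr'
    filter_upwards [eventually_gt_atTop 0] with t ht
    rw [integral_const_mul, WeylCnK_integral n ht z, ← hC, inv_mul_cancel₀ hCpos.ne']
  · filter_upwards [eventually_gt_atTop 0] with t ht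
    intro y hy
    by_contra hcon
    rw [mem_closedBall, dist_comm, dist_eq_norm, not_le] at hcon
    apply hy
    simp only
    unfold WeylCnK
    rw [(WeylCnK_zero ht hcon.le).1]
    simp
  · filter_upwards [eventually_gt_atTop 0] with t ht
    intro y
    rw [measureReal_def, measureReal_def, Measure.addHaar_closedBall volume z (by positivity :
      (0 : ℝ) ≤ t⁻¹), ENNReal.toReal_mul, WeylCn_finrank, ENNReal.toReal_ofReal (by positivity),
      mul_div_mul_right, abs_mul, abs_of_pos (by positivity : (0 : ℝ) < C⁻¹), mul_div_assoc]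
    · gcongr
      refine (hB t ht (z - y)).1.trans (le_of_eq ?_)
      rw [inv_pow, div_inv_eq_mul]
      ring
    · have := (measure_ball_pos (volume : Measure (Cn n)) 0 one_pos)
      exact (ENNReal.toReal_pos this.ne' measure_ball_lt_top.ne).ne'

theorem s_WeylCn : S_WeylCn := by
  intro n c r hr u hu H
  have hv : Integrable ((ball c r).indicator u) := hu.integrable_indicator measurableSet_ball
  set v : Cn n → ℂ := (ball c r).indicator u with hvdef
  set C := ∫ w : Cn n, WeylCnP (nsq w) with hC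
  -- the regularizations agree
  have hconst : ∀ z : Cn n, ∀ s t : ℝ, 0 < s → 0 < t → ‖z - c‖ + s⁻¹ < r → ‖z - c‖ + t⁻¹ < r →
      WeylCnU v s z = WeylCnU v t z := by
    intro z s t hs0 ht0 hs ht
    have hrz : 0 < r - ‖z - c‖ := by have := inv_pos.mpr hs0; linarith
    have hmem : ∀ t : ℝ, 0 < t → (‖z - c‖ + t⁻¹ < r ↔ t ∈ Ioi ((r - ‖z - c‖)⁻¹)) := by
      intro t ht
      rw [mem_Ioi, inv_lt_comm₀ hrz ht]
      constructor <;> intro h <;> linarith
    have hder : ∀ t ∈ Ioi ((r - ‖z - c‖)⁻¹), HasDerivAt (fun t => WeylCnU v t z) 0 t := by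
      intro t ht
      have ht0 : 0 < t := lt_trans (inv_pos.mpr hrz) ht
      exact WeylCnU_hasDerivAt hv H ht0 ((hmem t ht0).mpr ht)
    apply isOpen_Ioi.is_const_of_deriv_eq_zero isPreconnected_Ioi
      (fun t ht => (hder t ht).differentiableAt.differentiableWithinAt)
      (fun t ht => (hder t ht).deriv) ((hmem s hs0).mp hs) ((hmem t ht0).mp ht)
  refine ⟨fun z => C⁻¹ • WeylCnU v (2 / (r - ‖z - c‖)) z, ?_, ?_⟩
  · intro z hz
    rw [mem_ball, dist_eq_norm] at hz
    have hrz : 0 < r - ‖z - c‖ := by linarith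
    apply DifferentiableAt.differentiableWithinAt
    have h1 : (fun z => C⁻¹ • WeylCnU v (2 / (r - ‖z - c‖)) z) =ᶠ[𝓝 z]
        fun y => C⁻¹ • WeylCnU v (2 / (r - ‖z - c‖)) y := by
      have h2 : {y : Cn n | ‖y - c‖ < (r + ‖z - c‖) / 2} ∈ 𝓝 z := by
        apply (isOpen_lt ((continuous_id.sub continuous_const).norm) continuous_const).mem_nhds
        show ‖z - c‖ < (r + ‖z - c‖) / 2
        linarith
      filter_upwards [h2] with y hy
      have hry : 0 < r - ‖y - c‖ := by linarith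
      congr 1
      apply hconst y _ _ (by positivity) (by positivity)
      · rw [inv_div]; linarith
      · rw [inv_div]; linarith
    rw [h1.differentiableAt_iff]
    have h3 : ‖z - c‖ + (2 / (r - ‖z - c‖))⁻¹ < r := by rw [inv_div]; linarith
    exact (WeylCnU_differentiableAt hv H (by positivity) h3).const_smul (C⁻¹ : ℝ)
  · rw [ae_restrict_iff' measurableSet_ball]
    filter_upwards [WeylCnU_tendsto hv] with z hz hzb
    have hzb' := hzb
    rw [mem_ball, dist_eq_norm] at hzb
    have hrz : 0 < r - ‖z - c‖ := by linarith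
    have h1 : v z = u z := indicator_of_mem hzb' u
    rw [← h1]
    refine tendsto_nhds_unique hz (tendsto_const_nhds.congr' ?_)
    filter_upwards [eventually_gt_atTop (2 / (r - ‖z - c‖))] with t ht
    have ht0 : 0 < t := lt_trans (by positivity) ht
    congr 1
    apply hconst z _ _ (by positivity) ht0
    · rw [inv_div]; linarith
    · have : t⁻¹ < (2 / (r - ‖z - c‖))⁻¹ := (inv_lt_inv₀ ht0 (by positivity)).mpr ht
      rw [inv_div] at this
      linarith

end Pool.Agent.Lib.MP_55bc5f_an
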